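import Mathlib
import Pool.Agent.Work.MP_8efaaa_nt.W6.Defs
import Pool.Agent.Work.MP_8efaaa_nt.W6.DDefs
import Pool.Agent.Work.MP_8efaaa_nt.W14.Defs
import Pool.Agent.Work.MP_8efaaa_nt.W6.LFd

/-!
# Definitions of the block Q7 (fixed file)

Congruent numbers `2 p q`, `p = 1 (mod 8)`, `q = 7 (mod 8)`. `m = p q = 2 v0^2 - u0^2`.
-/

set_option autoImplicit false

namespace Pool.Agent.Work.MP_8efaaa_nt.Q7

open NumberField Pool.Agent.Work.MP_8efaaa_nt.R Pool.Agent.Work.MP_8efaaa_nt.N5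
  Pool.Agent.Work.MP_8efaaa_nt.K6 Pool.Agent.Work.MP_8efaaa_nt.W14
  Pool.Agent.Work.MP_8efaaa_nt.W6
open scoped Classical nonZeroDivisors

noncomputable section

/-! ### the signs of the Frobenius elements on a square root of `u + v √2` -/

/-- the sign at the prime `l` -/
def nuR (u v : ℤ) (l : ℕ) (t : ℤ) : ℤ :=
  if l % 8 = 1 ∨ l % 8 = 7 then
    (if ((l : ℤ√2) ∣ (⟨u, v⟩ : ℤ√2) ^ ((l - 1) / 2) - 1) then 1 else -1)
  else
    (if ((l : ℤ√2) ∣ (⟨u, v⟩ : ℤ√2) ^ ((l + 1) / 2) * ⟨0, 1⟩ - (t : ℤ√2)) then 1 else -1)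

/-- the sign at the squarefree number `N` -/
def nu7 (u v : ℤ) (N : ℕ) (t : ℤ) : ℤ :=
  (∏ l ∈ N.primeFactors, nuR u v l t) *
    (-1) ^ (((N.primeFactors.filter fun l => l % 8 = 3 ∨ l % 8 = 5).card).choose 2)

/-- The law of the signs with which the Frobenius elements act on a square root of
`u + v √2`, `u^2 - 2 v^2 = -m`. -/
structure Law7 (m : ℕ) (u v : ℤ) (nu : ℕ → ℤ → ℤ) : Prop where
  nrm : 2 * v ^ 2 - u ^ 2 = m
  one : ∀ t, nu 1 t = 1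
  cong : ∀ (N : ℕ) (t t' : ℤ), t ≡ t' [ZMOD N] → nu N t = nu N t'
  pm : ∀ (N : ℕ) (t : ℤ), nu N t = 1 ∨ nu N t = -1
  mul : ∀ (N N' : ℕ) (t : ℤ), Odd N → Odd N' → Squarefree N → Squarefree N' → N.Coprime N' →
    nu (N * N') t = nu N t * nu N' t *
      (if (N % 8 = 3 ∨ N % 8 = 5) ∧ (N' % 8 = 3 ∨ N' % 8 = 5) then -1 else 1)
  frob1 : ∀ (l : ℕ) (t : ℤ), l.Prime → (l % 8 = 1 ∨ l % 8 = 7) → ¬ l ∣ m →
    (l : ℤ) ∣ t ^ 2 + 2 * m →
    ∀ (k : Type) [Field k] [CharP k l] (g : ℤ√2 →+* k),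
      g ⟨u, v⟩ ^ ((l - 1) / 2) = (nu l t : k)
  frob5 : ∀ (l : ℕ) (t : ℤ), l.Prime → (l % 8 = 3 ∨ l % 8 = 5) → ¬ l ∣ m →
    (l : ℤ) ∣ t ^ 2 + 2 * m →
    ∀ (k : Type) [Field k] [CharP k l] (g : ℤ√2 →+* k),
      g ⟨u, v⟩ ^ ((l + 1) / 2) * g ⟨0, 1⟩ = (nu l t : k) * (t : k)

/-! ### the exact data -/

/-- The complex data: `θ = √2 > 0`, `e = √(u0 + v0 θ)` real, `e e1 θ = s`. -/
structure CX7 (K F : Type*) [Field K] [NumberField K] [Algebra K ℂ] [Field F] [Algebra F ℂ]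
    [Algebra K F] (a : ℕ) (s : K) (u0 v0 : ℤ) (ζ : F) (w : ℕ → F) (z k v : Ideal (𝓞 K) → F)
    (ξ θ e e1 : F) : Prop where
  c6 : C6 K F a s ζ w z k v
  x16 : ξ ^ 2 = ζ
  th : algebraMap F ℂ θ = ((Real.sqrt 2 : ℝ) : ℂ)
  er : (starRingEnd ℂ) (algebraMap F ℂ e) = algebraMap F ℂ e
  sq : e ^ 2 = (u0 : F) + (v0 : F) * θ
  sq1 : e1 ^ 2 = (u0 : F) - (v0 : F) * θ
  ee : e * e1 * θ = algebraMap K F s

/-- The Galois data `UD6` with the exact quarter turn, a root of unity `ξ` of order `16`,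
`θ = √2` the number of the Fricke involution, `e = √(u0 + v0 θ)`, `e1 = √(u0 - v0 θ)`, and the
action of the automorphisms by primitive ideals. -/
structure XD7 (K F : Type*) [Field K] [NumberField K] [Field F] [NumberField F] [Algebra K F]
    (a : ℕ) (s : K) (S : 𝓞 K) (τ : 𝓞 K ≃+* 𝓞 K) (ζ : F) (w : ℕ → F) (z k v : Ideal (𝓞 K) → F)
    (κ : F ≃ₐ[ℚ] F) (u0 v0 : ℤ) (nu : ℕ → ℤ → ℤ) (ξ θ e e1 : F) : Prop where
  ud : UD6 K F a s S τ ζ w z k v κ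
  x16 : ξ ^ 2 = ζ
  kx : κ ξ = ξ ^ 15
  th : θ ^ 2 = 2
  rr : rr a S z v 1 = θ
  kth : κ θ = θ
  sq : e ^ 2 = (u0 : F) + (v0 : F) * θ
  sq1 : e1 ^ 2 = (u0 : F) - (v0 : F) * θ
  ke : κ e = e
  ke1 : κ e1 = -e1
  ee : e * e1 * θ = algebraMap K F s
  /-- the exact quarter turn -/
  trx : ∀ (x y : ℤ) (δ : 𝓞 K), Odd x → Odd y → algebraMap (𝓞 K) K δ = x + y * s →
    ∀ c, OddI c → (v (Ideal.span {δ} * c) * v c) ^ 2 = -1 ∧
      z (Ideal.span {δ} * c) * (1 - v (Ideal.span {δ} * c) * v c * k c) =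
        (e8 x : ℤ) * ((1 - v (Ideal.span {δ} * c) * v c) * (v c * z c))
  /-- every automorphism over `K` acts by a primitive ideal `b` (`S - t ∈ b`) prime to `M` -/
  act4 : ∀ (σ : F ≃ₐ[K] F) (M : ℕ), M ≠ 0 → ∃ (b : Ideal (𝓞 K)) (t : ℤ), OddI b ∧
    Nat.Coprime (Ideal.absNorm b) M ∧ Squarefree (Ideal.absNorm b) ∧ S - (t : 𝓞 K) ∈ b ∧
    MA6 a ζ w z k v σ b ∧ σ ξ = ξ ^ Ideal.absNorm b ∧
    ((Ideal.absNorm b % 8 = 1 ∨ Ideal.absNorm b % 8 = 7) →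
      σ e = (nu (Ideal.absNorm b) t : F) * e) ∧
    ((Ideal.absNorm b % 8 = 3 ∨ Ideal.absNorm b % 8 = 5) →
      σ e = (nu (Ideal.absNorm b) t : F) * e1)

/-! ### abstract data -/

/-- Abstract exact data: `M` the ideals of norm `1` or `3` modulo `8`, `C` the class group, `G` its
quotient by `t`, `H` the classes of norm `1`, `A` the group of the points, `ez`, `em`, `ep` the
points of order `2`. -/
structure AE {M A G C : Type*} [CommMonoid M] [AddCommGroup A] [CommGroup G] [CommGroup C]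
    (H : Subgroup G) (P : M → A) (cl : M →* G) (cc : M →* C) (t : C) (bar : M → M)
    (ez em ep : A) : Prop where
  idx : H.index = 2
  surj : Function.Surjective cl
  t1 : t ≠ 1
  t2 : t * t = 1
  fib : ∀ b c, cl b = cl c ↔ cc b = cc c ∨ cc b = t * cc c
  z2 : ez + ez = 0
  m2 : em + em = 0
  zm : ez + em = ep
  kk : ∀ b c, cl b = cl c → ∃ ε : A, (4 : ℤ) • ε = 0 ∧ (cc b = cc c → ε + ε = 0) ∧
    ∀ x, P (b * x) = P (c * x) + ε + (if cc b = cc c ∨ cl (c * x) ∈ H then 0 else ep)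
  clb : ∀ c, cl (bar c) = (cl c)⁻¹
  ccb : ∀ c, cc (bar c) = (cc c)⁻¹
  nrm : ∀ c x, P (c * bar c * x) = P x + (if cl c ∈ H then 0 else ez)

/-! ### the class of an ideal of norm `1` or `3` modulo `8` -/

section classes

variable {K : Type*} [Field K] [NumberField K]

variable (K) in
/-- the class in the class group of an ideal of norm `1` or `3` modulo `8` -/
def ccM : M13 K →* ClassGroup (𝓞 K) where
  toFun c := cls (c : Ideal (𝓞 K))
  map_one' := cls_one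
  map_mul' b c := cls_mul (M13.ne b.2) (M13.ne c.2)

end classes

/-! ### the points of the local lemma -/

section points

variable {F : Type*} [Field F] [CharZero F]

/-- the point `(-1 + r, e (-1 + r))`, `r^2 = 2`, `e^2 = -2`; its double is `(-1, 0)` -/
def TM {r e : F} (hr : r ^ 2 = 2) (he : e ^ 2 = -2) : (cQ F).Point :=
  pt (-1 + r) (e * (-1 + r)) (sq_D0 hr he)

end points

end

end Pool.Agent.Work.MP_8efaaa_nt.Q7
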