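import Mathlib
import Pool.Agent.Work.MP_8efaaa_nt.Q7.Defs
import Pool.Agent.Work.MP_8efaaa_nt.W6.SX
import Pool.Agent.Work.MP_8efaaa_nt.Z6.Ar2

/-!
# Q7/Ar1 (M): a reciprocity of Redei type

Checked by computer. MODEL: `Z6/Ar2.lean` (`redei`; copy the private lemmas and adapt). `2 v^2 - u^2 = p q = 7 (mod 8)`: `u` is odd, `v` is even. `y` is even: `x^2 + 2 p q y^2 = p M^2`, `x`, `M` odd, `p = 1 (mod 8)`: `14 y^2 = 0 (mod 8)`. `ω = ⟨x, 2 v y⟩` (`re` odd, `im` even), `X` from `W6.exists_qx`, `nω = nmG ω = x^2 + 4 v^2 y^2 > 0`, `nω = 1 (mod 8)`.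
(1) `p M^2 + 2 u^2 y^2 = nω`, so `X (p * M^2) = X (-1 * (2 * (u^2 * y^2)))` (`per`): `X p * X (M^2) = X (-1) * X 2 * X (u^2) * X (y^2)`.
(2) `X p = 1`: as in the model (`p ∤ v`: otherwise `p ∣ u`, `p^2 ∣ p q`, `q ≠ p`; `p ∤ y`).
(3) `X (-1) = (-1)^|v y| = 1`, `X 2 = ipw (x * (v y)) = 1` (`4 ∣ v y`). `M`, `u`, `y` are prime to `nω` (as in the model; `M` is prime to `y`: a common prime `r` divides `x^2`). By `QX.sq`: `(M/nω) = (u/nω) (y/nω)`.
(4) `(y/nω) = 1` (as in the model; `y ≠ 0`: if `y = 0` then `x = ±1` and `p ∣ x`, impossible). `(M/nω) = (nω/M) = (2 u^2 y^2/M) = (2/M)`. `(u/nω) = (nω/|u|) = (p M^2/|u|) = (p/|u|) = (|u|/p) = (u/p)`. So `(2/M) = (u/p)`.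
-/

set_option autoImplicit false

namespace Pool.Agent.Work.MP_8efaaa_nt.Q7

open Pool.Agent.Work.MP_8efaaa_nt.W6

/-- a fourth root of unity of the Gaussian integers which reduces to `1` modulo `p` is `1` -/
private theorem ar1_sep {p : ℕ} [Fact p.Prime] (hp : p % 8 = 1) (g : GaussianInt →+* ZMod p)
    {z : GaussianInt} (hz : z ^ 4 = 1) (hg : g z = 1) : z = 1 := by
  have h2 : (2 : ZMod p) ≠ 0 := by
    intro h0
    have h1 : ((2 : ℕ) : ZMod p) = 0 := by exact_mod_cast h0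
    rw [ZMod.natCast_eq_zero_iff] at h1
    have := Nat.le_of_dvd (by norm_num) h1
    have := (Fact.out : p.Prime).two_le
    omega
  have h1 : (z - 1) * ((z + 1) * (z ^ 2 + 1)) = 0 := by linear_combination hz
  rcases mul_eq_zero.1 h1 with h3 | h3
  · exact sub_eq_zero.1 h3
  · exfalso
    rcases mul_eq_zero.1 h3 with h4 | h4
    · have h5 := congrArg g h4
      rw [map_add, hg, map_one, map_zero] at h5
      exact h2 (by linear_combination h5)
    · have h5 := congrArg g h4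
      rw [map_add, map_pow, hg, map_one, map_zero] at h5
      exact h2 (by linear_combination h5)

/-- the quartic symbol of `p` -/
private theorem ar1_xp {p : ℕ} (hp : p.Prime) (hp8 : p % 8 = 1) {v x y : ℤ}
    {X : ℤ → GaussianInt} (hX : QX ⟨x, 2 * v * y⟩ X) (hpx : (p : ℤ) ∣ x)
    (hv : ¬ (p : ℤ) ∣ v) (hy : ¬ (p : ℤ) ∣ y) : X p = 1 := by
  have hF : Fact p.Prime := ⟨hp⟩
  have hpz : Prime (p : ℤ) := Nat.prime_iff_prime_int.1 hp
  have hnm : nmG (⟨x, 2 * v * y⟩ : GaussianInt) = x ^ 2 + (2 * v * y) ^ 2 := rfl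
  have h2p : ¬ (p : ℤ) ∣ 2 := by
    intro h0
    have := Int.le_of_dvd (by norm_num) h0
    have := hp.two_le
    omega
  have hw : ¬ (p : ℤ) ∣ 2 * v * y := by
    intro h0
    rcases hpz.dvd_or_dvd h0 with h1 | h1
    · rcases hpz.dvd_or_dvd h1 with h2 | h2
      · exact h2p h2
      · exact hv h2
    · exact hy h1
  have hW : ¬ (p : ℤ) ∣ nmG (⟨x, 2 * v * y⟩ : GaussianInt) := by
    rw [hnm]
    intro h0
    have h1 : (p : ℤ) ∣ (2 * v * y) ^ 2 := by
      have h2 : (p : ℤ) ∣ x ^ 2 := by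
        rw [pow_two]
        exact hpx.mul_right _
      exact (Int.dvd_add_right h2).1 h0
    exact hw (hpz.dvd_of_dvd_pow h1)
  obtain ⟨j, hj⟩ : ∃ j : ZMod p, j ^ 2 = -1 := by
    have h1 : IsSquare (-1 : ZMod p) := by
      rw [ZMod.exists_sq_eq_neg_one_iff]
      omega
    obtain ⟨j, hj⟩ := h1
    exact ⟨j, by rw [hj, pow_two]⟩
  have hjj : j * j = ((-1 : ℤ) : ZMod p) := by
    push_cast
    rw [← pow_two, hj]
  let g : GaussianInt →+* ZMod p := Zsqrtd.lift ⟨j, hjj⟩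
  have hx0 : (x : ZMod p) = 0 := (ZMod.intCast_zmod_eq_zero_iff_dvd x p).2 hpx
  have hw0 : ((2 * v * y : ℤ) : ZMod p) ≠ 0 := fun h0 =>
    hw ((ZMod.intCast_zmod_eq_zero_iff_dvd _ p).1 h0)
  have hgw : g ⟨x, 2 * v * y⟩ = ((2 * v * y : ℤ) : ZMod p) * j := by
    show (x : ZMod p) + ((2 * v * y : ℤ) : ZMod p) * j = _
    rw [hx0, zero_add]
  have h1 := hX.f1 p hp (by omega) hW (ZMod p) g
  have hnz : ((nmG (⟨x, 2 * v * y⟩ : GaussianInt) : ℤ) : ZMod p) = ((2 * v * y : ℤ) : ZMod p) ^ 2 := by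
    rw [hnm, Int.cast_add, Int.cast_pow, hx0, Int.cast_pow]
    ring
  obtain ⟨e, he⟩ : ∃ e : ℕ, p = 8 * e + 1 := ⟨p / 8, by omega⟩
  have e1 : (p - 1) / 2 = 4 * e := by omega
  have e2 : (p - 1) / 4 = 2 * e := by omega
  have e3 : p - 1 = 8 * e := by omega
  have hf := ZMod.pow_card_sub_one_eq_one hw0
  rw [e3] at hf
  have hj4 : j ^ 4 = 1 := by
    linear_combination (j ^ 2 - 1) * hj
  rw [hgw, hnz, e1, e2, mul_pow, pow_mul j, hj4, one_pow, mul_one, ← pow_mul, ← pow_add] at h1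
  have e4 : 4 * e + 2 * (2 * e) = 8 * e := by ring
  rw [e4, hf, one_mul] at h1
  refine ar1_sep hp8 g (hX.four _ ?_) h1
  exact (Nat.prime_iff_prime_int.1 hp).irreducible.coprime_iff_not_dvd.2 hW

private theorem ar1_par {u v : ℤ} {m : ℤ} (hm : m % 8 = 7) (h : 2 * v ^ 2 - u ^ 2 = m) :
    Odd u ∧ Even v := by
  have hu : Odd u := by
    by_contra hne
    rw [Int.not_odd_iff_even] at hne
    obtain ⟨k, hk⟩ := hne
    obtain ⟨w, hw⟩ : ∃ w, m = 2 * w := ⟨v ^ 2 - 2 * k ^ 2, by rw [← h, hk]; ring⟩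
    omega
  refine ⟨hu, ?_⟩
  by_contra hne
  rw [Int.not_even_iff_odd] at hne
  obtain ⟨k, hk⟩ := hu
  obtain ⟨j, hj⟩ := hne
  obtain ⟨l, hl⟩ := Int.even_mul_succ_self k
  obtain ⟨w, hw⟩ : ∃ w, m = 8 * w + 1 := ⟨j ^ 2 + j - l, by
    rw [← h, hk, hj]
    linear_combination -4 * hl⟩
  omega

private theorem ar1_sq {x : ℤ} (hx : Odd x) : ∃ c, x ^ 2 = 8 * c + 1 := by
  obtain ⟨a, ha⟩ := hx
  obtain ⟨c, hc⟩ := Int.even_mul_succ_self a
  exact ⟨c, by rw [ha]; linear_combination 4 * hc⟩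

theorem redei7 {p q M : ℕ} (hp : p.Prime) (hq : q.Prime) (hp8 : p % 8 = 1) (hq8 : q % 8 = 7)
    {u v x y : ℤ} (huv : 2 * v ^ 2 - u ^ 2 = p * q)
    (h : x ^ 2 + 2 * (p * q) * y ^ 2 = p * M ^ 2) (hpx : (p : ℤ) ∣ x) (hxy : IsCoprime x y)
    (hx : Odd x) (hM : Odd M) (hc : IsCoprime (M : ℤ) (u * (p * q))) :
    jacobiSym 2 M = jacobiSym u p := by
  obtain ⟨X, hX⟩ := exists_qx (ω := ⟨x, 2 * v * y⟩) hx (by
    show Even (2 * v * y)
    exact ⟨v * y, by ring⟩)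
  have hpz : Prime (p : ℤ) := Nat.prime_iff_prime_int.1 hp
  -- parity of `u`
  have hm8 : ((p : ℤ) * q) % 8 = 7 := by
    rw [Int.mul_emod]
    have h1 : (p : ℤ) % 8 = 1 := by omega
    have h2 : (q : ℤ) % 8 = 7 := by omega
    rw [h1, h2]
    norm_num
  obtain ⟨huo, hve⟩ := ar1_par hm8 huv
  have hye : Even y := by
    by_contra hne
    rw [Int.not_even_iff_odd] at hne
    obtain ⟨c1, hc1⟩ := ar1_sq hx
    obtain ⟨c2, hc2⟩ := ar1_sq hne
    obtain ⟨c3, hc3⟩ := ar1_sq (x := (M : ℤ)) (by exact_mod_cast hM)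
    obtain ⟨c4, hc4⟩ : ∃ c, (p : ℤ) = 8 * c + 1 := ⟨(p : ℤ) / 8, by omega⟩
    obtain ⟨c5, hc5⟩ : ∃ c, (p : ℤ) * q = 8 * c + 7 := ⟨((p : ℤ) * q) / 8, by omega⟩
    rw [hc1, hc2, hc3, hc5, hc4] at h
    have h1 : 8 * (c1 + 2 * (8 * c5 + 7) * c2 + 2 * c5 + 1) + 7 = 8 * (8 * c4 * c3 + c4 + c3) + 1 := by
      linear_combination h
    omega
  -- divisibility by `p`
  have hpy : ¬ (p : ℤ) ∣ y := by
    intro h0
    exact hpz.not_isUnit (hxy.isUnit_of_dvd' hpx h0)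
  have hpuv : ∀ _ : (p : ℤ) ∣ u, (p : ℤ) ∣ v → False := by
    rintro ⟨a, ha⟩ ⟨b, hb⟩
    have h1 : (p : ℤ) * q = p * (p * (2 * b ^ 2 - a ^ 2)) := by
      rw [← huv, ha, hb]
      ring
    have h2 := mul_left_cancel₀ hpz.ne_zero h1
    have h3 : (p : ℤ) ∣ (q : ℤ) := ⟨_, h2⟩
    have h4 : p ∣ q := by exact_mod_cast h3
    rw [Nat.prime_dvd_prime_iff_eq hp hq] at h4
    omega
  have h2p : ¬ (p : ℤ) ∣ 2 := by
    intro h0
    have := Int.le_of_dvd (by norm_num) h0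
    have := hp.two_le
    omega
  have hpv : ¬ (p : ℤ) ∣ v := by
    intro h0
    refine hpuv ?_ h0
    have h1 : (p : ℤ) ∣ u ^ 2 := by
      have h2 : u ^ 2 = v * (2 * v) - p * q := by
        rw [← huv]
        ring
      rw [h2]
      exact dvd_sub (h0.mul_right _) (dvd_mul_right _ _)
    exact hpz.dvd_of_dvd_pow h1
  have hpu : ¬ (p : ℤ) ∣ u := by
    intro h0
    refine hpuv h0 ?_
    have h1 : (p : ℤ) ∣ 2 * v ^ 2 := by
      have h2 : 2 * v ^ 2 = p * q + u * u := by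
        rw [← huv]
        ring
      rw [h2]
      exact dvd_add (dvd_mul_right _ _) (h0.mul_right _)
    rcases hpz.dvd_or_dvd h1 with h2 | h2
    · exact absurd h2 h2p
    · exact hpz.dvd_of_dvd_pow h2
  have hXp : X p = 1 := ar1_xp hp hp8 hX hpx hpv hpy
  obtain ⟨W0, hW0⟩ : ∃ W0, W0 = nmG ⟨x, 2 * v * y⟩ := ⟨_, rfl⟩
  have hW0' : W0 = x ^ 2 + (2 * v * y) ^ 2 := hW0
  have hNn : W0 = (p : ℤ) * M ^ 2 + 2 * u ^ 2 * y ^ 2 := by
    rw [← h, hW0', ← huv]
    ring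
  -- coprimality
  have hMu : IsCoprime (M : ℤ) u := hc.of_mul_right_left
  have hpu' : IsCoprime (p : ℤ) u := hpz.irreducible.coprime_iff_not_dvd.2 hpu
  have hyx2 : IsCoprime y (x ^ 2) := (hxy.symm).pow_right
  have hyN : IsCoprime y ((p : ℤ) * M ^ 2) := by
    have h1 := hyx2.add_mul_left_right (2 * (p * q) * y)
    have h2 : x ^ 2 + y * (2 * (p * q) * y) = (p : ℤ) * M ^ 2 := by
      rw [← h]
      ring
    rwa [h2] at h1
  have hyM : IsCoprime y (M : ℤ) := by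
    have h1 := hyN.of_mul_right_right
    rw [pow_two] at h1
    exact h1.of_mul_right_left
  have hyW : IsCoprime y W0 := by
    have h1 := hyx2.add_mul_left_right (4 * v ^ 2 * y)
    have h2 : x ^ 2 + y * (4 * v ^ 2 * y) = W0 := by
      rw [hW0']
      ring
    rwa [h2] at h1
  have huW : IsCoprime u W0 := by
    have h0 : IsCoprime u ((p : ℤ) * M ^ 2) := IsCoprime.mul_right hpu'.symm hMu.symm.pow_right
    have h1 := h0.add_mul_left_right (2 * u * y ^ 2)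
    have h2 : (p : ℤ) * M ^ 2 + u * (2 * u * y ^ 2) = W0 := by
      rw [hNn]
      ring
    rwa [h2] at h1
  have hM2 : IsCoprime (M : ℤ) 2 := by
    obtain ⟨j, hj⟩ := hM
    refine ⟨1, -j, ?_⟩
    rw [hj]
    push_cast
    ring
  have hMW : IsCoprime (M : ℤ) W0 := by
    have h0 : IsCoprime (M : ℤ) (2 * (u * y) ^ 2) :=
      IsCoprime.mul_right hM2 (IsCoprime.mul_right hMu hyM.symm).pow_right
    have h1 := h0.add_mul_left_right ((p : ℤ) * M)
    have h2 : 2 * (u * y) ^ 2 + (M : ℤ) * ((p : ℤ) * M) = W0 := by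
      rw [hNn]
      ring
    rwa [h2] at h1
  -- the modulus
  have hx0 : x ≠ 0 := by
    rintro rfl
    simp at hx
  have hWpos : 0 < W0 := by
    rw [hW0']
    positivity
  obtain ⟨W, hW⟩ : ∃ W : ℕ, W = W0.natAbs := ⟨_, rfl⟩
  have hWW : (W : ℤ) = W0 := by
    rw [hW]
    exact Int.natAbs_of_nonneg hWpos.le
  have hW8 : W % 8 = 1 := by
    have h1 : W0 % 8 = 1 := by
      obtain ⟨a, ha⟩ := hx
      obtain ⟨b, hb⟩ := hye
      obtain ⟨c, hc'⟩ : ∃ c, a * (a + 1) = 2 * c := by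
        obtain ⟨c, hc'⟩ := Int.even_mul_succ_self a
        exact ⟨c, by rw [hc']; ring⟩
      have h2 : W0 = 8 * (2 * v ^ 2 * b ^ 2) + 4 * (a * (a + 1)) + 1 := by
        rw [hW0', ha, hb]
        ring
      rw [hc'] at h2
      omega
    omega
  have hW4 : W % 4 = 1 := by omega
  have hWo : Odd W := Nat.odd_iff.2 (by omega)
  have hsqM : X ((M : ℤ) ^ 2) = (jacobiSym M W : ℤ) := by
    rw [hW, hW0]
    exact hX.sq _ (by rw [← hW0]; exact hMW)
  have hsqu : X (u ^ 2) = (jacobiSym u W : ℤ) := by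
    rw [hW, hW0]
    exact hX.sq _ (by rw [← hW0]; exact huW)
  have hsqy : X (y ^ 2) = (jacobiSym y W : ℤ) := by
    rw [hW, hW0]
    exact hX.sq _ (by rw [← hW0]; exact hyW)
  have hper : X ((p : ℤ) * M ^ 2) = X (-1 * (2 * (u ^ 2 * y ^ 2))) := by
    refine hX.per _ _ ?_
    rw [← hW0]
    exact ⟨1, by rw [hNn]; ring⟩
  have hvy4 : (4 : ℤ) ∣ v * y := by
    obtain ⟨b, hb⟩ := hye
    obtain ⟨c, hc'⟩ := hve
    exact ⟨b * c, by rw [hb, hc']; ring⟩
  have himd : (⟨x, 2 * v * y⟩ : GaussianInt).im / 2 = v * y := by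
    show (2 * v * y) / 2 = v * y
    rw [mul_assoc]
    exact Int.mul_ediv_cancel_left _ (by norm_num)
  have hneg1 : X (-1) = 1 := by
    rw [hX.neg, himd]
    have h1 : Even (v * y).natAbs := by
      rw [Int.natAbs_even]
      obtain ⟨b, hb⟩ := hvy4
      exact ⟨2 * b, by rw [hb]; ring⟩
    rw [h1.neg_one_pow]
  have htwo : X 2 = 1 := by
    rw [hX.two, himd]
    show ipw (x * (v * y)) = 1
    have h2 : (x * (v * y)) % 4 = 0 := by
      obtain ⟨b, hb⟩ := hvy4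
      have h3 : x * (v * y) = 4 * (x * b) := by
        rw [hb]
        ring
      rw [h3, Int.mul_emod_right]
    unfold ipw
    rw [h2]
    simp
  have hjm1 : jacobiSym (-1) W = 1 := by
    rw [jacobiSym.at_neg_one hWo, ZMod.χ₄_nat_one_mod_four hW4]
  have hj2 : jacobiSym 2 W = 1 := by
    rw [jacobiSym.at_two hWo, ZMod.χ₈_nat_eq_if_mod_eight]
    rw [if_neg (by omega), if_pos (by omega)]
  -- the jacobi symbols
  have hneg : ∀ z : ℤ, jacobiSym z W = jacobiSym (z.natAbs : ℤ) W := by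
    intro z
    rcases Int.natAbs_eq z with h2 | h2
    · rw [← h2]
    · conv_lhs => rw [h2, ← neg_one_mul, jacobiSym.mul_left, hjm1, one_mul]
  have hy0 : y ≠ 0 := by
    rintro rfl
    exact hpy (dvd_zero _)
  have jy : jacobiSym y W = 1 := by
    obtain ⟨k, n, hn, hyn⟩ := Nat.exists_eq_two_pow_mul_odd (n := y.natAbs)
      (Int.natAbs_ne_zero.2 hy0)
    have hny : (n : ℤ) ∣ y := by
      rw [← Int.dvd_natAbs, hyn]
      push_cast
      exact Dvd.intro_left _ rfl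
    obtain ⟨z, hz⟩ := hny
    have hcx : IsCoprime x n := by
      rw [hz] at hxy
      exact hxy.of_mul_right_left
    have hj3 : jacobiSym (n : ℤ) W = 1 := by
      rw [jacobiSym.quadratic_reciprocity_one_mod_four' hn hW4, hWW]
      have h3 : jacobiSym W0 n = jacobiSym (x ^ 2) n := by
        refine jacobiSym.mod_left' ?_
        refine Int.ModEq.symm ?_
        rw [Int.modEq_iff_dvd, hW0']
        refine ⟨z * (4 * v ^ 2 * y), ?_⟩
        have h5 : x ^ 2 + (2 * v * y) ^ 2 - x ^ 2 = y * (4 * v ^ 2 * y) := by ring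
        rw [h5]
        conv_lhs => rw [hz]
        conv_rhs => rw [hz]
        ring
      rw [h3]
      exact jacobiSym.sq_one' (Int.isCoprime_iff_gcd_eq_one.1 hcx)
    rw [hneg, hyn]
    push_cast
    rw [jacobiSym.mul_left, jacobiSym.pow_left, hj2, one_pow, hj3, one_mul]
  obtain ⟨U, hU⟩ : ∃ U, U = u.natAbs := ⟨_, rfl⟩
  have hUo : Odd U := by
    rw [hU]
    exact Int.natAbs_odd.2 huo
  have hUu : (U : ℤ) ∣ u := by
    rw [hU]
    exact Int.natAbs_dvd.2 dvd_rfl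
  have hMU : IsCoprime (M : ℤ) U := by
    obtain ⟨z, hz⟩ := hUu
    rw [hz] at hMu
    exact hMu.of_mul_right_left
  have ju : jacobiSym u W = jacobiSym p U := by
    rw [hneg, ← hU, jacobiSym.quadratic_reciprocity_one_mod_four' hUo hW4, hWW]
    have h3 : jacobiSym W0 U = jacobiSym ((p : ℤ) * (M : ℤ) ^ 2) U := by
      refine jacobiSym.mod_left' ?_
      show W0 ≡ (p : ℤ) * M ^ 2 [ZMOD U]
      rw [Int.modEq_iff_dvd, hNn]
      have h4 : (p : ℤ) * M ^ 2 - ((p : ℤ) * M ^ 2 + 2 * u ^ 2 * y ^ 2) =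
          u * (-(2 * u * y ^ 2)) := by ring
      rw [h4]
      exact hUu.mul_right _
    rw [h3, jacobiSym.mul_left, jacobiSym.sq_one', mul_one]
    exact Int.isCoprime_iff_gcd_eq_one.1 hMU
  have jM : jacobiSym M W = jacobiSym 2 M := by
    rw [jacobiSym.quadratic_reciprocity_one_mod_four' hM hW4, hWW]
    have h3 : jacobiSym W0 M = jacobiSym (2 * (u * y) ^ 2) M := by
      refine jacobiSym.mod_left' ?_
      show W0 ≡ 2 * (u * y) ^ 2 [ZMOD M]
      refine Int.ModEq.symm ?_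
      rw [Int.modEq_iff_dvd]
      refine ⟨(p : ℤ) * M, ?_⟩
      rw [hNn]
      ring
    rw [h3, jacobiSym.mul_left, jacobiSym.sq_one', mul_one]
    exact Int.isCoprime_iff_gcd_eq_one.1 (IsCoprime.mul_right hMu hyM.symm).symm
  -- the equation
  have e2 : X p * X ((M : ℤ) ^ 2) = X (-1) * (X 2 * (X (u ^ 2) * X (y ^ 2))) := by
    rw [← hX.mul (u ^ 2), ← hX.mul 2, ← hX.mul (-1), ← hper, ← hX.mul]
  rw [hXp, hneg1, htwo, hsqM, hsqu, hsqy, jy, jM, ju] at e2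
  have e3 : jacobiSym 2 M = jacobiSym p U := by
    have h1 : ((jacobiSym 2 M : ℤ) : GaussianInt) = ((jacobiSym p U : ℤ) : GaussianInt) := by
      push_cast
      push_cast at e2
      linear_combination e2
    exact_mod_cast h1
  have hjm1p : jacobiSym (-1) p = 1 := by
    rw [jacobiSym.at_neg_one (Nat.odd_iff.2 (by omega)), ZMod.χ₄_nat_one_mod_four (by omega)]
  have e4 : jacobiSym 2 M = jacobiSym (U : ℤ) p := by
    rw [jacobiSym.quadratic_reciprocity_one_mod_four' hUo (by omega : p % 4 = 1)]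
    exact e3
  rw [e4]
  rcases Int.natAbs_eq u with h2 | h2
  · rw [h2, ← hU]
  · conv_rhs => rw [h2, ← hU, ← neg_one_mul, jacobiSym.mul_left, hjm1p, one_mul]

end Pool.Agent.Work.MP_8efaaa_nt.Q7
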