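import Mathlib
import Pool.Agent.Work.MP_8efaaa_nt.Q7.Defs
import Pool.Agent.Work.MP_8efaaa_nt.W6.SAr
import Pool.Agent.Work.MP_8efaaa_nt.Z6.A7V

/-!
# Q7/Ar2 (M): arithmetic

Checked by computer. `2 v^2 - u^2 = p q = 7 (mod 8)`: `u` is odd, `v` is even and prime to `u p q` as well as `u` to `v p q` (a common prime `r` of two of them divides all; `r^2 ∣ p q`; `p ≠ q`).
`ar_uv`: `(u v / p q) = ± 1`. `v = 2^k v0`, `v0` odd, `v > 0`: `(2/pq) = 1`, `(v0/pq) = (-1)^((v0-1)/2) (pq/v0)`, `pq = -u^2 (mod v0)`: `(v/pq) = 1`. `(u/pq) = (-1)^((u-1)/2) (pq/|u|)` (for both signs of `u`, as `(-1/pq) = -1`), `pq = 2 v^2 (mod u)`: `(u/pq) = (-1)^((u-1)/2) (2/|u|) = (-1)^(v/2) (2/|u|)` (`4 ∣ u - 1 - v`). `u^2 = 2 v^2 - p q (mod 16)`: `v = 0 (mod 4)`: `u^2 = - p q (mod 16)`, `(2/|u|) = 1` iff `u^2 = 1 (mod 16)` iff `(p q) % 16 = 15`; `v = 2 (mod 4)`: `u^2 = 8 - p q (mod 16)`, `(2/|u|) = -1` iff `(p q) % 16 = 15`.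 So `(u v/pq) = 1` iff `(p q) % 16 = 15`, and `(uv/p) (uv/q) = (uv/pq)`.
`ar_two`: in `ZMod p`: `2 v^2 = u^2`, take the power `(p-1)/4`: `2^((p-1)/4) v^((p-1)/2) = u^((p-1)/2)`, Euler.
`ar_M`: `(-2pq/M) = 1` (`-2pq = t^2 (mod M)`, `M` prime to `2 p q`), `(p/M) = (M/p)`, `(-1/M)(q/M) = (M/q)` (`q = 3 (mod 4)`), `(2/M) = e8 M`.
`ar_conv`: `u^2 - 2 v^2 = p q`. In `ZMod p`: `v ≠ 0`, `s = u/v`, `s^2 = 2`. `w = u - v`... put `v0 = u - v`, `u0 = 2 v - u` (`2 v0^2 - u0^2 = u^2 - 2 v^2`), `s0 = u0/v0`, `s0^2 = 2`, `u = u0 + 2 v0 = v0 (s0 + 2)`, `sym_two` for `s0`: `(2 + s0)^((p-1)/2) = (-1)^((p-1)/8) = 1` (`p % 16 = 1`), so `u^((p-1)/2) = v0^((p-1)/2)`: `(u/p) = (v0/p)`.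
`exists_uv7`: Thue's lemma modulo `m = p q`: `r` with `r^2 = 2 (mod m)` (`2` is a square modulo `p` and `q`; CRT); by the pigeonhole principle there are `a`, `b`, not both `0`, `|a|, |b| ≤ √m` (`< ` as `m` is not a square), `a = r b (mod m)`: `m ∣ a^2 - 2 b^2`, `-2 m < a^2 - 2 b^2 < m`, so it is `-m` (not `0`). (See `exists_uv` in `W6/SAr.lean`.)
`ar_norm`: replace `u` by `-u`, `v` by `-v`: `u` odd, `v` even, `u - 1 - v` is even; if it is `2 (mod 4)` then `-u - 1 - v = 0 (mod 4)`.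
-/

set_option autoImplicit false

namespace Pool.Agent.Work.MP_8efaaa_nt.Q7

open Pool.Agent.Work.MP_8efaaa_nt.R

private theorem ar2_pow {p : ℕ} (hp : p.Prime) (hp2 : p % 2 = 1) (y : ℤ) :
    ((jacobiSym y p : ℤ) : ZMod p) = (y : ZMod p) ^ ((p - 1) / 2) := by
  have := Fact.mk hp
  rw [← jacobiSym.legendreSym.to_jacobiSym, legendreSym.eq_pow]
  congr 1
  omega

private theorem ar2_sq8 {z : ℤ} (hz : Odd z) : ∃ k, z ^ 2 = 8 * k + 1 := by
  obtain ⟨a, ha⟩ := hz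
  obtain ⟨c, hc⟩ := Int.even_mul_succ_self a
  refine ⟨c, ?_⟩
  rw [ha]
  have h1 : (2 * a + 1) ^ 2 = 4 * (a * (a + 1)) + 1 := by ring
  rw [h1, hc]
  ring

private theorem ar2_par {m : ℕ} (hm : m % 8 = 7) {u v : ℤ} (huv : 2 * v ^ 2 - u ^ 2 = (m : ℤ)) :
    Odd u ∧ Even v := by
  have hu : Odd u := by
    rw [← Int.not_even_iff_odd]
    rintro ⟨a, rfl⟩
    have h1 : (m : ℤ) = 2 * (v ^ 2 - 2 * a ^ 2) := by
      rw [← huv]
      ring
    omega
  refine ⟨hu, ?_⟩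
  rw [← Int.not_odd_iff_even]
  intro hv
  obtain ⟨k, hk⟩ := ar2_sq8 hu
  obtain ⟨l, hl⟩ := ar2_sq8 hv
  rw [hk, hl] at huv
  omega

private theorem ar2_cop {p q : ℕ} (hp : p.Prime) (hq : q.Prime) (hne : p ≠ q) {u v : ℤ}
    (huv : 2 * v ^ 2 - u ^ 2 = ((p * q : ℕ) : ℤ)) : IsCoprime u v := by
  rw [Int.isCoprime_iff_gcd_eq_one]
  by_contra hc
  obtain ⟨r, hr, h1, h2⟩ := Nat.Prime.not_coprime_iff_dvd.1 hc
  have h1' : (r : ℤ) ∣ u := Int.natCast_dvd.2 h1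
  have h2' : (r : ℤ) ∣ v := Int.natCast_dvd.2 h2
  have hd : ((r * r : ℕ) : ℤ) ∣ ((p * q : ℕ) : ℤ) := by
    rw [← huv]
    push_cast
    refine dvd_sub ?_ ?_
    · rw [pow_two]
      exact Dvd.dvd.mul_left (mul_dvd_mul h2' h2') 2
    · rw [pow_two]
      exact mul_dvd_mul h1' h1'
  have hd' : r * r ∣ p * q := Int.natCast_dvd_natCast.1 hd
  have hsq : Squarefree (p * q) := by
    rw [Nat.squarefree_mul ((Nat.coprime_primes hp hq).2 hne)]
    exact ⟨(Nat.prime_iff.1 hp).squarefree, (Nat.prime_iff.1 hq).squarefree⟩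
  have := hsq r hd'
  exact hr.one_lt.ne' (Nat.isUnit_iff.1 this)

private theorem ar2_mod8 {U : ℕ} (hU : Odd U) :
    jacobiSym 2 U = if U ^ 2 % 16 = 1 then 1 else -1 := by
  rw [jacobiSym.at_two hU, ZMod.χ₈_nat_eq_if_mod_eight]
  have h1 : U % 2 ≠ 0 := by
    rw [Nat.odd_iff] at hU
    omega
  rw [if_neg h1]
  have hUm : U % 8 = 1 ∨ U % 8 = 3 ∨ U % 8 = 5 ∨ U % 8 = 7 := by omega
  obtain ⟨c, hc⟩ : ∃ c, c = U / 8 := ⟨_, rfl⟩
  have hUd : U = 8 * c + U % 8 := by omega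
  rcases hUm with h | h | h | h <;> rw [h] at hUd
  · have e : U ^ 2 = 16 * (4 * c ^ 2 + c) + 1 := by rw [hUd]; ring
    rw [if_pos (by omega), if_pos (by omega)]
  · have e : U ^ 2 = 16 * (4 * c ^ 2 + 3 * c) + 9 := by rw [hUd]; ring
    rw [if_neg (by omega), if_neg (by omega)]
  · have e : U ^ 2 = 16 * (4 * c ^ 2 + 5 * c + 1) + 9 := by rw [hUd]; ring
    rw [if_neg (by omega), if_neg (by omega)]
  · have e : U ^ 2 = 16 * (4 * c ^ 2 + 7 * c + 3) + 1 := by rw [hUd]; ring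
    rw [if_pos (by omega), if_pos (by omega)]

/-- the symbol of `v` -/
private theorem ar2_v {N : ℕ} (hN : N % 8 = 7) {u v : ℤ} (huv : 2 * v ^ 2 - u ^ 2 = (N : ℤ))
    (hv : 0 < v) (hc : IsCoprime u v) : jacobiSym v N = 1 := by
  have hNo : Odd N := Nat.odd_iff.2 (by omega)
  obtain ⟨V, rfl⟩ : ∃ V : ℕ, v = (V : ℤ) := ⟨v.toNat, (Int.toNat_of_nonneg hv.le).symm⟩
  have hV0 : V ≠ 0 := by
    rintro rfl
    simp at hv
  obtain ⟨k, n, hn, hVn⟩ := Nat.exists_eq_two_pow_mul_odd (n := V) hV0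
  have h2N : jacobiSym 2 N = 1 := by
    rw [jacobiSym.at_two hNo, ZMod.χ₈_nat_eq_if_mod_eight, if_neg (by omega),
      if_pos (Or.inr hN)]
  have hnV : (n : ℤ) ∣ (V : ℤ) := by
    rw [hVn]
    push_cast
    exact Dvd.intro_left _ rfl
  obtain ⟨z, hz⟩ := hnV
  have hcn : IsCoprime u (n : ℤ) := by
    rw [hz] at hc
    exact hc.of_mul_right_left
  have h1 : jacobiSym (N : ℤ) n = (if n % 4 = 3 then -1 else 1) := by
    have e1 : jacobiSym (N : ℤ) n = jacobiSym (-1 * u ^ 2) n := by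
      refine jacobiSym.mod_left' ?_
      show (N : ℤ) ≡ -1 * u ^ 2 [ZMOD n]
      refine Int.ModEq.symm ?_
      rw [Int.modEq_iff_dvd]
      refine ⟨z * (2 * V), ?_⟩
      have h5 : (N : ℤ) - -1 * u ^ 2 = V * (2 * V) := by
        rw [← huv]
        ring
      rw [h5, ← mul_assoc (n : ℤ), ← hz]
    rw [e1, jacobiSym.mul_left, jacobiSym.sq_one' (Int.isCoprime_iff_gcd_eq_one.1 hcn), mul_one,
      jacobiSym.at_neg_one hn, ZMod.χ₄_nat_eq_if_mod_four]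
    have h2 : n % 2 ≠ 0 := by
      rw [Nat.odd_iff] at hn
      omega
    rw [if_neg h2]
    split_ifs with i1 i2 i2
    · omega
    · rfl
    · rfl
    · omega
  have h3 : jacobiSym (n : ℤ) N = 1 := by
    have e3 := jacobiSym.quadratic_reciprocity_if (Nat.odd_iff.1 hn) (Nat.odd_iff.1 hNo)
    rw [← e3, h1]
    have hN4 : N % 4 = 3 := by omega
    split_ifs with i1 i2 i2
    · norm_num
    · exact absurd i1.1 i2
    · exact absurd ⟨i2, hN4⟩ i1
    · rfl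
  rw [hVn]
  push_cast
  rw [jacobiSym.mul_left, jacobiSym.pow_left, h2N, one_pow, h3, one_mul]

/-- the symbol of `u` -/
private theorem ar2_u {N : ℕ} (hN : N % 8 = 7) {u v : ℤ} (huv : 2 * v ^ 2 - u ^ 2 = (N : ℤ))
    (hc : IsCoprime u v) (h4 : (4 : ℤ) ∣ u - 1 - v) :
    jacobiSym u N = if N % 16 = 15 then 1 else -1 := by
  have hNo : Odd N := Nat.odd_iff.2 (by omega)
  obtain ⟨huo, hve⟩ := ar2_par hN huv
  obtain ⟨U, hU⟩ : ∃ U, U = u.natAbs := ⟨_, rfl⟩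
  have hUo : Odd U := by
    rw [hU]
    exact Int.natAbs_odd.2 huo
  have hUu : (U : ℤ) ∣ u := by
    rw [hU]
    exact Int.natAbs_dvd.2 dvd_rfl
  have hUv : IsCoprime v (U : ℤ) := by
    obtain ⟨z, hz⟩ := hUu
    rw [hz] at hc
    exact hc.symm.of_mul_right_left
  have hU2 : (U : ℤ) ^ 2 = u ^ 2 := by
    rw [hU, Int.natCast_natAbs, sq_abs]
  -- the symbol of `N` modulo `U`
  have h1 : jacobiSym (N : ℤ) U = if U ^ 2 % 16 = 1 then 1 else -1 := by
    have e1 : jacobiSym (N : ℤ) U = jacobiSym (2 * v ^ 2) U := by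
      refine jacobiSym.mod_left' ?_
      show (N : ℤ) ≡ 2 * v ^ 2 [ZMOD U]
      rw [Int.modEq_iff_dvd, ← huv]
      have h5 : 2 * v ^ 2 - (2 * v ^ 2 - u ^ 2) = u * u := by ring
      rw [h5]
      exact hUu.mul_right _
    rw [e1, jacobiSym.mul_left, jacobiSym.sq_one' (Int.isCoprime_iff_gcd_eq_one.1 hUv), mul_one]
    exact ar2_mod8 hUo
  have h2 : jacobiSym (U : ℤ) N = (if U % 4 = 3 then -1 else 1) *
      (if U ^ 2 % 16 = 1 then 1 else -1) := by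
    have e3 := jacobiSym.quadratic_reciprocity_if (Nat.odd_iff.1 hUo) (Nat.odd_iff.1 hNo)
    rw [← e3, h1]
    have hN4 : N % 4 = 3 := by omega
    by_cases i1 : U % 4 = 3
    · rw [if_pos ⟨i1, hN4⟩, if_pos i1]
      ring
    · rw [if_neg (fun h => i1 h.1), if_neg i1]
      ring
  have hm1 : jacobiSym (-1) N = -1 := by
    rw [jacobiSym.at_neg_one hNo, ZMod.χ₄_nat_three_mod_four (by omega)]
  have h3 : jacobiSym u N = (if u % 4 = 3 then -1 else 1) *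
      (if U ^ 2 % 16 = 1 then 1 else -1) := by
    rcases Int.natAbs_eq u with h | h
    · rw [← hU] at h
      have e : (u % 4 = 3) ↔ (U % 4 = 3) := by omega
      simp only [e]
      rw [← h2, ← h]
    · rw [← hU] at h
      have huo' := Int.odd_iff.1 huo
      have e : (u % 4 = 3) ↔ ¬ (U % 4 = 3) := by omega
      have e5 : jacobiSym u N = - jacobiSym (U : ℤ) N := by
        rw [h, ← neg_one_mul, jacobiSym.mul_left, hm1, neg_one_mul]
      rw [e5, h2]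
      simp only [e]
      by_cases i1 : U % 4 = 3
      · rw [if_pos i1, if_neg (not_not.2 i1)]
        ring
      · rw [if_neg i1, if_pos i1]
        ring
  rw [h3]
  have hU16 : ((U ^ 2 : ℕ) : ℤ) = 2 * v ^ 2 - N := by
    push_cast
    rw [hU2]
    linarith
  obtain ⟨w, hw⟩ := hve
  obtain ⟨c, hc4⟩ := h4
  rcases Int.even_or_odd w with ⟨d, hd⟩ | hd
  · have e1 : v ^ 2 = 16 * d ^ 2 := by
      rw [hw, hd]
      ring
    have e2 : u % 4 = 1 := by
      omega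
    rw [e1] at hU16
    rw [if_neg (by omega), one_mul]
    by_cases i1 : N % 16 = 15
    · rw [if_pos (by omega), if_pos i1]
    · rw [if_neg (by omega), if_neg i1]
  · obtain ⟨d, hd'⟩ := ar2_sq8 hd
    have e1 : v ^ 2 = 4 * (8 * d + 1) := by
      rw [← hd', hw]
      ring
    obtain ⟨f, hf⟩ := hd
    have e2 : u % 4 = 3 := by
      omega
    rw [e1] at hU16
    rw [if_pos e2]
    by_cases i1 : N % 16 = 15
    · rw [if_neg (by omega), if_pos i1]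
      norm_num
    · rw [if_pos (by omega), if_neg i1]
      norm_num

private theorem ar2_copN {p q : ℕ} (hp : p.Prime) (hq : q.Prime) (hne : p ≠ q)
    (h8 : (p * q) % 8 = 7) {u v : ℤ} (huv : 2 * v ^ 2 - u ^ 2 = ((p * q : ℕ) : ℤ)) :
    IsCoprime (u * v) ((p * q : ℕ) : ℤ) := by
  have hc := ar2_cop hp hq hne huv
  obtain ⟨huo, hve⟩ := ar2_par h8 huv
  have hu2 : IsCoprime u 2 := by
    obtain ⟨j, hj⟩ := huo
    refine ⟨1, -j, ?_⟩
    rw [hj]
    ring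
  refine IsCoprime.mul_left ?_ ?_
  · have h1 : IsCoprime u (2 * v ^ 2) := hu2.mul_right hc.pow_right
    have h2 := h1.add_mul_left_right (-u)
    have h3 : 2 * v ^ 2 + u * -u = ((p * q : ℕ) : ℤ) := by
      rw [← huv]
      ring
    rwa [h3] at h2
  · have h1 : IsCoprime v (-(u ^ 2)) := (hc.symm.pow_right).neg_right
    have h2 := h1.add_mul_left_right (2 * v)
    have h3 : -(u ^ 2) + v * (2 * v) = ((p * q : ℕ) : ℤ) := by
      rw [← huv]
      ring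
    rwa [h3] at h2

private theorem ar2_pm {z : ℤ} {l : ℕ} (h : IsCoprime z (l : ℤ)) :
    jacobiSym z l = 1 ∨ jacobiSym z l = -1 := by
  rcases jacobiSym.trichotomy z l with h1 | h1 | h1
  · exfalso
    exact jacobiSym.ne_zero (Int.isCoprime_iff_gcd_eq_one.1 h) h1
  · exact Or.inl h1
  · exact Or.inr h1

/-- every prime `± 1` modulo `8` is `2 y ^ 2 - x ^ 2` -/
private theorem ar2_rep {l : ℕ} (hl : l.Prime) (h : l % 8 = 1 ∨ l % 8 = 7) :
    ∃ x y : ℤ, 2 * y ^ 2 - x ^ 2 = (l : ℤ) := by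
  have : Fact l.Prime := ⟨hl⟩
  have hl2 : l ≠ 2 := by omega
  obtain ⟨t, ht⟩ : IsSquare (2 : ZMod l) := (ZMod.exists_sq_eq_two_iff hl2).2 h
  have hk1 : l < (Nat.sqrt l + 1) * (Nat.sqrt l + 1) := Nat.lt_succ_sqrt l
  have hk2 : Nat.sqrt l * Nat.sqrt l < l := by
    refine lt_of_le_of_ne (Nat.sqrt_le l) fun he => ?_
    exact (Nat.prime_iff.1 hl).not_isSquare ⟨Nat.sqrt l, he.symm⟩
  obtain ⟨k, hk⟩ : ∃ k, k = Nat.sqrt l := ⟨_, rfl⟩
  rw [← hk] at hk1 hk2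
  have hcard : (Finset.univ : Finset (ZMod l)).card <
      (Finset.range (k + 1) ×ˢ Finset.range (k + 1)).card := by
    rw [Finset.card_product, Finset.card_range, Finset.card_univ, ZMod.card]
    exact hk1
  obtain ⟨P, hP, Q, hQ, hne, hPQ⟩ := Finset.exists_ne_map_eq_of_card_lt_of_maps_to hcard
    (f := fun z : ℕ × ℕ => (z.1 : ZMod l) - t * (z.2 : ZMod l)) (fun _ _ => Finset.mem_coe.2 (Finset.mem_univ _))
  obtain ⟨a, b⟩ := P
  obtain ⟨c, d⟩ := Q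
  simp only [Finset.mem_product, Finset.mem_range] at hP hQ hPQ
  obtain ⟨x, hx⟩ : ∃ x : ℤ, x = (a : ℤ) - c := ⟨_, rfl⟩
  obtain ⟨y, hy⟩ : ∃ y : ℤ, y = (b : ℤ) - d := ⟨_, rfl⟩
  have hx1 : x ^ 2 ≤ (k : ℤ) * k := by nlinarith
  have hy1 : y ^ 2 ≤ (k : ℤ) * k := by nlinarith
  have hk3 : (k : ℤ) * k < l := by exact_mod_cast hk2
  have hdvd : (l : ℤ) ∣ 2 * y ^ 2 - x ^ 2 := by
    rw [← ZMod.intCast_zmod_eq_zero_iff_dvd]
    have e1 : (x : ZMod l) = t * (y : ZMod l) := by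
      rw [hx, hy]
      push_cast
      linear_combination hPQ
    push_cast
    rw [e1]
    linear_combination ((y : ZMod l) ^ 2) * ht
  have hne0 : 2 * y ^ 2 - x ^ 2 ≠ 0 := by
    intro h0
    have h1 : x * x = 2 * (y * y) := by linarith [h0, sq x, sq y]
    rcases eq_or_ne y 0 with hy0 | hy0
    · rw [hy0] at h1
      have hx0 : x = 0 := by
        have : x * x = 0 := by linarith
        exact mul_self_eq_zero.1 this
      apply hne
      have h1 : a = c := by omega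
      have h2 : b = d := by omega
      rw [h1, h2]
    · have h2 : Irrational (Real.sqrt 2) := irrational_sqrt_two
      have h3 : ((x : ℝ) / y) ^ 2 = 2 := by
        have hy' : (y : ℝ) ≠ 0 := by exact_mod_cast hy0
        rw [div_pow, div_eq_iff (pow_ne_zero 2 hy')]
        have : ((x * x : ℤ) : ℝ) = ((2 * (y * y) : ℤ) : ℝ) := by rw [h1]
        push_cast at this
        linarith [this, sq (x : ℝ), sq (y : ℝ)]
      have h4 : Real.sqrt 2 = |(x : ℝ) / y| := by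
        rw [← h3, Real.sqrt_sq_eq_abs]
      apply h2
      refine ⟨|(x : ℚ) / y|, ?_⟩
      rw [h4]
      push_cast
      rfl
  obtain ⟨w, hw⟩ := hdvd
  have hl0 : (0 : ℤ) < l := by exact_mod_cast hl.pos
  have hw1 : -1 < w := by
    by_contra hc
    nlinarith [sq_nonneg y]
  have hw3 : w < 2 := by
    by_contra hc
    nlinarith [sq_nonneg x]
  have hw12 : w = 0 ∨ w = 1 := by omega
  rcases hw12 with rfl | rfl
  · rw [mul_zero] at hw
    exact absurd hw hne0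
  · exact ⟨x, y, by linarith⟩

theorem ar_uv {p q : ℕ} (hp : p.Prime) (hq : q.Prime) (hp16 : p % 16 = 1) (hq8 : q % 8 = 7)
    {u v : ℤ} (huv : 2 * v ^ 2 - u ^ 2 = ((p * q : ℕ) : ℤ)) (hv : 0 < v)
    (h4 : (4 : ℤ) ∣ u - 1 - v) :
    jacobiSym (u * v) q = (if (p * q) % 16 = 15 then 1 else -1) * jacobiSym (u * v) p ∧
      (jacobiSym (u * v) p = 1 ∨ jacobiSym (u * v) p = -1) := by
  have hne : p ≠ q := by
    rintro rfl
    omega
  have h8 : (p * q) % 8 = 7 := by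
    rw [Nat.mul_mod, hq8]
    have : p % 8 = 1 := by omega
    rw [this]
  have hc := ar2_cop hp hq hne huv
  have hcN := ar2_copN hp hq hne h8 huv
  have hpm : jacobiSym (u * v) p = 1 ∨ jacobiSym (u * v) p = -1 := by
    refine ar2_pm ?_
    rw [Nat.cast_mul] at hcN
    exact hcN.of_mul_right_left
  have h1 : jacobiSym (u * v) (p * q) = if (p * q) % 16 = 15 then 1 else -1 := by
    rw [jacobiSym.mul_left, ar2_v h8 huv hv hc, mul_one]
    exact ar2_u h8 huv hc h4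
  have hp0 : NeZero p := ⟨hp.ne_zero⟩
  have hq0 : NeZero q := ⟨hq.ne_zero⟩
  rw [jacobiSym.mul_right] at h1
  refine ⟨?_, hpm⟩
  rw [← h1]
  rcases hpm with h2 | h2 <;> rw [h2] <;> ring

theorem ar_two {p q : ℕ} (hp : p.Prime) (hq : q.Prime) (hp8 : p % 8 = 1) (hq8 : q % 8 = 7)
    {u v : ℤ} (huv : 2 * v ^ 2 - u ^ 2 = ((p * q : ℕ) : ℤ)) :
    (2 : ZMod p) ^ ((p - 1) / 4) = ((jacobiSym (u * v) p : ℤ) : ZMod p) := by
  have := Fact.mk hp
  have hne : p ≠ q := by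
    rintro rfl
    omega
  have h8 : (p * q) % 8 = 7 := by
    rw [Nat.mul_mod, hq8, hp8]
  have hcN := ar2_copN hp hq hne h8 huv
  have hpp : (p : ZMod p) = 0 := ZMod.natCast_self p
  have h1 : 2 * (v : ZMod p) ^ 2 = (u : ZMod p) ^ 2 := by
    have h0 : (((2 * v ^ 2 - u ^ 2 : ℤ)) : ZMod p) = (((p * q : ℕ) : ℤ) : ZMod p) := by rw [huv]
    push_cast at h0
    rw [hpp, zero_mul] at h0
    linear_combination h0
  obtain ⟨r, hr⟩ : ∃ r, (p - 1) / 4 = r := ⟨_, rfl⟩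
  have hr2 : (p - 1) / 2 = 2 * r := by omega
  have h2 : (2 * (v : ZMod p) ^ 2) ^ r = ((u : ZMod p) ^ 2) ^ r := by rw [h1]
  rw [mul_pow, ← pow_mul, ← pow_mul, ← hr2, ← ar2_pow hp (by omega) v,
    ← ar2_pow hp (by omega) u] at h2
  have hvp : jacobiSym v p = 1 ∨ jacobiSym v p = -1 := by
    refine ar2_pm ?_
    rw [Nat.cast_mul] at hcN
    exact hcN.of_mul_left_right.of_mul_right_left
  rw [hr, jacobiSym.mul_left]
  push_cast
  rw [← h2]
  rcases hvp with h3 | h3 <;> rw [h3] <;> push_cast <;> ring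

theorem ar_M {p q M : ℕ} (hp : p.Prime) (hq : q.Prime) (hp8 : p % 8 = 1) (hq8 : q % 8 = 7)
    (hM : Nat.Coprime M (2 * (2 * p * q))) {t : ℤ} (ht : (M : ℤ) ∣ t ^ 2 + (2 * p * q : ℕ)) :
    e8 M * jacobiSym M p * jacobiSym M q = 1 ∧ e8 M = jacobiSym 2 M := by
  have hM2 : Nat.Coprime M 2 := Nat.Coprime.coprime_mul_right_right hM
  have hM3 : Nat.Coprime M (2 * p * q) := Nat.Coprime.coprime_mul_left_right hM
  have hMo : Odd M := Nat.coprime_two_right.1 hM2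
  have hM8 : M % 8 = 1 ∨ M % 8 = 3 ∨ M % 8 = 5 ∨ M % 8 = 7 := by
    rw [Nat.odd_iff] at hMo
    omega
  have hpo : Odd p := Nat.odd_iff.2 (by omega)
  have hqo : Odd q := Nat.odd_iff.2 (by omega)
  have he : e8 M = jacobiSym 2 M := by
    rw [jacobiSym.at_two hMo, ZMod.χ₈_nat_eq_if_mod_eight]
    unfold e8
    rw [if_neg (show ¬ (M % 2 = 0) by omega)]
    have e1 : ((M : ℤ) % 8 = 1 ∨ (M : ℤ) % 8 = 7) ↔ (M % 8 = 1 ∨ M % 8 = 7) := by omega
    simp only [e1]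
  refine ⟨?_, he⟩
  rw [he]
  have hct : IsCoprime t (M : ℤ) := by
    have h1 : IsCoprime ((2 * p * q : ℕ) : ℤ) (M : ℤ) := (Nat.isCoprime_iff_coprime.2 hM3).symm
    obtain ⟨z, hz⟩ := ht
    have h2 : IsCoprime (-((2 * p * q : ℕ) : ℤ)) (M : ℤ) := h1.neg_left
    have h3 := h2.add_mul_right_left z
    have h4 : -((2 * p * q : ℕ) : ℤ) + z * (M : ℤ) = t * t := by
      have : ((2 * p * q : ℕ) : ℤ) = 2 * p * q := by push_cast; ring
      linear_combination -hz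
    rw [h4] at h3
    exact h3.of_mul_left_left
  have h1 : jacobiSym (-1 * 2 * p * q) M = 1 := by
    have e1 : jacobiSym (-1 * 2 * p * q) M = jacobiSym (t ^ 2) M := by
      refine jacobiSym.mod_left' ?_
      show (-1 * 2 * p * q : ℤ) ≡ t ^ 2 [ZMOD M]
      rw [Int.modEq_iff_dvd]
      have h5 : t ^ 2 - (-1 * 2 * p * q : ℤ) = t ^ 2 + (2 * p * q : ℕ) := by
        push_cast
        ring
      rw [h5]
      exact ht
    rw [e1]
    exact jacobiSym.sq_one' (Int.isCoprime_iff_gcd_eq_one.1 hct)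
  rw [jacobiSym.mul_left, jacobiSym.mul_left, jacobiSym.mul_left] at h1
  have hp1 : jacobiSym (p : ℤ) M = jacobiSym (M : ℤ) p := by
    rw [jacobiSym.quadratic_reciprocity_one_mod_four (show p % 4 = 1 by omega) hMo]
  have hq1 : jacobiSym (-1) M * jacobiSym (q : ℤ) M = jacobiSym (M : ℤ) q := by
    have e3 := jacobiSym.quadratic_reciprocity_if (Nat.odd_iff.1 hqo) (Nat.odd_iff.1 hMo)
    rw [← e3, jacobiSym.at_neg_one hMo, ZMod.χ₄_nat_eq_if_mod_four]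
    rw [if_neg (show ¬ (M % 2 = 0) by omega)]
    by_cases i1 : M % 4 = 3
    · rw [if_neg (show ¬ (M % 4 = 1) by omega), if_pos ⟨by omega, i1⟩]
      ring
    · rw [if_pos (show M % 4 = 1 by omega), if_neg (fun h => i1 h.2)]
      ring
  rw [hp1] at h1
  rw [← hq1]
  linear_combination h1

theorem ar_conv {p q : ℕ} (hp : p.Prime) (hq : q.Prime) (hp16 : p % 16 = 1) (hq8 : q % 8 = 7)
    {u v : ℤ} (huv : u ^ 2 - 2 * v ^ 2 = p * q) :
    jacobiSym u p = jacobiSym (u - v) p := by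
  have := Fact.mk hp
  have hpi : Prime (p : ℤ) := Nat.prime_iff_prime_int.1 hp
  have hpq : p ≠ q := by
    rintro rfl
    omega
  have hp8 : p % 8 = 1 := by omega
  have hcast : ∀ z : ℤ, (z : ZMod p) = 0 ↔ (p : ℤ) ∣ z := fun z =>
    ZMod.intCast_zmod_eq_zero_iff_dvd z p
  obtain ⟨r, hr⟩ : ∃ r, (p - 1) / 8 = r := ⟨_, rfl⟩
  have hr2 : (p - 1) / 2 = 4 * r := by omega
  have hre : Even r := by
    rw [Nat.even_iff]
    omega
  have hpow : ∀ z : ℤ, ((jacobiSym z p : ℤ) : ZMod p) = (z : ZMod p) ^ (4 * r) := by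
    intro z
    rw [ar2_pow hp (by omega) z, hr2]
  have hpp : (p : ZMod p) = 0 := ZMod.natCast_self p
  have huv' : (u : ZMod p) ^ 2 = 2 * (v : ZMod p) ^ 2 := by
    have h1 : (((u ^ 2 - 2 * v ^ 2 : ℤ)) : ZMod p) = ((p * q : ℤ) : ZMod p) := by rw [huv]
    push_cast at h1
    rw [hpp, zero_mul] at h1
    linear_combination h1
  have hv0 : (v : ZMod p) ≠ 0 := by
    intro h1
    have h2 : (u : ZMod p) = 0 := by
      rw [h1] at huv'
      have h3 : (u : ZMod p) ^ 2 = 0 := by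
        rw [huv']
        ring
      exact pow_eq_zero_iff two_ne_zero |>.1 h3
    rw [hcast] at h1 h2
    obtain ⟨v', rfl⟩ := h1
    obtain ⟨u', rfl⟩ := h2
    have h3 : (p : ℤ) ∣ q := by
      refine ⟨u' ^ 2 - 2 * v' ^ 2, ?_⟩
      refine mul_left_cancel₀ hpi.ne_zero ?_
      linear_combination -huv
    exact hpq ((Nat.prime_dvd_prime_iff_eq hp hq).1 (Int.natCast_dvd_natCast.1 h3))
  have hw0 : (u : ZMod p) - v ≠ 0 := by
    intro h1
    have h2 : (u : ZMod p) = v := sub_eq_zero.1 h1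
    rw [h2] at huv'
    have h3 : (v : ZMod p) ^ 2 = 0 := by linear_combination -huv'
    exact hv0 (pow_eq_zero_iff two_ne_zero |>.1 h3)
  obtain ⟨s, hs⟩ : ∃ s : ZMod p, 2 * (v : ZMod p) - u = (u - v) * s :=
    ⟨((u : ZMod p) - v)⁻¹ * (2 * v - u), by rw [← mul_assoc, mul_inv_cancel₀ hw0, one_mul]⟩
  have hs2 : s ^ 2 = 2 := by
    refine mul_left_cancel₀ (pow_ne_zero 2 hw0) ?_
    rw [← mul_pow, ← hs]
    linear_combination -huv'
  have hsym := Z6.sym_two hp8 (s := s) hs2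
  rw [hr2, hr, hre.neg_one_pow] at hsym
  have hu : (u : ZMod p) = (u - v) * (2 + s) := by
    rw [mul_add, ← hs]
    ring
  have h1 : (u : ZMod p) ^ (4 * r) = ((u - v : ℤ) : ZMod p) ^ (4 * r) := by
    push_cast
    conv_lhs => rw [hu]
    rw [mul_pow, hsym, mul_one]
  rw [← hpow, ← hpow] at h1
  have hp2 : 2 < p := by
    have := hp.two_le
    omega
  have h20 : (2 : ZMod p) ≠ 0 := by
    intro h1
    have h3 : ((2 : ℕ) : ZMod p) = 0 := by exact_mod_cast h1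
    rw [ZMod.natCast_eq_zero_iff] at h3
    have := Nat.le_of_dvd (by norm_num) h3
    omega
  have h11 : (1 : ZMod p) ≠ -1 := by
    intro h12
    exact h20 (by linear_combination h12)
  rcases jacobiSym.trichotomy u p with h8 | h8 | h8 <;>
    rcases jacobiSym.trichotomy (u - v) p with h9 | h9 | h9 <;> rw [h8, h9] at h1 ⊢ <;>
    push_cast at h1
  · exact absurd h1 zero_ne_one
  · exact absurd h1.symm (neg_ne_zero.2 one_ne_zero)
  · exact absurd h1.symm zero_ne_one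
  · exact absurd h1 h11
  · exact absurd h1 (neg_ne_zero.2 one_ne_zero)
  · exact absurd h1.symm h11

theorem exists_uv7 {p q : ℕ} (hp : p.Prime) (hq : q.Prime) (hp8 : p % 8 = 1)
    (hq8 : q % 8 = 7) : ∃ u v : ℤ, 2 * v ^ 2 - u ^ 2 = ((p * q : ℕ) : ℤ) := by
  obtain ⟨x, y, hxy⟩ := ar2_rep hp (Or.inl hp8)
  obtain ⟨z, w, hzw⟩ := ar2_rep hq (Or.inr hq8)
  refine ⟨(x * z + 2 * y * w) + 2 * (x * w + y * z), (x * z + 2 * y * w) + (x * w + y * z), ?_⟩
  push_cast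
  rw [← hxy, ← hzw]
  ring

theorem ar_norm {m : ℕ} (hm : m % 8 = 7) {u v : ℤ} (huv : 2 * v ^ 2 - u ^ 2 = (m : ℤ)) :
    ∃ u' v' : ℤ, 0 < v' ∧ (4 : ℤ) ∣ u' - 1 - v' ∧ 2 * v' ^ 2 - u' ^ 2 = (m : ℤ) ∧
      (u' = u ∨ u' = -u) ∧ (v' = v ∨ v' = -v) := by
  obtain ⟨huo, hve⟩ := ar2_par hm huv
  have hv0 : v ≠ 0 := by
    rintro rfl
    have h1 : 0 ≤ u ^ 2 := sq_nonneg u
    have h2 : (m : ℤ) = -(u ^ 2) := by linarith
    have h3 : 0 ≤ (m : ℤ) := by positivity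
    omega
  have hv : 0 < |v| := abs_pos.2 hv0
  have hvv : |v| = v ∨ |v| = -v := abs_choice v
  have hv2 : |v| ^ 2 = v ^ 2 := sq_abs v
  obtain ⟨V, hV⟩ : ∃ V, V = |v| := ⟨_, rfl⟩
  rw [← hV] at hv hvv hv2
  have hVe : V % 2 = 0 := by
    rw [Int.even_iff] at hve
    rcases hvv with h | h <;> omega
  rw [Int.odd_iff] at huo
  by_cases h4 : (4 : ℤ) ∣ u - 1 - V
  · exact ⟨u, V, hv, h4, by rw [hv2]; exact huv, Or.inl rfl, hvv⟩
  · refine ⟨-u, V, hv, by omega, by rw [hv2, neg_sq]; exact huv, Or.inr rfl, hvv⟩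

end Pool.Agent.Work.MP_8efaaa_nt.Q7
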