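import Mathlib
import Pool.Agent.Work.MP_8efaaa_nt.Q7.Defs
import Pool.Agent.Work.MP_8efaaa_nt.V6.PEx
import Pool.Agent.Work.MP_8efaaa_nt.W14.CEq
import Pool.Agent.Work.MP_8efaaa_nt.W14.PGa
import Pool.Agent.Work.MP_8efaaa_nt.W14.LPt
import Pool.Agent.Work.MP_8efaaa_nt.W14.LLo

/-!
# Q7/QSd (M): the Frobenius element at `q = 7 (mod 8)`, exact

`P = PP z k v`. (1) `gal_two_tor`: a point `e` with `e + e = 0` is `0`, `ep`, `em` or `ez` (coordinates: `e = pt x 0` (`-e = e`), `x^3 = x`), and `gal σ` fixes them.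
(2) `zz_z0`: `(1+S) r6 q ((1+S) r6 q x) = (1+S) ((1+S) ((q) x))` (`r6 S q * r6 S q = (q)`: see W14 (`r6_sq`) or K6). `hT` twice: `P ((1+S)((1+S) y)) = -P ((1+S) y) + T + (if N ((1+S) y) % 4 = 1 then 0 else em)`, `P ((1+S) y) = -P y + T + (if N y % 4 = 1 then 0 else em)`, `N ((1+S) y) = (1 + a) N y = 3 N y (mod 4)` (`norm_g`; `a % 16 = 14`): exactly one of the two numbers is `em`: `P ((1+S)((1+S) y)) = P y + em`; `y = (q) x`: `V6.nat_px` with `q % 8 = 7`: `P y = P x`.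
(3) `q_frob`: `W14.pp_frob` for `l = q`: `φ`, `P (r6 q c) - gal φ (P c) ∈ E1 V`. `hT` for `r6 S q * c`: `P ((1+S) r6 q c) = -P (r6 q c) + T + (if (q N c) % 4 = 1 then 0 else em)`; for `c ∈ M13`: `N c = 1 (mod 8)`: `q N c = 3 (mod 4)`, `em`; `N c = 3 (mod 8)`: `q N c = 1 (mod 4)`, `0`. So `P ((1+S) r6 q c) + gal φ (P c) - (T + if N c % 8 = 1 then em else 0) = -(P (r6 q c) - gal φ (P c)) ∈ E1 V`.
`gal φ T = T + em`: `V6.gal_T`, `φ (ζ^2) = -ζ^2`: `V (φ (ζ^2) - ζ^(2q)) < 1`, `ζ^(2q) = -ζ^2` (`ζ^4 = -1`, `q = 3 (mod 4)`), `φ (ζ^2) = ± ζ^2` (squares `-1`), and `V (2 ζ^2) = 1`. `gal φ e ∈ E1 V` for `e ∈ E1 V`: `gal_e1` (in W14/LLo it may be private: copy it).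
-/

set_option autoImplicit false

namespace Pool.Agent.Work.MP_8efaaa_nt.Q7

open NumberField Pool.Agent.Work.MP_8efaaa_nt.R Pool.Agent.Work.MP_8efaaa_nt.N5
  Pool.Agent.Work.MP_8efaaa_nt.K6 Pool.Agent.Work.MP_8efaaa_nt.W14
  Pool.Agent.Work.MP_8efaaa_nt.W6
open scoped Classical nonZeroDivisors

theorem gal_two_tor {F : Type*} [Field F] [CharZero F] {k0 : Type*} [Field k0] [Algebra k0 F]
    (σ : F ≃ₐ[k0] F) {e : (cQ F).Point} (he : e + e = 0) :
    (e = 0 ∨ e = ep F ∨ e = W14.em F ∨ e = ez F) ∧ gal σ e = e := by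
  have key : e = 0 ∨ e = ep F ∨ e = W14.em F ∨ e = ez F := by
    rcases pt_cases e with h0 | ⟨x, y, h, hxy⟩
    · exact Or.inl h0
    · right
      have hy : y = 0 := by
        by_contra hy
        obtain ⟨x3, y3, e4, e5, e6⟩ := W5.dbl_pt h hy
        rw [hxy, e5] at he
        exact pt_ne _ he
      subst hy
      have h1 : x * ((x - 1) * (x + 1)) = 0 := by linear_combination -h
      rcases mul_eq_zero.1 h1 with h2 | h2
      · right; right
        rw [hxy]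
        unfold ez
        rw [pt_inj]
        exact ⟨h2, rfl⟩
      · rcases mul_eq_zero.1 h2 with h3 | h3
        · left
          rw [hxy]
          unfold ep
          rw [pt_inj]
          exact ⟨by linear_combination h3, rfl⟩
        · right; left
          rw [hxy]
          unfold W14.em
          rw [pt_inj]
          exact ⟨by linear_combination h3, rfl⟩
  refine ⟨key, ?_⟩
  rcases key with rfl | rfl | rfl | rfl
  · exact map_zero _
  · exact gal_ep σ
  · unfold W14.em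
    rw [gal_pt, pt_inj, map_neg, map_one, map_zero]
    exact ⟨rfl, rfl⟩
  · unfold ez
    rw [gal_pt, pt_inj, map_zero]
    exact ⟨rfl, rfl⟩

private theorem dbl_em {F : Type*} [Field F] [CharZero F] : W14.em F + W14.em F = 0 := by
  have h1 : -(W14.em F) = W14.em F := by
    unfold W14.em
    rw [W5.neg_pt, pt_inj]
    exact ⟨rfl, neg_zero⟩
  nth_rewrite 2 [← h1]
  exact add_neg_cancel _

private theorem odd_mul7 {K : Type*} [Field K] [NumberField K] {b c : Ideal (𝓞 K)}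
    (hb : OddI b) (hc : OddI c) : OddI (b * c) := by
  unfold OddI at *
  rw [map_mul]
  exact hb.mul hc

theorem zz_z0 {K F : Type*} [Field K] [NumberField K] [Field F] [NumberField F] [Algebra K F]
    {a : ℕ} {s : K} {S : 𝓞 K} {τ : 𝓞 K ≃+* 𝓞 K} {ζ : F} {w : ℕ → F}
    {z k v : Ideal (𝓞 K) → F} {κ : F ≃ₐ[ℚ] F} (hb : B6 K a s) (hS : algebraMap (𝓞 K) K S = s)
    (ha : a % 16 = 14) (hU : UD6 K F a s S τ ζ w z k v κ)
    {T : (cQ F).Point} (hTT : T + T = ez F)
    (hT : ∀ c, OddI c → PP z k v (Ideal.span {1 + S} * c) + PP z k v c =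
        T + if Ideal.absNorm c % 4 = 1 then 0 else W14.em F)
    {q : ℕ} (hq8 : q % 8 = 7) (hqa : q ∣ a) {x : Ideal (𝓞 K)} (hx : OddI x) :
    PP z k v ((Ideal.span {1 + S} * r6 S q) * (Ideal.span {1 + S} * r6 S q) * x) =
      PP z k v x + W14.em F := by
  have _ := hTT
  have hqo : Odd q := by rw [Nat.odd_iff]; omega
  have hqO : OddI (Ideal.span {(q : 𝓞 K)}) := by
    rw [← r6_sq hb hS hqa]
    unfold OddI
    rw [map_mul, norm_r6 hb hS hqa]
    exact hqo.mul hqo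
  have hg : Ideal.absNorm (Ideal.span {1 + S}) = 1 + a := norm_g hb hS
  have hgO : OddI (Ideal.span {1 + S}) := by
    unfold OddI
    rw [hg, Nat.odd_iff]
    omega
  have hyO : OddI (Ideal.span {(q : 𝓞 K)} * x) := odd_mul7 hqO hx
  have e1 : (Ideal.span {1 + S} * r6 S q) * (Ideal.span {1 + S} * r6 S q) * x =
      Ideal.span {1 + S} * (Ideal.span {1 + S} * (Ideal.span {(q : 𝓞 K)} * x)) := by
    rw [← r6_sq hb hS hqa]
    ring
  have h1 := hT _ (odd_mul7 hgO hyO)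
  have h2 := hT _ hyO
  have h3 := V6.nat_px hb hS hU hqo hx
  rw [if_pos (Or.inr hq8), add_zero] at h3
  rw [e1]
  rw [h3] at h2
  have hn : Ideal.absNorm (Ideal.span {1 + S} * (Ideal.span {(q : 𝓞 K)} * x)) =
      (1 + a) * Ideal.absNorm (Ideal.span {(q : 𝓞 K)} * x) := by
    rw [map_mul, hg]
  rw [hn] at h1
  have hyo : Odd (Ideal.absNorm (Ideal.span {(q : 𝓞 K)} * x)) := hyO
  rw [Nat.odd_iff] at hyo
  generalize Ideal.absNorm (Ideal.span {(q : 𝓞 K)} * x) = n at h1 h2 hyo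
  have hmod : (1 + a) * n % 4 = 3 * (n % 4) % 4 := by
    rw [Nat.mul_mod, show (1 + a) % 4 = 3 by omega]
  rcases (by omega : n % 4 = 1 ∨ n % 4 = 3) with h4 | h4
  · rw [h4] at hmod
    rw [if_neg (by omega : ¬ (1 + a) * n % 4 = 1)] at h1
    rw [if_pos h4, add_zero] at h2
    rw [← h2] at h1
    have h5 : PP z k v (Ideal.span {1 + S} * (Ideal.span {1 + S} *
        (Ideal.span {(q : 𝓞 K)} * x))) + PP z k v (Ideal.span {1 + S} *
        (Ideal.span {(q : 𝓞 K)} * x)) = (PP z k v x + W14.em F) +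
        PP z k v (Ideal.span {1 + S} * (Ideal.span {(q : 𝓞 K)} * x)) := by
      rw [h1]
      abel
    exact add_right_cancel h5
  · rw [h4] at hmod
    rw [if_pos (by omega : (1 + a) * n % 4 = 1), add_zero] at h1
    rw [if_neg (by omega : ¬ n % 4 = 1)] at h2
    have h6 : T = PP z k v (Ideal.span {1 + S} * (Ideal.span {(q : 𝓞 K)} * x)) +
        PP z k v x + W14.em F := by
      rw [h2, add_assoc, dbl_em, add_zero]
    have h5 : PP z k v (Ideal.span {1 + S} * (Ideal.span {1 + S} *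
        (Ideal.span {(q : 𝓞 K)} * x))) + PP z k v (Ideal.span {1 + S} *
        (Ideal.span {(q : 𝓞 K)} * x)) = (PP z k v x + W14.em F) +
        PP z k v (Ideal.span {1 + S} * (Ideal.span {(q : 𝓞 K)} * x)) := by
      rw [h1, h6]
      abel
    exact add_right_cancel h5

theorem q_frob {K F : Type*} [Field K] [NumberField K] [Field F] [NumberField F] [Algebra K F]
    [IsGalois K F] {a : ℕ} {s : K} {S : 𝓞 K} {τ : 𝓞 K ≃+* 𝓞 K} {ζ : F} {w : ℕ → F}
    {z k v : Ideal (𝓞 K) → F} {κ : F ≃ₐ[ℚ] F} (hb : B6 K a s) (hS : algebraMap (𝓞 K) K S = s)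
    (hU : UD6 K F a s S τ ζ w z k v κ)
    {T : (cQ F).Point} (hTT : T + T = ez F)
    (hT : ∀ c, OddI c → PP z k v (Ideal.span {1 + S} * c) + PP z k v c =
        T + if Ideal.absNorm c % 4 = 1 then 0 else W14.em F)
    {q : ℕ} (hq : q.Prime) (hq8 : q % 8 = 7) (hqa : q ∣ a) {Γ : Type}
    [LinearOrderedCommGroupWithZero Γ] {V : Valuation F Γ} {L : Ideal (𝓞 F)} (hV : VL V L)
    (hqL : (q : 𝓞 F) ∈ L) :
    ∃ φ : F ≃ₐ[K] F, (∀ x : F, V x ≤ 1 → V (φ x) ≤ 1 ∧ V (φ x - x ^ q) < 1) ∧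
      (∀ x : F, 1 < V x → 1 < V (φ x)) ∧ gal φ T = T + W14.em F ∧
      (∀ e ∈ W5.E1 V, gal φ e ∈ W5.E1 V) ∧
      ∀ c ∈ M13 K, PP z k v (Ideal.span {1 + S} * r6 S q * c) + gal φ (PP z k v c) -
        (T + if Ideal.absNorm c % 8 = 1 then W14.em F else 0) ∈ W5.E1 V := by
  have hq2 : q ≠ 2 := by
    rintro rfl
    omega
  obtain ⟨φ, h1, h2, h3⟩ := pp_frob hb hS hU hV hq hq2 hqa hqL
  obtain ⟨-, hV2, -⟩ := vl_odd hV hq hq2 hqL
  have hz4 := hU.z8
  refine ⟨φ, h1, h2, ?_, fun e he => gal_e1 h2 he, ?_⟩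
  · refine (V6.gal_T hz4 φ hTT).2 ?_
    have h4 : φ (ζ ^ 2) ^ 2 = -1 := by
      rw [← map_pow, ← pow_mul, hz4, map_neg, map_one]
    have h5 : (φ (ζ ^ 2) - ζ ^ 2) * (φ (ζ ^ 2) + ζ ^ 2) = 0 := by
      linear_combination h4 - hz4
    rcases mul_eq_zero.1 h5 with h6 | h6
    · exfalso
      have h7 : V (ζ ^ 2) = 1 := by
        have h8 : V (ζ ^ 2) ^ 2 = 1 := by
          rw [← map_pow, ← pow_mul, hz4, Valuation.map_neg, map_one]
        exact (pow_eq_one_iff_of_nonneg zero_le two_ne_zero).1 h8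
      have h8 := (h1 (ζ ^ 2) h7.le).2
      obtain ⟨m, hm⟩ : ∃ m, q = 4 * m + 3 := ⟨q / 4, by omega⟩
      have h9 : (ζ ^ 2) ^ q = -ζ ^ 2 := by
        have h10 : (ζ ^ 2) ^ 4 = 1 := by
          rw [← pow_mul, show 2 * 4 = 4 * 2 by rfl, pow_mul, hz4]
          norm_num
        have h11 : (ζ ^ 2) ^ 3 = -ζ ^ 2 := by
          linear_combination ζ ^ 2 * hz4
        rw [hm, pow_add, pow_mul, h10, one_pow, one_mul, h11]
      have h10 : φ (ζ ^ 2) = ζ ^ 2 := by linear_combination h6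
      rw [h9, h10, sub_neg_eq_add, ← two_mul, map_mul, hV2, h7, one_mul] at h8
      exact lt_irrefl _ h8
    · linear_combination h6
  · intro c hc
    have hcO := M13.odd hc
    have hrO : OddI (r6 S q) := by
      unfold OddI
      rw [norm_r6 hb hS hqa, Nat.odd_iff]
      omega
    have h4 := hT _ (odd_mul7 hrO hcO)
    have h5 := h3 c hcO
    have h6 : (if Ideal.absNorm (r6 S q * c) % 4 = 1 then (0 : (cQ F).Point) else W14.em F) =
        if Ideal.absNorm c % 8 = 1 then W14.em F else 0 := by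
      rw [map_mul, norm_r6 hb hS hqa]
      have h7 : q * Ideal.absNorm c % 4 = 3 * (Ideal.absNorm c % 4) % 4 := by
        rw [Nat.mul_mod, show q % 4 = 3 by omega]
      rcases hc with h8 | h8
      · rw [if_pos h8, if_neg]
        rw [h7, show Ideal.absNorm c % 4 = 1 by omega]
        decide
      · rw [if_neg (by omega : ¬ Ideal.absNorm c % 8 = 1), if_pos]
        rw [h7, show Ideal.absNorm c % 4 = 3 by omega]
    rw [h6, ← mul_assoc] at h4
    rw [← h4]
    have h7 : PP z k v (Ideal.span {1 + S} * r6 S q * c) + gal φ (PP z k v c) -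
        (PP z k v (Ideal.span {1 + S} * r6 S q * c) + PP z k v (r6 S q * c)) =
        -(PP z k v (r6 S q * c) - gal φ (PP z k v c)) := by
      abel
    rw [h7]
    exact (W5.E1 V).neg_mem h5

end Pool.Agent.Work.MP_8efaaa_nt.Q7
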