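import Mathlib
import Pool.Agent.Work.MP_8efaaa_nt.Q7.Defs
import Pool.Agent.Work.MP_8efaaa_nt.Q7.QSd
import Pool.Agent.Work.MP_8efaaa_nt.W14.PGa

/-!
# Q7/Ds1 (M): the functions `η`, `δ`, and the final valuation argument

`ds_act`: `η = y/(x+1)`, `δ = ((x+1)^2 - 2)/(x+1)` for a point `Z = (x, y)`, `y ≠ 0` (so `x ≠ 0, 1, -1`). `gal σ (pt x y h) = pt (σ x) (σ y) _` (`gal_pt`). `Z = gal σ Z`: `σ x = x`, `σ y = y`. `-Z = (x, -y)` (`W5.neg_pt`). `Z + em = ((1-x)/(1+x), -2y/(x+1)^2)` (`em = (-1, 0)`; addition formula or `sub_coord` in W14, `W14.em` is `-em`): `x' + 1 = 2/(x+1)`, `η' = -η`, `δ' = 2/(x+1) - (x+1) = -δ`. `-Z + em`: `η' = η`, `δ' = -δ`.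
`ds_rel`: `η^2 = x(x-1)/(x+1)` (`y^2 = x(x-1)(x+1)`), `δ^2 = η^4 + 6 η^2 + 1`: with `W = x + 1`: `η^2 = W + 2/W - 3`, `δ = W - 2/W`, `δ^2 = (W + 2/W)^2 - 8`.
`ds_two`: `Z` with `Z + Z ≠ 0` is `pt x y h` with `y ≠ 0`.
`ds_arith`: `v` the `2`-adic valuation (`padicValRat 2`). `v X = 1 + 2 v r` is odd (`n` odd, `r ≠ 0`). If `v X > 0`: `v (X^2 + 6X + 1) = 0`, `v (m t^2) = v X` is odd, but `v (m t^2)` is even (`t ≠ 0` since `X^2 + 6X + 1 ≠ 0`). If `v X < 0`: `v X ≤ -1`, `v (X^2) = 2 v X < v (6 X) = 1 + v X` and `< 0`: `v (X^2 + 6X + 1) = 2 v X`, `v (m t^2) = 3 v X` is odd. (Or clear denominators and work with integers.)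
-/

set_option autoImplicit false

namespace Pool.Agent.Work.MP_8efaaa_nt.Q7

open NumberField Pool.Agent.Work.MP_8efaaa_nt.R Pool.Agent.Work.MP_8efaaa_nt.N5
  Pool.Agent.Work.MP_8efaaa_nt.K6 Pool.Agent.Work.MP_8efaaa_nt.W14
  Pool.Agent.Work.MP_8efaaa_nt.W6
open scoped Classical nonZeroDivisors

private lemma mapc {F : Type*} [Field F] {k0 : Type*} [Field k0] [Algebra k0 F]
    (σ : F ≃ₐ[k0] F) (x y : F) : σ (y / (x + 1)) = σ y / (σ x + 1) ∧
      σ (((x + 1) ^ 2 - 2) / (x + 1)) = ((σ x + 1) ^ 2 - 2) / (σ x + 1) := by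
  constructor
  · rw [map_div₀, map_add, map_one]
  · rw [map_div₀, map_sub, map_pow, map_add, map_one, map_ofNat]

theorem ds_two {F : Type*} [Field F] [CharZero F] {Z : (cQ F).Point} (hZ : Z + Z ≠ 0) :
    ∃ (x y : F) (h : y ^ 2 = x ^ 3 - x), Z = pt x y h ∧ y ≠ 0 ∧ x + 1 ≠ 0 := by
  rcases pt_cases Z with rfl | ⟨x, y, h, rfl⟩
  · exact absurd (add_zero _) hZ
  have hy : y ≠ 0 := by
    rintro rfl
    apply hZ
    have h1 : -(pt x 0 h) = pt x 0 h := by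
      rw [W5.neg_pt, pt_inj]
      exact ⟨rfl, neg_zero⟩
    nth_rewrite 2 [← h1]
    exact add_neg_cancel _
  refine ⟨x, y, h, rfl, hy, fun hx => hy ?_⟩
  have h1 : y ^ 2 = 0 := by rw [h, eq_neg_of_add_eq_zero_left hx]; ring
  exact (pow_eq_zero_iff two_ne_zero).1 h1

theorem ds_rel {F : Type*} [Field F] [CharZero F] {x y : F} (h : y ^ 2 = x ^ 3 - x)
    (hx : x + 1 ≠ 0) :
    (((x + 1) ^ 2 - 2) / (x + 1)) ^ 2 = (y / (x + 1)) ^ 4 + 6 * (y / (x + 1)) ^ 2 + 1 := by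
  have e1 : (y / (x + 1)) ^ 2 = x * (x - 1) / (x + 1) := by
    rw [div_pow, h]
    field_simp
    ring
  have e2 : (y / (x + 1)) ^ 4 = ((y / (x + 1)) ^ 2) ^ 2 := by ring
  rw [e2, e1]
  field_simp
  ring

theorem ds_act {F : Type*} [Field F] [CharZero F] {k0 : Type*} [Field k0] [Algebra k0 F]
    (σ : F ≃ₐ[k0] F) {x y : F} (h : y ^ 2 = x ^ 3 - x) (hy : y ≠ 0) (hx : x + 1 ≠ 0) :
    (gal σ (pt x y h) = pt x y h → σ (y / (x + 1)) = y / (x + 1) ∧
      σ (((x + 1) ^ 2 - 2) / (x + 1)) = ((x + 1) ^ 2 - 2) / (x + 1)) ∧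
    (gal σ (pt x y h) = -pt x y h → σ (y / (x + 1)) = -(y / (x + 1)) ∧
      σ (((x + 1) ^ 2 - 2) / (x + 1)) = ((x + 1) ^ 2 - 2) / (x + 1)) ∧
    (gal σ (pt x y h) = pt x y h + W14.em F → σ (y / (x + 1)) = -(y / (x + 1)) ∧
      σ (((x + 1) ^ 2 - 2) / (x + 1)) = -(((x + 1) ^ 2 - 2) / (x + 1))) ∧
    (gal σ (pt x y h) = -pt x y h + W14.em F → σ (y / (x + 1)) = y / (x + 1) ∧
      σ (((x + 1) ^ 2 - 2) / (x + 1)) = -(((x + 1) ^ 2 - 2) / (x + 1))) := by
  obtain ⟨m1, m2⟩ := mapc σ x y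
  have hx1 : (1 - x) / (x + 1) + 1 = 2 / (x + 1) := by
    field_simp
    ring
  have h20 : (2 : F) ≠ 0 := two_ne_zero
  rw [m1, m2]
  refine ⟨fun e => ?_, fun e => ?_, fun e => ?_, fun e => ?_⟩
  · rw [gal_pt, pt_inj] at e
    rw [e.1, e.2]
    exact ⟨rfl, rfl⟩
  · rw [gal_pt, W5.neg_pt, pt_inj] at e
    rw [e.1, e.2]
    exact ⟨neg_div _ _, rfl⟩
  · have hy' : -y ≠ 0 := neg_ne_zero.2 hy
    have hh : (-y) ^ 2 = x ^ 3 - x := by rw [neg_sq]; exact h
    obtain ⟨-, -, h3, e3⟩ := sub_coord hh hy'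
    have e4 : pt x y h + W14.em F = W14.em F - pt x (-y) hh := by
      have : pt x (-y) hh = -(pt x y h) := by
        rw [W5.neg_pt]
      rw [this, sub_neg_eq_add, add_comm]
    rw [e4, e3, gal_pt, pt_inj] at e
    rw [e.1, e.2, hx1]
    constructor
    · field_simp
    · field_simp
      ring
  · obtain ⟨-, -, h3, e3⟩ := sub_coord h hy
    have e4 : -pt x y h + W14.em F = W14.em F - pt x y h := by
      rw [sub_eq_add_neg, add_comm]
    rw [e4, e3, gal_pt, pt_inj] at e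
    rw [e.1, e.2, hx1]
    constructor
    · field_simp
    · field_simp
      ring

private lemma two_zpow_inj {a b : ℤ} (h : (2 : ℚ) ^ a = 2 ^ b) : a = b :=
  zpow_right_injective₀ (by norm_num) (by norm_num) h

theorem ds_arith {X r t : ℚ} {n m : ℤ} (hn : Odd n) (hm : Odd m) (hX0 : X ≠ 0)
    (hX : X = 2 * n * r ^ 2) (h : X * (X ^ 2 + 6 * X + 1) = m * t ^ 2) : False := by
  have hodd : ∀ j : ℤ, Odd j → padicNorm 2 (j : ℚ) = 1 := by
    intro j hj
    rw [padicNorm.int_eq_one_iff]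
    intro hd
    have h1 : (2 : ℤ) ∣ j := by exact_mod_cast hd
    have h2 := Int.odd_iff.1 hj
    omega
  have h2 : padicNorm 2 (2 : ℚ) = 1 / 2 := by
    have := padicNorm.padicNorm_p (p := 2) (by norm_num)
    rw [one_div]
    exact_mod_cast this
  have h6 : padicNorm 2 (6 : ℚ) = 1 / 2 := by
    have h3 := hodd 3 (by decide)
    rw [show (6 : ℚ) = 2 * ((3 : ℤ) : ℚ) by norm_num, padicNorm.mul, h2, h3, mul_one]
  have hr0 : r ≠ 0 := by
    rintro rfl
    apply hX0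
    rw [hX]
    ring
  obtain ⟨a, ha⟩ := padicNorm.values_discrete (p := 2) hr0
  have ha' : padicNorm 2 r = (2 : ℚ) ^ (-a) := by
    rw [ha]
    norm_num
  have hNX : padicNorm 2 X = (2 : ℚ) ^ (-1 - 2 * a) := by
    rw [hX, padicNorm.mul, padicNorm.mul, hodd n hn, h2, mul_one, pow_two, padicNorm.mul, ha',
      one_div, ← zpow_neg_one, ← zpow_add₀ (by norm_num : (2 : ℚ) ≠ 0),
      ← zpow_add₀ (by norm_num : (2 : ℚ) ≠ 0)]
    congr 1
    ring
  have hNR : padicNorm 2 ((m : ℚ) * t ^ 2) = padicNorm 2 t * padicNorm 2 t := by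
    rw [padicNorm.mul, hodd m hm, one_mul, pow_two, padicNorm.mul]
  have hone : padicNorm 2 (1 : ℚ) = 1 := padicNorm.one
  have hpos : 0 < padicNorm 2 X := by
    rw [hNX]
    positivity
  have hX2 : padicNorm 2 (X ^ 2) = padicNorm 2 X * padicNorm 2 X := by
    rw [pow_two, padicNorm.mul]
  have h6X : padicNorm 2 (6 * X) = 1 / 2 * padicNorm 2 X := by
    rw [padicNorm.mul, h6]
  have hne1 : padicNorm 2 X ≠ 1 := by
    rw [hNX]
    intro h1
    have h3 : (2 : ℚ) ^ (-1 - 2 * a) = 2 ^ (0 : ℤ) := by rw [h1, zpow_zero]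
    have := two_zpow_inj h3
    omega
  -- the norm of `Y`
  rcases lt_or_gt_of_ne hne1 with hlt | hgt
  · have hY : padicNorm 2 (X ^ 2 + 6 * X + 1) = 1 := by
      have h3 : padicNorm 2 (X ^ 2 + 6 * X) < 1 := by
        refine lt_of_le_of_lt padicNorm.nonarchimedean (max_lt ?_ ?_)
        · rw [hX2]
          nlinarith
        · rw [h6X]
          linarith
      rw [padicNorm.add_eq_max_of_ne (by rw [hone]; exact h3.ne), hone]
      exact max_eq_right h3.le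
    have h4 := congrArg (padicNorm 2) h
    rw [padicNorm.mul, hY, mul_one, hNR] at h4
    have ht0 : t ≠ 0 := by
      rintro rfl
      rw [padicNorm.zero, zero_mul] at h4
      exact hpos.ne' h4
    obtain ⟨b, hb⟩ := padicNorm.values_discrete (p := 2) ht0
    have hb' : padicNorm 2 t = (2 : ℚ) ^ (-b) := by
      rw [hb]
      norm_num
    rw [hNX, hb', ← zpow_add₀ (by norm_num : (2 : ℚ) ≠ 0)] at h4
    have := two_zpow_inj h4
    omega
  · have hY : padicNorm 2 (X ^ 2 + 6 * X + 1) = padicNorm 2 X * padicNorm 2 X := by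
      have h3 : padicNorm 2 (X ^ 2 + 6 * X) = padicNorm 2 X * padicNorm 2 X := by
        have h5 : padicNorm 2 (6 * X) < padicNorm 2 (X ^ 2) := by
          rw [hX2, h6X]
          nlinarith
        rw [padicNorm.add_eq_max_of_ne h5.ne', hX2]
        rw [hX2] at h5
        exact max_eq_left h5.le
      have h5 : padicNorm 2 (1 : ℚ) < padicNorm 2 (X ^ 2 + 6 * X) := by
        rw [hone, h3]
        nlinarith
      rw [padicNorm.add_eq_max_of_ne h5.ne', h3]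
      rw [h3] at h5
      exact max_eq_left h5.le
    have h4 := congrArg (padicNorm 2) h
    rw [padicNorm.mul, hY, hNR] at h4
    have ht0 : t ≠ 0 := by
      rintro rfl
      rw [padicNorm.zero, zero_mul] at h4
      have : 0 < padicNorm 2 X * (padicNorm 2 X * padicNorm 2 X) := by positivity
      exact this.ne' h4
    obtain ⟨b, hb⟩ := padicNorm.values_discrete (p := 2) ht0
    have hb' : padicNorm 2 t = (2 : ℚ) ^ (-b) := by
      rw [hb]
      norm_num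
    rw [hNX, hb', ← zpow_add₀ (by norm_num : (2 : ℚ) ≠ 0), ← zpow_add₀ (by norm_num : (2 : ℚ) ≠ 0),
      ← zpow_add₀ (by norm_num : (2 : ℚ) ≠ 0)] at h4
    have := two_zpow_inj h4
    omega

end Pool.Agent.Work.MP_8efaaa_nt.Q7
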