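import Mathlib
import Pool.Agent.Work.MP_8efaaa_nt.Q7.Defs
import Pool.Agent.Work.MP_8efaaa_nt.W14.DYt

/-!
# Q7/Ds2 (S-M): descent to `ℚ`, and the square roots of `2`, `-1`, `-2`

`desc_q`: `t` is fixed by `Gal(F/K)`, so `t = algebraMap K F t0` (`IsGalois.mem_bot_iff_fixed`/`InfiniteGalois.fixedField_bot`; see the models in W14/DYt, W14/DTo or N5). `t0 = r + r' s` with `r, r' ∈ ℚ` (`B6`: `dim = 2`, `s ∉ ℚ`; see `exists_S6` or W14/DTo). `κ t = r - r' (algebraMap s)` (`hs : κ s = -s`). `κ t = t`: `r' s = 0`; `κ t = -t`: `r = 0`.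
`root2`, `rooti`, `rootm2`: `ζ^8 = 1`; the power `n` of `ζ` depends on `n % 8` only; `θ = ζ + ζ^7`, `ζ^2`, `ζ + ζ^3`.
-/

set_option autoImplicit false

namespace Pool.Agent.Work.MP_8efaaa_nt.Q7

open NumberField Pool.Agent.Work.MP_8efaaa_nt.R Pool.Agent.Work.MP_8efaaa_nt.N5
  Pool.Agent.Work.MP_8efaaa_nt.K6 Pool.Agent.Work.MP_8efaaa_nt.W14
  Pool.Agent.Work.MP_8efaaa_nt.W6
open scoped Classical nonZeroDivisors

theorem desc_q {K F : Type*} [Field K] [NumberField K] [Field F] [NumberField F] [Algebra K F]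
    [FiniteDimensional K F] [IsGalois K F] {a : ℕ} {s : K} (hb : B6 K a s)
    {κ : F ≃ₐ[ℚ] F} (hκ : κ (algebraMap K F s) = -algebraMap K F s) {t : F}
    (ht : ∀ σ : F ≃ₐ[K] F, σ t = t) :
    (κ t = t → ∃ r : ℚ, t = (r : F)) ∧
      (κ t = -t → ∃ r : ℚ, t = (r : F) * algebraMap K F s) := by
  have ha0 : 0 < a := by
    have := hb.mod
    omega
  have h1 : t ∈ (⊥ : IntermediateField K F) := (IsGalois.mem_bot_iff_fixed t).2 ht
  rw [IntermediateField.mem_bot] at h1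
  obtain ⟨t0, rfl⟩ := h1
  obtain ⟨p, q, rfl⟩ :=
    Pool.Agent.Work.MP_787500_nt.Quad.exists_coords hb.dim hb.sq ha0 t0
  have hs0 : algebraMap K F s ≠ 0 := by
    intro h0
    have h2 : s = 0 := (map_eq_zero (algebraMap K F)).1 h0
    have h3 := hb.sq
    rw [h2] at h3
    have h4 : (a : K) = 0 := by linear_combination h3
    have h5 : a = 0 := by exact_mod_cast h4
    omega
  have e1 : algebraMap K F ((p : K) + q * s) = (p : F) + q * algebraMap K F s := by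
    rw [map_add, map_mul, map_ratCast, map_ratCast]
  have e2 : κ (algebraMap K F ((p : K) + q * s)) = (p : F) - q * algebraMap K F s := by
    rw [e1, map_add, map_mul, map_ratCast, map_ratCast, hκ]
    ring
  constructor
  · intro h
    rw [e2, e1] at h
    have h3 : (2 : F) * ((q : F) * algebraMap K F s) = 0 := by linear_combination -h
    have h4 : (q : F) * algebraMap K F s = 0 :=
      (mul_eq_zero.1 h3).resolve_left two_ne_zero
    exact ⟨p, by rw [e1, h4, add_zero]⟩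
  · intro h
    rw [e2, e1] at h
    have h3 : (2 : F) * (p : F) = 0 := by linear_combination h
    have h4 : (p : F) = 0 := (mul_eq_zero.1 h3).resolve_left two_ne_zero
    exact ⟨q, by rw [e1, h4, zero_add]⟩

theorem roots8 {F : Type*} [Field F] [CharZero F] {ζ : F} (hz : ζ ^ 4 = -1) :
    (ζ + ζ ^ 7) ^ 2 = 2 ∧ (ζ ^ 2) ^ 2 = -1 ∧ (ζ + ζ ^ 3) ^ 2 = -2 ∧ ζ + ζ ^ 7 ≠ 0 ∧
      ζ ^ 2 ≠ 0 ∧ ζ + ζ ^ 3 ≠ 0 ∧
      ∀ (k0 : Type*) [Field k0] [Algebra k0 F] (σ : F ≃ₐ[k0] F) (n : ℕ), n % 2 = 1 →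
        σ ζ = ζ ^ n →
        σ (ζ + ζ ^ 7) = (if n % 8 = 1 ∨ n % 8 = 7 then (1 : F) else -1) * (ζ + ζ ^ 7) ∧
        σ (ζ ^ 2) = (if n % 4 = 1 then (1 : F) else -1) * ζ ^ 2 ∧
        σ (ζ + ζ ^ 3) = (if n % 8 = 1 ∨ n % 8 = 3 then (1 : F) else -1) * (ζ + ζ ^ 3) := by
  have hz8 : ζ ^ 8 = 1 := by linear_combination (ζ ^ 4 - 1) * hz
  have r1 : (ζ + ζ ^ 7) ^ 2 = 2 := by
    linear_combination (ζ ^ 2 * (ζ ^ 8 - ζ ^ 4 + 1) + 2 * (ζ ^ 4 - 1)) * hz
  have r2 : (ζ ^ 2) ^ 2 = -1 := by linear_combination hz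
  have r3 : (ζ + ζ ^ 3) ^ 2 = -2 := by linear_combination (ζ ^ 2 + 2) * hz
  have h20 : (2 : F) ≠ 0 := two_ne_zero
  refine ⟨r1, r2, r3, ?_, ?_, ?_, ?_⟩
  · intro h
    rw [h] at r1
    apply h20
    rw [← r1]
    ring
  · intro h
    rw [h] at r2
    have h1 : (1 : F) = 0 := by linear_combination r2
    exact one_ne_zero h1
  · intro h
    rw [h] at r3
    apply h20
    linear_combination r3
  · intro k0 _ _ σ n hn hσ
    have hp : ζ ^ n = ζ ^ (n % 8) := by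
      conv_lhs => rw [← Nat.div_add_mod n 8, pow_add, pow_mul, hz8, one_pow, one_mul]
    rw [hp] at hσ
    have a1 : σ (ζ + ζ ^ 7) = σ ζ + (σ ζ) ^ 7 := by rw [map_add, map_pow]
    have a2 : σ (ζ ^ 2) = (σ ζ) ^ 2 := by rw [map_pow]
    have a3 : σ (ζ + ζ ^ 3) = σ ζ + (σ ζ) ^ 3 := by rw [map_add, map_pow]
    rw [a1, a2, a3]
    have h4 : n % 8 = 1 ∨ n % 8 = 3 ∨ n % 8 = 5 ∨ n % 8 = 7 := by omega
    rcases h4 with h | h | h | h
    · rw [h, pow_one] at hσ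
      rw [hσ, if_pos (Or.inl h), if_pos (show n % 4 = 1 by omega), if_pos (Or.inl h)]
      exact ⟨by ring, by ring, by ring⟩
    · rw [h] at hσ
      rw [hσ, if_neg (show ¬ (n % 8 = 1 ∨ n % 8 = 7) by omega),
        if_neg (show ¬ n % 4 = 1 by omega), if_pos (Or.inr h)]
      refine ⟨?_, ?_, ?_⟩
      · linear_combination (ζ * (ζ ^ 16 - ζ ^ 12 + ζ ^ 8 - ζ ^ 4 + 1) + ζ ^ 3) * hz
      · linear_combination ζ ^ 2 * hz
      · linear_combination ζ * (ζ ^ 4 - 1) * hz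
    · have h5 : σ ζ = -ζ := by
        rw [hσ, h]
        linear_combination ζ * hz
      rw [h5, if_neg (show ¬ (n % 8 = 1 ∨ n % 8 = 7) by omega),
        if_pos (show n % 4 = 1 by omega), if_neg (show ¬ (n % 8 = 1 ∨ n % 8 = 3) by omega)]
      exact ⟨by ring, by ring, by ring⟩
    · have h5 : σ ζ = -ζ ^ 3 := by
        rw [hσ, h]
        linear_combination ζ ^ 3 * hz
      rw [h5, if_pos (Or.inr h), if_neg (show ¬ n % 4 = 1 by omega),
        if_neg (show ¬ (n % 8 = 1 ∨ n % 8 = 3) by omega)]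
      refine ⟨?_, ?_, ?_⟩
      · linear_combination -(ζ * (ζ ^ 16 - ζ ^ 12 + ζ ^ 8 - ζ ^ 4 + 1) + ζ ^ 3) * hz
      · linear_combination ζ ^ 2 * hz
      · linear_combination -(ζ * (ζ ^ 4 - 1)) * hz

end Pool.Agent.Work.MP_8efaaa_nt.Q7
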