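import Mathlib

/-!
# Q7/Gr1 (M): finite abelian groups of `2`-rank `2`

(1) `prod_two`: pair `g` with `g⁻¹` (`Finset.prod_involution` on the elements with `g * g ≠ 1`). (2) `pow_half`: pair `g` with `C * g⁻¹` (`≠ g`): the product is `C ^ (#G / 2)`; by strong induction on invariant subsets `X` (`∏ g ∈ X, g = C ^ n`, `#X = 2 n`) or: the square of both sides is not enough. (`prod_w`-like.)
(3) `grpH`: `prod_two` for the group `H` (or directly in `G`: pair `g ∈ H`, `g * g ≠ 1` with `g⁻¹`): the product is that of the `g ∈ H` with `g * g = 1`: these are `1, z0, z1, z0 z1` if `z1 ∈ H` (product `1`), `1, z0` if `z1 ∉ H`.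
(4) `grpE`: `B` = the subgroup of squares (range of `g ↦ g * g`), of order `#G / #{g * g = 1} = 16 j / 4 = 4 j`; it contains `1, t, p, t p` (`t = t' t'`, `p = c c`). `x ∈ B`: `x ^ (2 j) = 1`: if `x = y y` with `y ∈ B` then `x ^ (2j) = y ^ (4j) = 1`; otherwise `pow_half` for `B`: `x ^ (2j) = ∏_B g = 1 * t * p * (t p) = 1` (`prod_two`). `b ^ (4 j) = (b b) ^ (2 j) = 1`.
(5) `grpG`: in `G' = G ⧸ ⟨p⟩` (`Subgroup.zpowers p`, order `2`; `#G' = 8 j`), `A' = A.map (mk)`, of order `4 j` (`p ∈ A`; index `2`). `g * g = 1` in `G'` iff the representative has `g * g ∈ {1, p}` iff `g ∈ {1, t, p, t p} ∪ c {1, t, p, t p}`, so the elements of `A'` with square `1` are `1, t` if `c ∉ A` (then `t c ∉ A`) and `1, t, c, t c` if `c ∈ A` (four different elements of `G'`: `c ∉ {1, t, p, t p}` because `c * c = p ≠ 1`). `C` is not a square in `G'`: `C = g g` or `C = g g p = (g c)(g c)`. `pow_half` for `A'` (`C ∈ A'`): `C ^ (2 j) = ∏_(A') = t` in `G'` if `c ∉ A`, `= 1` if `c ∈ A`. Go back to `G`.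
(6) `grpF`: `b ∈ A`, `b ∈ B`: `b = y y`, `b ^ (2j) = y ^ (4j) = 1` (`grpE`). `b ∈ A`, `b ∉ B`: `b` is not a square (squares are in `B`: index `2`), `grpG` for `A`, `c ∈ A`. `b ∉ A`, `b ∈ B`: not a square, `grpG` for `B`, `c ∉ B`. `b ∉ A`, `b ∉ B`: `b c ∉ A`, `b c ∈ B`, so `(b c) ^ (2j)` is `t` or `t p`, and `c ^ (2j) ∈ {1, p}` (`c ∈ A`, `c ∉ B`: the second case).
-/

set_option autoImplicit false

namespace Pool.Agent.Work.MP_8efaaa_nt.Q7

open scoped Classical

private theorem pairs {G : Type*} [CommGroup G] (C : G) :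
    ∀ (N : ℕ) (X : Finset G), X.card = N → (∀ g ∈ X, C * g⁻¹ ∈ X) → (∀ g ∈ X, g * g ≠ C) →
      ∃ n, X.card = 2 * n ∧ ∏ g ∈ X, g = C ^ n := by
  intro N
  induction N using Nat.strong_induction_on with
  | _ N ih =>
    intro X hN h1 h2
    rcases X.eq_empty_or_nonempty with h3 | ⟨g, hg⟩
    · exact ⟨0, by rw [h3]; rfl, by rw [h3, Finset.prod_empty, pow_zero]⟩
    · have hg' : C * g⁻¹ ∈ X := h1 g hg
      have hne : C * g⁻¹ ≠ g := by
        intro h
        apply h2 g hg
        nth_rewrite 2 [← h]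
        rw [mul_comm C, mul_inv_cancel_left]
      have hm : C * g⁻¹ ∈ X.erase g := Finset.mem_erase.2 ⟨hne, hg'⟩
      have hc1 : (X.erase g).card + 1 = X.card := Finset.card_erase_add_one hg
      have hc2 : ((X.erase g).erase (C * g⁻¹)).card + 1 = (X.erase g).card :=
        Finset.card_erase_add_one hm
      obtain ⟨n, hn, hp⟩ := ih ((X.erase g).erase (C * g⁻¹)).card (by omega)
        ((X.erase g).erase (C * g⁻¹)) rfl (by
          intro x hx
          rw [Finset.mem_erase, Finset.mem_erase] at hx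
          obtain ⟨hx1, hx2, hx3⟩ := hx
          rw [Finset.mem_erase, Finset.mem_erase]
          refine ⟨?_, ?_, h1 x hx3⟩
          · intro h
            exact hx2 (inv_injective (mul_left_cancel h))
          · intro h
            apply hx1
            rw [← h, mul_inv, inv_inv, mul_inv_cancel_left])
        (fun x hx => h2 x (Finset.mem_of_mem_erase (Finset.mem_of_mem_erase hx)))
      refine ⟨n + 1, by omega, ?_⟩
      rw [← Finset.mul_prod_erase X (fun g => g) hg,
        ← Finset.mul_prod_erase (X.erase g) (fun g => g) hm, hp, ← mul_assoc, mul_comm g,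
        inv_mul_cancel_right, pow_succ, mul_comm]

private theorem sub_half {G : Type*} [CommGroup G] [Fintype G] (H : Subgroup G) {C : G}
    (hCH : C ∈ H) (hC : ∀ g ∈ H, g * g ≠ C) {n : ℕ} (hn : Nat.card H = 2 * n) :
    C ^ n = ∏ g ∈ Finset.univ.filter (· ∈ H), g := by
  obtain ⟨m, h1, h2⟩ := pairs C _ (Finset.univ.filter (fun g => g ∈ H)) rfl (by
    intro g hg
    rw [Finset.mem_filter] at hg ⊢
    exact ⟨Finset.mem_univ _, H.mul_mem hCH (H.inv_mem hg.2)⟩)
    (fun g hg => hC g (Finset.mem_filter.1 hg).2)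
  have h3 : (Finset.univ.filter (fun g => g ∈ H)).card = Nat.card H := by
    rw [Nat.card_eq_fintype_card]
    exact (Fintype.card_subtype _).symm
  have h4 : n = m := by omega
  rw [h4, h2]

private theorem sub_two {G : Type*} [CommGroup G] [Fintype G] (H : Subgroup G) :
    ∏ g ∈ Finset.univ.filter (· ∈ H), g =
      ∏ g ∈ (Finset.univ.filter (· ∈ H)).filter (fun g => g * g = 1), g := by
  have h1 := Finset.prod_filter_mul_prod_filter_not (Finset.univ.filter (fun g => g ∈ H))
    (fun g => g * g = 1) (fun g => g)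
  obtain ⟨m, h2, h3⟩ := pairs (1 : G) _
    ((Finset.univ.filter (fun g => g ∈ H)).filter (fun g => ¬ g * g = 1)) rfl (by
      intro g hg
      rw [Finset.mem_filter, Finset.mem_filter] at hg ⊢
      refine ⟨⟨Finset.mem_univ _, H.mul_mem H.one_mem (H.inv_mem hg.1.2)⟩, ?_⟩
      intro h
      apply hg.2
      rw [one_mul, ← mul_inv, inv_eq_one] at h
      exact h)
    (fun g hg => (Finset.mem_filter.1 hg).2)
  rw [h3, one_pow, mul_one] at h1
  exact h1.symm

theorem prod_two {G : Type*} [CommGroup G] [Fintype G] :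
    ∏ g : G, g = ∏ g ∈ Finset.univ.filter (fun g : G => g * g = 1), g := by
  have h1 := Finset.prod_filter_mul_prod_filter_not (Finset.univ : Finset G)
    (fun g => g * g = 1) (fun g => g)
  obtain ⟨m, h2, h3⟩ := pairs (1 : G) _
    ((Finset.univ : Finset G).filter (fun g => ¬ g * g = 1)) rfl (by
      intro g hg
      rw [Finset.mem_filter] at hg ⊢
      refine ⟨Finset.mem_univ _, ?_⟩
      intro h
      apply hg.2
      rw [one_mul, ← mul_inv, inv_eq_one] at h
      exact h)
    (fun g hg => (Finset.mem_filter.1 hg).2)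
  rw [h3, one_pow, mul_one] at h1
  exact h1.symm

theorem pow_half {G : Type*} [CommGroup G] [Fintype G] {C : G} (hC : ∀ g : G, g * g ≠ C) {n : ℕ}
    (hn : Fintype.card G = 2 * n) : C ^ n = ∏ g : G, g := by
  obtain ⟨m, h1, h2⟩ := pairs C _ (Finset.univ : Finset G) rfl (fun g _ => Finset.mem_univ _)
    (fun g _ => hC g)
  rw [Finset.card_univ] at h1
  have h4 : n = m := by omega
  rw [h4, h2]

theorem grpH {G : Type*} [CommGroup G] [Fintype G] {H : Subgroup G} {z0 z1 : G} (hz0 : z0 ∈ H)
    (h01 : z0 ≠ 1) (h11 : z1 ≠ 1) (h10 : z1 ≠ z0)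
    (hG : ∀ g : G, g * g = 1 ↔ g = 1 ∨ g = z0 ∨ g = z1 ∨ g = z0 * z1) :
    ∏ g ∈ Finset.univ.filter (· ∈ H), g = if z1 ∈ H then 1 else z0 := by
  have hz00 : z0 * z0 = 1 := (hG z0).2 (Or.inr (Or.inl rfl))
  have hz11 : z1 * z1 = 1 := (hG z1).2 (Or.inr (Or.inr (Or.inl rfl)))
  have e1 : z0 * z1 ≠ 1 := by
    intro h
    apply h10
    have h2 : z0 * z1 = z0 * z0 := h.trans hz00.symm
    exact mul_left_cancel h2
  have e2 : z0 * z1 ≠ z0 := by
    intro h
    exact h11 (mul_eq_left.1 h)
  have e3 : z0 * z1 ≠ z1 := by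
    intro h
    exact h01 (mul_eq_right.1 h)
  rw [sub_two]
  split_ifs with h
  · have h1 : (Finset.univ.filter (fun g => g ∈ H)).filter (fun g => g * g = 1) =
        {1, z0, z1, z0 * z1} := by
      ext g
      rw [Finset.mem_filter, Finset.mem_filter]
      simp only [Finset.mem_univ, true_and, Finset.mem_insert, Finset.mem_singleton]
      rw [hG]
      constructor
      · exact fun h => h.2
      · intro h2
        refine ⟨?_, h2⟩
        rcases h2 with rfl | rfl | rfl | rfl
        · exact H.one_mem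
        · exact hz0
        · exact h
        · exact H.mul_mem hz0 h
    rw [h1, Finset.prod_insert, Finset.prod_insert, Finset.prod_insert, Finset.prod_singleton,
      one_mul]
    · rw [← mul_assoc, ← mul_assoc, mul_comm (z0 * z1) z0, ← mul_assoc, hz00, one_mul, hz11]
    · rw [Finset.mem_singleton]
      exact e3.symm
    · simp only [Finset.mem_insert, Finset.mem_singleton, not_or]
      exact ⟨h10.symm, e2.symm⟩
    · simp only [Finset.mem_insert, Finset.mem_singleton, not_or]
      exact ⟨h01.symm, h11.symm, e1.symm⟩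
  · have h1 : (Finset.univ.filter (fun g => g ∈ H)).filter (fun g => g * g = 1) = {1, z0} := by
      ext g
      rw [Finset.mem_filter, Finset.mem_filter]
      simp only [Finset.mem_univ, true_and, Finset.mem_insert, Finset.mem_singleton]
      rw [hG]
      constructor
      · rintro ⟨h2, h3 | h3 | h3 | h3⟩
        · exact Or.inl h3
        · exact Or.inr h3
        · rw [h3] at h2
          exact absurd h2 h
        · rw [h3] at h2
          exact absurd ((H.mul_mem_cancel_left hz0).1 h2) h
      · rintro (rfl | rfl)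
        · exact ⟨H.one_mem, Or.inl rfl⟩
        · exact ⟨hz0, Or.inr (Or.inl rfl)⟩
    rw [h1, Finset.prod_insert, Finset.prod_singleton, one_mul]
    rw [Finset.mem_singleton]
    exact h01.symm

theorem grpE {G : Type*} [CommGroup G] [Finite G] {t p t' c : G} {j : ℕ}
    (hG : Nat.card G = 16 * j) (ht : t ≠ 1) (hp : p ≠ 1) (htp : t ≠ p)
    (hG2 : ∀ g : G, g * g = 1 ↔ g = 1 ∨ g = t ∨ g = p ∨ g = t * p) (ht' : t' * t' = t)
    (hc : c * c = p) (b : G) : b ^ (4 * j) = 1 := by
  haveI : Fintype G := Fintype.ofFinite G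
  obtain ⟨φ, hφ⟩ : ∃ φ : G →* G, ∀ x, φ x = x * x :=
    ⟨powMonoidHom 2, fun x => pow_two x⟩
  have htt : t * t = 1 := (hG2 t).2 (Or.inr (Or.inl rfl))
  have hpp : p * p = 1 := (hG2 p).2 (Or.inr (Or.inr (Or.inl rfl)))
  have hker : Nat.card φ.ker = 4 := by
    have h1 : (φ.ker : Set G) = (({1, t, p, t * p} : Finset G) : Set G) := by
      ext x
      rw [SetLike.mem_coe, MonoidHom.mem_ker, hφ, hG2]
      simp
    have h2 : Nat.card φ.ker = (({1, t, p, t * p} : Finset G) : Set G).ncard := by
      rw [← h1]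
      rfl
    rw [h2, Set.ncard_coe_finset, Finset.card_insert_of_notMem, Finset.card_insert_of_notMem,
      Finset.card_insert_of_notMem, Finset.card_singleton]
    · rw [Finset.mem_singleton]
      intro h
      exact ht (mul_eq_right.1 h.symm)
    · simp only [Finset.mem_insert, Finset.mem_singleton, not_or]
      refine ⟨htp, ?_⟩
      intro h
      exact hp (mul_eq_left.1 h.symm)
    · simp only [Finset.mem_insert, Finset.mem_singleton, not_or]
      refine ⟨ht.symm, hp.symm, ?_⟩
      intro h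
      apply htp
      have h3 : t * p = t * t := h.symm.trans htt.symm
      exact (mul_left_cancel h3).symm
  have hB : Nat.card φ.range = 2 * (2 * j) := by
    have h1 := Subgroup.card_mul_index φ.ker
    rw [Subgroup.index_ker, hker, hG] at h1
    omega
  have hx : ∀ x ∈ φ.range, x ^ (2 * j) = 1 := by
    intro x hx
    by_cases h1 : ∃ y ∈ φ.range, y * y = x
    · obtain ⟨y, hy, rfl⟩ := h1
      have h2 : (⟨y, hy⟩ : φ.range) ^ Nat.card φ.range = 1 := pow_card_eq_one'
      have h3 : y ^ Nat.card φ.range = 1 := congrArg Subtype.val h2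
      rw [← pow_two, ← pow_mul, ← hB]
      exact h3
    · have h2 := sub_half φ.range hx (fun g hg h3 => h1 ⟨g, hg, h3⟩) hB
      have h3 : t ∈ φ.range := ⟨t', by rw [hφ, ht']⟩
      have h4 : p ∈ φ.range := ⟨c, by rw [hφ, hc]⟩
      rw [h2, grpH (z0 := t) (z1 := p) h3 ht hp htp.symm hG2, if_pos h4]
  have h1 : b ^ (4 * j) = (b * b) ^ (2 * j) := by
    rw [← pow_two, ← pow_mul]
    congr 1
    ring
  rw [h1]
  exact hx _ ⟨b, hφ b⟩

theorem grpG {G : Type*} [CommGroup G] [Finite G] {A : Subgroup G} (hA : A.index = 2)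
    {t p c : G} {j : ℕ} (hG : Nat.card G = 16 * j) (ht : t ≠ 1) (hp : p ≠ 1) (htp : t ≠ p)
    (hG2 : ∀ g : G, g * g = 1 ↔ g = 1 ∨ g = t ∨ g = p ∨ g = t * p) (htA : t ∈ A) (hpA : p ∈ A)
    (hc : c * c = p) {C : G} (hC : C ∈ A) (hCn : ∀ g : G, g * g ≠ C) :
    (c ∈ A → C ^ (2 * j) = 1 ∨ C ^ (2 * j) = p) ∧
      (c ∉ A → C ^ (2 * j) = t ∨ C ^ (2 * j) = t * p) := by
  have htt : t * t = 1 := (hG2 t).2 (Or.inr (Or.inl rfl))
  have hpp : p * p = 1 := (hG2 p).2 (Or.inr (Or.inr (Or.inl rfl)))
  have hz : ∀ x : G, x ∈ Subgroup.zpowers p ↔ x = 1 ∨ x = p := by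
    intro x
    rw [Subgroup.mem_zpowers_iff]
    constructor
    · rintro ⟨k, rfl⟩
      rcases Int.even_or_odd' k with ⟨l, rfl | rfl⟩
      · left
        rw [zpow_mul, zpow_two, hpp, one_zpow]
      · right
        rw [zpow_add, zpow_mul, zpow_two, hpp, one_zpow, one_mul, zpow_one]
    · rintro (rfl | rfl)
      · exact ⟨0, zpow_zero _⟩
      · exact ⟨1, zpow_one _⟩
  have hmk : ∀ x y : G, (QuotientGroup.mk' (Subgroup.zpowers p) x =
      QuotientGroup.mk' (Subgroup.zpowers p) y) ↔ y = x ∨ y = x * p := by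
    intro x y
    rw [QuotientGroup.mk'_apply, QuotientGroup.mk'_apply, QuotientGroup.eq, hz,
      inv_mul_eq_one, inv_mul_eq_iff_eq_mul]
    exact or_congr eq_comm Iff.rfl
  have hAp : Subgroup.zpowers p ≤ A := by
    rw [Subgroup.zpowers_le]
    exact hpA
  haveI : Fintype (G ⧸ Subgroup.zpowers p) := Fintype.ofFinite _
  obtain ⟨π, hπ⟩ : ∃ π : G →* G ⧸ Subgroup.zpowers p, π = QuotientGroup.mk' (Subgroup.zpowers p) :=
    ⟨_, rfl⟩
  rw [← hπ] at hmk
  have hπs : Function.Surjective π := by
    rw [hπ]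
    exact QuotientGroup.mk'_surjective _
  have hπk : π.ker = Subgroup.zpowers p := by
    rw [hπ]
    exact QuotientGroup.ker_mk' _
  have hcardz : Nat.card (Subgroup.zpowers p) = 2 := by
    rw [Nat.card_zpowers]
    exact orderOf_eq_prime (by rw [pow_two, hpp]) hp
  have hcardq : Nat.card (G ⧸ Subgroup.zpowers p) = 8 * j := by
    have h1 := Subgroup.card_mul_index (Subgroup.zpowers p)
    rw [hcardz, hG] at h1
    have h2 : (Subgroup.zpowers p).index = Nat.card (G ⧸ Subgroup.zpowers p) := rfl
    omega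
  have hcA : (A.map π).index = 2 := by
    rw [Subgroup.index_map_eq A hπs (by rw [hπk]; exact hAp), hA]
  have hcardA : Nat.card (A.map π) = 2 * (2 * j) := by
    have h1 := Subgroup.card_mul_index (A.map π)
    rw [hcA, hcardq] at h1
    omega
  have hmemA : ∀ x, π x ∈ A.map π ↔ x ∈ A := by
    intro x
    constructor
    · rintro ⟨y, hy, hyx⟩
      rcases (hmk y x).1 hyx with h | h
      · rw [h]
        exact hy
      · rw [h]
        exact A.mul_mem hy hpA
    · intro h
      exact ⟨x, h, rfl⟩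
  have hCn' : ∀ g ∈ A.map π, g * g ≠ π C := by
    intro g _ h
    obtain ⟨x, rfl⟩ := hπs g
    rw [← map_mul] at h
    rcases (hmk _ _).1 h with h1 | h1
    · exact hCn x h1.symm
    · apply hCn (x * c)
      rw [mul_mul_mul_comm, hc, h1]
  have hprod := sub_half (A.map π) ((hmemA C).2 hC) hCn' hcardA
  have hπt : π t ≠ 1 := by
    intro h
    rw [← map_one π] at h
    rcases (hmk _ _).1 h with h1 | h1
    · exact ht h1.symm
    · apply htp
      have h2 : t * p = t * t := h1.symm.trans htt.symm
      exact (mul_left_cancel h2).symm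
  have hcne : c * c ≠ 1 := by
    rw [hc]
    exact hp
  have hπc : π c ≠ 1 := by
    intro h
    rw [← map_one π] at h
    rcases (hmk _ _).1 h with h1 | h1
    · apply hcne
      rw [← h1, one_mul]
    · apply hcne
      have h2 : c = p := by
        have h3 : c * p = p * p := h1.symm.trans hpp.symm
        exact mul_right_cancel h3
      rw [h2, hpp]
  have hπct : π c ≠ π t := by
    intro h
    rcases (hmk _ _).1 h with h1 | h1
    · apply hcne
      rw [← h1, htt]
    · apply hcne
      have h2 : c = t * p := by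
        rw [h1, mul_assoc, hpp, mul_one]
      rw [h2, mul_mul_mul_comm, htt, hpp, one_mul]
  have hG2' : ∀ g : G ⧸ Subgroup.zpowers p, g * g = 1 ↔ g = 1 ∨ g = π t ∨ g = π c ∨
      g = π t * π c := by
    intro g
    obtain ⟨x, rfl⟩ := hπs g
    constructor
    · intro h
      rw [← map_mul, ← map_one π] at h
      have key : ∀ y : G, y * y = 1 → π y = 1 ∨ π y = π t := by
        intro y hy
        rcases (hG2 y).1 hy with h2 | h2 | h2 | h2
        · left
          rw [h2, map_one]
        · right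
          rw [h2]
        · left
          rw [← map_one π]
          apply (hmk _ _).2
          right
          rw [h2, hpp]
        · right
          apply (hmk _ _).2
          right
          rw [h2, mul_assoc, hpp, mul_one]
      rcases (hmk _ _).1 h with h1 | h1
      · rcases key x h1.symm with h2 | h2
        · exact Or.inl h2
        · exact Or.inr (Or.inl h2)
      · have h3 : x * x = p := by
          have h4 : x * x * p = p * p := h1.symm.trans hpp.symm
          exact mul_right_cancel h4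
        have h4 : (x * c) * (x * c) = 1 := by
          rw [mul_mul_mul_comm, h3, hc, hpp]
        have h5 : π (c * c) = 1 := by
          rw [← map_one π]
          apply (hmk _ _).2
          right
          rw [hc, hpp]
        have h6 : π x = π (x * c) * π c := by
          rw [← map_mul, mul_assoc, map_mul, h5, mul_one]
        rcases key _ h4 with h2 | h2
        · right; right; left
          rw [h6, h2, one_mul]
        · right; right; right
          rw [h6, h2]
    · have hcc : π c * π c = 1 := by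
        rw [← map_mul, ← map_one π]
        apply (hmk _ _).2
        right
        rw [hc, hpp]
      have htt' : π t * π t = 1 := by
        rw [← map_mul, htt, map_one]
      rintro (h | h | h | h)
      · rw [h, one_mul]
      · rw [h, htt']
      · rw [h, hcc]
      · rw [h, mul_mul_mul_comm, htt', hcc, one_mul]
  have hval := grpH (H := A.map π) (z0 := π t) (z1 := π c) ((hmemA t).2 htA) hπt hπc hπct hG2'
  rw [hval, ← map_pow] at hprod
  constructor
  · intro hcA'
    rw [if_pos ((hmemA c).2 hcA'), ← map_one π] at hprod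
    rcases (hmk _ _).1 hprod with h | h
    · exact Or.inl h.symm
    · right
      have h3 : C ^ (2 * j) * p = p * p := h.symm.trans hpp.symm
      exact mul_right_cancel h3
  · intro hcA'
    rw [if_neg (fun h => hcA' ((hmemA c).1 h))] at hprod
    rcases (hmk _ _).1 hprod with h | h
    · exact Or.inl h.symm
    · right
      rw [h, mul_assoc, hpp, mul_one]

theorem grpF {G : Type*} [CommGroup G] [Finite G] {A B : Subgroup G} (hA : A.index = 2)
    (hB : B.index = 2) {t p t' c : G} {j : ℕ} (hG : Nat.card G = 16 * j) (ht : t ≠ 1)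
    (hp : p ≠ 1) (htp : t ≠ p)
    (hG2 : ∀ g : G, g * g = 1 ↔ g = 1 ∨ g = t ∨ g = p ∨ g = t * p) (htA : t ∈ A) (hpA : p ∈ A)
    (htB : t ∈ B) (hpB : p ∈ B) (hAB : ∀ g, g ∈ A → g ∈ B → ∃ y, g = y * y)
    (ht' : t' * t' = t) (hc : c * c = p) (hcA : c ∈ A) (hcB : c ∉ B) (b : G) :
    (b ∈ A → b ^ (2 * j) = 1 ∨ b ^ (2 * j) = p) ∧
      (b ∉ A → b ^ (2 * j) = t ∨ b ^ (2 * j) = t * p) := by
  have hpp : p * p = 1 := (hG2 p).2 (Or.inr (Or.inr (Or.inl rfl)))
  have sqA : ∀ g, g * g ∈ A := fun g => Subgroup.mul_self_mem_of_index_two hA g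
  have sqB : ∀ g, g * g ∈ B := fun g => Subgroup.mul_self_mem_of_index_two hB g
  have h1 : ∀ x : G, x ∈ A → x ^ (2 * j) = 1 ∨ x ^ (2 * j) = p := by
    intro x hx
    by_cases hxB : x ∈ B
    · obtain ⟨y, rfl⟩ := hAB x hx hxB
      left
      have h2 := grpE hG ht hp htp hG2 ht' hc y
      rw [← pow_two, ← pow_mul, ← h2]
      congr 1
      ring
    · exact (grpG hA hG ht hp htp hG2 htA hpA hc hx (fun g h => hxB (h ▸ sqB g))).1 hcA
  have h2 : ∀ x : G, x ∉ A → x ∈ B → x ^ (2 * j) = t ∨ x ^ (2 * j) = t * p := by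
    intro x hx hxB
    exact (grpG hB hG ht hp htp hG2 htB hpB hc hxB (fun g h => hx (h ▸ sqA g))).2 hcB
  refine ⟨h1 b, fun hb => ?_⟩
  by_cases hbB : b ∈ B
  · exact h2 b hb hbB
  · have h3 : b * c ∉ A := fun h => hb ((A.mul_mem_cancel_right hcA).1 h)
    have h4 : b * c ∈ B := by
      rw [Subgroup.mul_mem_iff_of_index_two hB]
      exact iff_of_false hbB hcB
    have h5 := h2 _ h3 h4
    have h6 := h1 c hcA
    rw [mul_pow] at h5
    rcases h6 with h6 | h6
    · rw [h6, mul_one] at h5
      exact h5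
    · rw [h6] at h5
      have h7 : b ^ (2 * j) = b ^ (2 * j) * p * p := by
        rw [mul_assoc, hpp, mul_one]
      rcases h5 with h5 | h5
      · right
        rw [h7, h5]
      · left
        rw [h7, h5, mul_assoc, hpp, mul_one]

end Pool.Agent.Work.MP_8efaaa_nt.Q7
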