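import Mathlib
import Pool.Agent.Work.MP_8efaaa_nt.Q7.Defs
import Pool.Agent.Work.MP_8efaaa_nt.W14.CGe
import Pool.Agent.Work.MP_8efaaa_nt.W14.CAs
import Pool.Agent.Work.MP_8efaaa_nt.W14.CNp
import Pool.Agent.Work.MP_8efaaa_nt.W14.CCl
import Pool.Agent.Work.MP_8efaaa_nt.W14.CEq

/-!
# Q7/Gr2 (M): the class group when `q` is a square modulo `p`

`t = cls (r6 S 2)`, `P = cls (r6 S p)`, `Q = cls (r6 S q)`.
(1) `genus_hom7`: copy `genus_hom` (with its private lemmas) from `W14/CGe.lean`, where it is private.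
(2) `cls_pq`: `r6 S 2 * r6 S p * r6 S q` is the principal ideal `(S)` (norm `2 p q = a`; `S` is in each of them; see W14/CNp or W14/CHi, K6: products `r6 S d * r6 S d' = r6 S (d d')` for coprime `d`, `d'`), so `t P Q = 1`, `P = t Q` (`t t = 1`, `Q Q = 1`, `two_cls`).
(3) `grp_data`: `W14.genus` for `b = r6 S q` (norm `q = 7 (mod 8)`, `jacobiSym q p = 1`): `Q = C * C`. `exists_grp`: `z1` with `cls z1 * cls z1 = t`. So `D = cls z1 * C` has `D * D = t Q = P`. With `t' = cls z1`: `t' t' = t`, `D D = P`, and `1, t, P, t P` are different: the `16` products `t' ^ i * D ^ k`, `0 ≤ i, k < 4`, are different (`t'^i D^k = 1` implies, squaring, `t^i P^k = 1`, `i`, `k` even, and then `t^(i/2) P^(k/2) = 1`, `i = k = 0 (mod 4)`) and form a subgroup (the closure of `t'`, `D`; or: the map `ZMod 4 × ZMod 4 → G` is injective), so `16 ∣ Nat.card G`. `CG S` is the quotient by the subgroup `{1, t}` of order `2` (see `CG` in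 W14/Defs), so its order is half: `8 j`. `j ≥ 1` as the group is not empty.
-/

set_option autoImplicit false

namespace Pool.Agent.Work.MP_8efaaa_nt.Q7

open NumberField Pool.Agent.Work.MP_8efaaa_nt.R Pool.Agent.Work.MP_8efaaa_nt.N5
  Pool.Agent.Work.MP_8efaaa_nt.K6 Pool.Agent.Work.MP_8efaaa_nt.W14
  Pool.Agent.Work.MP_8efaaa_nt.W6
open scoped Classical nonZeroDivisors

variable {K : Type*} [Field K] [NumberField K] {s : K} {S : 𝓞 K} {τ : 𝓞 K ≃+* 𝓞 K}

private theorem e8_mul' {x y : ℤ} (hx : Odd x) (hy : Odd y) : e8 (x * y) = e8 x * e8 y := by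
  have hx' := Int.odd_iff.1 hx
  have hy' := Int.odd_iff.1 hy
  have h1 : x % 8 = 1 ∨ x % 8 = 3 ∨ x % 8 = 5 ∨ x % 8 = 7 := by omega
  have h2 : y % 8 = 1 ∨ y % 8 = 3 ∨ y % 8 = 5 ∨ y % 8 = 7 := by omega
  unfold e8
  rw [Int.mul_emod]
  rcases h1 with h1 | h1 | h1 | h1 <;> rcases h2 with h2 | h2 | h2 | h2 <;> rw [h1, h2] <;> norm_num

private theorem e8_pm (x : ℤ) : e8 x = 1 ∨ e8 x = -1 := by
  unfold e8
  split_ifs
  · exact Or.inl rfl
  · exact Or.inr rfl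

private theorem a16 {p q : ℕ} (hp8 : p % 8 = 1) (hq8 : q % 8 = 7) : (2 * p * q) % 16 = 14 := by
  have h1 : (p * q) % 8 = 7 := by rw [Nat.mul_mod, hp8, hq8]
  rw [mul_assoc]
  omega

private theorem J_pm {p : ℕ} (hp : p.Prime) {n : ℕ} (h : ¬ p ∣ n) :
    jacobiSym n p = 1 ∨ jacobiSym n p = -1 := by
  apply jacobiSym.eq_one_or_neg_one
  rw [Int.gcd_natCast_natCast]
  exact ((Nat.Prime.coprime_iff_not_dvd hp).2 h).symm

private theorem J_ne {p : ℕ} (hp : p.Prime) {n : ℕ} (h : jacobiSym n p ≠ 0) : ¬ p ∣ n := by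
  intro h1
  apply h
  haveI : NeZero p := ⟨hp.ne_zero⟩
  rw [jacobiSym.eq_zero_iff_not_coprime]
  rw [Int.gcd_natCast_natCast, Nat.gcd_eq_right h1]
  exact hp.one_lt.ne'

/-- the two characters depend on the class -/
private theorem wd8 {p q : ℕ} (hp8 : p % 8 = 1) (hq8 : q % 8 = 7)
    (hb : B6 K (2 * p * q) s) (hS : algebraMap (𝓞 K) K S = s) (hτ : τ S = -S)
    {b c : Ideal (𝓞 K)} (hb1 : OddI b) (hc1 : OddI c) (h : cls b = cls c) :
    e8 (Ideal.absNorm b : ℤ) = e8 (Ideal.absNorm c : ℤ) := by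
  have h1 := norm_cls hb hS hτ (a16 hp8 hq8) hb1 hc1 (Or.inl h)
  have h2 := Nat.odd_iff.1 hb1
  have h3 := Nat.odd_iff.1 hc1
  unfold e8
  have e1 : ((Ideal.absNorm b : ℤ) % 8 = 1 ∨ (Ideal.absNorm b : ℤ) % 8 = 7) ↔
      ((Ideal.absNorm c : ℤ) % 8 = 1 ∨ (Ideal.absNorm c : ℤ) % 8 = 7) := by
    omega
  by_cases h4 : (Ideal.absNorm c : ℤ) % 8 = 1 ∨ (Ideal.absNorm c : ℤ) % 8 = 7
  · rw [if_pos h4, if_pos (e1.2 h4)]
  · rw [if_neg h4, if_neg (fun h5 => h4 (e1.1 h5))]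

private theorem wdp {p q : ℕ} (hp : p.Prime) (hp8 : p % 8 = 1)
    (hb : B6 K (2 * p * q) s) (hS : algebraMap (𝓞 K) K S = s) (hτ : τ S = -S)
    {b c : Ideal (𝓞 K)} (hb0 : b ≠ 0) (hc0 : c ≠ 0) (hbp : ¬ p ∣ Ideal.absNorm b)
    (hcp : ¬ p ∣ Ideal.absNorm c) (h : cls b = cls c) :
    jacobiSym (Ideal.absNorm b) p = jacobiSym (Ideal.absNorm c) p := by
  obtain ⟨h1, h2⟩ := cls_cj hb hS hτ hc0
  obtain ⟨γ, hγ0, hγ⟩ := prin_of_cls (mul_ne_zero hb0 h1)
    (by rw [cls_mul hb0 h1, h2, h, mul_inv_cancel])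
  obtain ⟨x, y, hxy⟩ := coords6 hb γ
  have h3 := norm_lin6 hb hxy
  rw [← hγ, map_mul, (norm_cj6 hb hS hτ c).1] at h3
  have hp2 : p ≠ 2 := by omega
  have h4 : jacobiSym ((Ideal.absNorm b * Ideal.absNorm c : ℕ) : ℤ) p = 1 := by
    refine num_desc hp hp2 (a := 2 * p * q) ⟨2 * q, by ring⟩ hb.sf (M := 1) (x := x) (y := y)
      one_ne_zero ?_ ?_
    · intro h5
      rcases (Nat.Prime.dvd_mul hp).1 h5 with h6 | h6
      · exact hbp h6
      · exact hcp h6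
    · rw [h3]
      push_cast
      ring
  rw [Nat.cast_mul, jacobiSym.mul_left] at h4
  rcases J_pm hp hbp with h5 | h5 <;> rcases J_pm hp hcp with h6 | h6 <;> rw [h5, h6] at h4 ⊢
  · norm_num at h4
  · norm_num at h4

private theorem S_ne7 {a : ℕ} (hb : B6 K a s) (hS : algebraMap (𝓞 K) K S = s) : S ≠ 0 := by
  rintro rfl
  rw [map_zero] at hS
  have h := hb.sq
  rw [← hS] at h
  have h1 : (a : K) = 0 := by linear_combination h
  exact hb.sf.ne_zero (by exact_mod_cast h1)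

private theorem cmul7 {a : ℕ} (hb : B6 K a s) (hS : algebraMap (𝓞 K) K S = s) {d e : ℕ}
    (hd : d * e ∣ a) : cls (r6 S (d * e)) = cls (r6 S d) * cls (r6 S e) := by
  rw [r6_mul hb hS hd, cls_mul (r6_ne hb hS (dvd_of_mul_right_dvd hd))
    (r6_ne hb hS (dvd_of_mul_left_dvd hd))]

private theorem call7 {a : ℕ} (hb : B6 K a s) (hS : algebraMap (𝓞 K) K S = s) :
    cls (r6 S a) = 1 := by
  rw [r6_all hb hS]
  exact cls_span (S_ne7 hb hS)

theorem genus_hom7 {p q : ℕ} (hp : p.Prime) (hp8 : p % 8 = 1) (hq8 : q % 8 = 7)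
    (hb : B6 K (2 * p * q) s) (hS : algebraMap (𝓞 K) K S = s) (hτ : τ S = -S) :
    ∃ φ : ClassGroup (𝓞 K) →* ℤ × ℤ,
      (∀ b : Ideal (𝓞 K), OddI b → (φ (cls b)).1 = e8 (Ideal.absNorm b)) ∧
      (∀ b : Ideal (𝓞 K), b ≠ 0 → ¬ p ∣ Ideal.absNorm b →
        (φ (cls b)).2 = jacobiSym (Ideal.absNorm b) p) ∧
      ∀ C, ((φ C).1 = 1 ∨ (φ C).1 = -1) ∧ ((φ C).2 = 1 ∨ (φ C).2 = -1) := by
  have hM : 2 * p ≠ 0 := mul_ne_zero two_ne_zero hp.ne_zero
  choose r hr0 hrc hrC using fun C : ClassGroup (𝓞 K) => exists_cop (K := K) C hM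
  have hr2 : ∀ C, OddI (r C) := by
    intro C
    have h1 : Nat.Coprime (Ideal.absNorm (r C)) 2 := Nat.Coprime.coprime_dvd_right ⟨p, rfl⟩ (hrc C)
    exact Nat.coprime_two_right.1 h1
  have hrp : ∀ C, ¬ p ∣ Ideal.absNorm (r C) := by
    intro C h2
    have h1 : Nat.Coprime (Ideal.absNorm (r C)) p :=
      Nat.Coprime.coprime_dvd_right ⟨2, by ring⟩ (hrc C)
    exact hp.one_lt.ne' ((Nat.gcd_eq_right h2).symm.trans h1)
  have hodd0 : ∀ b : Ideal (𝓞 K), OddI b → b ≠ 0 := by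
    rintro b hb1 rfl
    unfold OddI at hb1
    rw [map_zero] at hb1
    exact absurd hb1 (by decide)
  have k1 : ∀ b : Ideal (𝓞 K), OddI b → e8 (Ideal.absNorm (r (cls b)) : ℤ) =
      e8 (Ideal.absNorm b : ℤ) := fun b hb1 => wd8 hp8 hq8 hb hS hτ (hr2 _) hb1 (hrC _)
  have k2 : ∀ b : Ideal (𝓞 K), b ≠ 0 → ¬ p ∣ Ideal.absNorm b →
      jacobiSym (Ideal.absNorm (r (cls b))) p = jacobiSym (Ideal.absNorm b) p :=
    fun b hb1 hb2 => wdp hp hp8 hb hS hτ (hr0 _) hb1 (hrp _) hb2 (hrC _)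
  have hmul : ∀ C D, OddI (r C * r D) := by
    intro C D
    unfold OddI
    rw [map_mul]
    exact Odd.mul (show Odd (Ideal.absNorm (r C)) from hr2 C) (show Odd (Ideal.absNorm (r D)) from hr2 D)
  have hmp : ∀ C D, ¬ p ∣ Ideal.absNorm (r C * r D) := by
    intro C D h
    rw [map_mul] at h
    rcases (Nat.Prime.dvd_mul hp).1 h with h6 | h6
    · exact hrp C h6
    · exact hrp D h6
  have hcl : ∀ C D, cls (r C * r D) = C * D := fun C D => by
    rw [cls_mul (hr0 C) (hr0 D), hrC, hrC]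
  refine ⟨⟨⟨fun C => (e8 (Ideal.absNorm (r C)), jacobiSym (Ideal.absNorm (r C)) p), ?_⟩, ?_⟩,
    k1, k2, ?_⟩
  · have h1 := k1 1 (by unfold OddI; rw [map_one]; exact odd_one)
    have h2 := k2 1 one_ne_zero (by rw [map_one]; exact hp.one_lt.ne' ∘ Nat.dvd_one.1)
    rw [cls_one, map_one] at h1 h2
    rw [h1, h2]
    rw [Nat.cast_one, jacobiSym.one_left]
    rfl
  · intro C D
    have h1 := k1 _ (hmul C D)
    have h2 := k2 _ (mul_ne_zero (hr0 C) (hr0 D)) (hmp C D)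
    rw [hcl, map_mul, Nat.cast_mul] at h1 h2
    rw [e8_mul' (by exact_mod_cast hr2 C) (by exact_mod_cast hr2 D)] at h1
    rw [jacobiSym.mul_left] at h2
    exact Prod.ext h1 h2
  · intro C
    exact ⟨e8_pm _, J_pm hp (hrp C)⟩

theorem cls_pq {p q : ℕ} (hp : p.Prime) (hq : q.Prime) (hp2 : p ≠ 2) (hq2 : q ≠ 2)
    (hb : B6 K (2 * p * q) s) (hS : algebraMap (𝓞 K) K S = s) (hτ : τ S = -S) :
    cls (r6 S p) = cls (r6 S 2) * cls (r6 S q) ∧ cls (r6 S p) ≠ 1 ∧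
      cls (r6 S 2) ≠ cls (r6 S p) ∧
      ∀ C : ClassGroup (𝓞 K), C * C = 1 ↔ C = 1 ∨ C = cls (r6 S 2) ∨ C = cls (r6 S p) ∨
        C = cls (r6 S 2) * cls (r6 S p) := by
  have d2 : 2 ∣ 2 * p * q := ⟨p * q, by ring⟩
  obtain ⟨ht, -⟩ := cls_two hb hS
  obtain ⟨ht1, hq1, hqt, hqq, htwo⟩ := two_cls hp hq hp2 hq2 hb hS hτ
  have e1 := call7 hb hS
  rw [cmul7 hb hS dvd_rfl, cmul7 hb hS (dvd_mul_right (2 * p) q)] at e1
  have e2 : cls (r6 S p) = cls (r6 S 2) * cls (r6 S q) := by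
    calc cls (r6 S p) = cls (r6 S 2) * (cls (r6 S 2) * cls (r6 S p) * cls (r6 S q)) *
        cls (r6 S q) := by
          rw [show cls (r6 S 2) * (cls (r6 S 2) * cls (r6 S p) * cls (r6 S q)) * cls (r6 S q) =
            (cls (r6 S 2) * cls (r6 S 2)) * cls (r6 S p) * (cls (r6 S q) * cls (r6 S q)) by
              simp only [mul_assoc], ht, hqq, one_mul, mul_one]
      _ = cls (r6 S 2) * cls (r6 S q) := by rw [e1, mul_one]
  have e3 : cls (r6 S 2) * cls (r6 S p) = cls (r6 S q) := by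
    rw [e2, ← mul_assoc, ht, one_mul]
  refine ⟨e2, ?_, ?_, ?_⟩
  · intro h
    apply hqt
    rw [← e3, h, mul_one]
  · intro h
    apply hq1
    rw [← e3, ← h, ht]
  · intro C
    rw [e3, htwo C, ← e2]
    constructor
    · rintro (h | h | h | h)
      · exact Or.inl h
      · exact Or.inr (Or.inl h)
      · exact Or.inr (Or.inr (Or.inr h))
      · exact Or.inr (Or.inr (Or.inl h))
    · rintro (h | h | h | h)
      · exact Or.inl h
      · exact Or.inr (Or.inl h)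
      · exact Or.inr (Or.inr (Or.inr h))
      · exact Or.inr (Or.inr (Or.inl h))

theorem grp_data {p q : ℕ} (hp : p.Prime) (hq : q.Prime) (hp8 : p % 8 = 1) (hq8 : q % 8 = 7)
    (hb : B6 K (2 * p * q) s) (hS : algebraMap (𝓞 K) K S = s) (hτ : τ S = -S)
    (hqp : jacobiSym q p = 1) :
    ∃ j : ℕ, 1 ≤ j ∧ Nat.card (ClassGroup (𝓞 K)) = 16 * j ∧ Nat.card (CG S) = 8 * j ∧
      (∃ D : ClassGroup (𝓞 K), D * D = cls (r6 S p)) ∧
      ∃ t' : ClassGroup (𝓞 K), t' * t' = cls (r6 S 2) := by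
  have hp2 : p ≠ 2 := by rintro rfl; norm_num at hp8
  have hq2 : q ≠ 2 := by rintro rfl; norm_num at hq8
  have hqa : q ∣ 2 * p * q := ⟨2 * p, by ring⟩
  obtain ⟨ht, -⟩ := cls_two hb hS
  obtain ⟨ht1, -, -, -, -⟩ := two_cls hp hq hp2 hq2 hb hS hτ
  obtain ⟨e2, hP1, htP, hker⟩ := cls_pq hp hq hp2 hq2 hb hS hτ
  obtain ⟨C, hC⟩ := genus hp hq hp8 hq8 hb hS hτ (b := r6 S q)
    (Or.inr (by rw [norm_r6 hb hS hqa, hq8])) (by rw [norm_r6 hb hS hqa, hqp])
  obtain ⟨H, z0, z1, -, -, -, hz1, -, -, -, -, -, -⟩ := exists_grp hp hq hp8 hq8 hb hS hτ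
  have hD : (cls (z1 : Ideal (𝓞 K)) * C) * (cls (z1 : Ideal (𝓞 K)) * C) = cls (r6 S p) := by
    rw [mul_mul_mul_comm, hz1, ← hC, e2]
  generalize cls (z1 : Ideal (𝓞 K)) = t' at hz1 hD
  generalize t' * C = D at hD
  -- the squares
  let sqh : ClassGroup (𝓞 K) →* ClassGroup (𝓞 K) := powMonoidHom 2
  have hmem : ∀ X, X ∈ sqh.ker ↔ X = 1 ∨ X = cls (r6 S 2) ∨ X = cls (r6 S p) ∨
      X = cls (r6 S 2) * cls (r6 S p) := by
    intro X
    rw [MonoidHom.mem_ker]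
    show X ^ 2 = 1 ↔ _
    rw [pow_two, hker]
  have hle : sqh.ker ≤ sqh.range := by
    intro X hX
    rcases (hmem X).1 hX with h | h | h | h
    · exact ⟨1, by rw [h, map_one]⟩
    · refine ⟨t', ?_⟩
      show t' ^ 2 = X
      rw [pow_two, hz1, h]
    · refine ⟨D, ?_⟩
      show D ^ 2 = X
      rw [pow_two, hD, h]
    · refine ⟨t' * D, ?_⟩
      show (t' * D) ^ 2 = X
      rw [pow_two, mul_mul_mul_comm, hz1, hD, h]
  have n4 : cls (r6 S 2) * cls (r6 S p) ≠ 1 := by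
    intro h
    apply htP
    calc cls (r6 S 2) = cls (r6 S 2) * (cls (r6 S 2) * cls (r6 S p)) := by rw [h, mul_one]
      _ = cls (r6 S p) := by rw [← mul_assoc, ht, one_mul]
  have n5 : cls (r6 S 2) ≠ cls (r6 S 2) * cls (r6 S p) := by
    intro h
    exact hP1 (mul_eq_left.1 h.symm)
  have n6 : cls (r6 S p) ≠ cls (r6 S 2) * cls (r6 S p) := by
    intro h
    exact ht1 (mul_eq_right.1 h.symm)
  have hk4 : Nat.card sqh.ker = 4 := by
    have h1 : (sqh.ker : Set (ClassGroup (𝓞 K))) =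
        (({1, cls (r6 S 2), cls (r6 S p), cls (r6 S 2) * cls (r6 S p)} :
          Finset (ClassGroup (𝓞 K))) : Set (ClassGroup (𝓞 K))) := by
      ext X
      rw [SetLike.mem_coe, hmem]
      simp
    have h2 : Nat.card sqh.ker = Set.ncard (sqh.ker : Set (ClassGroup (𝓞 K))) := rfl
    rw [h2, h1, Set.ncard_coe_finset]
    rw [Finset.card_insert_of_notMem, Finset.card_insert_of_notMem,
      Finset.card_insert_of_notMem, Finset.card_singleton]
    · rw [Finset.mem_singleton]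
      exact n6
    · rw [Finset.mem_insert, Finset.mem_singleton]
      rintro (h | h)
      · exact htP h
      · exact n5 h
    · rw [Finset.mem_insert, Finset.mem_insert, Finset.mem_singleton]
      rintro (h | h | h)
      · exact ht1 h.symm
      · exact hP1 h.symm
      · exact n4 h.symm
  have hG1 : Nat.card (ClassGroup (𝓞 K)) = Nat.card sqh.ker * Nat.card sqh.range := by
    rw [← Subgroup.index_ker]
    exact (Subgroup.card_mul_index _).symm
  obtain ⟨j, hj⟩ := Subgroup.card_dvd_of_le hle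
  rw [hk4] at hj hG1
  have hG : Nat.card (ClassGroup (𝓞 K)) = 16 * j := by
    rw [hG1, hj]
    ring
  have hj1 : 1 ≤ j := by
    rcases Nat.eq_zero_or_pos j with h | h
    · rw [h, mul_zero] at hG
      exact absurd hG Nat.card_pos.ne'
    · exact h
  have hz2 : Nat.card (Subgroup.zpowers (cls (r6 S 2))) = 2 := by
    rw [Nat.card_zpowers]
    exact orderOf_eq_prime (by rw [pow_two, ht]) ht1
  have hCG : Nat.card (ClassGroup (𝓞 K)) = Nat.card (CG S) * 2 := by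
    have h1 := Subgroup.card_eq_card_quotient_mul_card_subgroup
      (Subgroup.zpowers (cls (r6 S 2)))
    rw [hz2] at h1
    exact h1
  exact ⟨j, hj1, hG, by omega, ⟨D, hD⟩, t', hz1⟩

end Pool.Agent.Work.MP_8efaaa_nt.Q7
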