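import Mathlib
import Pool.Agent.Work.MP_8efaaa_nt.Q7.Defs
import Pool.Agent.Work.MP_8efaaa_nt.Q7.Gr1
import Pool.Agent.Work.MP_8efaaa_nt.Q7.Gr2
import Pool.Agent.Work.MP_8efaaa_nt.W14.CDi
import Pool.Agent.Work.MP_8efaaa_nt.W14.CCo

/-!
# Q7/Gr3 (M): the classes `cls b ^ (2 j)`

`G = ClassGroup (𝓞 K)` (finite), `t = cls (r6 S 2)`, `P = cls (r6 S p)`, `Q = cls (r6 S q)`, `t P = Q` (`cls_pq`, `t t = 1`), `c = cls cp`, `c c = P`. `φ` from `genus_hom7`; `A` = the classes with `(φ C).1 = 1`, `B` = the classes with `(φ C).2 = 1` (kernels of homomorphisms to `{1, -1}`). They have index `2`: there is an ideal of norm `3 (mod 8)` (`exists_b3`), and `exists_b1` (norm `1 (mod 8)`, symbol `-1`; use `¬ p ∣ N b1`, as the symbol is not `0`). `t, P ∈ A ∩ B`: they are squares (`grp_data`), `φ` of a square is `(1, 1)`. `A ∩ B` = squares: choose `b` odd, prime to `p`, of the given class (`exists_cop`, `M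 = 2 p`), `genus`. For an odd ideal `b`: `cls b ∈ A ↔ N b % 8 = 1 or 7` (`e8`).
`exp7`: `grpE`.
`w_iff`: `C = cls wp ∈ A` (`N wp % 8 = 1`), `C` is not a square in `G` (`clM S wp` is not a square in `CG S`). `grpG` for `A`: if `c ∈ A` then `C ^ (2j) ∈ {1, P}`, if `c ∉ A` then `C ^ (2j) ∈ {t, t P}`. `hwp`, `grpH` (`CG S`): if `z1 ∈ H` then `clM S wp ^ (2j) = 1`, so `C ^ (2j) ∈ {1, t}` (`clM_eq` with `1`); if `z1 ∉ H` then it is `clM S z0`, `C ^ (2j) ∈ {cls z0, t cls z0} = {Q, t Q} = {t P, P}` (`cls z0 = Q`: `z0 = (1 + S) r6 S q`, `cls_span`). `1, t, P, t P` are different.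
`gen7`: the symbol `jacobiSym (N cp) q = -1` and `e8 (N cp) * (N cp / p) * (N cp / q) = 1` (`hprod`): exactly one of `c ∈ A`, `c ∈ B` holds: `grpF` for `(A, B)` or `(B, A)`.
-/

set_option autoImplicit false

namespace Pool.Agent.Work.MP_8efaaa_nt.Q7

open NumberField Pool.Agent.Work.MP_8efaaa_nt.R Pool.Agent.Work.MP_8efaaa_nt.N5
  Pool.Agent.Work.MP_8efaaa_nt.K6 Pool.Agent.Work.MP_8efaaa_nt.W14
  Pool.Agent.Work.MP_8efaaa_nt.W6
open scoped Classical nonZeroDivisors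

variable {K : Type*} [Field K] [NumberField K] {s : K} {S : 𝓞 K} {τ : 𝓞 K ≃+* 𝓞 K}

private theorem index_two {G : Type*} [Group G] (f : G →* ℤ) (hf : ∀ g, f g = 1 ∨ f g = -1)
    {g0 : G} (h0 : f g0 = -1) : f.ker.index = 2 := by
  rw [Subgroup.index_eq_two_iff]
  refine ⟨g0, fun b => ?_⟩
  rw [MonoidHom.mem_ker, MonoidHom.mem_ker, map_mul, h0]
  rcases hf b with h | h <;> rw [h] <;> simp

/-- the common data -/
private theorem data7 {p q : ℕ} (hp : p.Prime) (hq : q.Prime) (hp8 : p % 8 = 1)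
    (hq8 : q % 8 = 7)
    (hb : B6 K (2 * p * q) s) (hS : algebraMap (𝓞 K) K S = s) (hτ : τ S = -S)
    (hqp : jacobiSym q p = 1) :
    ∃ A B : Subgroup (ClassGroup (𝓞 K)), A.index = 2 ∧ B.index = 2 ∧
      cls (r6 S 2) ≠ 1 ∧ cls (r6 S p) ≠ 1 ∧ cls (r6 S 2) ≠ cls (r6 S p) ∧
      cls (r6 S 2) * cls (r6 S 2) = 1 ∧
      cls (r6 S 2) * cls (r6 S p) = cls (r6 S q) ∧
      (∀ g : ClassGroup (𝓞 K), g * g = 1 ↔ g = 1 ∨ g = cls (r6 S 2) ∨ g = cls (r6 S p) ∨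
        g = cls (r6 S 2) * cls (r6 S p)) ∧
      cls (r6 S 2) ∈ A ∧ cls (r6 S p) ∈ A ∧ cls (r6 S 2) ∈ B ∧ cls (r6 S p) ∈ B ∧
      (∀ g, g ∈ A → g ∈ B → ∃ y, g = y * y) ∧
      (∃ t' : ClassGroup (𝓞 K), t' * t' = cls (r6 S 2)) ∧
      (∃ c : ClassGroup (𝓞 K), c * c = cls (r6 S p)) ∧
      (∀ b : Ideal (𝓞 K), OddI b → (cls b ∈ A ↔
        (Ideal.absNorm b % 8 = 1 ∨ Ideal.absNorm b % 8 = 7))) ∧
      (∀ b : Ideal (𝓞 K), b ≠ 0 → ¬ p ∣ Ideal.absNorm b →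
        (cls b ∈ B ↔ jacobiSym (Ideal.absNorm b) p = 1)) := by
  obtain ⟨φ, hφ1, hφ2, hφ⟩ := genus_hom7 hp hp8 hq8 hb hS hτ
  obtain ⟨hPQ, hP1, htP, hG2⟩ := cls_pq hp hq (by omega) (by omega) hb hS hτ
  obtain ⟨j, hj1, hj, hj8, ⟨D, hD⟩, t', ht'⟩ := grp_data hp hq hp8 hq8 hb hS hτ hqp
  obtain ⟨b3, hb3⟩ := exists_b3 hp hq hp8 hq8 hb hS
  obtain ⟨b1, hb1, hb1'⟩ := exists_b1 hp hq hp8 hq8 hb hS
  have hodd0 : ∀ b : Ideal (𝓞 K), OddI b → b ≠ 0 := by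
    rintro b hb1 rfl
    unfold OddI at hb1
    rw [map_zero] at hb1
    exact absurd hb1 (by decide)
  have ht1 : cls (r6 S 2) ≠ 1 := by
    intro h
    have h1 : Nat.card (CG S) = Nat.card (ClassGroup (𝓞 K)) := by
      have h2 : Subgroup.zpowers (cls (r6 S 2)) = ⊥ := by
        rw [h]
        exact Subgroup.zpowers_one_eq_bot
      have h3 := Subgroup.card_eq_card_quotient_mul_card_subgroup
        (Subgroup.zpowers (cls (r6 S 2)))
      have h4 : Nat.card (Subgroup.zpowers (cls (r6 S 2))) = 1 := by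
        rw [h2]
        simp
      rw [h3, h4, mul_one]
    omega
  have htt : cls (r6 S 2) * cls (r6 S 2) = 1 := (hG2 _).2 (Or.inr (Or.inl rfl))
  have htP' : cls (r6 S 2) * cls (r6 S p) = cls (r6 S q) := by
    rw [hPQ, ← mul_assoc, htt, one_mul]
  let f1 : ClassGroup (𝓞 K) →* ℤ := (MonoidHom.fst ℤ ℤ).comp φ
  let f2 : ClassGroup (𝓞 K) →* ℤ := (MonoidHom.snd ℤ ℤ).comp φ
  have hf1 : ∀ C, f1 C = (φ C).1 := fun C => rfl
  have hf2 : ∀ C, f2 C = (φ C).2 := fun C => rfl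
  have pm1 : ∀ C, f1 C = 1 ∨ f1 C = -1 := fun C => (hφ C).1
  have pm2 : ∀ C, f2 C = 1 ∨ f2 C = -1 := fun C => (hφ C).2
  have sq1 : ∀ C, f1 (C * C) = 1 := by
    intro C
    rw [map_mul]
    rcases pm1 C with h | h <;> rw [h] <;> norm_num
  have sq2 : ∀ C, f2 (C * C) = 1 := by
    intro C
    rw [map_mul]
    rcases pm2 C with h | h <;> rw [h] <;> norm_num
  have he8 : ∀ n : ℕ, e8 (n : ℤ) = 1 ↔ (n % 8 = 1 ∨ n % 8 = 7) := by
    intro n
    unfold e8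
    constructor
    · intro h
      by_contra h1
      rw [if_neg (by omega)] at h
      exact absurd h (by norm_num)
    · intro h
      exact if_pos (by omega)
  have hA : ∀ b : Ideal (𝓞 K), OddI b → (cls b ∈ f1.ker ↔
      (Ideal.absNorm b % 8 = 1 ∨ Ideal.absNorm b % 8 = 7)) := by
    intro b hbo
    rw [MonoidHom.mem_ker, hf1, hφ1 b hbo]
    exact he8 _
  have hB : ∀ b : Ideal (𝓞 K), b ≠ 0 → ¬ p ∣ Ideal.absNorm b →
      (cls b ∈ f2.ker ↔ jacobiSym (Ideal.absNorm b) p = 1) := by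
    intro b hb0 hbp
    rw [MonoidHom.mem_ker, hf2, hφ2 b hb0 hbp]
  refine ⟨f1.ker, f2.ker, ?_, ?_, ht1, hP1, htP, htt, htP', hG2, ?_, ?_, ?_, ?_, ?_, ⟨t', ht'⟩,
    ⟨D, hD⟩, hA, hB⟩
  · have h3 : OddI b3 := by
      unfold OddI
      rw [Nat.odd_iff]
      omega
    refine index_two f1 pm1 (g0 := cls b3) ?_
    rcases pm1 (cls b3) with h | h
    · have := (hA b3 h3).1 (MonoidHom.mem_ker.2 h)
      omega
    · exact h
  · have h1 : b1 ≠ 0 := by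
      rintro rfl
      rw [map_zero] at hb1
      omega
    have h2 : ¬ p ∣ Ideal.absNorm b1 := by
      intro h
      have : NeZero p := ⟨hp.ne_zero⟩
      have h3 : jacobiSym (Ideal.absNorm b1) p = 0 := by
        rw [jacobiSym.eq_zero_iff_not_coprime, Int.gcd_natCast_natCast, Nat.gcd_eq_right h]
        exact hp.one_lt.ne'
      rw [h3] at hb1'
      exact absurd hb1' (by norm_num)
    refine index_two f2 pm2 (g0 := cls b1) ?_
    rw [hf2, hφ2 b1 h1 h2, hb1']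
  · rw [MonoidHom.mem_ker, ← ht']
    exact sq1 _
  · rw [MonoidHom.mem_ker, ← hD]
    exact sq1 _
  · rw [MonoidHom.mem_ker, ← ht']
    exact sq2 _
  · rw [MonoidHom.mem_ker, ← hD]
    exact sq2 _
  · intro g hgA hgB
    obtain ⟨b, hb0, hbc, rfl⟩ := exists_cop g (M := 2 * p) (mul_ne_zero two_ne_zero hp.ne_zero)
    have ho : OddI b :=
      Nat.coprime_two_right.1 (Nat.Coprime.coprime_dvd_right ⟨p, rfl⟩ hbc)
    have hbp : ¬ p ∣ Ideal.absNorm b := by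
      intro h2
      have h1 : Nat.Coprime (Ideal.absNorm b) p :=
        Nat.Coprime.coprime_dvd_right ⟨2, by ring⟩ hbc
      exact hp.one_lt.ne' ((Nat.gcd_eq_right h2).symm.trans h1)
    exact genus hp hq hp8 hq8 hb hS hτ ((hA b ho).1 hgA) ((hB b hb0 hbp).1 hgB)

theorem exp7 {p q : ℕ} (hp : p.Prime) (hq : q.Prime) (hp8 : p % 8 = 1) (hq8 : q % 8 = 7)
    (hb : B6 K (2 * p * q) s) (hS : algebraMap (𝓞 K) K S = s) (hτ : τ S = -S)
    (hqp : jacobiSym q p = 1) {j : ℕ} (hj : Nat.card (ClassGroup (𝓞 K)) = 16 * j)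
    (C : ClassGroup (𝓞 K)) : C ^ (4 * j) = 1 := by
  obtain ⟨A, B, hA, hB, ht1, hP1, htP, htt, htq, hG2, htA, hPA, htB, hPB, hAB, ⟨t', ht'⟩,
    ⟨D, hD⟩, hA', hB'⟩ := data7 hp hq hp8 hq8 hb hS hτ hqp
  exact grpE hj ht1 hP1 htP hG2 ht' hD C

theorem w_iff {p q : ℕ} (hp : p.Prime) (hq : q.Prime) (hp8 : p % 8 = 1) (hq8 : q % 8 = 7)
    (hb : B6 K (2 * p * q) s) (hS : algebraMap (𝓞 K) K S = s) (hτ : τ S = -S)
    (hqp : jacobiSym q p = 1) {j : ℕ} (hj : Nat.card (ClassGroup (𝓞 K)) = 16 * j)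
    {H : Subgroup (CG S)} {z0 z1 : M13 K} (hz : (z0 : Ideal (𝓞 K)) = Ideal.span {1 + S} * r6 S q)
    (hz0 : clM S z0 ∈ H) (h01 : clM S z0 ≠ 1) (h11 : clM S z1 ≠ 1)
    (h10 : clM S z1 ≠ clM S z0)
    (hG : ∀ g : CG S, g * g = 1 ↔ g = 1 ∨ g = clM S z0 ∨ g = clM S z1 ∨
        g = clM S z0 * clM S z1) [Fintype (CG S)] {wp : M13 K}
    (hw8 : Ideal.absNorm (wp : Ideal (𝓞 K)) % 8 = 1) (hw2 : ∀ g : CG S, g * g ≠ clM S wp)
    (hwp : clM S wp ^ (2 * j) = ∏ g ∈ Finset.univ.filter (· ∈ H), g)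
    {cp : Ideal (𝓞 K)} (hcp : OddI cp) (hcc : cls cp * cls cp = cls (r6 S p)) :
    (clM S z1 ∈ H → (ccM K (wp ^ (2 * j)) = 1 ↔
      Ideal.absNorm cp % 8 = 1 ∨ Ideal.absNorm cp % 8 = 7)) ∧
    (clM S z1 ∉ H → (ccM K (wp ^ (2 * j)) = ccM K z0 * cls (r6 S 2) ↔
      Ideal.absNorm cp % 8 = 1 ∨ Ideal.absNorm cp % 8 = 7)) ∧
    ((ccM K (wp ^ (2 * j)) = 1 ∨ ccM K (wp ^ (2 * j)) = cls (r6 S p)) ↔
      Ideal.absNorm cp % 8 = 1 ∨ Ideal.absNorm cp % 8 = 7) ∧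
    (ccM K (wp ^ (2 * j)) = 1 ∨ ccM K (wp ^ (2 * j)) = cls (r6 S p) ∨
      ccM K (wp ^ (2 * j)) = cls (r6 S 2) ∨ ccM K (wp ^ (2 * j)) = cls (r6 S q)) := by
  obtain ⟨A, B, hA, hB, ht1, hP1, htP, htt, htq, hG2, htA, hPA, htB, hPB, hAB, ⟨t', ht'⟩,
    ⟨D, hD⟩, hA', hB'⟩ := data7 hp hq hp8 hq8 hb hS hτ hqp
  have hwA : cls (wp : Ideal (𝓞 K)) ∈ A := (hA' _ (M13.odd wp.2)).2 (Or.inl hw8)
  have hwn : ∀ g : ClassGroup (𝓞 K), g * g ≠ cls (wp : Ideal (𝓞 K)) := by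
    intro g hg
    apply hw2 (QuotientGroup.mk g)
    show _ = QuotientGroup.mk (cls (wp : Ideal (𝓞 K)))
    rw [← hg]
    rfl
  obtain ⟨g1, g2⟩ := grpG hA hj ht1 hP1 htP hG2 htA hPA hcc hwA hwn
  have hcA := hA' cp hcp
  have hpow : ccM K (wp ^ (2 * j)) = cls (wp : Ideal (𝓞 K)) ^ (2 * j) := by
    rw [map_pow]
    rfl
  rw [← hcA, hpow]
  have e1 := grpH hz0 h01 h11 h10 hG
  have ePQ : cls (r6 S 2) * cls (r6 S q) = cls (r6 S p) := by
    rw [← htq, ← mul_assoc, htt, one_mul]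
  have htP1 : cls (r6 S 2) * cls (r6 S p) ≠ 1 := by
    intro h
    apply htP
    have := congrArg (fun x => cls (r6 S 2) * x) h
    simp only [mul_one] at this
    rw [← mul_assoc, htt, one_mul] at this
    exact this.symm
  have htPP : cls (r6 S 2) * cls (r6 S p) ≠ cls (r6 S p) := by
    intro h
    exact ht1 (mul_eq_right.1 h)
  set X := cls (wp : Ideal (𝓞 K)) ^ (2 * j) with hX
  have hcX : ∀ c : M13 K, clM S wp ^ (2 * j) = clM S c →
      X = cls (c : Ideal (𝓞 K)) ∨ X = cls (r6 S 2) * cls (c : Ideal (𝓞 K)) := by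
    intro c hc
    rw [← map_pow] at hc
    have h := (clM_eq hb hS).1 hc
    have h2 : cls ((wp ^ (2 * j) : M13 K) : Ideal (𝓞 K)) = X := hpow
    rw [h2] at h
    exact h
  refine ⟨?_, ?_, ?_, ?_⟩
  · intro hz1
    have h2 : clM S wp ^ (2 * j) = clM S 1 := by
      rw [hwp, map_one]
      convert e1 using 1
      rw [if_pos hz1]
    have h3 := hcX 1 h2
    have h4 : cls ((1 : M13 K) : Ideal (𝓞 K)) = 1 := cls_one
    rw [h4, mul_one] at h3
    constructor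
    · intro h5
      by_contra h6
      rcases g2 h6 with h7 | h7
      · exact ht1 (h7.symm.trans h5)
      · exact htP1 (h7.symm.trans h5)
    · intro h5
      rcases g1 h5 with h7 | h7
      · exact h7
      · rcases h3 with h8 | h8
        · exact h8
        · exact absurd (h8.symm.trans h7) htP
  · intro hz1
    have h2 : clM S wp ^ (2 * j) = clM S z0 := by
      rw [hwp]
      convert e1 using 1
      rw [if_neg hz1]
    have h3 := hcX z0 h2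
    have hS1 : (1 : 𝓞 K) + S ≠ 0 := by
      intro h
      have h4 : (z0 : Ideal (𝓞 K)) = 0 := by
        rw [hz, h]
        simp
      exact M13.ne z0.2 h4
    have hr0 : r6 S q ≠ 0 := by
      intro h
      apply M13.ne z0.2
      rw [hz, h, mul_zero]
    have hs0 : Ideal.span {1 + S} ≠ (0 : Ideal (𝓞 K)) := by
      intro h
      apply M13.ne z0.2
      rw [hz, h, zero_mul]
    have h4 : cls (z0 : Ideal (𝓞 K)) = cls (r6 S q) := by
      rw [hz, cls_mul hs0 hr0, cls_span hS1, one_mul]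
    have h5 : ccM K z0 = cls (r6 S q) := h4
    rw [h5, mul_comm (cls (r6 S q)), ePQ]
    rw [h4, ePQ] at h3
    constructor
    · intro h5
      by_contra h6
      rcases g2 h6 with h7 | h7
      · exact htP (h7.symm.trans h5)
      · exact htPP (h7.symm.trans h5)
    · intro h5
      rcases h3 with h8 | h8
      · rcases g1 h5 with h7 | h7
        · exact absurd ((htq.trans h8.symm).trans h7) htP1
        · exact h7
      · exact h8
  · constructor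
    · intro h5
      by_contra h6
      rcases g2 h6 with h7 | h7
      · rcases h5 with h5 | h5
        · exact ht1 (h7.symm.trans h5)
        · exact htP (h7.symm.trans h5)
      · rcases h5 with h5 | h5
        · exact htP1 (h7.symm.trans h5)
        · exact htPP (h7.symm.trans h5)
    · exact g1
  · by_cases h6 : cls cp ∈ A
    · rcases g1 h6 with h7 | h7
      · exact Or.inl h7
      · exact Or.inr (Or.inl h7)
    · rcases g2 h6 with h7 | h7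
      · exact Or.inr (Or.inr (Or.inl h7))
      · exact Or.inr (Or.inr (Or.inr (h7.trans htq)))

theorem gen7 {p q : ℕ} (hp : p.Prime) (hq : q.Prime) (hp8 : p % 8 = 1) (hq8 : q % 8 = 7)
    (hb : B6 K (2 * p * q) s) (hS : algebraMap (𝓞 K) K S = s) (hτ : τ S = -S)
    (hqp : jacobiSym q p = 1) {j : ℕ} (hj : Nat.card (ClassGroup (𝓞 K)) = 16 * j)
    {cp : Ideal (𝓞 K)} (hcp : OddI cp) (hcpp : ¬ p ∣ Ideal.absNorm cp)
    (hcc : cls cp * cls cp = cls (r6 S p))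
    (hprod : e8 (Ideal.absNorm cp) * jacobiSym (Ideal.absNorm cp) p *
      jacobiSym (Ideal.absNorm cp) q = 1)
    (hne : jacobiSym (Ideal.absNorm cp) q = -1) :
    ((Ideal.absNorm cp % 8 = 1 ∨ Ideal.absNorm cp % 8 = 7) ∧
      ∀ b : Ideal (𝓞 K), OddI b → ¬ p ∣ Ideal.absNorm b →
        (e8 (Ideal.absNorm b) = 1 ∧ (cls b ^ (2 * j) = 1 ∨ cls b ^ (2 * j) = cls (r6 S p))) ∨
        (e8 (Ideal.absNorm b) = -1 ∧
          (cls b ^ (2 * j) = cls (r6 S 2) ∨ cls b ^ (2 * j) = cls (r6 S q)))) ∨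
    (¬ (Ideal.absNorm cp % 8 = 1 ∨ Ideal.absNorm cp % 8 = 7) ∧
      ∀ b : Ideal (𝓞 K), OddI b → ¬ p ∣ Ideal.absNorm b →
        (jacobiSym (Ideal.absNorm b) p = 1 ∧
          (cls b ^ (2 * j) = 1 ∨ cls b ^ (2 * j) = cls (r6 S p))) ∨
        (jacobiSym (Ideal.absNorm b) p = -1 ∧
          (cls b ^ (2 * j) = cls (r6 S 2) ∨ cls b ^ (2 * j) = cls (r6 S q)))) := by
  obtain ⟨A, B, hA, hB, ht1, hP1, htP, htt, htq, hG2, htA, hPA, htB, hPB, hAB, ⟨t', ht'⟩,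
    ⟨D, hD⟩, hA', hB'⟩ := data7 hp hq hp8 hq8 hb hS hτ hqp
  have hodd0 : ∀ b : Ideal (𝓞 K), OddI b → b ≠ 0 := by
    rintro b hb1 rfl
    unfold OddI at hb1
    rw [map_zero] at hb1
    exact absurd hb1 (by decide)
  have he8 : ∀ n : ℕ, (n % 8 = 1 ∨ n % 8 = 7) ∧ e8 (n : ℤ) = 1 ∨
      ¬ (n % 8 = 1 ∨ n % 8 = 7) ∧ e8 (n : ℤ) = -1 := by
    intro n
    unfold e8
    by_cases h : n % 8 = 1 ∨ n % 8 = 7
    · left
      exact ⟨h, if_pos (by omega)⟩
    · right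
      exact ⟨h, if_neg (by omega)⟩
  have hJ : ∀ n : ℕ, ¬ p ∣ n → jacobiSym n p = 1 ∨ jacobiSym n p = -1 := by
    intro n h
    apply jacobiSym.eq_one_or_neg_one
    rw [Int.gcd_natCast_natCast]
    exact ((Nat.Prime.coprime_iff_not_dvd hp).2 h).symm
  have hcA := hA' cp hcp
  have hcB := hB' cp (hodd0 _ hcp) hcpp
  rw [hne] at hprod
  rcases he8 (Ideal.absNorm cp) with ⟨h1, h2⟩ | ⟨h1, h2⟩
  · left
    refine ⟨h1, ?_⟩
    have hcB' : cls cp ∉ B := by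
      intro h3
      rw [h2, hcB.1 h3] at hprod
      norm_num at hprod
    intro b hbo hbp
    obtain ⟨f1, f2⟩ := grpF hA hB hj ht1 hP1 htP hG2 htA hPA htB hPB hAB ht' hcc (hcA.2 h1) hcB'
      (cls b)
    rcases he8 (Ideal.absNorm b) with ⟨h3, h4⟩ | ⟨h3, h4⟩
    · exact Or.inl ⟨h4, f1 ((hA' b hbo).2 h3)⟩
    · right
      refine ⟨h4, ?_⟩
      rw [← htq]
      exact f2 fun h5 => h3 ((hA' b hbo).1 h5)
  · right
    refine ⟨h1, ?_⟩
    have hcB' : cls cp ∈ B := by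
      rw [hcB]
      rcases hJ _ hcpp with h3 | h3
      · exact h3
      · rw [h2, h3] at hprod
        norm_num at hprod
    intro b hbo hbp
    obtain ⟨f1, f2⟩ := grpF hB hA hj ht1 hP1 htP hG2 htB hPB htA hPA
      (fun g hg1 hg2 => hAB g hg2 hg1) ht' hcc hcB' (fun h => h1 (hcA.1 h)) (cls b)
    have hbB := hB' b (hodd0 _ hbo) hbp
    rcases hJ _ hbp with h3 | h3
    · exact Or.inl ⟨h3, f1 (hbB.2 h3)⟩
    · right
      refine ⟨h3, ?_⟩
      rw [← htq]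
      refine f2 fun h5 => ?_
      rw [hbB.1 h5] at h3
      norm_num at h3

end Pool.Agent.Work.MP_8efaaa_nt.Q7
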