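import Mathlib
import Pool.Agent.Work.MP_8efaaa_nt.Q7.Defs
import Pool.Agent.Work.MP_8efaaa_nt.V6.PEt
import Pool.Agent.Work.MP_8efaaa_nt.V6.PEx
import Pool.Agent.Work.MP_8efaaa_nt.W14.CEq
import Pool.Agent.Work.MP_8efaaa_nt.W14.CCl
import Pool.Agent.Work.MP_8efaaa_nt.W14.PGa

/-!
# Q7/KKx (M-L): the exact abstract data

MODELS: `W14/DFk.lean`, `W14/DAd.lean` (the same modulo `ep`), `V6/GPi.lean` (`kk_px`). `P = PP z k v`, `t = cls (r6 S 2)`, `n' = r6 S (a/2)`, `cls n' = t` (`cls_two`), `N n' = a/2 = 7 (mod 8)`.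
`bar c = cj τ c` (in `M13`: `norm_cj6`). `idx`, `t1`: given. `surj`: `clM_surj`. `t2`: `cls_two`. `fib`: `clM_eq`. `z2`, `m2`, `zm`: `two_ep`. `clb`, `ccb`: `cls_cj`. `nrm`: `c * cj τ c = (N c)` (`norm_cj6`), `V6.nat_px` (`N c % 8 = 1` or `3`; `hH`).
`kk`, case `cls b = cls c`: `equiv6`: `(α) b = (β) c`, `N β = 1 (mod 8)`, `N α = 1` or `7`; `N b = N c (mod 8)` (`norm_clM`), so `N α = 1 (mod 8)`. `V6.tr_px` for `α`, `β`: `P (b x) = P (c x) + ε`, `ε + ε = 0`.
Case `cls b ≠ cls c`, so `cls b = t cls c` (`clM_eq`): `c'' = (1 + S) * n' * c` has class `cls b` and norm `(1 + a)(a/2) N c = N c (mod 8)`, so by the first case (`V6.tr_px`, `equiv6` for `b`, `c''`) `P (b x) = P (c'' x) + ε'`, `ε' + ε' = 0`. `hT` for `n' c x` and `hR` for `c x`: `P ((1+S) n' c x) = -P (n' c x) + T + (if N (n' c x) % 4 = 1 then 0 else em) = P (c x) - R - (if N (c x) % 8 = 1 then 0 else ez) + T + (if N (c x) % 8 = 1 then em else 0)` (`N (c x) % 8 = 1` or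 `3`; `N (n' c x) = 7 N (c x) (mod 8)`). So `P (b x) = P (c x) + ε + (if N (c x) % 8 = 1 then 0 else ep)` with `ε = T + em - R + ε'` (`em + ez = ep`). `4 • ε = 0`: `2 T = ez`, `2 R = ep`, `2 em = 0`, `2 ε' = 0`.
-/

set_option autoImplicit false

namespace Pool.Agent.Work.MP_8efaaa_nt.Q7

open NumberField Pool.Agent.Work.MP_8efaaa_nt.R Pool.Agent.Work.MP_8efaaa_nt.N5
  Pool.Agent.Work.MP_8efaaa_nt.K6 Pool.Agent.Work.MP_8efaaa_nt.W14
  Pool.Agent.Work.MP_8efaaa_nt.W6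
open scoped Classical nonZeroDivisors

private theorem kx_odd {K : Type*} [Field K] [NumberField K] {b c : Ideal (𝓞 K)} (hb : OddI b)
    (hc : OddI c) : OddI (b * c) := by
  unfold OddI at hb hc ⊢
  rw [map_mul]
  exact hb.mul hc

private theorem kx_ne {K : Type*} [Field K] [NumberField K] {c : Ideal (𝓞 K)} (hc : OddI c) :
    c ≠ 0 := by
  rintro rfl
  unfold OddI at hc
  rw [map_zero] at hc
  exact absurd hc (by decide)

private theorem kx_eps {F : Type*} [Field F] [CharZero F] {e : (cQ F).Point} {n : ℕ}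
    (h1 : n % 16 = 1 → e = 0 ∨ e = W14.em F) (h2 : n % 16 ≠ 1 → e = ez F ∨ e = ep F) :
    e + e = 0 := by
  obtain ⟨t1, t2, t3, -, -, -⟩ := two_ep (F := F)
  by_cases h : n % 16 = 1
  · rcases h1 h with rfl | rfl
    · exact add_zero _
    · exact t2
  · rcases h2 h with rfl | rfl
    · exact t3
    · exact t1

private theorem kx_same {K F : Type*} [Field K] [NumberField K] [Field F] [NumberField F]
    [Algebra K F] {a : ℕ} {s : K} {S : 𝓞 K} {τ : 𝓞 K ≃+* 𝓞 K} {ζ : F} {w : ℕ → F}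
    {z k v : Ideal (𝓞 K) → F} {κ : F ≃ₐ[ℚ] F} (hb : B6 K a s) (hS : algebraMap (𝓞 K) K S = s)
    (hτ : τ S = -S) (hU : UD6 K F a s S τ ζ w z k v κ) {b c : Ideal (𝓞 K)} (ho : OddI b)
    (hc : OddI c) (h : cls b = cls c) (hn : Ideal.absNorm b % 8 = Ideal.absNorm c % 8) :
    ∃ ε : (cQ F).Point, ε + ε = 0 ∧
      ∀ x, OddI x → PP z k v (b * x) = PP z k v (c * x) + ε := by
  obtain ⟨α, β, hαβ, hβ, hα⟩ := equiv6 hb hS hτ ho hc h
  have hnn := congrArg Ideal.absNorm hαβ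
  rw [map_mul, map_mul] at hnn
  have hc2 : Ideal.absNorm c % 2 = 1 := Nat.odd_iff.1 hc
  have hα1 : Ideal.absNorm (Ideal.span {α}) % 8 = 1 := by
    rcases hα with hα | hα
    · exact hα
    · exfalso
      have h1 : (Ideal.absNorm (Ideal.span {α}) * Ideal.absNorm b) % 8 =
          (Ideal.absNorm (Ideal.span {β}) * Ideal.absNorm c) % 8 := by rw [hnn]
      rw [Nat.mul_mod, Nat.mul_mod (Ideal.absNorm (Ideal.span {β})), hα, hβ, hn] at h1
      omega
  obtain ⟨e, h1, h2, he⟩ := V6.tr_px hb hS hU hα1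
  obtain ⟨f, h3, h4, hf⟩ := V6.tr_px hb hS hU hβ
  have e2 := kx_eps h1 h2
  have f2 := kx_eps h3 h4
  refine ⟨f - e, ?_, fun x hx => ?_⟩
  · have h5 : f - e + (f - e) = (f + f) - (e + e) := by abel
    rw [h5, e2, f2, sub_zero]
  · have h5 := he (b * x) (kx_odd ho hx)
    have h6 := hf (c * x) (kx_odd hc hx)
    rw [← mul_assoc, hαβ, mul_assoc, h6] at h5
    rw [eq_sub_of_add_eq h5.symm]
    abel

theorem exists_ae {K F : Type*} [Field K] [NumberField K] [Field F] [NumberField F] [Algebra K F]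
    {a : ℕ} {s : K} {S : 𝓞 K} {τ : 𝓞 K ≃+* 𝓞 K} {ζ : F} {w : ℕ → F}
    {z k v : Ideal (𝓞 K) → F} {κ : F ≃ₐ[ℚ] F} (hb : B6 K a s) (hS : algebraMap (𝓞 K) K S = s)
    (hτ : τ S = -S) (ha : a % 16 = 14) (hU : UD6 K F a s S τ ζ w z k v κ)
    {T R : (cQ F).Point} (hTT : T + T = ez F)
    (hT : ∀ c, OddI c → PP z k v (Ideal.span {1 + S} * c) + PP z k v c =
        T + if Ideal.absNorm c % 4 = 1 then 0 else W14.em F)
    (hRR : R + R = ep F)
    (hR : ∀ c, OddI c → PP z k v (r6 S (a / 2) * c) + PP z k v c =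
        R + if Ideal.absNorm c % 8 = 1 ∨ Ideal.absNorm c % 8 = 7 then 0 else ez F)
    {H : Subgroup (CG S)} (hi : H.index = 2)
    (hH : ∀ c : M13 K, clM S c ∈ H ↔ Ideal.absNorm (c : Ideal (𝓞 K)) % 8 = 1)
    (ht : cls (r6 S 2) ≠ 1) :
    ∃ bar : M13 K → M13 K, (∀ c, (bar c : Ideal (𝓞 K)) = cj τ (c : Ideal (𝓞 K))) ∧
      AE H (fun c : M13 K => PP z k v (c : Ideal (𝓞 K))) (clM S) (ccM K) (cls (r6 S 2)) bar
        (ez F) (W14.em F) (ep F) := by
  have hbar : ∀ c : M13 K, cj τ (c : Ideal (𝓞 K)) ∈ M13 K := by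
    intro c
    have h1 := c.2
    show Ideal.absNorm (cj τ (c : Ideal (𝓞 K))) % 8 = 1 ∨
      Ideal.absNorm (cj τ (c : Ideal (𝓞 K))) % 8 = 3
    rw [(norm_cj6 hb hS hτ (c : Ideal (𝓞 K))).1]
    exact h1
  obtain ⟨q1, q2, q3, q4, q5, q6⟩ := two_ep (F := F)
  obtain ⟨ht2, ht'⟩ := cls_two hb hS
  have hda : a / 2 ∣ a := ⟨2, by omega⟩
  have hN := norm_r6 hb hS hda
  have hno : OddI (r6 S (a / 2)) := by
    unfold OddI
    rw [hN, Nat.odd_iff]
    omega
  have hgo : OddI (Ideal.span {1 + S}) := by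
    unfold OddI
    rw [norm_g hb hS, Nat.odd_iff]
    omega
  have hg0 : (1 + S : 𝓞 K) ≠ 0 := by
    intro h0
    apply kx_ne hgo
    rw [h0]
    exact Ideal.span_singleton_eq_bot.2 rfl
  refine ⟨fun c => ⟨cj τ (c : Ideal (𝓞 K)), hbar c⟩, fun c => rfl, ?_⟩
  refine
    { idx := hi
      surj := clM_surj hb hS
      t1 := ht
      t2 := ht2
      fib := fun b c => clM_eq hb hS
      z2 := q3
      m2 := q2
      zm := by rw [add_comm]; exact q6
      kk := fun b c h => ?_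
      clb := fun c => ?_
      ccb := fun c => ?_
      nrm := fun c x => ?_ }
  · have hn8 := norm_clM hb hS hτ ha h
    by_cases hbc : cls (b : Ideal (𝓞 K)) = cls (c : Ideal (𝓞 K))
    · obtain ⟨ε, h1, h2⟩ := kx_same hb hS hτ hU (M13.odd b.2) (M13.odd c.2) hbc hn8
      refine ⟨ε, ?_, fun _ => h1, fun x => ?_⟩
      · have h3 : (4 : ℤ) • ε = (ε + ε) + (ε + ε) := by abel
        rw [h3, h1, add_zero]
      · have h3 : ccM K b = ccM K c := hbc
        rw [if_pos (Or.inl h3), add_zero]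
        exact h2 _ (M13.odd x.2)
    · have hbt : cls (b : Ideal (𝓞 K)) = cls (r6 S 2) * cls (c : Ideal (𝓞 K)) := by
        rcases (clM_eq hb hS).1 h with h1 | h1
        · exact absurd h1 hbc
        · exact h1
      have hco := M13.odd c.2
      have hnc : OddI (r6 S (a / 2) * (c : Ideal (𝓞 K))) := kx_odd hno hco
      have hc'' : OddI (Ideal.span {1 + S} * (r6 S (a / 2) * (c : Ideal (𝓞 K)))) :=
        kx_odd hgo hnc
      have hcl : cls (b : Ideal (𝓞 K)) =
          cls (Ideal.span {1 + S} * (r6 S (a / 2) * (c : Ideal (𝓞 K)))) := by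
        rw [cls_mul (kx_ne hgo) (kx_ne hnc), cls_span hg0, one_mul,
          cls_mul (kx_ne hno) (kx_ne hco), ht', hbt]
      have hnn : Ideal.absNorm (b : Ideal (𝓞 K)) % 8 =
          Ideal.absNorm (Ideal.span {1 + S} * (r6 S (a / 2) * (c : Ideal (𝓞 K)))) % 8 := by
        rw [map_mul, map_mul, norm_g hb hS, hN, ← mul_assoc, Nat.mul_mod]
        have h1 : (1 + a) * (a / 2) % 8 = 1 := by
          rw [Nat.mul_mod]
          have h2 : (1 + a) % 8 = 7 := by omega
          have h3 : a / 2 % 8 = 7 := by omega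
          rw [h2, h3]
        rw [h1, one_mul, Nat.mod_mod, hn8]
      obtain ⟨ε', h1, h2⟩ := kx_same hb hS hτ hU (M13.odd b.2) hc'' hcl hnn
      refine ⟨T + W14.em F - R + ε', ?_, fun h3 => absurd h3 hbc, fun x => ?_⟩
      · have h3 : (4 : ℤ) • (T + W14.em F - R + ε') = ((T + T) + (T + T)) +
            ((W14.em F + W14.em F) + (W14.em F + W14.em F)) - ((R + R) + (R + R)) +
            ((ε' + ε') + (ε' + ε')) := by
          abel
        rw [h3, hTT, q3, q2, hRR, q1, h1]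
        simp
      · have hcx : (c : Ideal (𝓞 K)) * (x : Ideal (𝓞 K)) ∈ M13 K := Submonoid.mul_mem _ c.2 x.2
        have hcxo := M13.odd hcx
        have h3 := h2 _ (M13.odd x.2)
        rw [mul_assoc, mul_assoc] at h3
        have h4 := hR _ hcxo
        have h5 := hT (r6 S (a / 2) * ((c : Ideal (𝓞 K)) * (x : Ideal (𝓞 K)))) (kx_odd hno hcxo)
        have h6 : Ideal.absNorm (r6 S (a / 2) * ((c : Ideal (𝓞 K)) * (x : Ideal (𝓞 K)))) =
            a / 2 * Ideal.absNorm ((c : Ideal (𝓞 K)) * (x : Ideal (𝓞 K))) := by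
          rw [map_mul, hN]
        have h7 : Ideal.absNorm (r6 S (a / 2) * ((c : Ideal (𝓞 K)) * (x : Ideal (𝓞 K)))) % 8 =
            7 * (Ideal.absNorm ((c : Ideal (𝓞 K)) * (x : Ideal (𝓞 K))) % 8) % 8 := by
          rw [h6, Nat.mul_mod]
          have h8 : a / 2 % 8 = 7 := by omega
          rw [h8]
        have hne : ¬ ccM K b = ccM K c := hbc
        have hHx := hH (c * x)
        rw [Submonoid.coe_mul] at hHx
        have hP1 : PP z k v (r6 S (a / 2) * ((c : Ideal (𝓞 K)) * (x : Ideal (𝓞 K)))) =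
            R + (if Ideal.absNorm ((c : Ideal (𝓞 K)) * (x : Ideal (𝓞 K))) % 8 = 1 ∨
              Ideal.absNorm ((c : Ideal (𝓞 K)) * (x : Ideal (𝓞 K))) % 8 = 7 then 0 else ez F) -
            PP z k v ((c : Ideal (𝓞 K)) * (x : Ideal (𝓞 K))) := eq_sub_of_add_eq h4
        show PP z k v ((b : Ideal (𝓞 K)) * (x : Ideal (𝓞 K))) =
          PP z k v ((c : Ideal (𝓞 K)) * (x : Ideal (𝓞 K))) + _ + _
        rw [h3, eq_sub_of_add_eq h5, hP1]
        rcases hcx with h8 | h8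
        · rw [if_neg (by omega), if_pos (Or.inl h8), if_pos (Or.inr (hHx.2 h8))]
          abel
        · have h9 : ¬ (ccM K b = ccM K c ∨ clM S (c * x) ∈ H) := by
            rintro (h9 | h9)
            · exact hne h9
            · have := hHx.1 h9
              omega
          rw [if_pos (by omega), if_neg (by omega), if_neg h9, ← q6]
          have h10 : -ez F = ez F := neg_eq_of_add_eq_zero_right q3
          have h11 : T + 0 - (R + ez F - PP z k v ((c : Ideal (𝓞 K)) * (x : Ideal (𝓞 K)))) + ε' =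
              PP z k v ((c : Ideal (𝓞 K)) * (x : Ideal (𝓞 K))) + T - R + -ez F + ε' := by
            abel
          rw [h11, h10]
          have h12 : PP z k v ((c : Ideal (𝓞 K)) * (x : Ideal (𝓞 K))) +
              (T + W14.em F - R + ε') + (W14.em F + ez F) =
              PP z k v ((c : Ideal (𝓞 K)) * (x : Ideal (𝓞 K))) + T - R + ez F + ε' +
                (W14.em F + W14.em F) := by
            abel
          rw [h12, q2, add_zero]
  · show (QuotientGroup.mk (cls (cj τ (c : Ideal (𝓞 K)))) : CG S) =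
      (QuotientGroup.mk (cls (c : Ideal (𝓞 K))) : CG S)⁻¹
    rw [(cls_cj hb hS hτ (M13.ne c.2)).2]
    rfl
  · show cls (cj τ (c : Ideal (𝓞 K))) = (cls (c : Ideal (𝓞 K)))⁻¹
    exact (cls_cj hb hS hτ (M13.ne c.2)).2
  · show PP z k v ((c : Ideal (𝓞 K)) * cj τ (c : Ideal (𝓞 K)) * (x : Ideal (𝓞 K))) =
      PP z k v (x : Ideal (𝓞 K)) + _
    rw [(norm_cj6 hb hS hτ (c : Ideal (𝓞 K))).2.1,
      V6.nat_px hb hS hU (M13.odd c.2) (M13.odd x.2)]
    congr 1
    have h4 := c.2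
    have h5 := hH c
    rcases h4 with h4 | h4
    · rw [if_pos (Or.inl h4), if_pos (h5.2 h4)]
    · rw [if_neg (by omega), if_neg (fun h6 => by have := h5.1 h6; omega)]

end Pool.Agent.Work.MP_8efaaa_nt.Q7
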