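import Mathlib
import Pool.Agent.Work.MP_8efaaa_nt.Q7.Defs

/-!
# Q7/AbS (M): sums over the classes, abstract

MODEL: `W14/DSu.lean` (`sum_rel`). Preliminaries: `ep + ep = 0` (`zm`, `z2`, `m2`); a class of `C` over a class of `G` takes at most two values `γ`, `t γ` (`fib`, `t2`), so for `cl b = cl c`, `cl b' = cl c'`: `(if cc (b b') = cc (c c') then 0 else ep) = (if cc b = cc c then 0 else ep) + (if cc b' = cc c' then 0 else ep)`. For `cl b = cl c` let `ε` be from `kk`: if `cl c ∈ H` then (`x = 1`) `ε = P b - P c`, if `cl c ∉ H` then `ε = P b - P c - (if cc b = cc c then 0 else ep)`; `P (b * x) = P (c * x) + ε` whenever `cl (c * x) ∈ H`.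
`dif_H`, `dif_N`: induction on `X`; statement for the induction: if `ε` is the number of `kk` for `∏ r`, `∏ r'` then `∑ (P (r g) - P (r' g)) = ε` for `X ⊆ H`, `= ε + (if cc (∏ r) = cc (∏ r') then 0 else ep)` for `X ∩ H = ∅` (`ε` of a product is the sum of the `ε`: `P (b b' x) = P (c b' x) + ε = P (c c' x) + ε + ε'` for a suitable `x`, `cl (c c' x) ∈ H`, `x` exists by `surj`). If `card X` is even and `X ∩ H = ∅` then `cl (∏ r) ∈ H` (index `2`), so `ε = P (∏ r) - P (∏ r')`.
`sum_H`, `sum_N`: strong induction on `#X` as in the model. For a pair `g`, `g' = cl w * g⁻¹`, `b = r g`, `c = r g'`: `kk` for `w * bar b` and `c` (`cl (w * bar b) = g'`).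
For `sum_N` (`g, g' ∉ H`): `x = 1`: `P (w bar b) = P c + ε + δ`, `δ = if cc (w bar b) = cc c then 0 else ep`; `x = b`: `P (w bar b b) = P (c b) + ε` (`cl (c b) = cl w ∈ H`), `nrm`: `P (b bar b w) = P w + ez`. So `ε = P w + ez - P (b c)` and by `hr b`: `P b + P c ≡ T3 + ez + (P (b c) - P w) + δ`, and `cc (w bar b) = cc c ↔ cc (b c) = cc w` (`ccb`). For `sum_H` the same with `δ = 0` (`cl c ∈ H`) and without `ez`.
Adding up: `P (b c ∏') - P (w w^n') = (P (b c) - P w) + (P ∏' - P (w^n'))` (all classes are in `H`).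
-/

set_option autoImplicit false

namespace Pool.Agent.Work.MP_8efaaa_nt.Q7

open scoped Classical

variable {M A G C : Type*} [CommMonoid M] [AddCommGroup A] [CommGroup G] [CommGroup C]
  {H : Subgroup G} {P : M → A} {cl : M →* G} {cc : M →* C} {t : C} {bar : M → M} {ez em ep : A}

/-- the defect of a pair -/
private noncomputable def dl (cc : M →* C) (ep : A) (b c : M) : A :=
  if cc b = cc c then 0 else ep

/-- the number of a pair of elements of the same class -/
private def EP (H : Subgroup G) (P : M → A) (cl : M →* G) (cc : M →* C) (ep : A) (b c : M)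
    (ε : A) : Prop :=
  ∀ x, P (b * x) = P (c * x) + ε + (if cl (c * x) ∈ H then 0 else dl cc ep b c)

private theorem ep2 (h : AE H P cl cc t bar ez em ep) : ep + ep = 0 := by
  rw [← h.zm]
  calc ez + em + (ez + em) = (ez + ez) + (em + em) := by abel
    _ = 0 := by rw [h.z2, h.m2, add_zero]

private theorem dl2 (h : AE H P cl cc t bar ez em ep) (b c : M) :
    dl cc ep b c + dl cc ep b c = 0 := by
  unfold dl
  split_ifs
  · rw [add_zero]
  · exact ep2 h

private theorem dl_mul (h : AE H P cl cc t bar ez em ep) {b c b' c' : M} (h1 : cl b = cl c)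
    (h2 : cl b' = cl c') :
    dl cc ep (b * b') (c * c') = dl cc ep b c + dl cc ep b' c' := by
  have ht : ∀ z : C, t * z ≠ z := by
    intro z hz
    exact h.t1 (mul_eq_right.1 hz)
  unfold dl
  rw [map_mul, map_mul]
  rcases (h.fib b c).1 h1 with e1 | e1
  · rcases (h.fib b' c').1 h2 with e2 | e2
    · rw [if_pos e1, if_pos e2, if_pos (by rw [e1, e2]), add_zero]
    · have n2 : cc b' ≠ cc c' := by
        rw [e2]
        exact ht _
      rw [if_pos e1, if_neg n2, zero_add, if_neg]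
      rw [e1]
      intro e
      exact n2 (mul_left_cancel e)
  · have n1 : cc b ≠ cc c := by
      rw [e1]
      exact ht _
    rcases (h.fib b' c').1 h2 with e2 | e2
    · rw [if_neg n1, if_pos e2, add_zero, if_neg]
      rw [e2]
      intro e
      exact n1 (mul_right_cancel e)
    · have n2 : cc b' ≠ cc c' := by
        rw [e2]
        exact ht _
      rw [if_neg n1, if_neg n2, ep2 h, if_pos]
      rw [e1, e2]
      calc t * cc c * (t * cc c') = (t * t) * (cc c * cc c') := mul_mul_mul_comm _ _ _ _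
        _ = cc c * cc c' := by rw [h.t2, one_mul]

private theorem ep_ex (h : AE H P cl cc t bar ez em ep) {b c : M} (h1 : cl b = cl c) :
    ∃ ε, EP H P cl cc ep b c ε := by
  obtain ⟨ε, -, -, h2⟩ := h.kk b c h1
  refine ⟨ε, fun x => ?_⟩
  rw [h2 x]
  unfold dl
  by_cases e1 : cc b = cc c
  · rw [if_pos (Or.inl e1), if_pos e1, ite_self]
  · by_cases e2 : cl (c * x) ∈ H
    · rw [if_pos (Or.inr e2), if_pos e2]
    · rw [if_neg (by tauto), if_neg e2, if_neg e1]

private theorem ep_mul (h : AE H P cl cc t bar ez em ep) {b c b' c' : M} (h1 : cl b = cl c)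
    (h2 : cl b' = cl c') {ε ε' : A} (h3 : EP H P cl cc ep b c ε)
    (h4 : EP H P cl cc ep b' c' ε') : EP H P cl cc ep (b * b') (c * c') (ε + ε') := by
  intro x
  have e1 := h3 (b' * x)
  have e2 := h4 (c * x)
  have f1 : b * b' * x = b * (b' * x) := mul_assoc _ _ _
  have f2 : c * (b' * x) = b' * (c * x) := mul_left_comm _ _ _
  have f3 : c' * (c * x) = c * c' * x := by rw [← mul_assoc, mul_comm c' c]
  have f4 : cl (c * (b' * x)) = cl (c * c' * x) := by
    simp only [map_mul, h2, mul_assoc]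
  rw [f1, e1, f4, f2, e2, f3, dl_mul h h1 h2]
  split_ifs <;> abel

/-- the differences of the sums -/
private theorem dif_gen (h : AE H P cl cc t bar ez em ep) (X : Finset G) (r r' : G → M)
    (hr : ∀ g, cl (r g) = g) (hr' : ∀ g, cl (r' g) = g) :
    cl (∏ g ∈ X, r g) = ∏ g ∈ X, g ∧ cl (∏ g ∈ X, r' g) = ∏ g ∈ X, g ∧
    dl cc ep (∏ g ∈ X, r g) (∏ g ∈ X, r' g) = ∑ g ∈ X, dl cc ep (r g) (r' g) ∧
    ∃ ε, EP H P cl cc ep (∏ g ∈ X, r g) (∏ g ∈ X, r' g) ε ∧
      ∑ g ∈ X, P (r g) - ∑ g ∈ X, P (r' g) =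
        ε + ∑ g ∈ X, (if g ∈ H then 0 else dl cc ep (r g) (r' g)) := by
  induction X using Finset.induction_on with
  | empty =>
    refine ⟨?_, ?_, ?_, 0, ?_, ?_⟩
    · simp
    · simp
    · simp [dl]
    · intro x
      simp [dl]
    · simp
  | insert g X hg ih =>
    obtain ⟨i1, i2, i3, ε, i4, i5⟩ := ih
    have hcl : cl (r g) = cl (r' g) := by rw [hr, hr']
    have hcl2 : cl (∏ g ∈ X, r g) = cl (∏ g ∈ X, r' g) := by rw [i1, i2]
    obtain ⟨ε', h1⟩ := ep_ex h hcl
    have h2 := h1 1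
    rw [mul_one, mul_one, hr'] at h2
    rw [Finset.prod_insert hg, Finset.prod_insert hg, Finset.prod_insert hg,
      Finset.sum_insert hg, Finset.sum_insert hg, Finset.sum_insert hg, Finset.sum_insert hg]
    refine ⟨by rw [map_mul, hr, i1], by rw [map_mul, hr', i2], ?_, ε' + ε,
      ep_mul h hcl hcl2 h1 i4, ?_⟩
    · rw [dl_mul h hcl hcl2, i3]
    · rw [h2]
      have e1 : ∑ g ∈ X, P (r g) = ∑ g ∈ X, P (r' g) +
          (ε + ∑ g ∈ X, (if g ∈ H then 0 else dl cc ep (r g) (r' g))) := by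
        rw [← i5]
        abel
      rw [e1]
      abel

theorem dif_H (h : AE H P cl cc t bar ez em ep) (X : Finset G) (hX : ∀ g ∈ X, g ∈ H)
    (r r' : G → M) (hr : ∀ g, cl (r g) = g) (hr' : ∀ g, cl (r' g) = g) :
    ∑ g ∈ X, P (r g) - ∑ g ∈ X, P (r' g) = P (∏ g ∈ X, r g) - P (∏ g ∈ X, r' g) := by
  obtain ⟨i1, i2, i3, ε, i4, i5⟩ := dif_gen h X r r' hr hr'
  have h1 : ∑ g ∈ X, (if g ∈ H then 0 else dl cc ep (r g) (r' g)) = 0 :=
    Finset.sum_eq_zero fun g hg => if_pos (hX g hg)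
  have h2 := i4 1
  rw [mul_one, mul_one, i2, if_pos (Subgroup.prod_mem H hX), add_zero] at h2
  rw [i5, h1, h2]
  abel

private theorem prod_H (h : AE H P cl cc t bar ez em ep) (X : Finset G)
    (hX : ∀ g ∈ X, g ∉ H) : ∏ g ∈ X, g ∈ H ↔ Even X.card := by
  induction X using Finset.induction_on with
  | empty => simp [H.one_mem]
  | insert g X hg ih =>
    have i1 := ih fun k hk => hX k (Finset.mem_insert_of_mem hk)
    have i2 := hX g (Finset.mem_insert_self _ _)
    rw [Finset.prod_insert hg, Finset.card_insert_of_notMem hg,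
      Subgroup.mul_mem_iff_of_index_two h.idx, Nat.even_add_one, ← i1]
    tauto

theorem dif_N (h : AE H P cl cc t bar ez em ep) (X : Finset G) (hX : ∀ g ∈ X, g ∉ H)
    (hc : Even X.card) (r r' : G → M) (hr : ∀ g, cl (r g) = g) (hr' : ∀ g, cl (r' g) = g) :
    ∑ g ∈ X, P (r g) - ∑ g ∈ X, P (r' g) = P (∏ g ∈ X, r g) - P (∏ g ∈ X, r' g) +
      (if cc (∏ g ∈ X, r g) = cc (∏ g ∈ X, r' g) then 0 else ep) := by
  obtain ⟨i1, i2, i3, ε, i4, i5⟩ := dif_gen h X r r' hr hr'
  have h1 : ∑ g ∈ X, (if g ∈ H then 0 else dl cc ep (r g) (r' g)) =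
      ∑ g ∈ X, dl cc ep (r g) (r' g) :=
    Finset.sum_congr rfl fun g hg => if_neg (hX g hg)
  have h2 := i4 1
  rw [mul_one, mul_one, i2, if_pos ((prod_H h X hX).2 hc), add_zero] at h2
  rw [i5, h1, ← i3, h2]
  show _ = _ + dl cc ep _ _
  abel

/-- combination of two pairs with classes in `H` -/
private theorem comb (h : AE H P cl cc t bar ez em ep) {w b c : M} (hw : cl w ∈ H)
    (hbc : cl (b * c) = cl w) {Q : M} {n : ℕ} (hQ : cl Q = cl w ^ n) :
    P (b * c * Q) - P (w ^ (n + 1)) = (P (b * c) - P w) + (P Q - P (w ^ n)) ∧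
    dl cc ep (b * c * Q) (w ^ (n + 1)) = dl cc ep (b * c) w + dl cc ep Q (w ^ n) := by
  have hQ' : cl Q = cl (w ^ n) := by rw [hQ, map_pow]
  obtain ⟨ε1, h1⟩ := ep_ex h hbc
  obtain ⟨ε2, h2⟩ := ep_ex h hQ'
  have h3 := ep_mul h hbc hQ' h1 h2
  have e1 := h1 1
  have e2 := h2 1
  have e3 := h3 1
  rw [mul_one, mul_one, if_pos hw, add_zero] at e1
  rw [mul_one, mul_one, if_pos (by rw [map_pow]; exact H.pow_mem hw n), add_zero] at e2
  rw [mul_one, mul_one, if_pos (by rw [map_mul, map_pow]; exact H.mul_mem hw (H.pow_mem hw n)),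
    add_zero] at e3
  rw [pow_succ']
  refine ⟨?_, dl_mul h hbc hQ'⟩
  rw [e1, e2, e3]
  abel

/-- the induction -/
private theorem sum_gen (h : AE H P cl cc t bar ez em ep) {E : AddSubgroup A} {w : M} {T : A}
    {F : Prop} (hw : cl w ∈ H) (hpair : ∀ b c, (F ↔ cl b ∈ H) → (F ↔ cl c ∈ H) →
      cl (b * c) = cl w → P b + P c - T - (P (b * c) - P w) -
        (if F then 0 else dl cc ep (b * c) w) ∈ E) (X : Finset G)
    (hX : ∀ g ∈ X, (F ↔ g ∈ H) ∧ cl w * g⁻¹ ∈ X ∧ cl w * g⁻¹ ≠ g) (r : G → M)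
    (hrr : ∀ g, cl (r g) = g) :
    ∃ n : ℕ, X.card = 2 * n ∧ cl (∏ g ∈ X, r g) = cl w ^ n ∧
      (∑ g ∈ X, P (r g)) - n • T - (P (∏ g ∈ X, r g) - P (w ^ n)) -
        (if F then 0 else dl cc ep (∏ g ∈ X, r g) (w ^ n)) ∈ E := by
  induction hN : X.card using Nat.strong_induction_on generalizing X with
  | _ N ih =>
    rcases X.eq_empty_or_nonempty with hE | ⟨g, hg⟩
    · subst hE
      refine ⟨0, ?_, ?_, ?_⟩
      · rw [← hN]; rfl
      · rw [Finset.prod_empty, map_one, pow_zero]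
      · have e1 : dl cc ep (1 : M) 1 = 0 := if_pos rfl
        rw [Finset.sum_empty, Finset.prod_empty, pow_zero, zero_smul, e1, ite_self]
        simp only [sub_self]
        exact E.zero_mem
    · obtain ⟨hgF, hg', hgg⟩ := hX g hg
      have hgF' := (hX _ hg').1
      have hm' : cl w * g⁻¹ ∈ X.erase g := Finset.mem_erase.2 ⟨hgg, hg'⟩
      have hc1 := Finset.card_erase_add_one hg
      have hc2 := Finset.card_erase_add_one hm'
      have hst : ∀ k ∈ (X.erase g).erase (cl w * g⁻¹),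
          (F ↔ k ∈ H) ∧ cl w * k⁻¹ ∈ (X.erase g).erase (cl w * g⁻¹) ∧ cl w * k⁻¹ ≠ k := by
        intro k hk
        obtain ⟨hk1, hk2⟩ := Finset.mem_erase.1 hk
        obtain ⟨hk3, hk4⟩ := Finset.mem_erase.1 hk2
        obtain ⟨hkF, hk5, hk6⟩ := hX k hk4
        refine ⟨hkF, Finset.mem_erase.2 ⟨?_, Finset.mem_erase.2 ⟨?_, hk5⟩⟩, hk6⟩
        · intro e
          exact hk3 (inv_injective (mul_left_cancel e))
        · intro e
          apply hk1
          rw [← e, mul_inv_rev, inv_inv, mul_left_comm, mul_inv_cancel, mul_one]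
      obtain ⟨n', h1, h2, h3⟩ := ih _ (by omega) _ hst rfl
      have hp1 := Finset.mul_prod_erase X r hg
      have hp2 := Finset.mul_prod_erase (X.erase g) r hm'
      have hs1 := Finset.add_sum_erase X (fun k => P (r k)) hg
      have hs2 := Finset.add_sum_erase (X.erase g) (fun k => P (r k)) hm'
      generalize ((X.erase g).erase (cl w * g⁻¹)) = X' at *
      have hb : cl (r g) = g := hrr g
      have hc : cl (r (cl w * g⁻¹)) = cl w * g⁻¹ := hrr _
      generalize r g = b at *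
      generalize r (cl w * g⁻¹) = c at *
      have hbc : cl (b * c) = cl w := by
        rw [map_mul, hb, hc, mul_left_comm, mul_inv_cancel, mul_one]
      have hp := hpair b c (by rw [hb]; exact hgF) (by rw [hc]; exact hgF') hbc
      refine ⟨n' + 1, by omega, ?_, ?_⟩
      · rw [← hp1, ← hp2, ← mul_assoc, map_mul, hbc, h2, pow_succ']
      · rw [← hp1, ← hp2, ← hs1, ← hs2, ← mul_assoc]
        obtain ⟨f1, f2⟩ := comb h hw hbc h2
        rw [f1, f2]
        have f5 : P b + (P c + ∑ k ∈ X', P (r k)) - (n' + 1) • T -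
            ((P (b * c) - P w) + (P (∏ k ∈ X', r k) - P (w ^ n'))) -
            (if F then 0 else dl cc ep (b * c) w + dl cc ep (∏ k ∈ X', r k) (w ^ n')) =
            (P b + P c - T - (P (b * c) - P w) - (if F then 0 else dl cc ep (b * c) w)) +
            ((∑ k ∈ X', P (r k)) - n' • T - (P (∏ k ∈ X', r k) - P (w ^ n')) -
              (if F then 0 else dl cc ep (∏ k ∈ X', r k) (w ^ n'))) := by
          rw [add_smul, one_smul]
          split_ifs <;> abel
        rw [f5]
        exact E.add_mem hp h3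

theorem sum_H (h : AE H P cl cc t bar ez em ep) {E : AddSubgroup A} {w : M} {T1 : A}
    (hw : cl w ∈ H) (hr : ∀ c, cl c ∈ H → P (w * bar c) + P c - T1 ∈ E) (X : Finset G)
    (hX : ∀ g ∈ X, g ∈ H ∧ cl w * g⁻¹ ∈ X ∧ cl w * g⁻¹ ≠ g) (r : G → M)
    (hrr : ∀ g, cl (r g) = g) :
    ∃ n : ℕ, X.card = 2 * n ∧ cl (∏ g ∈ X, r g) = cl w ^ n ∧
      (∑ g ∈ X, P (r g)) - n • T1 - (P (∏ g ∈ X, r g) - P (w ^ n)) ∈ E := by
  obtain ⟨n, h1, h2, h3⟩ := sum_gen (F := True) (T := T1) (E := E) h hw (by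
    intro b c hb hc hbc
    rw [if_pos trivial, sub_zero]
    have hb' : cl b ∈ H := hb.1 trivial
    have hc' : cl c ∈ H := hc.1 trivial
    have hcl : cl (w * bar b) = cl c := by
      rw [map_mul, h.clb, ← hbc, map_mul, mul_comm (cl b), mul_assoc, mul_inv_cancel, mul_one]
    obtain ⟨ε, hε⟩ := ep_ex h hcl
    have e1 := hε 1
    rw [mul_one, mul_one, if_pos hc', add_zero] at e1
    have e2 := hε b
    rw [if_pos (by rw [mul_comm, hbc]; exact hw), add_zero] at e2
    have e3 := h.nrm b w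
    rw [if_pos hb', add_zero] at e3
    have e4 : w * bar b * b = b * bar b * w := by
      rw [mul_comm w, mul_right_comm, mul_comm (bar b) b]
    rw [e4, e3, mul_comm c b] at e2
    have e5 := hr b hb'
    have e6 : P b + P c - T1 - (P (b * c) - P w) = P (w * bar b) + P b - T1 := by
      rw [e1, e2]
      abel
    rw [e6]
    exact e5) X (fun g hg => by
      obtain ⟨a1, a2, a3⟩ := hX g hg
      exact ⟨⟨fun _ => a1, fun _ => trivial⟩, a2, a3⟩) r hrr
  rw [if_pos trivial, sub_zero] at h3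
  exact ⟨n, h1, h2, h3⟩

theorem sum_N (h : AE H P cl cc t bar ez em ep) {E : AddSubgroup A} {w : M} {T3 : A}
    (hw : cl w ∈ H) (hr : ∀ c, cl c ∉ H → P (w * bar c) + P c - T3 ∈ E) (X : Finset G)
    (hX : ∀ g ∈ X, g ∉ H ∧ cl w * g⁻¹ ∈ X ∧ cl w * g⁻¹ ≠ g) (r : G → M)
    (hrr : ∀ g, cl (r g) = g) :
    ∃ n : ℕ, X.card = 2 * n ∧ cl (∏ g ∈ X, r g) = cl w ^ n ∧
      (∑ g ∈ X, P (r g)) - n • T3 - n • ez - (P (∏ g ∈ X, r g) - P (w ^ n)) -
        (if cc (∏ g ∈ X, r g) = cc (w ^ n) then 0 else ep) ∈ E := by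
  obtain ⟨n, h1, h2, h3⟩ := sum_gen (F := False) (T := T3 + ez) (E := E) h hw (by
    intro b c hb hc hbc
    rw [if_neg (fun hf => hf)]
    have hb' : cl b ∉ H := fun hf => hb.2 hf
    have hc' : cl c ∉ H := fun hf => hc.2 hf
    have hcl : cl (w * bar b) = cl c := by
      rw [map_mul, h.clb, ← hbc, map_mul, mul_comm (cl b), mul_assoc, mul_inv_cancel, mul_one]
    obtain ⟨ε, hε⟩ := ep_ex h hcl
    have e1 := hε 1
    rw [mul_one, mul_one, if_neg hc'] at e1
    have e2 := hε b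
    rw [if_pos (by rw [mul_comm, hbc]; exact hw), add_zero] at e2
    have e3 := h.nrm b w
    rw [if_neg hb'] at e3
    have e4 : w * bar b * b = b * bar b * w := by
      rw [mul_comm w, mul_right_comm, mul_comm (bar b) b]
    rw [e4, e3, mul_comm c b] at e2
    have e5 := hr b hb'
    have e7 : dl cc ep (w * bar b) c = dl cc ep (b * c) w := by
      unfold dl
      have e8 : cc (w * bar b) = cc c ↔ cc (b * c) = cc w := by
        rw [map_mul, map_mul, h.ccb, mul_inv_eq_iff_eq_mul, mul_comm (cc c), eq_comm]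
      by_cases e9 : cc (w * bar b) = cc c
      · rw [if_pos e9, if_pos (e8.1 e9)]
      · rw [if_neg e9, if_neg (fun hf => e9 (e8.2 hf))]
    rw [e7] at e1
    have hz : -ez = ez := neg_eq_of_add_eq_zero_left h.z2
    have hd : -dl cc ep (b * c) w = dl cc ep (b * c) w :=
      neg_eq_of_add_eq_zero_left (dl2 h _ _)
    have e6 : P b + P c - (T3 + ez) - (P (b * c) - P w) - dl cc ep (b * c) w =
        P (w * bar b) + P b - T3 := by
      have e10 : ε = P w + ez - P (b * c) := by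
        rw [e2]
        abel
      rw [e1, e10]
      have e11 : P b + P c - (T3 + ez) - (P (b * c) - P w) - dl cc ep (b * c) w =
          P b + P c - T3 + -ez - (P (b * c) - P w) + -dl cc ep (b * c) w := by abel
      rw [e11, hz, hd]
      abel
    rw [e6]
    exact e5) X (fun g hg => by
      obtain ⟨a1, a2, a3⟩ := hX g hg
      exact ⟨⟨fun hf => hf.elim, fun hf => a1 hf⟩, a2, a3⟩) r hrr
  rw [if_neg (fun hf => hf)] at h3
  refine ⟨n, h1, h2, ?_⟩
  have e : (∑ g ∈ X, P (r g)) - n • T3 - n • ez - (P (∏ g ∈ X, r g) - P (w ^ n)) -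
        (if cc (∏ g ∈ X, r g) = cc (w ^ n) then 0 else ep) =
      (∑ g ∈ X, P (r g)) - n • (T3 + ez) - (P (∏ g ∈ X, r g) - P (w ^ n)) -
        dl cc ep (∏ g ∈ X, r g) (w ^ n) := by
    unfold dl
    rw [smul_add]
    abel
  rw [e]
  exact h3

end Pool.Agent.Work.MP_8efaaa_nt.Q7
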