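import Mathlib
import Pool.Agent.Work.MP_8efaaa_nt.Q7.Defs
import Pool.Agent.Work.MP_8efaaa_nt.Q7.AbS

/-!
# Q7/AbP (S-M): the exact value of the difference of the sums

`HH = univ.filter (· ∈ H)`, `NN = univ.filter (· ∉ H)`, both of cardinality `4 j` (index `2`). `X = HH`: `cl w * g⁻¹ ∈ H`, `≠ g` by `hw2`. `sum_H` with `T1 = T + em` and `sum_N` with `T3 = T`: `n = 2 j` for both. With `Ap = ∏_HH r`, `B = ∏_NN r`, `δ = if cc B = cc (w^(2j)) then 0 else ep`:
`∑_HH - ∑_NN - (2j • (T + em) - 2j • T - 2j • ez + P Ap - P B - δ) ∈ E`; `2j • em = 0`, `2j • ez = 0`. So `D - (P Ap - P B - δ) ∈ E`. `64 • D = 0` (`htor`), `64 • δ = 0`, `64 • (P Ap - P B) = 0`: `cl Ap = cl B` (`= cl w ^ (2j)`), `kk` with `x = 1`, `cl B ∈ H`: `P Ap = P B + ε`, `4 • ε = 0`. `hE`.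
`prod_w`: the same `sum_H` (with `E = ⊤`, any `P`) or directly: the product over the pairs; `cl (∏_HH r) = cl w ^ (2j)` for a section `r` (from `surj`) and `cl (∏_HH r) = ∏_HH g`.
-/

set_option autoImplicit false

namespace Pool.Agent.Work.MP_8efaaa_nt.Q7

open scoped Classical

variable {M A G C : Type*} [CommMonoid M] [AddCommGroup A] [CommGroup G] [CommGroup C]
  {H : Subgroup G} {P : M → A} {cl : M →* G} {cc : M →* C} {t : C} {bar : M → M} {ez em ep : A}

private theorem card_H (h : AE H P cl cc t bar ez em ep) [Fintype G] {j : ℕ}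
    (hj : Fintype.card G = 8 * j) : (Finset.univ.filter (· ∈ H)).card = 2 * (2 * j) := by
  have h1 := H.card_mul_index
  rw [h.idx, Nat.card_eq_fintype_card, Nat.card_eq_fintype_card, hj] at h1
  have h2 : (Finset.univ.filter (· ∈ H)).card = Fintype.card H := by
    rw [Fintype.card_subtype]
  rw [h2]
  omega

private theorem card_N (h : AE H P cl cc t bar ez em ep) [Fintype G] {j : ℕ}
    (hj : Fintype.card G = 8 * j) : (Finset.univ.filter (· ∉ H)).card = 2 * (2 * j) := by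
  have h1 := card_H h hj
  have h2 := Finset.card_filter_add_card_filter_not (s := (Finset.univ : Finset G)) (· ∈ H)
  rw [Finset.card_univ, hj, h1] at h2
  omega

private theorem cond_H [Fintype G] {w : M} (hw : cl w ∈ H) (hw2 : ∀ g : G, g * g ≠ cl w) :
    ∀ g ∈ Finset.univ.filter (· ∈ H), g ∈ H ∧ cl w * g⁻¹ ∈ Finset.univ.filter (· ∈ H) ∧
      cl w * g⁻¹ ≠ g := by
  intro g hg
  have hg' : g ∈ H := (Finset.mem_filter.1 hg).2
  refine ⟨hg', Finset.mem_filter.2 ⟨Finset.mem_univ _, H.mul_mem hw (H.inv_mem hg')⟩, ?_⟩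
  intro e
  exact hw2 g (mul_inv_eq_iff_eq_mul.1 e).symm

private theorem cond_N [Fintype G] {w : M} (hw : cl w ∈ H) (hw2 : ∀ g : G, g * g ≠ cl w) :
    ∀ g ∈ Finset.univ.filter (· ∉ H), g ∉ H ∧ cl w * g⁻¹ ∈ Finset.univ.filter (· ∉ H) ∧
      cl w * g⁻¹ ≠ g := by
  intro g hg
  have hg' : g ∉ H := (Finset.mem_filter.1 hg).2
  refine ⟨hg', Finset.mem_filter.2 ⟨Finset.mem_univ _, ?_⟩, ?_⟩
  · intro hf
    rw [H.mul_mem_cancel_left hw] at hf
    exact hg' (H.inv_mem_iff.1 hf)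
  · intro e
    exact hw2 g (mul_inv_eq_iff_eq_mul.1 e).symm

theorem prod_w (h : AE H P cl cc t bar ez em ep) [Fintype G] {w : M} (hw : cl w ∈ H)
    (hw2 : ∀ g : G, g * g ≠ cl w) {j : ℕ} (hj : Fintype.card G = 8 * j) :
    cl w ^ (2 * j) = ∏ g ∈ Finset.univ.filter (· ∈ H), g := by
  have hs : ∀ g : G, ∃ b, cl b = g := h.surj
  choose r hr using hs
  obtain ⟨n, h1, h2, -⟩ := sum_H (E := (⊤ : AddSubgroup A)) (T1 := 0) h hw
    (fun _ _ => AddSubgroup.mem_top _) _ (cond_H hw hw2) r hr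
  rw [card_H h hj] at h1
  have hn : n = 2 * j := by omega
  rw [← hn, ← h2, map_prod]
  exact Finset.prod_congr rfl fun g _ => hr g

theorem abs_p (h : AE H P cl cc t bar ez em ep) [Fintype G] {E : AddSubgroup A} {w : M} {T : A}
    (hw : cl w ∈ H) (hw2 : ∀ g : G, g * g ≠ cl w)
    (hr : ∀ c, P (w * bar c) + P c - (T + if cl c ∈ H then em else 0) ∈ E) {j : ℕ}
    (hj : Fintype.card G = 8 * j) (hE : ∀ e ∈ E, (64 : ℤ) • e = 0 → e = 0) {r : G → M}
    (hrr : ∀ g, cl (r g) = g)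
    (htor : (64 : ℤ) • ((∑ g ∈ Finset.univ.filter (· ∈ H), P (r g)) -
      ∑ g ∈ Finset.univ.filter (· ∉ H), P (r g)) = 0) :
    (∑ g ∈ Finset.univ.filter (· ∈ H), P (r g)) -
      (∑ g ∈ Finset.univ.filter (· ∉ H), P (r g)) =
      P (∏ g ∈ Finset.univ.filter (· ∈ H), r g) - P (∏ g ∈ Finset.univ.filter (· ∉ H), r g) -
        (if cc (∏ g ∈ Finset.univ.filter (· ∉ H), r g) = cc (w ^ (2 * j)) then 0 else ep) := by
  have hep : ep + ep = 0 := by
    rw [← h.zm]
    calc ez + em + (ez + em) = (ez + ez) + (em + em) := by abel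
      _ = 0 := by rw [h.z2, h.m2, add_zero]
  obtain ⟨n, h1, h2, h3⟩ := sum_H (T1 := T + em) h hw (fun c hc => by
    have h4 := hr c
    rwa [if_pos hc] at h4) _ (cond_H hw hw2) r hrr
  obtain ⟨n', h1', h2', h3'⟩ := sum_N (T3 := T) h hw (fun c hc => by
    have h4 := hr c
    rwa [if_neg hc, add_zero] at h4) _ (cond_N hw hw2) r hrr
  rw [card_H h hj] at h1
  rw [card_N h hj] at h1'
  obtain rfl : n = 2 * j := by omega
  obtain rfl : n' = 2 * j := by omega
  have hem : (2 * j) • em = 0 := by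
    rw [mul_comm, mul_smul, two_smul, h.m2, smul_zero]
  have hez : (2 * j) • ez = 0 := by
    rw [mul_comm, mul_smul, two_smul, h.z2, smul_zero]
  rw [smul_add, hem, add_zero] at h3
  rw [hez, sub_zero] at h3'
  generalize (∏ g ∈ Finset.univ.filter (· ∈ H), r g) = Ap at *
  generalize (∏ g ∈ Finset.univ.filter (· ∉ H), r g) = B at *
  generalize (∑ g ∈ Finset.univ.filter (· ∈ H), P (r g)) = S1 at *
  generalize (∑ g ∈ Finset.univ.filter (· ∉ H), P (r g)) = S2 at *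
  have hcl : cl Ap = cl B := by rw [h2, h2']
  have hBH : cl (B * 1) ∈ H := by
    rw [mul_one, h2']
    exact H.pow_mem hw _
  obtain ⟨ε, he4, -, hex⟩ := h.kk Ap B hcl
  have h5 := hex 1
  rw [if_pos (Or.inr hBH), mul_one, mul_one, add_zero] at h5
  obtain ⟨δ, hδ⟩ : ∃ δ : A, δ = if cc B = cc (w ^ (2 * j)) then 0 else ep := ⟨_, rfl⟩
  rw [← hδ] at h3' ⊢
  have hd2 : δ + δ = 0 := by
    rw [hδ]
    split_ifs
    · rw [add_zero]
    · exact hep
  have h6 : S1 - S2 - (P Ap - P B - δ) ∈ E := by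
    have h7 := E.sub_mem h3 h3'
    have h8 : S1 - (2 * j) • T - (P Ap - P (w ^ (2 * j))) -
        (S2 - (2 * j) • T - (P B - P (w ^ (2 * j))) - δ) = S1 - S2 - (P Ap - P B - δ) := by
      abel
    rwa [h8] at h7
  have h9 := hE _ h6 (by
    have hd64 : (64 : ℤ) • δ = 0 := by
      have : (64 : ℤ) • δ = (32 : ℤ) • (δ + δ) := by
        rw [smul_add, ← add_smul]
        norm_num
      rw [this, hd2, smul_zero]
    have he64 : (64 : ℤ) • ε = 0 := by
      have : (64 : ℤ) • ε = (16 : ℤ) • ((4 : ℤ) • ε) := by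
        rw [smul_smul]
        norm_num
      rw [this, he4, smul_zero]
    have h10 : P Ap - P B - δ = ε - δ := by
      rw [h5]
      abel
    rw [h10, smul_sub (64 : ℤ) (S1 - S2) (ε - δ), smul_sub (64 : ℤ) ε δ, htor, he64, hd64]
    simp)
  exact sub_eq_zero.1 h9

end Pool.Agent.Work.MP_8efaaa_nt.Q7
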