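import Mathlib
import Pool.Agent.Work.MP_8efaaa_nt.Q7.Defs
import Pool.Agent.Work.MP_8efaaa_nt.Q7.KKx
import Pool.Agent.Work.MP_8efaaa_nt.Q7.PSd
import Pool.Agent.Work.MP_8efaaa_nt.Q7.Gr2
import Pool.Agent.Work.MP_8efaaa_nt.W14.CAs

/-!
# Q7/Pre (S-M): the common data (fixed file; only the proof is missing)

`exists_grp` (W14/CAs), `exists_ae` (with `ht`: `two_cls`), `grp_data`, `p_star` (`Fintype.card = Nat.card`).
-/

set_option autoImplicit false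

namespace Pool.Agent.Work.MP_8efaaa_nt.Q7

open NumberField Pool.Agent.Work.MP_8efaaa_nt.R Pool.Agent.Work.MP_8efaaa_nt.N5
  Pool.Agent.Work.MP_8efaaa_nt.K6 Pool.Agent.Work.MP_8efaaa_nt.W14
  Pool.Agent.Work.MP_8efaaa_nt.W6
open scoped Classical nonZeroDivisors

/-- The common data: `H` the classes of norm `1`, `z0 = (1 + S) r6 S q`, `z1^2 = r6 S 2` as classes,
`wp` the inertia class at `p`, `#Cl = 16 j`. -/
structure Pre7 {K F : Type*} [Field K] [NumberField K] [Field F] [NumberField F] [Algebra K F]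
    (p q : ℕ) (S : 𝓞 K) (τ : 𝓞 K ≃+* 𝓞 K) (z k v : Ideal (𝓞 K) → F) [Fintype (CG S)]
    (H : Subgroup (CG S)) (z0 z1 wp : M13 K) (bar : M13 K → M13 K) (T R : (cQ F).Point)
    (j : ℕ) : Prop where
  hi : H.index = 2
  hH : ∀ c : M13 K, clM S c ∈ H ↔ Ideal.absNorm (c : Ideal (𝓞 K)) % 8 = 1
  hz0 : (z0 : Ideal (𝓞 K)) = Ideal.span {1 + S} * r6 S q
  hz1 : cls (z1 : Ideal (𝓞 K)) * cls (z1 : Ideal (𝓞 K)) = cls (r6 S 2)
  z1H : clM S z1 ∈ H ↔ (p * q) % 16 = 15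
  z0H : clM S z0 ∈ H
  z01 : clM S z0 ≠ 1
  z11 : clM S z1 ≠ 1
  z10 : clM S z1 ≠ clM S z0
  two : ∀ g : CG S, g * g = 1 ↔ g = 1 ∨ g = clM S z0 ∨ g = clM S z1 ∨ g = clM S z0 * clM S z1
  hTT : T + T = ez F
  hT : ∀ c, OddI c → PP z k v (Ideal.span {1 + S} * c) + PP z k v c =
        T + if Ideal.absNorm c % 4 = 1 then 0 else W14.em F
  hRR : R + R = ep F
  hR : ∀ c, OddI c → PP z k v (r6 S ((2 * p * q) / 2) * c) + PP z k v c =
        R + if Ideal.absNorm c % 8 = 1 ∨ Ideal.absNorm c % 8 = 7 then 0 else ez F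
  hbar : ∀ c, (bar c : Ideal (𝓞 K)) = cj τ (c : Ideal (𝓞 K))
  ae : AE H (fun c : M13 K => PP z k v (c : Ideal (𝓞 K))) (clM S) (ccM K) (cls (r6 S 2)) bar
        (ez F) (W14.em F) (ep F)
  j1 : 1 ≤ j
  cj16 : Nat.card (ClassGroup (𝓞 K)) = 16 * j
  cj8 : Fintype.card (CG S) = 8 * j
  w8 : Ideal.absNorm (wp : Ideal (𝓞 K)) % 8 = 1
  w2 : ∀ g : CG S, g * g ≠ clM S wp
  wpr : clM S wp ^ (2 * j) = ∏ g ∈ Finset.univ.filter (· ∈ H), g
  star : ∀ r : CG S → M13 K, (∀ g, clM S (r g) = g) →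
        (∑ g ∈ Finset.univ.filter (· ∈ H), PP z k v (r g : Ideal (𝓞 K))) -
        (∑ g ∈ Finset.univ.filter (· ∉ H), PP z k v (r g : Ideal (𝓞 K))) =
        PP z k v ((∏ g ∈ Finset.univ.filter (· ∈ H), r g : M13 K) : Ideal (𝓞 K)) -
        PP z k v ((∏ g ∈ Finset.univ.filter (· ∉ H), r g : M13 K) : Ideal (𝓞 K)) -
        (if ccM K (∏ g ∈ Finset.univ.filter (· ∉ H), r g) = ccM K (wp ^ (2 * j)) then 0
          else ep F)

theorem exists_pre7 {K F : Type*} [Field K] [NumberField K] [Field F] [NumberField F]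
    [Algebra K F] [FiniteDimensional K F] [IsGalois K F] [IsGalois ℚ F] {p q : ℕ} {s : K}
    {S : 𝓞 K} {τ : 𝓞 K ≃+* 𝓞 K} {ζ : F} {w : ℕ → F} {z k v : Ideal (𝓞 K) → F}
    {κ : F ≃ₐ[ℚ] F}
    (hp : p.Prime) (hq : q.Prime) (hp8 : p % 8 = 1) (hq8 : q % 8 = 7)
    (hqp : jacobiSym q p = 1)
    (hb : B6 K (2 * p * q) s) (hS : algebraMap (𝓞 K) K S = s) (hτ : τ S = -S)
    (hU : UD6 K F (2 * p * q) s S τ ζ w z k v κ) (hnc : ¬ IsCongruent (2 * p * q))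
    {T R : (cQ F).Point} (hTT : T + T = ez F)
    (hT : ∀ c, OddI c → PP z k v (Ideal.span {1 + S} * c) + PP z k v c =
        T + if Ideal.absNorm c % 4 = 1 then 0 else W14.em F)
    (hRR : R + R = ep F)
    (hR : ∀ c, OddI c → PP z k v (r6 S ((2 * p * q) / 2) * c) + PP z k v c =
        R + if Ideal.absNorm c % 8 = 1 ∨ Ideal.absNorm c % 8 = 7 then 0 else ez F)
    [Fintype (CG S)] :
    ∃ (H : Subgroup (CG S)) (z0 z1 wp : M13 K) (bar : M13 K → M13 K) (j : ℕ),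
      Pre7 p q S τ z k v H z0 z1 wp bar T R j := by
  have hp2 : p ≠ 2 := by
    rintro rfl
    norm_num at hp8
  have hq2 : q ≠ 2 := by
    rintro rfl
    norm_num at hq8
  have ha : (2 * p * q) % 16 = 14 := by
    have h1 : (p * q) % 8 = 7 := by
      rw [Nat.mul_mod, hp8, hq8]
    rw [mul_assoc]
    omega
  obtain ⟨H, z0, z1, hi, hH, hz0, hz1, z1H, z0H, z01, z11, z10, two⟩ :=
    exists_grp hp hq hp8 hq8 hb hS hτ
  obtain ⟨ht, -, -, -, -⟩ := two_cls hp hq hp2 hq2 hb hS hτ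
  obtain ⟨bar, hbar, ae⟩ := exists_ae hb hS hτ ha hU hTT hT hRR hR hi hH ht
  obtain ⟨j, j1, cj16, cj8, -, -⟩ := grp_data hp hq hp8 hq8 hb hS hτ hqp
  rw [Nat.card_eq_fintype_card] at cj8
  obtain ⟨wp, w8, w2, wpr, star⟩ := p_star hp hq hp8 hq8 hb hS hτ hU hnc hTT hT hi hH hbar ae cj8
  exact ⟨H, z0, z1, wp, bar, j,
    { hi := hi
      hH := hH
      hz0 := hz0
      hz1 := hz1
      z1H := z1H
      z0H := z0H
      z01 := z01
      z11 := z11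
      z10 := z10
      two := two
      hTT := hTT
      hT := hT
      hRR := hRR
      hR := hR
      hbar := hbar
      ae := ae
      j1 := j1
      cj16 := cj16
      cj8 := cj8
      w8 := w8
      w2 := w2
      wpr := wpr
      star := star }⟩

end Pool.Agent.Work.MP_8efaaa_nt.Q7
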