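import Mathlib
import Pool.Agent.Work.MP_8efaaa_nt.Q7.Defs
import Pool.Agent.Work.MP_8efaaa_nt.Q7.Pre
import Pool.Agent.Work.MP_8efaaa_nt.V6.PEt
import Pool.Agent.Work.MP_8efaaa_nt.V6.PEx
import Pool.Agent.Work.MP_8efaaa_nt.W14.CEq
import Pool.Agent.Work.MP_8efaaa_nt.W14.PGa

/-!
# Q7/Sqt (M): translation by the square of an ideal of order `2`

`P = PP z k v`, `N A = 1 (mod 8)`, `a = 2 p q`, `a % 16 = 14`. (0) `P ((1+S) ((1+S) y)) = P y + em` for odd `y`: `hT` for `(1+S) y` and for `y`; `N ((1+S) y) = (1+a) N y = 3 N y (mod 4)`: exactly one of the two terms is `em`.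
(1) `cls A = 1`: `A = (α)` (`prin_of_cls`), `V6.tr_px`: `P (α x) = P x + ε`, `ε + ε = 0`; twice.
(2) `cls A = cls (r6 S p)`: `A * r6 S p = (α)` (class `1`), norm `N A * p = 1 (mod 8)`: `P ((A r6 p)(A r6 p) x) = P x`; `(A r6 p)(A r6 p) = (p) A A` (`r6 S p * r6 S p = (p)`), `V6.nat_px` for `n = p` (`p % 8 = 1`).
(3) `cls A = cls (r6 S q)`: `A * r6 S q = (α)`, norm `7 (mod 8)`, `β = (1+S) α` of norm `(1+a) 7 = 1 (mod 8)`: `P (β β x) = P x`, `(β)(β) = (1+S)(1+S)(q) A A`; (0) and `V6.nat_px` for `q`: `P (β β x) = P (A A x) + em`.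
(4) `cls A = cls (r6 S 2) = cls (r6 S (a/2))` (`cls_two`): as (3) with `r6 S (a/2)` of norm `a/2 = p q = 7 (mod 8)`.
-/

set_option autoImplicit false

namespace Pool.Agent.Work.MP_8efaaa_nt.Q7

open NumberField Pool.Agent.Work.MP_8efaaa_nt.R Pool.Agent.Work.MP_8efaaa_nt.N5
  Pool.Agent.Work.MP_8efaaa_nt.K6 Pool.Agent.Work.MP_8efaaa_nt.W14
  Pool.Agent.Work.MP_8efaaa_nt.W6
open scoped Classical nonZeroDivisors

private theorem st_odd {K : Type*} [Field K] [NumberField K] {b c : Ideal (𝓞 K)} (hb : OddI b)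
    (hc : OddI c) : OddI (b * c) := by
  unfold OddI at hb hc ⊢
  rw [map_mul]
  exact hb.mul hc

private theorem st_ne {K : Type*} [Field K] [NumberField K] {c : Ideal (𝓞 K)} (hc : OddI c) :
    c ≠ 0 := by
  rintro rfl
  unfold OddI at hc
  rw [map_zero] at hc
  exact absurd hc (by decide)

private theorem st_eps {F : Type*} [Field F] [CharZero F] {e : (cQ F).Point} {n : ℕ}
    (h1 : n % 16 = 1 → e = 0 ∨ e = W14.em F) (h2 : n % 16 ≠ 1 → e = ez F ∨ e = ep F) :
    e + e = 0 := by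
  obtain ⟨t1, t2, t3, -, -, -⟩ := two_ep (F := F)
  by_cases h : n % 16 = 1
  · rcases h1 h with rfl | rfl
    · exact add_zero _
    · exact t2
  · rcases h2 h with rfl | rfl
    · exact t3
    · exact t1

section

variable {K F : Type*} [Field K] [NumberField K] [Field F] [NumberField F] [Algebra K F]
  {a : ℕ} {s : K} {S : 𝓞 K} {τ : 𝓞 K ≃+* 𝓞 K} {ζ : F} {w : ℕ → F} {z k v : Ideal (𝓞 K) → F}
  {κ : F ≃ₐ[ℚ] F}

/-- twice the same principal ideal of norm `1 (mod 8)` -/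
private theorem st_dbl (hb : B6 K a s) (hS : algebraMap (𝓞 K) K S = s)
    (hU : UD6 K F a s S τ ζ w z k v κ) {J x : Ideal (𝓞 K)} (hJ : Ideal.absNorm J % 8 = 1)
    (hJ1 : cls J = 1) (hx : OddI x) : PP z k v (J * (J * x)) = PP z k v x := by
  have hJo : OddI J := by
    unfold OddI
    rw [Nat.odd_iff]
    omega
  obtain ⟨γ, -, rfl⟩ := prin_of_cls (st_ne hJo) hJ1
  obtain ⟨e, h1, h2, he⟩ := V6.tr_px hb hS hU hJ
  rw [he _ (st_odd hJo hx), he _ hx, add_assoc, st_eps h1 h2, add_zero]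

/-- twice `1 + S` -/
private theorem st_g2 (hb : B6 K a s) (hS : algebraMap (𝓞 K) K S = s) {T : (cQ F).Point}
    (hT : ∀ c, OddI c → PP z k v (Ideal.span {1 + S} * c) + PP z k v c =
        T + if Ideal.absNorm c % 4 = 1 then 0 else W14.em F)
    {y : Ideal (𝓞 K)} (hy : OddI y) :
    PP z k v (Ideal.span {1 + S} * (Ideal.span {1 + S} * y)) = PP z k v y + W14.em F := by
  obtain ⟨t1, t2, t3, -, -, -⟩ := two_ep (F := F)
  have hmod := hb.mod
  have hgo : OddI (Ideal.span {1 + S}) := by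
    unfold OddI
    rw [norm_g hb hS, Nat.odd_iff]
    omega
  have h1 := hT _ (st_odd hgo hy)
  have h2 := hT _ hy
  have hyo : Ideal.absNorm y % 2 = 1 := Nat.odd_iff.1 hy
  have hn : Ideal.absNorm (Ideal.span {1 + S} * y) % 4 = 3 * (Ideal.absNorm y % 4) % 4 := by
    rw [map_mul, norm_g hb hS, Nat.mul_mod]
    have h3 : (1 + a) % 4 = 3 := by omega
    rw [h3]
  have h4 : PP z k v (Ideal.span {1 + S} * (Ideal.span {1 + S} * y)) =
      T + (if Ideal.absNorm (Ideal.span {1 + S} * y) % 4 = 1 then 0 else W14.em F) -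
      (T + (if Ideal.absNorm y % 4 = 1 then 0 else W14.em F) - PP z k v y) := by
    rw [← h1, ← h2]
    abel
  rw [h4]
  have hneg : -(W14.em F) = W14.em F := by
    rw [neg_eq_iff_add_eq_zero]
    exact t2
  by_cases h5 : Ideal.absNorm y % 4 = 1
  · have h6 : ¬ Ideal.absNorm (Ideal.span {1 + S} * y) % 4 = 1 := by omega
    rw [if_pos h5, if_neg h6]
    abel
  · have h6 : Ideal.absNorm (Ideal.span {1 + S} * y) % 4 = 1 := by omega
    rw [if_neg h5, if_pos h6]
    have h7 : T + 0 - (T + W14.em F - PP z k v y) = PP z k v y + -(W14.em F) := by abel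
    rw [h7, hneg]

/-- `d % 8 = 7` -/
private theorem st_seven (hb : B6 K a s) (hS : algebraMap (𝓞 K) K S = s) (ha : a % 16 = 14)
    (hU : UD6 K F a s S τ ζ w z k v κ) {T : (cQ F).Point}
    (hT : ∀ c, OddI c → PP z k v (Ideal.span {1 + S} * c) + PP z k v c =
        T + if Ideal.absNorm c % 4 = 1 then 0 else W14.em F)
    {A : Ideal (𝓞 K)} (hA : Ideal.absNorm A % 8 = 1) {x : Ideal (𝓞 K)} (hx : OddI x) {d : ℕ}
    (hd : d ∣ a) (hd8 : d % 8 = 7) (hc : cls A = cls (r6 S d)) :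
    PP z k v (A * (A * x)) = PP z k v x + W14.em F := by
  obtain ⟨t1, t2, t3, -, -, -⟩ := two_ep (F := F)
  have hN := norm_r6 hb hS hd
  have hAo : OddI A := by
    unfold OddI
    rw [Nat.odd_iff]
    omega
  have hdo : OddI (r6 S d) := by
    unfold OddI
    rw [hN, Nat.odd_iff]
    omega
  have hgo : OddI (Ideal.span {1 + S}) := by
    unfold OddI
    rw [norm_g hb hS, Nat.odd_iff]
    omega
  have hg0 : (1 + S : 𝓞 K) ≠ 0 := by
    intro h0
    apply st_ne hgo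
    rw [h0]
    exact Ideal.span_singleton_eq_bot.2 rfl
  have hd0 : (d : 𝓞 K) ≠ 0 := by
    rw [Nat.cast_ne_zero]
    rintro rfl
    omega
  have hJ : Ideal.absNorm (Ideal.span {1 + S} * (A * r6 S d)) % 8 = 1 := by
    rw [map_mul, map_mul, norm_g hb hS, hN, Nat.mul_mod, Nat.mul_mod (Ideal.absNorm A), hA, hd8]
    have h1 : (1 + a) % 8 = 7 := by omega
    rw [h1]
  have hJ1 : cls (Ideal.span {1 + S} * (A * r6 S d)) = 1 := by
    rw [cls_mul (st_ne hgo) (st_ne (st_odd hAo hdo)), cls_span hg0, one_mul,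
      cls_mul (st_ne hAo) (st_ne hdo), hc, ← cls_mul (st_ne hdo) (st_ne hdo), r6_sq hb hS hd,
      cls_span hd0]
  have h1 := st_dbl hb hS hU hJ hJ1 hx
  have hyo : OddI (Ideal.span {(d : 𝓞 K)} * (A * (A * x))) := by
    rw [← r6_sq hb hS hd]
    exact st_odd (st_odd hdo hdo) (st_odd hAo (st_odd hAo hx))
  have h2 : Ideal.span {1 + S} * (A * r6 S d) * (Ideal.span {1 + S} * (A * r6 S d) * x) =
      Ideal.span {1 + S} * (Ideal.span {1 + S} * (Ideal.span {(d : 𝓞 K)} * (A * (A * x)))) := by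
    rw [← r6_sq hb hS hd]
    ring
  rw [h2, st_g2 hb hS hT hyo, V6.nat_px hb hS hU (Nat.odd_iff.2 (by omega))
    (st_odd hAo (st_odd hAo hx)), if_pos (Or.inr hd8), add_zero] at h1
  rw [← h1, add_assoc, t2, add_zero]

end

theorem sq_tr {K F : Type*} [Field K] [NumberField K] [Field F] [NumberField F]
    [Algebra K F] {p q : ℕ} {s : K}
    {S : 𝓞 K} {τ : 𝓞 K ≃+* 𝓞 K} {ζ : F} {w : ℕ → F} {z k v : Ideal (𝓞 K) → F}
    {κ : F ≃ₐ[ℚ] F}
    (hp : p.Prime) (hq : q.Prime) (hp8 : p % 8 = 1) (hq8 : q % 8 = 7)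
    (hb : B6 K (2 * p * q) s) (hS : algebraMap (𝓞 K) K S = s) (hτ : τ S = -S)
    (hU : UD6 K F (2 * p * q) s S τ ζ w z k v κ) {T : (cQ F).Point} (hTT : T + T = ez F)
    (hT : ∀ c, OddI c → PP z k v (Ideal.span {1 + S} * c) + PP z k v c =
        T + if Ideal.absNorm c % 4 = 1 then 0 else W14.em F)
    {A : Ideal (𝓞 K)} (hA : Ideal.absNorm A % 8 = 1) {x : Ideal (𝓞 K)} (hx : OddI x) :
    ((cls A = 1 ∨ cls A = cls (r6 S p)) → PP z k v (A * (A * x)) = PP z k v x) ∧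
      ((cls A = cls (r6 S 2) ∨ cls A = cls (r6 S q)) →
        PP z k v (A * (A * x)) = PP z k v x + W14.em F) := by
  have ha : (2 * p * q) % 16 = 14 := by
    have h1 : (p * q) % 8 = 7 := by
      rw [Nat.mul_mod, hp8, hq8]
    rw [mul_assoc]
    omega
  have hpa : p ∣ 2 * p * q := ⟨2 * q, by ring⟩
  have hqa : q ∣ 2 * p * q := ⟨2 * p, by ring⟩
  have hAo : OddI A := by
    unfold OddI
    rw [Nat.odd_iff]
    omega
  constructor
  · rintro (h | h)
    · exact st_dbl hb hS hU hA h hx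
    · have hN := norm_r6 hb hS hpa
      have hdo : OddI (r6 S p) := by
        unfold OddI
        rw [hN, Nat.odd_iff]
        omega
      have hd0 : (p : 𝓞 K) ≠ 0 := by
        rw [Nat.cast_ne_zero]
        exact hp.ne_zero
      have hJ : Ideal.absNorm (A * r6 S p) % 8 = 1 := by
        rw [map_mul, hN, Nat.mul_mod, hA, hp8]
      have hJ1 : cls (A * r6 S p) = 1 := by
        rw [cls_mul (st_ne hAo) (st_ne hdo), h, ← cls_mul (st_ne hdo) (st_ne hdo),
          r6_sq hb hS hpa, cls_span hd0]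
      have h1 := st_dbl hb hS hU hJ hJ1 hx
      have h2 : A * r6 S p * (A * r6 S p * x) = Ideal.span {(p : 𝓞 K)} * (A * (A * x)) := by
        rw [← r6_sq hb hS hpa]
        ring
      rw [h2, V6.nat_px hb hS hU (Nat.odd_iff.2 (by omega)) (st_odd hAo (st_odd hAo hx)),
        if_pos (Or.inl hp8), add_zero] at h1
      exact h1
  · rintro (h | h)
    · obtain ⟨-, h2⟩ := cls_two hb hS
      have h3 : 2 * p * q / 2 % 8 = 7 := by omega
      exact st_seven hb hS ha hU hT hA hx (d := 2 * p * q / 2) ⟨2, by omega⟩ h3 (h.trans h2.symm)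
    · exact st_seven hb hS ha hU hT hA hx hqa hq8 h

end Pool.Agent.Work.MP_8efaaa_nt.Q7
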