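import Mathlib
import Pool.Agent.Work.MP_8efaaa_nt.Q7.Defs
import Pool.Agent.Work.MP_8efaaa_nt.Q7.Pre
import Pool.Agent.Work.MP_8efaaa_nt.Q7.AbS
import Pool.Agent.Work.MP_8efaaa_nt.Q7.Sqt
import Pool.Agent.Work.MP_8efaaa_nt.Q7.Gr3

/-!
# Q7/Zkp (M): the section, and complex conjugation

`exists_sec`: `clM_surj` gives a section `r0`; `∏_H r0` and `wp^(2j)` have the same `clM` (`D.wpr`), so by `D.ae.fib` `ccM (∏_H r0) = ccM (wp^(2j))` or `= t * ccM (wp^(2j))` (`t = cls (r6 S 2)`); in the second case change `r0 1` to `c1 * r0 1` where `c1 ∈ M13` has `cls c1 = t` (`cls_surj`; `clM S c1 = 1`): the product is multiplied by `t`, `t t = 1`.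
`z_kap`: `gal κ (P c) = P (cj τ c)` (`gal_pp`, `hU.cc`), so `gal κ Z = ∑_H P (bar (r g)) = ∑_H P (r' g)`, `r' g = bar (r g⁻¹)` (section: `D.ae.clb`). `dif_H`: `= Z + P (∏_H r') - P R0`, `R0 = ∏_H r g`; `∏_H r'` and `bar R0` are the same ideal (`cj τ` is multiplicative: `map_mul`/`map_prod`). `D.ae.kk` for `bar R0` and `R0`: the classes in `CG S` are equal: `ccM R0` has order `≤ 2` (`hC`: it is `1`, `cls (r6 S p)`, `cls (r6 S 2)` or `cls (r6 S q)`; `cls (r6 S d)^2 = 1`), so `ccM (bar R0) = (ccM R0)⁻¹ = ccM R0`: `P (bar R0 * x) = P (R0 * x) + ε` for all `x`, `ε + ε = 0`. `x = 1`: `gal κ Z = Z + ε`. `x = R0`: `P (R0 * bar R0) = P 1` (`D.ae.nrm`, `clM S R0 ∈ H`) `= P (R0 * R0) + ε`, `P (R0 * R0) = P 1 + e` (`sq_tr`, `N R0 = 1 (mod 8)`). So `ε = e` (`e + e = 0`).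
-/

set_option autoImplicit false

namespace Pool.Agent.Work.MP_8efaaa_nt.Q7

open NumberField Pool.Agent.Work.MP_8efaaa_nt.R Pool.Agent.Work.MP_8efaaa_nt.N5
  Pool.Agent.Work.MP_8efaaa_nt.K6 Pool.Agent.Work.MP_8efaaa_nt.W14
  Pool.Agent.Work.MP_8efaaa_nt.W6
open scoped Classical nonZeroDivisors

private theorem zkp_sq {K : Type*} [Field K] [NumberField K] {a : ℕ} {s : K} {S : 𝓞 K}
    (hb : B6 K a s) (hS : algebraMap (𝓞 K) K S = s) {d : ℕ} (hd : d ∣ a) :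
    cls (r6 S d) * cls (r6 S d) = 1 := by
  have h := r6_ne hb hS hd
  rw [← cls_mul h h, r6_sq hb hS hd]
  apply cls_span
  have hd0 : d ≠ 0 := by
    rintro rfl
    exact hb.sf.ne_zero (Nat.eq_zero_of_zero_dvd hd)
  exact_mod_cast hd0

private theorem zkp_bar {K : Type*} [Field K] [NumberField K] {S : 𝓞 K} {τ : 𝓞 K ≃+* 𝓞 K}
    {bar : M13 K → M13 K} (hbar : ∀ c, (bar c : Ideal (𝓞 K)) = cj τ (c : Ideal (𝓞 K)))
    (X : Finset (CG S)) (f : CG S → M13 K) : ∏ g ∈ X, bar (f g) = bar (∏ g ∈ X, f g) := by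
  induction X using Finset.induction_on with
  | empty =>
    rw [Finset.prod_empty, Finset.prod_empty]
    apply Subtype.ext
    rw [hbar]
    show (1 : Ideal (𝓞 K)) = cj τ (1 : Ideal (𝓞 K))
    unfold cj
    rw [Ideal.one_eq_top, Ideal.map_top]
  | insert g X hg ih =>
    rw [Finset.prod_insert hg, Finset.prod_insert hg, ih]
    apply Subtype.ext
    rw [hbar]
    show (bar (f g) : Ideal (𝓞 K)) * (bar (∏ g ∈ X, f g) : Ideal (𝓞 K)) =
      cj τ ((f g : Ideal (𝓞 K)) * ((∏ g ∈ X, f g : M13 K) : Ideal (𝓞 K)))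
    rw [cj_mul6, hbar, hbar]

theorem exists_sec {K F : Type*} [Field K] [NumberField K] [Field F] [NumberField F]
    [Algebra K F] {p q : ℕ} {s : K}
    {S : 𝓞 K} {τ : 𝓞 K ≃+* 𝓞 K} {z k v : Ideal (𝓞 K) → F}
    (hb : B6 K (2 * p * q) s) (hS : algebraMap (𝓞 K) K S = s)
    [Fintype (CG S)] {H : Subgroup (CG S)}
    {z0 z1 wp : M13 K} {bar : M13 K → M13 K} {T R : (cQ F).Point} {j : ℕ}
    (D : Pre7 p q S τ z k v H z0 z1 wp bar T R j) :
    ∃ r : CG S → M13 K, (∀ g, clM S (r g) = g) ∧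
      ccM K (∏ g ∈ Finset.univ.filter (· ∈ H), r g) = ccM K (wp ^ (2 * j)) := by
  have hsur : ∀ g : CG S, ∃ c : M13 K, clM S c = g := fun g => clM_surj hb hS g
  choose r0 hr0 using hsur
  have hp : clM S (∏ g ∈ Finset.univ.filter (· ∈ H), r0 g) = clM S (wp ^ (2 * j)) := by
    rw [map_prod, map_pow, D.wpr]
    exact Finset.prod_congr rfl fun g _ => hr0 g
  rcases (D.ae.fib _ _).1 hp with h | h
  · exact ⟨r0, hr0, h⟩
  · obtain ⟨c1, hc1, hc2⟩ := cls_surj hb hS (cls (r6 S 2))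
    refine ⟨fun g => (if g = 1 then (⟨c1, hc1⟩ : M13 K) else 1) * r0 g, ?_, ?_⟩
    · intro g
      rw [map_mul, hr0]
      by_cases hg : g = 1
      · rw [if_pos hg, hg, mul_one]
        show (QuotientGroup.mk (cls c1) : CG S) = 1
        rw [QuotientGroup.eq_one_iff, hc2]
        exact Subgroup.mem_zpowers _
      · rw [if_neg hg, map_one, one_mul]
    · rw [Finset.prod_mul_distrib, Finset.prod_ite_eq', if_pos (by simp [H.one_mem]), map_mul, h]
      show cls c1 * (cls (r6 S 2) * ccM K (wp ^ (2 * j))) = ccM K (wp ^ (2 * j))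
      rw [hc2, ← mul_assoc, D.ae.t2, one_mul]

theorem z_kap {K F : Type*} [Field K] [NumberField K] [Field F] [NumberField F]
    [Algebra K F] {p q : ℕ} {s : K}
    {S : 𝓞 K} {τ : 𝓞 K ≃+* 𝓞 K} {ζ : F} {w : ℕ → F} {z k v : Ideal (𝓞 K) → F}
    {κ : F ≃ₐ[ℚ] F}
    (hp : p.Prime) (hq : q.Prime) (hp8 : p % 8 = 1) (hq8 : q % 8 = 7)
    (hb : B6 K (2 * p * q) s) (hS : algebraMap (𝓞 K) K S = s) (hτ : τ S = -S)
    (hU : UD6 K F (2 * p * q) s S τ ζ w z k v κ) [Fintype (CG S)] {H : Subgroup (CG S)}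
    {z0 z1 wp : M13 K} {bar : M13 K → M13 K} {T R : (cQ F).Point} {j : ℕ}
    (D : Pre7 p q S τ z k v H z0 z1 wp bar T R j) {r : CG S → M13 K}
    (hr : ∀ g, clM S (r g) = g)
    (hr2 : ccM K (∏ g ∈ Finset.univ.filter (· ∈ H), r g) = ccM K (wp ^ (2 * j)))
    (hC : ccM K (wp ^ (2 * j)) = 1 ∨ ccM K (wp ^ (2 * j)) = cls (r6 S p) ∨
      ccM K (wp ^ (2 * j)) = cls (r6 S 2) ∨ ccM K (wp ^ (2 * j)) = cls (r6 S q))
    {Z : (cQ F).Point}
    (hZ : Z = ∑ g ∈ Finset.univ.filter (· ∈ H), PP z k v (r g : Ideal (𝓞 K))) :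
    ((ccM K (wp ^ (2 * j)) = 1 ∨ ccM K (wp ^ (2 * j)) = cls (r6 S p)) → gal κ Z = Z) ∧
      ((ccM K (wp ^ (2 * j)) = cls (r6 S 2) ∨ ccM K (wp ^ (2 * j)) = cls (r6 S q)) →
        gal κ Z = Z + W14.em F) := by
  set X : Finset (CG S) := Finset.univ.filter (· ∈ H) with hXd
  have hX : ∀ g ∈ X, g ∈ H := fun g hg => (Finset.mem_filter.1 hg).2
  have hXi : ∀ g ∈ X, g⁻¹ ∈ X := fun g hg =>
    Finset.mem_filter.2 ⟨Finset.mem_univ _, H.inv_mem (hX g hg)⟩
  set R0 : M13 K := ∏ g ∈ X, r g with hR0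
  -- the conjugate of `Z`
  have h1 : gal κ Z = ∑ g ∈ X, PP z k v (bar (r g) : Ideal (𝓞 K)) := by
    rw [hZ, map_sum]
    refine Finset.sum_congr rfl fun g _ => ?_
    obtain ⟨c1, c2, c3⟩ := hU.cc _ (M13.odd (r g).2)
    rw [D.hbar]
    exact gal_pp κ c1 c2 c3
  have h2 : ∑ g ∈ X, PP z k v (bar (r g) : Ideal (𝓞 K)) =
      ∑ g ∈ X, PP z k v (bar (r g⁻¹) : Ideal (𝓞 K)) := by
    refine Finset.sum_nbij' (fun g => g⁻¹) (fun g => g⁻¹) hXi hXi ?_ ?_ ?_
    · intro g _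
      exact inv_inv g
    · intro g _
      exact inv_inv g
    · intro g _
      rw [inv_inv]
  have h3 : ∏ g ∈ X, bar (r g⁻¹) = bar R0 := by
    rw [hR0, ← zkp_bar D.hbar]
    refine Finset.prod_nbij' (fun g => g⁻¹) (fun g => g⁻¹) hXi hXi ?_ ?_ ?_
    · intro g _
      exact inv_inv g
    · intro g _
      exact inv_inv g
    · intro g _
      rfl
  have h4 := dif_H D.ae X hX (fun g => bar (r g⁻¹)) r (fun g => by
    rw [D.ae.clb, hr, inv_inv]) hr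
  rw [h3, ← hR0] at h4
  -- the classes
  have hsq : ccM K R0 * ccM K R0 = 1 := by
    rw [hr2]
    rcases hC with h | h | h | h
    · rw [h, one_mul]
    · rw [h]
      exact zkp_sq hb hS ⟨2 * q, by ring⟩
    · rw [h]
      exact zkp_sq hb hS ⟨p * q, by ring⟩
    · rw [h]
      exact zkp_sq hb hS ⟨2 * p, by ring⟩
  have hcc : ccM K (bar R0) = ccM K R0 := by
    rw [D.ae.ccb]
    exact inv_eq_of_mul_eq_one_left hsq
  have hcl : clM S (bar R0) = clM S R0 := (D.ae.fib _ _).2 (Or.inl hcc)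
  obtain ⟨ε, -, -, hε⟩ := D.ae.kk _ _ hcl
  have e1 : PP z k v (bar R0 : Ideal (𝓞 K)) = PP z k v (R0 : Ideal (𝓞 K)) + ε := by
    have := hε 1
    rw [mul_one, mul_one, if_pos (Or.inl hcc), add_zero] at this
    exact this
  have e2 : PP z k v ((bar R0 * R0 : M13 K) : Ideal (𝓞 K)) =
      PP z k v ((R0 * R0 : M13 K) : Ideal (𝓞 K)) + ε := by
    have := hε R0
    rw [if_pos (Or.inl hcc), add_zero] at this
    exact this
  have hRH : clM S R0 ∈ H := by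
    rw [hR0, map_prod]
    refine Subgroup.prod_mem H fun g hg => ?_
    rw [hr]
    exact hX g hg
  have e3 : PP z k v ((R0 * bar R0 : M13 K) : Ideal (𝓞 K)) = PP z k v (1 : Ideal (𝓞 K)) := by
    have := D.ae.nrm R0 1
    rw [mul_one, if_pos hRH, add_zero] at this
    exact this
  rw [mul_comm] at e3
  rw [e3] at e2
  have hN := (D.hH R0).1 hRH
  have hodd1 : OddI (1 : Ideal (𝓞 K)) := by
    unfold OddI
    rw [map_one]
    exact odd_one
  obtain ⟨s1, s2⟩ := sq_tr hp hq hp8 hq8 hb hS hτ hU D.hTT D.hT hN hodd1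
  rw [mul_one] at s1 s2
  have e4 : gal κ Z = Z + ε := by
    rw [h1, h2, hZ]
    have h5 : ∑ g ∈ X, PP z k v (bar (r g⁻¹) : Ideal (𝓞 K)) =
        ∑ g ∈ X, PP z k v (r g : Ideal (𝓞 K)) +
          (PP z k v (bar R0 : Ideal (𝓞 K)) - PP z k v (R0 : Ideal (𝓞 K))) := by
      rw [← h4]
      abel
    rw [h5, e1]
    abel
  have hcR : cls (R0 : Ideal (𝓞 K)) = ccM K (wp ^ (2 * j)) := hr2
  rw [hcR] at s1 s2
  refine ⟨fun h => ?_, fun h => ?_⟩
  · have h6 := s1 h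
    have h7 : ε = 0 := by
      have h8 : PP z k v (1 : Ideal (𝓞 K)) = PP z k v (1 : Ideal (𝓞 K)) + ε := by
        have h9 : PP z k v ((R0 * R0 : M13 K) : Ideal (𝓞 K)) = PP z k v (1 : Ideal (𝓞 K)) := h6
        rw [h9] at e2
        exact e2
      exact left_eq_add.1 h8
    rw [e4, h7, add_zero]
  · have h6 := s2 h
    have h7 : ε = W14.em F := by
      have h9 : PP z k v ((R0 * R0 : M13 K) : Ideal (𝓞 K)) =
        PP z k v (1 : Ideal (𝓞 K)) + W14.em F := h6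
      rw [h9, add_assoc] at e2
      have h10 : W14.em F + ε = 0 := left_eq_add.1 e2
      have h11 := D.ae.m2
      calc ε = W14.em F + W14.em F + ε := by rw [h11, zero_add]
        _ = W14.em F + (W14.em F + ε) := by rw [add_assoc]
        _ = W14.em F := by rw [h10, add_zero]
    rw [e4, h7]

end Pool.Agent.Work.MP_8efaaa_nt.Q7
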