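import Mathlib
import Pool.Agent.Work.MP_8efaaa_nt.Q7.Defs
import Pool.Agent.Work.MP_8efaaa_nt.Q7.Pre
import Pool.Agent.Work.MP_8efaaa_nt.Q7.AbS
import Pool.Agent.Work.MP_8efaaa_nt.Q7.Sqt
import Pool.Agent.Work.MP_8efaaa_nt.Q7.Gr3

/-!
# Q7/Zsg (M): the conjugates of the half sum

`P = PP z k v`, `R0 = ∏_H r g`, `Z = ∑_H P (r g)`; `#H = 4 j` (index `2`, `D.cj8`). For an ideal `b'` of norm `1` or `3 (mod 8)` let `e = 0` or `em` as `cls b' ^ (2j) ∈ {1, cls (r6 S p)}` or `∈ {cls (r6 S 2), cls (r6 S q)}`; `e + e = 0`.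
`z_mul`: `∑_{g ∈ H} P (b' * r g) = Z + e`. `r' g = b' * r ((clM b')⁻¹ * g)` is a section. (a) `N b' = 1 (mod 8)`: `clM S b' ∈ H`, `∑_{g ∈ H} P (b' * r g) = ∑_H P (r' g)` (`g ↦ clM b' * g`), `dif_H` (AbS): `= Z + P (∏_H r') - P R0`, `∏_H r' = b'^(4j) R0 = b'^(2j) (b'^(2j) R0)`, `sq_tr` for `A = b'^(2j)` (`N A = (N b')^(2j) = 1 (mod 8)`). (b) `N b' = 3 (mod 8)`: `clM S b' ∉ H`, `D.star` for the section `g ↦ if g ∈ H then r g else r' g`: `Z - ∑_{∉H} P (r' g) = P R0 - P (∏_{∉H} r') - (if ccM (∏_{∉H} r') = ccM (wp^(2j)) then 0 else ep)`, `∏_{∉H} r' = b'^(4j) R0`, `ccM (b'^(4j)) = 1` (`exp7`), so the last term is `0` (`hr2`), and `∑_{∉H} P (r' g) = ∑_{g ∈ H} P (b' r g)`.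
`z_conj`: `gal σ Z = ∑_H P (b * r g)` (`map_sum`, `hact`). `N b % 8 = 1, 3`: `z_mul` for `b`. `N b % 8 = 5, 7`: `b' = (1+S) b`, norm `(1+a) N b = 7 N b (mod 8)` is `3` resp. `1`; `hT` for `b * r g` (`N (r g) = 1 (mod 8)`): `P (b r g) = -P (b' r g) + T + c`, `c` = `0` or `em` independent of `g`; the sum over the `4 j` elements: `4 j • T = 0` (`4 • T = 2 • ez = 0`), `4 j • em = 0`: `gal σ Z = -(Z + e) = -Z + e`. `cls b' = cls b`.
-/

set_option autoImplicit false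

namespace Pool.Agent.Work.MP_8efaaa_nt.Q7

open NumberField Pool.Agent.Work.MP_8efaaa_nt.R Pool.Agent.Work.MP_8efaaa_nt.N5
  Pool.Agent.Work.MP_8efaaa_nt.K6 Pool.Agent.Work.MP_8efaaa_nt.W14
  Pool.Agent.Work.MP_8efaaa_nt.W6
open scoped Classical nonZeroDivisors

section abstract_sums

variable {M A G C : Type*} [CommMonoid M] [AddCommGroup A] [CommGroup G] [CommGroup C]
  [Fintype G] {H : Subgroup G} {P : M → A} {cl : M →* G} {cc : M →* C} {t : C} {bar : M → M}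
  {ez em ep : A}

private theorem zs_cl {r : G → M} (hr : ∀ g, cl (r g) = g) (b : M) (g : G) :
    cl (b * r ((cl b)⁻¹ * g)) = g := by
  rw [map_mul, hr, mul_inv_cancel_left]

private theorem zs_re {B : Type*} [CommMonoid B] {a : G} {S1 S2 : Finset G}
    (h : ∀ g, a * g ∈ S2 ↔ g ∈ S1) (f : G → B) :
    ∏ g ∈ S2, f (a⁻¹ * g) = ∏ g ∈ S1, f g := by
  refine Finset.prod_nbij' (fun g => a⁻¹ * g) (fun g => a * g) ?_ ?_ ?_ ?_ ?_
  · intro g hg
    show a⁻¹ * g ∈ S1
    rw [← h, mul_inv_cancel_left]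
    exact hg
  · intro g hg
    exact (h g).2 hg
  · intro g _
    show a * (a⁻¹ * g) = g
    rw [mul_inv_cancel_left]
  · intro g _
    show a⁻¹ * (a * g) = g
    rw [inv_mul_cancel_left]
  · intro g _
    rfl

private theorem zs_ra {B : Type*} [AddCommMonoid B] {a : G} {S1 S2 : Finset G}
    (h : ∀ g, a * g ∈ S2 ↔ g ∈ S1) (f : G → B) :
    ∑ g ∈ S2, f (a⁻¹ * g) = ∑ g ∈ S1, f g := by
  refine Finset.sum_nbij' (fun g => a⁻¹ * g) (fun g => a * g) ?_ ?_ ?_ ?_ ?_
  · intro g hg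
    show a⁻¹ * g ∈ S1
    rw [← h, mul_inv_cancel_left]
    exact hg
  · intro g hg
    exact (h g).2 hg
  · intro g _
    show a * (a⁻¹ * g) = g
    rw [mul_inv_cancel_left]
  · intro g _
    show a⁻¹ * (a * g) = g
    rw [inv_mul_cancel_left]
  · intro g _
    rfl

/-- the sum over the translated section -/
private theorem zs_mul (h : AE H P cl cc t bar ez em ep) {n : ℕ}
    (hn : (Finset.univ.filter (· ∈ H)).card = n) {W : C}
    (star : ∀ r : G → M, (∀ g, cl (r g) = g) →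
        (∑ g ∈ Finset.univ.filter (· ∈ H), P (r g)) -
        (∑ g ∈ Finset.univ.filter (· ∉ H), P (r g)) =
        P (∏ g ∈ Finset.univ.filter (· ∈ H), r g) - P (∏ g ∈ Finset.univ.filter (· ∉ H), r g) -
        (if cc (∏ g ∈ Finset.univ.filter (· ∉ H), r g) = W then 0 else ep))
    {r : G → M} (hr : ∀ g, cl (r g) = g)
    (hr2 : cc (∏ g ∈ Finset.univ.filter (· ∈ H), r g) = W) {b : M} (hb : cc b ^ n = 1) :
    ∑ g ∈ Finset.univ.filter (· ∈ H), P (b * r g) =
      ∑ g ∈ Finset.univ.filter (· ∈ H), P (r g) +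
        (P (b ^ n * ∏ g ∈ Finset.univ.filter (· ∈ H), r g) -
          P (∏ g ∈ Finset.univ.filter (· ∈ H), r g)) := by
  by_cases hbH : cl b ∈ H
  · have hre : ∀ g, cl b * g ∈ Finset.univ.filter (· ∈ H) ↔
        g ∈ Finset.univ.filter (· ∈ H) := by
      intro g
      rw [Finset.mem_filter, Finset.mem_filter]
      simp only [Finset.mem_univ, true_and]
      exact H.mul_mem_cancel_left hbH
    have h1 := dif_H h (Finset.univ.filter (· ∈ H)) (fun g hg => (Finset.mem_filter.1 hg).2)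
      (fun g => b * r ((cl b)⁻¹ * g)) r (zs_cl hr b) hr
    have h2 := zs_ra hre (fun g => P (b * r g))
    have h3 := zs_re hre (fun g => b * r g)
    have h4 : ∏ g ∈ Finset.univ.filter (· ∈ H), b * r g =
        b ^ n * ∏ g ∈ Finset.univ.filter (· ∈ H), r g := by
      rw [Finset.prod_mul_distrib, Finset.prod_const, hn]
    simp only at h1 h2 h3
    rw [h2, h3, h4] at h1
    rw [← h1]
    abel
  · have hre : ∀ g, cl b * g ∈ Finset.univ.filter (· ∉ H) ↔
        g ∈ Finset.univ.filter (· ∈ H) := by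
      intro g
      rw [Finset.mem_filter, Finset.mem_filter]
      simp only [Finset.mem_univ, true_and]
      rw [Subgroup.mul_mem_iff_of_index_two h.idx]
      tauto
    have h2 := zs_ra hre (fun g => P (b * r g))
    have h3 := zs_re hre (fun g => b * r g)
    have h4 : ∏ g ∈ Finset.univ.filter (· ∈ H), b * r g =
        b ^ n * ∏ g ∈ Finset.univ.filter (· ∈ H), r g := by
      rw [Finset.prod_mul_distrib, Finset.prod_const, hn]
    have h1 := star (fun g => if g ∈ H then r g else b * r ((cl b)⁻¹ * g)) (by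
      intro g
      split_ifs
      · exact hr g
      · exact zs_cl hr b g)
    have e1 : ∑ g ∈ Finset.univ.filter (· ∈ H),
        P (if g ∈ H then r g else b * r ((cl b)⁻¹ * g)) =
        ∑ g ∈ Finset.univ.filter (· ∈ H), P (r g) :=
      Finset.sum_congr rfl fun g hg => by rw [if_pos (Finset.mem_filter.1 hg).2]
    have e2 : ∑ g ∈ Finset.univ.filter (· ∉ H),
        P (if g ∈ H then r g else b * r ((cl b)⁻¹ * g)) =
        ∑ g ∈ Finset.univ.filter (· ∉ H), P (b * r ((cl b)⁻¹ * g)) :=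
      Finset.sum_congr rfl fun g hg => by rw [if_neg (Finset.mem_filter.1 hg).2]
    have e3 : ∏ g ∈ Finset.univ.filter (· ∈ H),
        (if g ∈ H then r g else b * r ((cl b)⁻¹ * g)) =
        ∏ g ∈ Finset.univ.filter (· ∈ H), r g :=
      Finset.prod_congr rfl fun g hg => by rw [if_pos (Finset.mem_filter.1 hg).2]
    have e4 : ∏ g ∈ Finset.univ.filter (· ∉ H),
        (if g ∈ H then r g else b * r ((cl b)⁻¹ * g)) =
        ∏ g ∈ Finset.univ.filter (· ∉ H), b * r ((cl b)⁻¹ * g) :=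
      Finset.prod_congr rfl fun g hg => by rw [if_neg (Finset.mem_filter.1 hg).2]
    simp only at h1 h2 h3
    rw [e1, e2, e3, e4, h2, h3, h4, if_pos (by rw [map_mul, map_pow, hb, one_mul, hr2]),
      sub_zero] at h1
    have h5 : ∑ g ∈ Finset.univ.filter (· ∈ H), P (b * r g) =
        ∑ g ∈ Finset.univ.filter (· ∈ H), P (r g) -
        (∑ g ∈ Finset.univ.filter (· ∈ H), P (r g) -
          ∑ g ∈ Finset.univ.filter (· ∈ H), P (b * r g)) := by abel
    rw [h5, h1]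
    abel

end abstract_sums

private theorem zs_card {G : Type*} [Group G] [Fintype G] {H : Subgroup G} (hi : H.index = 2)
    {j : ℕ} (hc : Fintype.card G = 8 * j) : (Finset.univ.filter (· ∈ H)).card = 4 * j := by
  have h1 := H.card_mul_index
  rw [hi, Nat.card_eq_fintype_card (α := G), hc] at h1
  have h2 : (Finset.univ.filter (· ∈ H)).card = Nat.card H := by
    rw [Nat.card_eq_fintype_card, Fintype.card_subtype]
  omega

private theorem zs_odd {K : Type*} [Field K] [NumberField K] {b c : Ideal (𝓞 K)} (hb : OddI b)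
    (hc : OddI c) : OddI (b * c) := by
  unfold OddI at hb hc ⊢
  rw [map_mul]
  exact hb.mul hc

private theorem zs_pow {n : ℕ} (hn : n % 8 = 1 ∨ n % 8 = 3) (j : ℕ) : n ^ (2 * j) % 8 = 1 := by
  have h1 : n ^ 2 % 8 = 1 := by
    rw [Nat.pow_mod]
    rcases hn with h | h <;> rw [h]
  rw [pow_mul, Nat.pow_mod, h1, one_pow]
  norm_num

theorem z_mul {K F : Type*} [Field K] [NumberField K] [Field F] [NumberField F]
    [Algebra K F] {p q : ℕ} {s : K}
    {S : 𝓞 K} {τ : 𝓞 K ≃+* 𝓞 K} {ζ : F} {w : ℕ → F} {z k v : Ideal (𝓞 K) → F}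
    {κ : F ≃ₐ[ℚ] F}
    (hp : p.Prime) (hq : q.Prime) (hp8 : p % 8 = 1) (hq8 : q % 8 = 7)
    (hqp : jacobiSym q p = 1)
    (hb : B6 K (2 * p * q) s) (hS : algebraMap (𝓞 K) K S = s) (hτ : τ S = -S)
    (hU : UD6 K F (2 * p * q) s S τ ζ w z k v κ) [Fintype (CG S)] {H : Subgroup (CG S)}
    {z0 z1 wp : M13 K} {bar : M13 K → M13 K} {T R : (cQ F).Point} {j : ℕ}
    (D : Pre7 p q S τ z k v H z0 z1 wp bar T R j) {r : CG S → M13 K}
    (hr : ∀ g, clM S (r g) = g)
    (hr2 : ccM K (∏ g ∈ Finset.univ.filter (· ∈ H), r g) = ccM K (wp ^ (2 * j))) (b : M13 K) :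
    ((cls (b : Ideal (𝓞 K)) ^ (2 * j) = 1 ∨ cls (b : Ideal (𝓞 K)) ^ (2 * j) = cls (r6 S p)) →
      ∑ g ∈ Finset.univ.filter (· ∈ H), PP z k v ((b : Ideal (𝓞 K)) * (r g : Ideal (𝓞 K))) =
        ∑ g ∈ Finset.univ.filter (· ∈ H), PP z k v (r g : Ideal (𝓞 K))) ∧
    ((cls (b : Ideal (𝓞 K)) ^ (2 * j) = cls (r6 S 2) ∨
        cls (b : Ideal (𝓞 K)) ^ (2 * j) = cls (r6 S q)) →
      ∑ g ∈ Finset.univ.filter (· ∈ H), PP z k v ((b : Ideal (𝓞 K)) * (r g : Ideal (𝓞 K))) =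
        ∑ g ∈ Finset.univ.filter (· ∈ H), PP z k v (r g : Ideal (𝓞 K)) + W14.em F) := by
  have hn := zs_card D.hi D.cj8
  have hexp : ccM K b ^ (4 * j) = 1 := exp7 hp hq hp8 hq8 hb hS hτ hqp D.cj16 _
  have h1 := zs_mul D.ae hn D.star hr hr2 hexp
  have hA : Ideal.absNorm ((b : Ideal (𝓞 K)) ^ (2 * j)) % 8 = 1 := by
    rw [map_pow]
    exact zs_pow b.2 j
  have hcA : cls ((b : Ideal (𝓞 K)) ^ (2 * j)) = cls (b : Ideal (𝓞 K)) ^ (2 * j) := by
    have h2 := map_pow (ccM K) b (2 * j)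
    exact h2
  have hx : OddI ((∏ g ∈ Finset.univ.filter (· ∈ H), r g : M13 K) : Ideal (𝓞 K)) :=
    M13.odd (∏ g ∈ Finset.univ.filter (· ∈ H), r g : M13 K).2
  have h3 : ((b ^ (4 * j) * ∏ g ∈ Finset.univ.filter (· ∈ H), r g : M13 K) : Ideal (𝓞 K)) =
      (b : Ideal (𝓞 K)) ^ (2 * j) * ((b : Ideal (𝓞 K)) ^ (2 * j) *
        ((∏ g ∈ Finset.univ.filter (· ∈ H), r g : M13 K) : Ideal (𝓞 K))) := by
    rw [Submonoid.coe_mul, SubmonoidClass.coe_pow, ← mul_assoc, ← pow_add]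
    congr 2
    ring
  have hsq := sq_tr hp hq hp8 hq8 hb hS hτ hU D.hTT D.hT hA hx
  rw [hcA] at hsq
  simp only at h1
  rw [h3] at h1
  constructor
  · intro h4
    rw [hsq.1 h4, sub_self, add_zero] at h1
    exact h1
  · intro h4
    rw [hsq.2 h4, add_sub_cancel_left] at h1
    exact h1

theorem z_conj {K F : Type*} [Field K] [NumberField K] [Field F] [NumberField F]
    [Algebra K F] {p q : ℕ} {s : K}
    {S : 𝓞 K} {τ : 𝓞 K ≃+* 𝓞 K} {ζ : F} {w : ℕ → F} {z k v : Ideal (𝓞 K) → F}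
    {κ : F ≃ₐ[ℚ] F}
    (hp : p.Prime) (hq : q.Prime) (hp8 : p % 8 = 1) (hq8 : q % 8 = 7)
    (hqp : jacobiSym q p = 1)
    (hb : B6 K (2 * p * q) s) (hS : algebraMap (𝓞 K) K S = s) (hτ : τ S = -S)
    (hU : UD6 K F (2 * p * q) s S τ ζ w z k v κ) [Fintype (CG S)] {H : Subgroup (CG S)}
    {z0 z1 wp : M13 K} {bar : M13 K → M13 K} {T R : (cQ F).Point} {j : ℕ}
    (D : Pre7 p q S τ z k v H z0 z1 wp bar T R j) {r : CG S → M13 K}
    (hr : ∀ g, clM S (r g) = g)
    (hr2 : ccM K (∏ g ∈ Finset.univ.filter (· ∈ H), r g) = ccM K (wp ^ (2 * j)))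
    {Z : (cQ F).Point}
    (hZ : Z = ∑ g ∈ Finset.univ.filter (· ∈ H), PP z k v (r g : Ideal (𝓞 K)))
    {σ : F ≃ₐ[K] F} {b : Ideal (𝓞 K)} (hbo : OddI b)
    (hact : ∀ c, OddI c → gal σ (PP z k v c) = PP z k v (b * c)) :
    ((cls b ^ (2 * j) = 1 ∨ cls b ^ (2 * j) = cls (r6 S p)) →
      gal σ Z = if Ideal.absNorm b % 8 = 1 ∨ Ideal.absNorm b % 8 = 3 then Z else -Z) ∧
    ((cls b ^ (2 * j) = cls (r6 S 2) ∨ cls b ^ (2 * j) = cls (r6 S q)) →
      gal σ Z = (if Ideal.absNorm b % 8 = 1 ∨ Ideal.absNorm b % 8 = 3 then Z else -Z) +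
        W14.em F) := by
  obtain ⟨-, q2, q3, -, -, -⟩ := two_ep (F := F)
  have hgZ : gal σ Z = ∑ g ∈ Finset.univ.filter (· ∈ H),
      PP z k v (b * (r g : Ideal (𝓞 K))) := by
    rw [hZ, map_sum]
    exact Finset.sum_congr rfl fun g _ => hact _ (M13.odd (r g).2)
  by_cases hb8 : Ideal.absNorm b % 8 = 1 ∨ Ideal.absNorm b % 8 = 3
  · rw [if_pos hb8, hgZ, hZ]
    exact z_mul hp hq hp8 hq8 hqp hb hS hτ hU D hr hr2 ⟨b, hb8⟩
  · rw [if_neg hb8]
    have ha : (2 * p * q) % 16 = 14 := by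
      have h1 : (p * q) % 8 = 7 := by
        rw [Nat.mul_mod, hp8, hq8]
      rw [mul_assoc]
      omega
    have hg8 : Ideal.absNorm (Ideal.span {1 + S}) % 8 = 7 := by
      rw [norm_g hb hS]
      omega
    have hgo : OddI (Ideal.span {1 + S}) := by
      unfold OddI
      rw [Nat.odd_iff]
      omega
    have hg0 : (1 + S : 𝓞 K) ≠ 0 := by
      intro h0
      rw [h0, Ideal.span_singleton_eq_bot.2 rfl] at hg8
      have h1 : Ideal.absNorm (⊥ : Ideal (𝓞 K)) = 0 := Ideal.absNorm_bot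
      rw [h1] at hg8
      norm_num at hg8
    have hgne : Ideal.span {1 + S} ≠ (0 : Ideal (𝓞 K)) := by
      intro h0
      exact hg0 (Ideal.span_singleton_eq_bot.1 h0)
    have hbne : b ≠ 0 := by
      rintro rfl
      unfold OddI at hbo
      rw [map_zero] at hbo
      exact absurd hbo (by decide)
    have hbo' : Ideal.absNorm b % 2 = 1 := Nat.odd_iff.1 hbo
    have hb' : Ideal.absNorm (Ideal.span {1 + S} * b) % 8 = 1 ∨
        Ideal.absNorm (Ideal.span {1 + S} * b) % 8 = 3 := by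
      have h57 : Ideal.absNorm b % 8 = 5 ∨ Ideal.absNorm b % 8 = 7 := by omega
      rw [map_mul, Nat.mul_mod, hg8]
      rcases h57 with h | h
      · rw [h]
        norm_num
      · rw [h]
        norm_num
    have hcb : cls (Ideal.span {1 + S} * b) = cls b := by
      rw [cls_mul hgne hbne, cls_span hg0, one_mul]
    have h1 := z_mul hp hq hp8 hq8 hqp hb hS hτ hU D hr hr2 ⟨Ideal.span {1 + S} * b, hb'⟩
    simp only at h1
    rw [hcb, ← hZ] at h1
    set c : (cQ F).Point := if Ideal.absNorm b % 4 = 1 then 0 else W14.em F with hc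
    have hcc : c + c = 0 := by
      rw [hc]
      split_ifs
      · exact add_zero _
      · exact q2
    have h4 : (4 : ℕ) • (T + c) = 0 := by
      have h5 : (4 : ℕ) • (T + c) = (T + T) + (T + T) + ((c + c) + (c + c)) := by abel
      rw [h5, D.hTT, q3, hcc, add_zero, add_zero]
    have h6 : ∑ g ∈ Finset.univ.filter (· ∈ H),
        PP z k v (Ideal.span {1 + S} * b * (r g : Ideal (𝓞 K))) +
        ∑ g ∈ Finset.univ.filter (· ∈ H), PP z k v (b * (r g : Ideal (𝓞 K))) = 0 := by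
      rw [← Finset.sum_add_distrib]
      have h7 : ∀ g ∈ Finset.univ.filter (· ∈ H),
          PP z k v (Ideal.span {1 + S} * b * (r g : Ideal (𝓞 K))) +
            PP z k v (b * (r g : Ideal (𝓞 K))) = T + c := by
        intro g hg
        have h8 : Ideal.absNorm ((r g : M13 K) : Ideal (𝓞 K)) % 8 = 1 := by
          rw [← D.hH, hr]
          exact (Finset.mem_filter.1 hg).2
        have h9 : Ideal.absNorm (b * (r g : Ideal (𝓞 K))) % 4 = Ideal.absNorm b % 4 := by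
          rw [map_mul, Nat.mul_mod]
          have h10 : Ideal.absNorm ((r g : M13 K) : Ideal (𝓞 K)) % 4 = 1 := by omega
          rw [h10, mul_one, Nat.mod_mod]
        have h11 := D.hT (b * (r g : Ideal (𝓞 K))) (zs_odd hbo (M13.odd (r g).2))
        rw [h9, ← hc, ← mul_assoc] at h11
        exact h11
      rw [Finset.sum_congr rfl h7, Finset.sum_const, zs_card D.hi D.cj8, mul_comm 4 j,
        mul_nsmul', h4, nsmul_zero]
    have h7 : gal σ Z = -∑ g ∈ Finset.univ.filter (· ∈ H),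
        PP z k v (Ideal.span {1 + S} * b * (r g : Ideal (𝓞 K))) := by
      rw [hgZ]
      exact eq_neg_of_add_eq_zero_right h6
    rw [h7]
    constructor
    · intro h8
      rw [h1.1 h8]
    · intro h8
      rw [h1.2 h8, neg_add]
      congr 1
      exact neg_eq_of_add_eq_zero_right q2

end Pool.Agent.Work.MP_8efaaa_nt.Q7
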