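import Mathlib
import Pool.Agent.Work.MP_8efaaa_nt.Q7.Defs
import Pool.Agent.Work.MP_8efaaa_nt.Q7.Pre
import Pool.Agent.Work.MP_8efaaa_nt.Q7.Zsg
import Pool.Agent.Work.MP_8efaaa_nt.Q7.Zkp
import Pool.Agent.Work.MP_8efaaa_nt.Q7.Ds1
import Pool.Agent.Work.MP_8efaaa_nt.Q7.Ds2
import Pool.Agent.Work.MP_8efaaa_nt.Q7.Gr3
import Pool.Agent.Work.MP_8efaaa_nt.V6.PEx

/-!
# Q7/C2 (M-L): the second condition

Suppose `jacobiSym (N cp) q = -1` (it is `± 1`: `hprod`). `T` from `V6.tq_px`, `R` from `V6.fr_px`, `exists_pre7`: `D : Pre7 ..`. `exists_sec`: `r`; `Z = ∑_H PP (r g)`. `w_iff` (third and fourth part). `gen7`: two cases. For `σ : F ≃ₐ[K] F`: `hU.act σ` gives `b` odd, `N b` prime to `a = 2 p q`, `MA6 .. σ b`: `gal σ (PP c) = PP (b c)` (`gal_pp`, `MA6.act`), `z_conj`; `σ ζ = ζ^(N b)` (`roots8`), `σ (w p) = (p/N b) w p`, `(p/N b) = (N b/p)` (`p = 1 (mod 4)`, `N b` odd).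
CASE 1 (`N cp = ±1 (mod 8)`, and `cls b^(2j) ∈ {1, P}` iff `e8 (N b) = 1`). `gal κ Z = Z` (`z_kap`, `w_iff`). (a) `Z + Z ≠ 0`: `exists_b3` and `hU.mov` give `σ`, and `hU.act σ` an ideal `b`, `N b = N b3 = 3 (mod 8)` (`ζ^(N b) = ζ^(N b3)`, `ζ` has order `8`); `gal σ Z = Z + em`. If `Z + Z = 0` then `gal σ Z = Z` (`gal_two_tor`), so `em = 0`, impossible. (b) `Z = pt x y h` (`ds_two`), `η = y/(x+1) ≠ 0`, `δ`. By `ds_act`: `σ η = η` if `N b = 1, 5 (mod 8)`, `-η` if `N b = 3, 7`; `σ δ = e8 (N b) δ`; `κ η = η`, `κ δ = δ`. `i = ζ^2`, `κ i = -i`, `θ = ζ + ζ^7`, `κ θ = θ` (`hU.cz : κ ζ = ζ^7`). `desc_q` for `η / i` (`κ (η/i) = -η/i`): `η = i s r`, `η^2 = -s^2 r^2 = 2 p q r^2`. `desc_q` for `δ/θ`: `δ = θ r'`, `δ^2 = 2 r'^2`. `X = η^2`: `X (X^2 + 6 X + 1) = η^2 δ^2 = p q (2 r r')^2` (`ds_rel`); everything in `ℚ` (injectivity of `ℚ → F`). `ds_arith` with `n = p q`, `m = p q`.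
CASE 2 (`N cp = ±3 (mod 8)`, and `cls b^(2j) ∈ {1, P}` iff `(N b/p) = 1`). `gal κ Z = Z + em`. (a) as before with `exists_b1` (`N b1 = 1 (mod 8)`, `(N b1/p) = -1`, so `p ∤ N b1`; `hU.mov b1` gives `σ` acting by `b1`): `gal σ Z = Z + em`. (b) `σ δ = (N b/p) δ`, `σ η = (N b/p) η` if `N b = 1, 3 (mod 8)`, `-(N b/p) η` if `N b = 5, 7`; `κ η = -η`, `κ δ = -δ`. `ω = ζ + ζ^3`, `κ ω = -ω`, `κ (w p) = w p`. `desc_q` for `δ / w p` (`κ` changes the sign): `δ = w_p s r'`, `δ^2 = -p (2 p q) r'^2`. `desc_q` for `η / (w_p ω)` (fixed by `κ`): `η = w_p ω r`, `η^2 = -2 p r^2`. `X (X^2 + 6X + 1) = η^2 δ^2 = p q (2 p r r')^2`. `ds_arith` with `n = -p`, `m = p q`.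
-/

set_option autoImplicit false

namespace Pool.Agent.Work.MP_8efaaa_nt.Q7

open NumberField Pool.Agent.Work.MP_8efaaa_nt.R Pool.Agent.Work.MP_8efaaa_nt.N5
  Pool.Agent.Work.MP_8efaaa_nt.K6 Pool.Agent.Work.MP_8efaaa_nt.W14
  Pool.Agent.Work.MP_8efaaa_nt.W6
open scoped Classical nonZeroDivisors

private theorem e8_one {n : ℕ} (h : e8 (n : ℤ) = 1) : n % 8 = 1 ∨ n % 8 = 7 := by
  by_contra hc
  have h1 : e8 (n : ℤ) = -1 := by
    unfold e8
    rw [if_neg (by omega)]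
  rw [h1] at h
  norm_num at h

private theorem e8_neg {n : ℕ} (h : e8 (n : ℤ) = -1) : ¬ (n % 8 = 1 ∨ n % 8 = 7) := by
  intro hc
  have h1 : e8 (n : ℤ) = 1 := by
    unfold e8
    rw [if_pos (by omega)]
  rw [h1] at h
  norm_num at h

private theorem ord8 {F : Type*} [Field F] [CharZero F] {ζ : F} (hz : ζ ^ 4 = -1) {m n : ℕ}
    (h : ζ ^ m = ζ ^ n) : m % 8 = n % 8 := by
  have h8 : orderOf ζ = 8 := by
    have h1 : ¬ ζ ^ 2 ^ 2 = 1 := by
      intro h1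
      have h2 : (2 : F) = 0 := by
        have h3 : ζ ^ 4 = 1 := h1
        rw [hz] at h3
        linear_combination -h3
      exact two_ne_zero h2
    have h2 : ζ ^ 2 ^ (2 + 1) = 1 := by
      have h3 : ζ ^ 2 ^ (2 + 1) = (ζ ^ 4) ^ 2 := by ring
      rw [h3, hz]
      norm_num
    have h3 := orderOf_eq_prime_pow h1 h2
    rw [h3]
    norm_num
  have h1 : ζ ^ (m % 8) = ζ ^ (n % 8) := by
    have e1 := pow_mod_orderOf ζ m
    have e2 := pow_mod_orderOf ζ n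
    rw [h8] at e1 e2
    rw [e1, e2, h]
  have h2 : IsPrimitiveRoot ζ 8 := by
    rw [← h8]
    exact IsPrimitiveRoot.orderOf ζ
  exact h2.pow_inj (Nat.mod_lt _ (by norm_num)) (Nat.mod_lt _ (by norm_num)) h1

private theorem fin_arith {F : Type*} [Field F] [CharZero F] {x y : F} {η δ : F} (hη : η ≠ 0)
    (h : y ^ 2 = x ^ 3 - x) (hx : x + 1 ≠ 0) (hη' : η = y / (x + 1))
    (hδ' : δ = ((x + 1) ^ 2 - 2) / (x + 1)) {n m : ℤ} (hn : Odd n) (hm : Odd m) {r t : ℚ}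
    (h1 : η ^ 2 = ((2 * n * r ^ 2 : ℚ) : F)) (h2 : η ^ 2 * δ ^ 2 = ((m * t ^ 2 : ℚ) : F)) :
    False := by
  have hrel : δ ^ 2 = η ^ 4 + 6 * η ^ 2 + 1 := by
    rw [hη', hδ']
    exact ds_rel h hx
  obtain ⟨X, hX⟩ : ∃ X : ℚ, X = 2 * n * r ^ 2 := ⟨_, rfl⟩
  rw [← hX] at h1
  have hX0 : X ≠ 0 := by
    intro h3
    rw [h3, Rat.cast_zero] at h1
    exact hη ((pow_eq_zero_iff two_ne_zero).1 h1)
  refine ds_arith hn hm hX0 hX (t := t) ?_
  have h4 : ((X * (X ^ 2 + 6 * X + 1) : ℚ) : F) = ((m * t ^ 2 : ℚ) : F) := by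
    rw [← h2, hrel]
    push_cast
    rw [← h1]
    ring
  exact Rat.cast_injective h4

private theorem jac_self {p : ℕ} (hp : p.Prime) : jacobiSym (p : ℤ) p = 0 := by
  have : NeZero p := ⟨hp.ne_zero⟩
  rw [jacobiSym.eq_zero_iff_not_coprime, Int.gcd_natCast_natCast, Nat.gcd_self]
  exact hp.one_lt.ne'

theorem cond2 {K F : Type*} [Field K] [NumberField K] [Field F] [NumberField F]
    [Algebra K F] [FiniteDimensional K F] [IsGalois K F] [IsGalois ℚ F] {p q : ℕ} {s : K}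
    {S : 𝓞 K} {τ : 𝓞 K ≃+* 𝓞 K} {ζ : F} {w : ℕ → F} {z k v : Ideal (𝓞 K) → F}
    {κ : F ≃ₐ[ℚ] F}
    (hp : p.Prime) (hq : q.Prime) (hp8 : p % 8 = 1) (hq8 : q % 8 = 7)
    (hqp : jacobiSym q p = 1)
    (hb : B6 K (2 * p * q) s) (hS : algebraMap (𝓞 K) K S = s) (hτ : τ S = -S)
    (hU : UD6 K F (2 * p * q) s S τ ζ w z k v κ)
    (hnc : ¬ IsCongruent (2 * p * q)) {cp : Ideal (𝓞 K)} (hcp : OddI cp)
    (hcpp : ¬ p ∣ Ideal.absNorm cp) (hcc : cls cp * cls cp = cls (r6 S p))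
    (hprod : e8 (Ideal.absNorm cp) * jacobiSym (Ideal.absNorm cp) p *
      jacobiSym (Ideal.absNorm cp) q = 1) :
    jacobiSym (Ideal.absNorm cp) q = 1 := by
  have hp2 : p ≠ 2 := by
    rintro rfl
    norm_num at hp8
  have hodd : ∀ b : Ideal (𝓞 K), OddI b → Ideal.absNorm b % 2 = 1 := fun b hb1 =>
    Nat.odd_iff.1 hb1
  have hpa : p ∣ 2 * p * q := ⟨2 * q, by ring⟩
  have hcop : ∀ b : Ideal (𝓞 K), Nat.Coprime (Ideal.absNorm b) (2 * p * q) →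
      ¬ p ∣ Ideal.absNorm b := by
    intro b h1 h2
    have h3 : p ∣ Nat.gcd (Ideal.absNorm b) (2 * p * q) := Nat.dvd_gcd h2 hpa
    rw [h1.gcd_eq_one] at h3
    exact hp.one_lt.ne' (Nat.dvd_one.1 h3)
  by_contra hne
  have hJ : jacobiSym (Ideal.absNorm cp) q = -1 := by
    rcases jacobiSym.trichotomy (Ideal.absNorm cp) q with h | h | h
    · rw [h, mul_zero] at hprod
      exact absurd hprod (by norm_num)
    · exact absurd h hne
    · exact h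
  obtain ⟨T, hTT, hT⟩ := V6.tq_px hb hS hU
  obtain ⟨R, hRR, hR⟩ := V6.fr_px hb hS hU
  have : Fintype (CG S) := Fintype.ofFinite _
  obtain ⟨H, z0, z1, wp, bar, j, D⟩ :=
    exists_pre7 hp hq hp8 hq8 hqp hb hS hτ hU hnc hTT hT hRR hR
  obtain ⟨r, hr, hr2⟩ := exists_sec hb hS D
  obtain ⟨-, -, w3, w4⟩ := w_iff hp hq hp8 hq8 hb hS hτ hqp D.cj16 D.hz0 D.z0H D.z01 D.z11 D.z10
    D.two D.w8 D.w2 D.wpr hcp hcc
  obtain ⟨Z, hZ⟩ : ∃ Z : (cQ F).Point,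
      Z = ∑ g ∈ Finset.univ.filter (· ∈ H), PP z k v (r g : Ideal (𝓞 K)) := ⟨_, rfl⟩
  obtain ⟨kp1, kp2⟩ := z_kap hp hq hp8 hq8 hb hS hτ hU D hr hr2 w4 hZ
  have hgen := gen7 hp hq hp8 hq8 hb hS hτ hqp D.cj16 hcp hcpp hcc hprod hJ
  have hem : W14.em F ≠ 0 := pt_ne _
  have hact : ∀ (σ : F ≃ₐ[K] F) (b : Ideal (𝓞 K)), MA6 (2 * p * q) ζ w z k v σ b →
      ∀ c, OddI c → gal σ (PP z k v c) = PP z k v (b * c) := by
    intro σ b hM c hc
    obtain ⟨a1, a2, a3⟩ := hM.act c hc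
    exact gal_pp σ a1 a2 a3
  have hconj := fun (σ : F ≃ₐ[K] F) (b : Ideal (𝓞 K)) (hbo : OddI b)
    (hM : MA6 (2 * p * q) ζ w z k v σ b) =>
      z_conj hp hq hp8 hq8 hqp hb hS hτ hU D hr hr2 hZ hbo (hact σ b hM)
  obtain ⟨ro1, ro2, ro3, ro4, ro5, ro6, ro7⟩ := roots8 hU.z8
  have hκ7 := (roots8 hU.z8).2.2.2.2.2.2 ℚ κ 7 (by norm_num) hU.cz
  have hs2 : (algebraMap K F s) ^ 2 = -((2 * p * q : ℕ) : F) := by
    rw [← map_pow, hb.sq, map_neg, map_natCast]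
  have hκs : κ (algebraMap K F s) = -algebraMap K F s := hU.cs
  have hpq : Odd ((p * q : ℕ) : ℤ) := by
    rw [Int.odd_iff]
    have h1 : (p * q) % 8 = 7 := by
      rw [Nat.mul_mod, hp8, hq8]
    omega
  rcases hgen with ⟨hcase, hgen⟩ | ⟨hcase, hgen⟩
  · -- case 1
    have hκZ : gal κ Z = Z := kp1 (w3.2 hcase)
    have hZ2 : Z + Z ≠ 0 := by
      intro h0
      obtain ⟨b3, hb3⟩ := exists_b3 hp hq hp8 hq8 hb hS
      have hb3o : OddI b3 := by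
        show Odd _
        rw [Nat.odd_iff]
        omega
      obtain ⟨σ, hσ⟩ := hU.mov b3 hb3o
      obtain ⟨b, hbo, hbc, hM⟩ := hU.act σ
      have h8 : Ideal.absNorm b % 8 = 3 := by
        rw [← hb3]
        refine ord8 hU.z8 ?_
        rw [← hM.z8, ← hσ.z8]
      rcases hgen b hbo (hcop b hbc) with ⟨h1, h2⟩ | ⟨h1, h2⟩
      · have h3 := e8_one h1
        omega
      · have h3 := (hconj σ b hbo hM).2 h2
        rw [if_pos (Or.inr h8), (gal_two_tor σ h0).2] at h3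
        exact hem (left_eq_add.1 h3)
    obtain ⟨x, y, h, hxy, hy, hx⟩ := ds_two hZ2
    subst hxy
    obtain ⟨η, hη⟩ : ∃ η : F, η = y / (x + 1) := ⟨_, rfl⟩
    obtain ⟨δ, hδ⟩ : ∃ δ : F, δ = ((x + 1) ^ 2 - 2) / (x + 1) := ⟨_, rfl⟩
    have hη0 : η ≠ 0 := by
      rw [hη]
      exact div_ne_zero hy hx
    have hσ1 : ∀ σ : F ≃ₐ[K] F, σ (η / ζ ^ 2) = η / ζ ^ 2 ∧
        σ (δ / (ζ + ζ ^ 7)) = δ / (ζ + ζ ^ 7) := by
      intro σ
      obtain ⟨b, hbo, hbc, hM⟩ := hU.act σ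
      obtain ⟨r1, r2, -⟩ := ro7 K σ _ (hodd b hbo) hM.z8
      obtain ⟨c1, c2⟩ := hconj σ b hbo hM
      obtain ⟨d1, d2, d3, d4⟩ := ds_act σ h hy hx
      rw [← hη, ← hδ] at d1 d2 d3 d4
      have ho := hodd b hbo
      rw [map_div₀, map_div₀, r1, r2]
      rcases hgen b hbo (hcop b hbc) with ⟨h1, h2⟩ | ⟨h1, h2⟩
      · have h3 := e8_one h1
        have h4 := c1 h2
        rcases h3 with h3 | h3
        · rw [if_pos (Or.inl h3)] at h4
          obtain ⟨e1, e2⟩ := d1 h4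
          rw [e1, e2, if_pos (Or.inl h3), if_pos (by omega), one_mul, one_mul]
          exact ⟨rfl, rfl⟩
        · rw [if_neg (by omega)] at h4
          obtain ⟨e1, e2⟩ := d2 h4
          rw [e1, e2, if_pos (Or.inr h3), if_neg (by omega), one_mul, neg_one_mul, neg_div_neg_eq]
          exact ⟨rfl, rfl⟩
      · have h3 := e8_neg h1
        have h4 := c2 h2
        have h5 : Ideal.absNorm b % 8 = 3 ∨ Ideal.absNorm b % 8 = 5 := by omega
        rcases h5 with h5 | h5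
        · rw [if_pos (Or.inr h5)] at h4
          obtain ⟨e1, e2⟩ := d3 h4
          rw [e1, e2, if_neg h3, if_neg (by omega), neg_one_mul, neg_one_mul, neg_div_neg_eq,
            neg_div_neg_eq]
          exact ⟨rfl, rfl⟩
        · rw [if_neg (by omega)] at h4
          obtain ⟨e1, e2⟩ := d4 h4
          rw [e1, e2, if_neg h3, if_pos (by omega), one_mul, neg_one_mul, neg_div_neg_eq]
          exact ⟨rfl, rfl⟩
    obtain ⟨k1, -, -, -⟩ := ds_act κ h hy hx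
    rw [← hη, ← hδ] at k1
    obtain ⟨k2, k3⟩ := k1 hκZ
    obtain ⟨t1, t2, -⟩ := hκ7
    rw [if_pos (Or.inr (by norm_num)), one_mul] at t1
    rw [if_neg (by norm_num), neg_one_mul] at t2
    obtain ⟨ra, hra⟩ := (desc_q hb hκs fun σ => (hσ1 σ).1).2 (by
      rw [map_div₀, k2, t2, div_neg])
    obtain ⟨rb, hrb⟩ := (desc_q hb hκs fun σ => (hσ1 σ).2).1 (by
      rw [map_div₀, k3, t1])
    have f1 : η ^ 2 = ((2 * ((p * q : ℕ) : ℤ) * ra ^ 2 : ℚ) : F) := by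
      have g1 : η = ζ ^ 2 * ((ra : F) * algebraMap K F s) := by
        rw [← hra]
        exact (mul_div_cancel₀ _ ro5).symm
      rw [g1, mul_pow, ro2, mul_pow, hs2]
      push_cast
      ring
    have f2 : δ ^ 2 = 2 * (rb : F) ^ 2 := by
      have g1 : δ = (ζ + ζ ^ 7) * (rb : F) := by
        rw [← hrb]
        exact (mul_div_cancel₀ _ ro4).symm
      rw [g1, mul_pow, ro1]
    refine fin_arith hη0 h hx hη hδ hpq hpq (t := 2 * ra * rb) f1 ?_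
    rw [f1, f2]
    push_cast
    ring
  · -- case 2
    have hκZ : gal κ Z = Z + W14.em F := by
      refine kp2 ?_
      have h1 : ¬ (ccM K (wp ^ (2 * j)) = 1 ∨ ccM K (wp ^ (2 * j)) = cls (r6 S p)) := fun h =>
        hcase (w3.1 h)
      rcases w4 with h2 | h2 | h2 | h2
      · exact absurd (Or.inl h2) h1
      · exact absurd (Or.inr h2) h1
      · exact Or.inl h2
      · exact Or.inr h2
    have hZ2 : Z + Z ≠ 0 := by
      intro h0
      obtain ⟨b1, hb1, hb1'⟩ := exists_b1 hp hq hp8 hq8 hb hS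
      have hb1o : OddI b1 := by
        show Odd _
        rw [Nat.odd_iff]
        omega
      have hpb : ¬ p ∣ Ideal.absNorm b1 := by
        rintro ⟨c, hc⟩
        rw [hc] at hb1'
        push_cast at hb1'
        rw [jacobiSym.mul_left, jac_self hp, zero_mul] at hb1'
        norm_num at hb1'
      obtain ⟨σ, hσ⟩ := hU.mov b1 hb1o
      rcases hgen b1 hb1o hpb with ⟨h1, h2⟩ | ⟨h1, h2⟩
      · rw [h1] at hb1'
        norm_num at hb1'
      · have h3 := (hconj σ b1 hb1o hσ).2 h2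
        rw [if_pos (Or.inl hb1), (gal_two_tor σ h0).2] at h3
        exact hem (left_eq_add.1 h3)
    obtain ⟨x, y, h, hxy, hy, hx⟩ := ds_two hZ2
    subst hxy
    obtain ⟨η, hη⟩ : ∃ η : F, η = y / (x + 1) := ⟨_, rfl⟩
    obtain ⟨δ, hδ⟩ : ∃ δ : F, δ = ((x + 1) ^ 2 - 2) / (x + 1) := ⟨_, rfl⟩
    have hη0 : η ≠ 0 := by
      rw [hη]
      exact div_ne_zero hy hx
    have hwp2 : w p ^ 2 = (p : F) := hU.hw p hpa
    have hwp0 : w p ≠ 0 := by
      intro h0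
      rw [h0] at hwp2
      have h1 : (p : F) = 0 := by
        rw [← hwp2]
        ring
      exact hp.ne_zero (Nat.cast_eq_zero.1 h1)
    have hwω : w p * (ζ + ζ ^ 3) ≠ 0 := mul_ne_zero hwp0 ro6
    have hσ1 : ∀ σ : F ≃ₐ[K] F, σ (η / (w p * (ζ + ζ ^ 3))) = η / (w p * (ζ + ζ ^ 3)) ∧
        σ (δ / w p) = δ / w p := by
      intro σ
      obtain ⟨b, hbo, hbc, hM⟩ := hU.act σ
      obtain ⟨-, -, r3⟩ := ro7 K σ _ (hodd b hbo) hM.z8
      obtain ⟨c1, c2⟩ := hconj σ b hbo hM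
      obtain ⟨d1, d2, d3, d4⟩ := ds_act σ h hy hx
      rw [← hη, ← hδ] at d1 d2 d3 d4
      have hcp' : Nat.Coprime p (Ideal.absNorm b) :=
        (hp.coprime_iff_not_dvd).2 (hcop b hbc)
      have hw := hM.sq p hpa hcp'
      rw [jacobiSym.quadratic_reciprocity_one_mod_four (by omega) hbo] at hw
      rw [map_div₀, map_div₀, map_mul, r3, hw]
      rcases hgen b hbo (hcop b hbc) with ⟨h1, h2⟩ | ⟨h1, h2⟩
      · rw [h1, Int.cast_one, one_mul]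
        have h4 := c1 h2
        by_cases h5 : Ideal.absNorm b % 8 = 1 ∨ Ideal.absNorm b % 8 = 3
        · rw [if_pos h5] at h4
          obtain ⟨e1, e2⟩ := d1 h4
          rw [e1, e2, if_pos h5, one_mul]
          exact ⟨rfl, rfl⟩
        · rw [if_neg h5] at h4
          obtain ⟨e1, e2⟩ := d2 h4
          rw [e1, e2, if_neg h5, neg_one_mul, mul_neg, neg_div_neg_eq]
          exact ⟨rfl, rfl⟩
      · rw [h1, Int.cast_neg, Int.cast_one, neg_one_mul]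
        have h4 := c2 h2
        by_cases h5 : Ideal.absNorm b % 8 = 1 ∨ Ideal.absNorm b % 8 = 3
        · rw [if_pos h5] at h4
          obtain ⟨e1, e2⟩ := d3 h4
          rw [e1, e2, if_pos h5, one_mul, neg_mul, neg_div_neg_eq, neg_div_neg_eq]
          exact ⟨rfl, rfl⟩
        · rw [if_neg h5] at h4
          obtain ⟨e1, e2⟩ := d4 h4
          rw [e1, e2, if_neg h5, neg_one_mul, neg_mul_neg, neg_div_neg_eq]
          exact ⟨rfl, rfl⟩
    obtain ⟨-, -, k1, -⟩ := ds_act κ h hy hx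
    rw [← hη, ← hδ] at k1
    obtain ⟨k2, k3⟩ := k1 hκZ
    obtain ⟨-, -, t3⟩ := hκ7
    rw [if_neg (by norm_num), neg_one_mul] at t3
    have hκw : κ (w p) = w p := hU.cw p hpa
    obtain ⟨ra, hra⟩ := (desc_q hb hκs fun σ => (hσ1 σ).1).1 (by
      rw [map_div₀, map_mul, k2, t3, hκw, mul_neg, neg_div_neg_eq])
    obtain ⟨rb, hrb⟩ := (desc_q hb hκs fun σ => (hσ1 σ).2).2 (by
      rw [map_div₀, k3, hκw, neg_div])
    have f1 : η ^ 2 = ((2 * ((-(p : ℤ) : ℤ) : ℚ) * ra ^ 2 : ℚ) : F) := by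
      have g1 : η = (w p * (ζ + ζ ^ 3)) * (ra : F) := by
        rw [← hra]
        exact (mul_div_cancel₀ _ hwω).symm
      rw [g1, mul_pow, mul_pow, ro3, hwp2]
      push_cast
      ring
    have f2 : δ ^ 2 = -(p : F) * ((2 * p * q : ℕ) : F) * (rb : F) ^ 2 := by
      have g1 : δ = w p * ((rb : F) * algebraMap K F s) := by
        rw [← hrb]
        exact (mul_div_cancel₀ _ hwp0).symm
      rw [g1, mul_pow, mul_pow, hs2, hwp2]
      ring
    have hpo : Odd (-(p : ℤ)) := by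
      rw [Int.odd_iff]
      omega
    refine fin_arith hη0 h hx hη hδ hpo hpq (t := 2 * p * ra * rb) f1 ?_
    rw [f1, f2]
    push_cast
    ring

end Pool.Agent.Work.MP_8efaaa_nt.Q7
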