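import Mathlib
import Pool.Agent.Work.MP_8efaaa_nt.Q7.Defs
import Pool.Agent.Work.MP_8efaaa_nt.Q7.AbS

/-!
# Q7/AbA (M-L): the comparison at `q`, the case `z1 ∈ H`

`x ≡ y` means `x - y ∈ E`; `HH`, `NN` as in `AbP`. `g0 = cl c0`, `g0 * g0 = cl wq` (`fib`). All `g` with `g * g = cl wq` are `g0`, `g0 z0`, `g0 z1`, `g0 z0 z1` (`hG`; four different classes), all in `H`.
(1) `eq`: `kk` for `wq`, `c0 * c0` (`cc` equal): `P (wq * x) = P (c0 * c0 * x) + e`, `e + e = 0`, `φ e = e`. So `P (wq * wq * x) = P (c0 * c0 * (c0 * c0) * x)`. `hr c0` and `nrm` (`wq * bar c0`: `x = bar c0`, `P (c0 c0 bar c0) = P c0`): `2 P c0 + e ≡ T + em`.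
(2) `b = z1 c0`: `hr b`: `P (wq bar b) + P b ≡ T + em`, `P (wq bar b) = P (c0 c0 bar b) + e`; `hτ` with `x = c0 c0 bar b`: `P (z1 z1 c0 c0 bar b) = P (c0 c0 bar b) + τ1`, and `z1 z1 c0 c0 bar b = b bar b b`: `= P b` (`nrm`). So `2 P b ≡ T + em + τ1 - e` and, with (1), `2 (P b - P c0) ≡ τ1`. FIRST CLAIM.
(3) Choose a section `r` (`surj`) with `r g0 = c0`, `r (g0 z0) = z0 c0`, `r (g0 z1) = z1 c0`, `r (g0 z0 z1) = z0 z1 c0` (`Function.update`). `X = HH` minus the four classes, card `4j - 4`. `sum_H` (`T1 = T + em`): `n = 2j - 2`, `∑_X ≡ (2j-2)(T + em) + P A' - P (wq^(2j-2))`, `A' = ∏_X r`. `sum_N` on `NN` (`T3 = T`; no fixed classes), `n = 2j`: `∑_NN ≡ 2j T + 2j ez + P B - P (wq^(2j)) + δB`, `δB = if cc B = cc (wq^(2j)) then 0 else ep`.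
`2 (T + em) = ez`, `2 T = ez`: `(2j-2)(T+em) = (j-1) ez`, `2j T = j ez`. `hp r`: `∑_HH - ∑_NN = P Ap - P B - δ'`, `δ' = if cc B = cc (wp^(2j)) then 0 else ep`, `Ap = A' * Fx`, `Fx = c0 (z0 c0)(z1 c0)(z0 z1 c0)`. `kk` for `A'`, `wq^(2j-2)` (`cl` equal, in `H`): `P Ap = P (wq^(2j-2) Fx) + P A' - P (wq^(2j-2))`, and `P (wq^(2j-2) Fx) = P (wq^(2j-2) c0^4) + τ1 + em = P (wq^(2j)) + τ1 + em` (`hτ`, `hzz`, (1)).
So `Fix ≡ ez + em + τ1 + δB + δ'` (signs of elements of order 2 do not matter), `Fix = P c0 + P (z0 c0) + P (z1 c0) + P (z0 z1 c0)`.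
`cc (wq^(2j)) = cc c0 ^ (4j) = 1` (`hexp`), `cl B = cl (wq^(2j)) = 1`, `cl (wp^(2j)) = ∏ g = cl Ap = 1` (`hwp`; `cl Ap = cl wq^(2j-2) cl Fx = cl (wq^(2j)) = 1`), so `δB + δ' = if cc (wp^(2j)) = 1 then 0 else ep`.
(4) `hf` for `c0` and `z1 c0` (in `H`): `Fix ≡ (P c0 - φ (P c0)) + (P (z1 c0) - φ (P (z1 c0))) + 2 (T + em)`. With `h = P (z1 c0) - P c0`: `= (h - φ h) + (2 P c0 - φ (2 P c0)) + ez`, and `2 P c0 - φ (2 P c0) ≡ (T + em - e) - φ (T + em - e) = em` (`hφT`, `hφ2`, `hφE`). So `h - φ h ≡ Fix - em - ez ≡ τ1 + (if cc (wp^(2j)) = 1 then 0 else ep)`. SECOND CLAIM.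
-/

set_option autoImplicit false

namespace Pool.Agent.Work.MP_8efaaa_nt.Q7

open scoped Classical

variable {M A G C : Type*} [CommMonoid M] [AddCommGroup A] [CommGroup G] [CommGroup C]
  {H : Subgroup G} {P : M → A} {cl : M →* G} {cc : M →* C} {t : C} {bar : M → M} {ez em ep : A}

private theorem aba_section {M G : Type*} [CommMonoid M] [CommGroup G] {cl : M →* G}
    (hs : Function.Surjective cl) {a0 a1 a2 a3 : M} (h10 : cl a1 ≠ cl a0) (h20 : cl a2 ≠ cl a0)
    (h21 : cl a2 ≠ cl a1) (h30 : cl a3 ≠ cl a0) (h31 : cl a3 ≠ cl a1) (h32 : cl a3 ≠ cl a2) :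
    ∃ r : G → M, (∀ g, cl (r g) = g) ∧ r (cl a0) = a0 ∧ r (cl a1) = a1 ∧ r (cl a2) = a2 ∧
      r (cl a3) = a3 := by
  refine ⟨fun g => if g = cl a0 then a0 else if g = cl a1 then a1 else if g = cl a2 then a2 else
    if g = cl a3 then a3 else Function.surjInv hs g, ?_, ?_, ?_, ?_, ?_⟩
  · intro g
    dsimp only
    by_cases e1 : g = cl a0
    · rw [if_pos e1, e1]
    rw [if_neg e1]
    by_cases e2 : g = cl a1
    · rw [if_pos e2, e2]
    rw [if_neg e2]
    by_cases e3 : g = cl a2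
    · rw [if_pos e3, e3]
    rw [if_neg e3]
    by_cases e4 : g = cl a3
    · rw [if_pos e4, e4]
    rw [if_neg e4]
    exact Function.surjInv_eq hs g
  · dsimp only
    rw [if_pos rfl]
  · dsimp only
    rw [if_neg h10, if_pos rfl]
  · dsimp only
    rw [if_neg h20, if_neg h21, if_pos rfl]
  · dsimp only
    rw [if_neg h30, if_neg h31, if_neg h32, if_pos rfl]

private theorem aba_card {G : Type*} [CommGroup G] [Fintype G] {H : Subgroup G}
    (h : H.index = 2) {j : ℕ} (hj : Fintype.card G = 8 * j) :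
    (Finset.univ.filter (fun g : G => g ∈ H)).card = 4 * j ∧
      (Finset.univ.filter (fun g : G => ¬ g ∈ H)).card = 4 * j := by
  have h1 : (Finset.univ.filter (fun g : G => g ∈ H)).card = Nat.card H := by
    rw [Nat.card_eq_fintype_card]
    exact (Fintype.card_subtype _).symm
  have h2 := Subgroup.card_mul_index H
  rw [h, Nat.card_eq_fintype_card (α := G)] at h2
  have h3 := Finset.card_filter_add_card_filter_not (s := (Finset.univ : Finset G))
    (fun g : G => g ∈ H)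
  rw [Finset.card_univ] at h3
  omega

private theorem aba_dbl {A : Type*} [AddCommGroup A] (i : ℕ) {x y : A} (h : x + x = y) :
    (2 * i) • x = i • y := by
  rw [mul_comm, mul_smul, two_nsmul, h]

theorem abs_a (h : AE H P cl cc t bar ez em ep) [Fintype G] {E : AddSubgroup A} {φ : A →+ A}
    {wp wq c0 z0 z1 : M} {T τ1 : A} {j : ℕ} (hT : T + T = ez)
    (hj : Fintype.card G = 8 * j) (hj1 : 1 ≤ j) (hwq : cl wq ∈ H) (hc0 : cl c0 ∈ H)
    (hcc : cc c0 * cc c0 = cc wq)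
    (hr : ∀ c, P (wq * bar c) + P c - (T + if cl c ∈ H then em else 0) ∈ E)
    (hf : ∀ c, P (z0 * c) + φ (P c) - (T + if cl c ∈ H then em else 0) ∈ E)
    (hφT : φ T = T + em) (hφ2 : ∀ e : A, e + e = 0 → φ e = e) (hφE : ∀ e ∈ E, φ e ∈ E)
    (hz0 : cl z0 ∈ H) (hz01 : cl z0 ≠ 1) (hzz : ∀ x, P (z0 * z0 * x) = P x + em)
    (hz1 : cl z1 ∈ H) (hz11 : cl z1 ≠ 1) (hz10 : cl z1 ≠ cl z0) (hcz1 : cc z1 * cc z1 = t)
    (hτ : ∀ x, cl x ∈ H → P (z1 * z1 * x) = P x + τ1)
    (hG : ∀ g : G, g * g = 1 ↔ g = 1 ∨ g = cl z0 ∨ g = cl z1 ∨ g = cl z0 * cl z1)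
    (hexp : ∀ c : M, cl c ∈ H → cc c ^ (4 * j) = 1)
    (hwp : cl wp ^ (2 * j) = ∏ g ∈ Finset.univ.filter (· ∈ H), g)
    (hp : ∀ r : G → M, (∀ g, cl (r g) = g) →
      (∑ g ∈ Finset.univ.filter (· ∈ H), P (r g)) -
      (∑ g ∈ Finset.univ.filter (· ∉ H), P (r g)) =
      P (∏ g ∈ Finset.univ.filter (· ∈ H), r g) - P (∏ g ∈ Finset.univ.filter (· ∉ H), r g) -
        (if cc (∏ g ∈ Finset.univ.filter (· ∉ H), r g) = cc (wp ^ (2 * j)) then 0 else ep)) :
    (P (z1 * c0) - P c0) + (P (z1 * c0) - P c0) - τ1 ∈ E ∧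
      (P (z1 * c0) - P c0) - φ (P (z1 * c0) - P c0) - τ1 -
        (if cc (wp ^ (2 * j)) = 1 then 0 else ep) ∈ E := by
  have hep2 : ep + ep = 0 := by
    have e1 : ep + ep = (ez + ez) + (em + em) := by
      rw [← h.zm]
      abel
    rw [e1, h.z2, h.m2, add_zero]
  obtain ⟨i, rfl⟩ : ∃ i, j = i + 1 := ⟨j - 1, by omega⟩
  have hcs : cl c0 * cl c0 = cl wq := by
    rw [← map_mul]
    exact (h.fib _ _).2 (Or.inl (by rw [map_mul]; exact hcc))
  have h20 : cl z0 * cl z0 = 1 := (hG _).2 (Or.inr (Or.inl rfl))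
  have h21 : cl z1 * cl z1 = 1 := (hG _).2 (Or.inr (Or.inr (Or.inl rfl)))
  have hTT : (T + em) + (T + em) = ez := by
    have e1 : (T + em) + (T + em) = (T + T) + (em + em) := by abel
    rw [e1, hT, h.m2, add_zero]
  -- (1)
  have hccq : cc wq = cc (c0 * c0) := by rw [map_mul, hcc]
  obtain ⟨e, -, he2, hek⟩ := h.kk wq (c0 * c0) (by rw [map_mul, hcs])
  have he : e + e = 0 := he2 hccq
  have hwx : ∀ x, P (wq * x) = P (c0 * c0 * x) + e := by
    intro x
    rw [hek x, if_pos (Or.inl hccq), add_zero]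
  have E1 : P c0 + e + P c0 - (T + em) ∈ E := by
    have e1 := hr c0
    have e2 : P (wq * bar c0) = P c0 + e := by
      rw [hwx]
      have e3 := h.nrm c0 c0
      rw [if_pos hc0, add_zero] at e3
      rw [mul_right_comm, e3]
    rwa [if_pos hc0, e2] at e1
  -- (2)
  obtain ⟨b, hb⟩ : ∃ b : M, b = z1 * c0 := ⟨_, rfl⟩
  rw [← hb]
  have hbc : cl b = cl z1 * cl c0 := by rw [hb, map_mul]
  have hbH : cl b ∈ H := by
    rw [hbc]
    exact H.mul_mem hz1 hc0
  have E2 : P b - τ1 + e + P b - (T + em) ∈ E := by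
    have e1 := hr b
    have e2 : P (wq * bar b) = P b - τ1 + e := by
      rw [hwx]
      have e3 := hτ (c0 * c0 * bar b) (by
        rw [map_mul, map_mul, h.clb]
        exact H.mul_mem (H.mul_mem hc0 hc0) (H.inv_mem hbH))
      have e4 : z1 * z1 * (c0 * c0 * bar b) = b * bar b * b := by
        have e5 : b * bar b * b = b * b * bar b := mul_right_comm _ _ _
        rw [e5]
        nth_rewrite 2 [hb]
        nth_rewrite 2 [hb]
        rw [mul_mul_mul_comm z1 c0 z1 c0, mul_assoc (z1 * z1)]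
      have e6 := h.nrm b b
      rw [if_pos hbH, add_zero] at e6
      rw [e4, e6] at e3
      rw [e3]
      abel
    rwa [if_pos hbH, e2] at e1
  have C1 : (P b - P c0) + (P b - P c0) - τ1 ∈ E := by
    have e1 := E.sub_mem E2 E1
    have e2 : P b - τ1 + e + P b - (T + em) - (P c0 + e + P c0 - (T + em)) =
        (P b - P c0) + (P b - P c0) - τ1 := by abel
    rwa [e2] at e1
  refine ⟨C1, ?_⟩
  -- the four classes
  obtain ⟨a1, ha1⟩ : ∃ a : M, a = z0 * c0 := ⟨_, rfl⟩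
  obtain ⟨a3, ha3⟩ : ∃ a : M, a = z0 * b := ⟨_, rfl⟩
  have hc1 : cl a1 = cl z0 * cl c0 := by rw [ha1, map_mul]
  have hc3 : cl a3 = cl z0 * cl b := by rw [ha3, map_mul]
  have ha1H : cl a1 ∈ H := by
    rw [hc1]
    exact H.mul_mem hz0 hc0
  have ha3H : cl a3 ∈ H := by
    rw [hc3]
    exact H.mul_mem hz0 hbH
  have n10 : cl a1 ≠ cl c0 := by
    rw [hc1]
    intro e1
    exact hz01 (mul_eq_right.1 e1)
  have n20 : cl b ≠ cl c0 := by
    rw [hbc]
    intro e1
    exact hz11 (mul_eq_right.1 e1)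
  have n21 : cl b ≠ cl a1 := by
    rw [hbc, hc1]
    intro e1
    exact hz10 (mul_right_cancel e1)
  have n30 : cl a3 ≠ cl c0 := by
    rw [hc3, hbc, ← mul_assoc]
    intro e1
    exact hz10 (mul_left_cancel ((mul_eq_right.1 e1).trans h20.symm))
  have n31 : cl a3 ≠ cl a1 := by
    rw [hc3, hc1]
    intro e1
    exact n20 (mul_left_cancel e1)
  have n32 : cl a3 ≠ cl b := by
    rw [hc3]
    intro e1
    exact hz01 (mul_eq_right.1 e1)
  have hsq : ∀ g : G, g * g = cl wq ↔ (g = cl c0 ∨ g = cl a1 ∨ g = cl b ∨ g = cl a3) := by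
    intro g
    constructor
    · intro hg
      have e1 : (g * (cl c0)⁻¹) * (g * (cl c0)⁻¹) = 1 := by
        rw [mul_mul_mul_comm, hg, ← mul_inv, hcs, mul_inv_cancel]
      rw [hc1, hc3, hbc]
      rcases (hG _).1 e1 with e2 | e2 | e2 | e2
      · left
        rw [mul_inv_eq_iff_eq_mul.1 e2, one_mul]
      · right; left
        exact mul_inv_eq_iff_eq_mul.1 e2
      · right; right; left
        exact mul_inv_eq_iff_eq_mul.1 e2
      · right; right; right
        rw [mul_inv_eq_iff_eq_mul.1 e2, mul_assoc]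
    · have k1 : cl a1 * cl a1 = cl wq := by
        rw [hc1, mul_mul_mul_comm, h20, one_mul, hcs]
      have k2 : cl b * cl b = cl wq := by
        rw [hbc, mul_mul_mul_comm, h21, one_mul, hcs]
      have k3 : cl a3 * cl a3 = cl wq := by
        rw [hc3, mul_mul_mul_comm, h20, one_mul, k2]
      rintro (rfl | rfl | rfl | rfl)
      · exact hcs
      · exact k1
      · exact k2
      · exact k3
  obtain ⟨r, hrr, r0, r1, r2, r3⟩ := aba_section h.surj n10 n20 n21 n30 n31 n32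
  obtain ⟨hcH, hcN⟩ := aba_card h.idx hj
  obtain ⟨G4, hG4⟩ : ∃ s : Finset G, s = {cl c0, cl a1, cl b, cl a3} := ⟨_, rfl⟩
  have hm4 : ∀ g, g ∈ G4 ↔ g * g = cl wq := by
    intro g
    rw [hsq g, hG4]
    simp only [Finset.mem_insert, Finset.mem_singleton]
  have hsub : G4 ⊆ Finset.univ.filter (· ∈ H) := by
    intro g hg
    rw [Finset.mem_filter]
    refine ⟨Finset.mem_univ _, ?_⟩
    rcases (hsq g).1 ((hm4 g).1 hg) with e1 | e1 | e1 | e1
    · rw [e1]; exact hc0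
    · rw [e1]; exact ha1H
    · rw [e1]; exact hbH
    · rw [e1]; exact ha3H
  have m1 : cl c0 ∉ ({cl a1, cl b, cl a3} : Finset G) := by
    simp only [Finset.mem_insert, Finset.mem_singleton, not_or]
    exact ⟨fun e1 => n10 e1.symm, fun e1 => n20 e1.symm, fun e1 => n30 e1.symm⟩
  have m2 : cl a1 ∉ ({cl b, cl a3} : Finset G) := by
    simp only [Finset.mem_insert, Finset.mem_singleton, not_or]
    exact ⟨fun e1 => n21 e1.symm, fun e1 => n31 e1.symm⟩
  have m3 : cl b ∉ ({cl a3} : Finset G) := by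
    rw [Finset.mem_singleton]
    exact fun e1 => n32 e1.symm
  have hG4c : G4.card = 4 := by
    rw [hG4, Finset.card_insert_of_notMem m1, Finset.card_insert_of_notMem m2,
      Finset.card_insert_of_notMem m3, Finset.card_singleton]
  have hG4s : ∑ g ∈ G4, P (r g) = P c0 + (P a1 + (P b + P a3)) := by
    rw [hG4, Finset.sum_insert m1, Finset.sum_insert m2, Finset.sum_insert m3,
      Finset.sum_singleton, r0, r1, r2, r3]
  have hG4p : ∏ g ∈ G4, r g = c0 * (a1 * (b * a3)) := by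
    rw [hG4, Finset.prod_insert m1, Finset.prod_insert m2, Finset.prod_insert m3,
      Finset.prod_singleton, r0, r1, r2, r3]
  have s1 := Finset.sum_sdiff (f := fun g => P (r g)) hsub
  have s2 := Finset.prod_sdiff (f := fun g => r g) hsub
  have s3 := Finset.card_sdiff_add_card_eq_card hsub
  rw [hG4c, hcH] at s3
  rw [hG4s] at s1
  rw [hG4p] at s2
  -- the sum over the other classes of `H`
  obtain ⟨n, q1, q2, q3⟩ := sum_H h (E := E) (w := wq) (T1 := T + em) hwq (by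
    intro c hc
    have e1 := hr c
    rwa [if_pos hc] at e1) (Finset.univ.filter (· ∈ H) \ G4) (by
    intro g hg
    rw [Finset.mem_sdiff, Finset.mem_filter] at hg
    refine ⟨hg.1.2, ?_, ?_⟩
    · rw [Finset.mem_sdiff, Finset.mem_filter]
      refine ⟨⟨Finset.mem_univ _, H.mul_mem hwq (H.inv_mem hg.1.2)⟩, ?_⟩
      intro e1
      rw [hm4] at e1
      apply hg.2
      rw [hm4]
      rw [mul_mul_mul_comm, ← mul_inv] at e1
      have e2 : cl wq * cl wq = cl wq * (g * g) := mul_inv_eq_iff_eq_mul.1 e1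
      exact (mul_left_cancel e2).symm
    · intro e1
      apply hg.2
      rw [hm4]
      exact (mul_inv_eq_iff_eq_mul.1 e1).symm) r hrr
  have hn : n = 2 * i := by omega
  rw [hn] at q2 q3
  -- the sum over the classes outside `H`
  obtain ⟨n', q4, q5, q6⟩ := sum_N h (E := E) (w := wq) (T3 := T) hwq (by
    intro c hc
    have e1 := hr c
    rwa [if_neg hc, add_zero] at e1) (Finset.univ.filter (· ∉ H)) (by
    intro g hg
    rw [Finset.mem_filter] at hg
    refine ⟨hg.2, ?_, ?_⟩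
    · rw [Finset.mem_filter]
      refine ⟨Finset.mem_univ _, ?_⟩
      intro e1
      exact hg.2 (H.inv_mem_iff.1 ((H.mul_mem_cancel_left hwq).1 e1))
    · intro e1
      have e2 : g * g = cl wq := (mul_inv_eq_iff_eq_mul.1 e1).symm
      exact hg.2 (Finset.mem_filter.1 (hsub ((hm4 g).2 e2))).2) r hrr
  have hn' : n' = 2 * (i + 1) := by omega
  rw [hn'] at q5 q6
  have hpr := hp r hrr
  have hwpp : cl wp ^ (2 * (i + 1)) = cl (∏ g ∈ Finset.univ.filter (· ∈ H), r g) := by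
    rw [hwp, map_prod]
    exact (Finset.prod_congr rfl fun g _ => hrr g).symm
  rw [← s2] at hwpp hpr
  rw [← s1] at hpr
  set R1 : M := ∏ g ∈ Finset.univ.filter (· ∈ H) \ G4, r g with hR1
  set S1 : A := ∑ g ∈ Finset.univ.filter (· ∈ H) \ G4, P (r g) with hS1
  set B : M := ∏ g ∈ Finset.univ.filter (· ∉ H), r g with hB
  set SN : A := ∑ g ∈ Finset.univ.filter (· ∉ H), P (r g) with hSN
  -- the product
  have hw1 : cc (wq ^ (2 * (i + 1))) = 1 := by
    have e1 := hexp c0 hc0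
    have e2 : 4 * (i + 1) = 2 * (2 * (i + 1)) := by ring
    rw [e2, pow_mul, pow_two, hcc] at e1
    rw [map_pow, e1]
  have hw2 : cl wq ^ (2 * (i + 1)) = 1 := by
    have e1 := (h.fib (wq ^ (2 * (i + 1))) 1).2 (Or.inl (by rw [hw1, map_one]))
    rwa [map_pow, map_one] at e1
  have hFx : ∀ x : M, x * (c0 * (a1 * (b * a3))) =
      z0 * z0 * (z1 * z1 * (c0 * c0 * (c0 * c0 * x))) := by
    intro x
    rw [ha3, ha1, hb]
    ac_rfl
  have hPA : P (R1 * (c0 * (a1 * (b * a3)))) =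
      P (wq ^ (2 * (i + 1))) + τ1 + em + P R1 - P (wq ^ (2 * i)) := by
    obtain ⟨ε, -, -, hk⟩ := h.kk R1 (wq ^ (2 * i)) (by rw [q2, map_pow])
    have hwi : cl (wq ^ (2 * i)) ∈ H := by
      rw [map_pow]
      exact H.pow_mem hwq _
    have k1 := hk 1
    rw [mul_one, mul_one, if_pos (Or.inr hwi), add_zero] at k1
    have hFH : cl (c0 * (a1 * (b * a3))) ∈ H := by
      rw [map_mul, map_mul, map_mul]
      exact H.mul_mem hc0 (H.mul_mem ha1H (H.mul_mem hbH ha3H))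
    have k2 := hk (c0 * (a1 * (b * a3)))
    rw [if_pos (Or.inr (by rw [map_mul]; exact H.mul_mem hwi hFH)), add_zero] at k2
    have hcH4 : cl (c0 * c0 * (c0 * c0 * wq ^ (2 * i))) ∈ H := by
      rw [map_mul, map_mul, map_mul, map_mul]
      exact H.mul_mem (H.mul_mem hc0 hc0) (H.mul_mem (H.mul_mem hc0 hc0) hwi)
    have k3 : P (wq ^ (2 * (i + 1))) = P (c0 * c0 * (c0 * c0 * wq ^ (2 * i))) := by
      have e1 : wq ^ (2 * (i + 1)) = wq * (wq * wq ^ (2 * i)) := by
        rw [mul_add, mul_one, pow_add, pow_two, mul_comm, mul_assoc]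
      rw [e1, hwx]
      have e2 : c0 * c0 * (wq * wq ^ (2 * i)) = wq * (c0 * c0 * wq ^ (2 * i)) :=
        mul_left_comm _ _ _
      rw [e2, hwx, add_assoc, he, add_zero]
    rw [k2, hFx, hzz, hτ _ hcH4, ← k3, k1]
    abel
  have hwp1 : cl wp ^ (2 * (i + 1)) = 1 := by
    rw [hwpp, mul_comm, map_mul, q2, ← map_pow, ← map_mul, mul_comm, hFx]
    have e1 : cl (z0 * z0 * (z1 * z1 * (c0 * c0 * (c0 * c0 * wq ^ (2 * i))))) =
        cl z0 * cl z0 * (cl z1 * cl z1 * (cl c0 * cl c0 * (cl c0 * cl c0 *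
          cl wq ^ (2 * i)))) := by
      simp only [map_mul, map_pow]
    rw [e1, h20, h21, one_mul, one_mul, hcs, ← hw2]
    have e2 : 2 * (i + 1) = 1 + (1 + 2 * i) := by ring
    rw [e2, pow_add, pow_add, pow_one]
  have hBt : cc B = 1 ∨ cc B = t := by
    have e1 := (h.fib B 1).1 (by rw [q5, hw2, map_one])
    rwa [map_one, mul_one] at e1
  have hWt : cc (wp ^ (2 * (i + 1))) = 1 ∨ cc (wp ^ (2 * (i + 1))) = t := by
    have e1 := (h.fib (wp ^ (2 * (i + 1))) 1).1 (by rw [map_pow, hwp1, map_one])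
    rwa [map_one, mul_one] at e1
  have hδ : (if cc B = cc (wq ^ (2 * (i + 1))) then (0 : A) else ep) -
      (if cc B = cc (wp ^ (2 * (i + 1))) then (0 : A) else ep) =
      (if cc (wp ^ (2 * (i + 1))) = 1 then (0 : A) else ep) := by
    have hne : -ep = ep := neg_eq_of_add_eq_zero_left hep2
    rw [hw1]
    rcases hBt with e1 | e1 <;> rcases hWt with e2 | e2 <;> rw [e1, e2]
    · rw [if_pos rfl, sub_zero]
    · rw [if_pos rfl, if_neg h.t1.symm, if_neg h.t1, zero_sub, hne]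
    · rw [if_neg h.t1, if_pos rfl, sub_self]
    · rw [if_neg h.t1, if_pos rfl, sub_zero]
  set δ : A := (if cc (wp ^ (2 * (i + 1))) = 1 then (0 : A) else ep) with hδd
  set δB : A := (if cc B = cc (wq ^ (2 * (i + 1))) then (0 : A) else ep) with hδB
  set δ' : A := (if cc B = cc (wp ^ (2 * (i + 1))) then (0 : A) else ep) with hδ'
  rw [aba_dbl i hTT] at q3
  rw [aba_dbl (i + 1) hT, aba_dbl (i + 1) h.z2, smul_zero, sub_zero] at q6
  rw [hPA] at hpr
  -- the sum over the four classes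
  have F : P c0 + (P a1 + (P b + P a3)) - (ez + em + τ1 + δ) ∈ E := by
    have e1 := E.sub_mem q6 q3
    have e2 : P c0 + (P a1 + (P b + P a3)) = SN + (P (wq ^ (2 * (i + 1))) + τ1 + em + P R1 -
        P (wq ^ (2 * i)) - P B - δ') - S1 := by
      rw [← hpr]
      abel
    have e3 : P c0 + (P a1 + (P b + P a3)) - (ez + em + τ1 + δ) =
        SN - (i + 1) • ez - (P B - P (wq ^ (2 * (i + 1)))) - δB -
          (S1 - i • ez - (P R1 - P (wq ^ (2 * i)))) := by
      rw [e2, ← hδ, succ_nsmul]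
      abel
    rwa [← e3] at e1
  have f1 : P a1 + φ (P c0) - (T + em) ∈ E := by
    have e1 := hf c0
    rwa [if_pos hc0, ← ha1] at e1
  have f2 : P a3 + φ (P b) - (T + em) ∈ E := by
    have e1 := hf b
    rwa [if_pos hbH, ← ha3] at e1
  have f3 : φ (P c0) + e + φ (P c0) - T ∈ E := by
    have e1 := hφE _ E1
    rw [map_sub, map_add, map_add, map_add, hφT, hφ2 em h.m2, hφ2 e he, add_assoc T em em, h.m2,
      add_zero] at e1
    exact e1
  have e1 := E.sub_mem (E.sub_mem (E.add_mem F (E.sub_mem f3 E1)) f1) f2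
  have e2 : P c0 + (P a1 + (P b + P a3)) - (ez + em + τ1 + δ) +
      (φ (P c0) + e + φ (P c0) - T - (P c0 + e + P c0 - (T + em))) -
      (P a1 + φ (P c0) - (T + em)) - (P a3 + φ (P b) - (T + em)) =
      (P b - P c0) - φ (P b - P c0) - τ1 - δ := by
    rw [map_sub]
    have e3 : P c0 + (P a1 + (P b + P a3)) - (ez + em + τ1 + δ) +
      (φ (P c0) + e + φ (P c0) - T - (P c0 + e + P c0 - (T + em))) -
      (P a1 + φ (P c0) - (T + em)) - (P a3 + φ (P b) - (T + em)) =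
      P b - P c0 - (φ (P b) - φ (P c0)) - τ1 - δ + ((T + em) + (T + em) - ez) := by
      abel
    rw [e3, hTT, sub_self, add_zero]
  rwa [e2] at e1

end Pool.Agent.Work.MP_8efaaa_nt.Q7
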