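import Mathlib
import Pool.Agent.Work.MP_8efaaa_nt.Q7.Defs
import Pool.Agent.Work.MP_8efaaa_nt.Q7.AbS

/-!
# Q7/AbB (M-L): the comparison at `q`, the case `z1 ∉ H`

Notation of `Q7/AbA.lean`. `g0 = cl c0 ∈ H`; the classes with `g * g = cl wq` are `g0`, `g0 z0` (in `H`), `g0 z1`, `g0 z0 z1` (not in `H`).
(1) as in `AbA`: `P (wq * x) = P (c0 * c0 * x) + e`, `2 P c0 + e ≡ T + em`.
(2) `kk` for `z1 * z1` and `1` (`cl (z1 z1) = 1`, `cc (z1 z1) = t ≠ 1 = cc 1`): `P (z1 z1 x) = P x + ε + (if cl x ∈ H then 0 else ep)`, `ε = τ1` (`hτ`). `b = z1 c0 ∉ H`: `hr b`: `P (wq bar b) + P b ≡ T`; `P (wq bar b) = P (c0 c0 bar b) + e`; `P (z1 z1 c0 c0 bar b) = P (c0 c0 bar b) + τ1 + ep` (`cl ∉ H`) and `= P (b bar b b) = P b + ez` (`nrm`). So `P (c0 c0 bar b) = P b + ez - τ1 - ep`, `2 P b ≡ T + ez + ep + τ1 - e`, minus (1): `2 (P b - P c0) ≡ ez + ep + em + τ1 = τ1`. FIRST CLAIM.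
(3) section `r` with `r g0 = c0`, `r (g0 z0) = z0 c0`, `r (g0 z1) = z1 c0`, `r (g0 z0 z1) = z0 z1 c0`. `XH = HH` minus `g0, g0 z0`, `XN = NN` minus `g0 z1, g0 z0 z1`, both of card `4j - 2`; `n = 2j - 1`. `sum_H`: `∑_XH ≡ (2j-1)(T+em) + P A' - P (wq^(2j-1))`; `sum_N` (`T3 = T`): `∑_XN ≡ (2j-1) T + (2j-1) ez + P B' - P (wq^(2j-1)) + δ1`, `δ1 = if cc B' = cc (wq^(2j-1)) then 0 else ep`. `(2j-1) em = em`, `(2j-1) ez = ez`.
`Ap = A' FH`, `FH = c0 (z0 c0)`; `B = B' FN`, `FN = (z1 c0)(z0 z1 c0) = z1 z1 FH`. `kk` (`cl A' = cl (wq^(2j-1)) = cl B'` in `H`): `P A' - P (wq^(2j-1)) = P Ap - P (wq^(2j-1) FH)`, `P B' - P (wq^(2j-1)) = P B - P (wq^(2j-1) FN)`, `P (wq^(2j-1) FN) = P (wq^(2j-1) FH) + τ1`. With `hp r`: `∑_HH - ∑_NN = P Ap - P B - δ'`: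
`ep + τ1 + δ1 + δ' + FixH - FixN ≡ 0` (`em + ez = ep`; signs of elements of order 2 do not matter), `FixH = P c0 + P (z0 c0)`, `FixN = P (z1 c0) + P (z0 z1 c0)`.
`δ1 = if cc B = cc (wq^(2j-1) FN) then 0 else ep`, `cc (wq^(2j-1) FN) = cc (wq^(2j)) cc z0 t = cc z0 * t` (`cc (wq^(2j)) = cc c0^(4j) = 1`), all over the same class of `G` (`hwp`), so `δ1 + δ' = if cc (wp^(2j)) = cc z0 * t then 0 else ep`.
(4) `hf c0` (`∈ H`), `hf (z1 c0)` (`∉ H`): `FixH - FixN ≡ (P c0 - φ (P c0)) + T + em - (P (z1 c0) - φ (P (z1 c0))) - T = -(h - φ h) + em`. So `h - φ h ≡ ep + em + τ1 + δ1 + δ'`, `ep + em = ez`. SECOND CLAIM. (`hφT`, `hφ2` are not needed.)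
-/

set_option autoImplicit false

namespace Pool.Agent.Work.MP_8efaaa_nt.Q7

open scoped Classical

variable {M A G C : Type*} [CommMonoid M] [AddCommGroup A] [CommGroup G] [CommGroup C]
  {H : Subgroup G} {P : M → A} {cl : M →* G} {cc : M →* C} {t : C} {bar : M → M} {ez em ep : A}

private theorem abb_section {M G : Type*} [CommMonoid M] [CommGroup G] {cl : M →* G}
    (hs : Function.Surjective cl) {a0 a1 a2 a3 : M} (h10 : cl a1 ≠ cl a0) (h20 : cl a2 ≠ cl a0)
    (h21 : cl a2 ≠ cl a1) (h30 : cl a3 ≠ cl a0) (h31 : cl a3 ≠ cl a1) (h32 : cl a3 ≠ cl a2) :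
    ∃ r : G → M, (∀ g, cl (r g) = g) ∧ r (cl a0) = a0 ∧ r (cl a1) = a1 ∧ r (cl a2) = a2 ∧
      r (cl a3) = a3 := by
  refine ⟨fun g => if g = cl a0 then a0 else if g = cl a1 then a1 else if g = cl a2 then a2 else
    if g = cl a3 then a3 else Function.surjInv hs g, ?_, ?_, ?_, ?_, ?_⟩
  · intro g
    dsimp only
    by_cases e1 : g = cl a0
    · rw [if_pos e1, e1]
    rw [if_neg e1]
    by_cases e2 : g = cl a1
    · rw [if_pos e2, e2]
    rw [if_neg e2]
    by_cases e3 : g = cl a2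
    · rw [if_pos e3, e3]
    rw [if_neg e3]
    by_cases e4 : g = cl a3
    · rw [if_pos e4, e4]
    rw [if_neg e4]
    exact Function.surjInv_eq hs g
  · dsimp only
    rw [if_pos rfl]
  · dsimp only
    rw [if_neg h10, if_pos rfl]
  · dsimp only
    rw [if_neg h20, if_neg h21, if_pos rfl]
  · dsimp only
    rw [if_neg h30, if_neg h31, if_neg h32, if_pos rfl]

private theorem abb_card {G : Type*} [CommGroup G] [Fintype G] {H : Subgroup G}
    (h : H.index = 2) {j : ℕ} (hj : Fintype.card G = 8 * j) :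
    (Finset.univ.filter (fun g : G => g ∈ H)).card = 4 * j ∧
      (Finset.univ.filter (fun g : G => ¬ g ∈ H)).card = 4 * j := by
  have h1 : (Finset.univ.filter (fun g : G => g ∈ H)).card = Nat.card H := by
    rw [Nat.card_eq_fintype_card]
    exact (Fintype.card_subtype _).symm
  have h2 := Subgroup.card_mul_index H
  rw [h, Nat.card_eq_fintype_card (α := G)] at h2
  have h3 := Finset.card_filter_add_card_filter_not (s := (Finset.univ : Finset G))
    (fun g : G => g ∈ H)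
  rw [Finset.card_univ] at h3
  omega

private theorem abb_dbl {A : Type*} [AddCommGroup A] (i : ℕ) {x y : A} (h : x + x = y) :
    (2 * i) • x = i • y := by
  rw [mul_comm, mul_smul, two_nsmul, h]

theorem abs_b (h : AE H P cl cc t bar ez em ep) [Fintype G] {E : AddSubgroup A} {φ : A →+ A}
    {wp wq c0 z0 z1 : M} {T τ1 : A} {j : ℕ} (hT : T + T = ez)
    (hj : Fintype.card G = 8 * j) (hj1 : 1 ≤ j) (hwq : cl wq ∈ H) (hc0 : cl c0 ∈ H)
    (hcc : cc c0 * cc c0 = cc wq)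
    (hr : ∀ c, P (wq * bar c) + P c - (T + if cl c ∈ H then em else 0) ∈ E)
    (hf : ∀ c, P (z0 * c) + φ (P c) - (T + if cl c ∈ H then em else 0) ∈ E)
    (hz0 : cl z0 ∈ H) (hz01 : cl z0 ≠ 1)
    (hz1 : cl z1 ∉ H) (hcz1 : cc z1 * cc z1 = t)
    (hτ : ∀ x, cl x ∈ H → P (z1 * z1 * x) = P x + τ1)
    (hG : ∀ g : G, g * g = 1 ↔ g = 1 ∨ g = cl z0 ∨ g = cl z1 ∨ g = cl z0 * cl z1)
    (hexp : ∀ c : M, cl c ∈ H → cc c ^ (4 * j) = 1)
    (hwp : cl wp ^ (2 * j) = ∏ g ∈ Finset.univ.filter (· ∈ H), g)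
    (hp : ∀ r : G → M, (∀ g, cl (r g) = g) →
      (∑ g ∈ Finset.univ.filter (· ∈ H), P (r g)) -
      (∑ g ∈ Finset.univ.filter (· ∉ H), P (r g)) =
      P (∏ g ∈ Finset.univ.filter (· ∈ H), r g) - P (∏ g ∈ Finset.univ.filter (· ∉ H), r g) -
        (if cc (∏ g ∈ Finset.univ.filter (· ∉ H), r g) = cc (wp ^ (2 * j)) then 0 else ep)) :
    (P (z1 * c0) - P c0) + (P (z1 * c0) - P c0) - τ1 ∈ E ∧
      (P (z1 * c0) - P c0) - φ (P (z1 * c0) - P c0) - τ1 - ez -
        (if cc (wp ^ (2 * j)) = cc z0 * t then 0 else ep) ∈ E := by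
  have hep2 : ep + ep = 0 := by
    have e1 : ep + ep = (ez + ez) + (em + em) := by
      rw [← h.zm]
      abel
    rw [e1, h.z2, h.m2, add_zero]
  obtain ⟨i, rfl⟩ : ∃ i, j = i + 1 := ⟨j - 1, by omega⟩
  have hcs : cl c0 * cl c0 = cl wq := by
    rw [← map_mul]
    exact (h.fib _ _).2 (Or.inl (by rw [map_mul]; exact hcc))
  have h20 : cl z0 * cl z0 = 1 := (hG _).2 (Or.inr (Or.inl rfl))
  have h21 : cl z1 * cl z1 = 1 := (hG _).2 (Or.inr (Or.inr (Or.inl rfl)))
  -- (1)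
  have hccq : cc wq = cc (c0 * c0) := by rw [map_mul, hcc]
  obtain ⟨e, -, he2, hek⟩ := h.kk wq (c0 * c0) (by rw [map_mul, hcs])
  have he : e + e = 0 := he2 hccq
  have hwx : ∀ x, P (wq * x) = P (c0 * c0 * x) + e := by
    intro x
    rw [hek x, if_pos (Or.inl hccq), add_zero]
  have E1 : P c0 + e + P c0 - (T + em) ∈ E := by
    have e1 := hr c0
    have e2 : P (wq * bar c0) = P c0 + e := by
      rw [hwx]
      have e3 := h.nrm c0 c0
      rw [if_pos hc0, add_zero] at e3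
      rw [mul_right_comm, e3]
    rwa [if_pos hc0, e2] at e1
  -- (2)
  obtain ⟨b, hb⟩ : ∃ b : M, b = z1 * c0 := ⟨_, rfl⟩
  rw [← hb]
  have hbc : cl b = cl z1 * cl c0 := by rw [hb, map_mul]
  have hbH : cl b ∉ H := by
    rw [hbc]
    intro e1
    exact hz1 ((H.mul_mem_cancel_right hc0).1 e1)
  have hτ' : ∀ x, cl x ∉ H → P (z1 * z1 * x) = P x + τ1 + ep := by
    obtain ⟨ε, -, -, hk⟩ := h.kk (z1 * z1) 1 (by rw [map_mul, h21, map_one])
    have hcc1 : cc (z1 * z1) ≠ cc 1 := by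
      rw [map_mul, hcz1, map_one]
      exact h.t1
    have k1 := hk 1
    rw [if_pos (Or.inr (by rw [mul_one, map_one]; exact H.one_mem)), add_zero,
      hτ 1 (by rw [map_one]; exact H.one_mem), one_mul] at k1
    have k2 : τ1 = ε := add_left_cancel k1
    intro x hx
    have k3 := hk x
    rw [one_mul, if_neg (by tauto), ← k2] at k3
    exact k3
  have E2 : P b + ez - τ1 - ep + e + P b - T ∈ E := by
    have e1 := hr b
    have e2 : P (wq * bar b) = P b + ez - τ1 - ep + e := by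
      rw [hwx]
      have e3 := hτ' (c0 * c0 * bar b) (by
        rw [map_mul, map_mul, h.clb]
        intro e7
        exact hbH (H.inv_mem_iff.1 ((H.mul_mem_cancel_left (H.mul_mem hc0 hc0)).1 e7)))
      have e4 : z1 * z1 * (c0 * c0 * bar b) = b * bar b * b := by
        have e5 : b * bar b * b = b * b * bar b := mul_right_comm _ _ _
        rw [e5]
        nth_rewrite 2 [hb]
        nth_rewrite 2 [hb]
        rw [mul_mul_mul_comm z1 c0 z1 c0, mul_assoc (z1 * z1)]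
      have e6 := h.nrm b b
      rw [if_neg hbH] at e6
      rw [e4, e6] at e3
      have e8 : P (c0 * c0 * bar b) = P b + ez - τ1 - ep := by
        rw [e3]
        abel
      rw [e8]
    rwa [if_neg hbH, add_zero, e2] at e1
  have C1 : (P b - P c0) + (P b - P c0) - τ1 ∈ E := by
    have e1 := E.sub_mem E2 E1
    have e2 : P b + ez - τ1 - ep + e + P b - T - (P c0 + e + P c0 - (T + em)) =
        (P b - P c0) + (P b - P c0) - τ1 := by
      rw [← h.zm]
      have e3 : P b + ez - τ1 - (ez + em) + e + P b - T - (P c0 + e + P c0 - (T + em)) =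
        (P b - P c0) + (P b - P c0) - τ1 := by abel
      exact e3
    rwa [e2] at e1
  refine ⟨C1, ?_⟩
  -- the four classes
  obtain ⟨a1, ha1⟩ : ∃ a : M, a = z0 * c0 := ⟨_, rfl⟩
  obtain ⟨a3, ha3⟩ : ∃ a : M, a = z0 * b := ⟨_, rfl⟩
  have hc1 : cl a1 = cl z0 * cl c0 := by rw [ha1, map_mul]
  have hc3 : cl a3 = cl z0 * cl b := by rw [ha3, map_mul]
  have ha1H : cl a1 ∈ H := by
    rw [hc1]
    exact H.mul_mem hz0 hc0
  have ha3H : cl a3 ∉ H := by
    rw [hc3]
    intro e1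
    exact hbH ((H.mul_mem_cancel_left hz0).1 e1)
  have n10 : cl a1 ≠ cl c0 := by
    rw [hc1]
    intro e1
    exact hz01 (mul_eq_right.1 e1)
  have n20 : cl b ≠ cl c0 := fun e1 => hbH (by rw [e1]; exact hc0)
  have n21 : cl b ≠ cl a1 := fun e1 => hbH (by rw [e1]; exact ha1H)
  have n30 : cl a3 ≠ cl c0 := fun e1 => ha3H (by rw [e1]; exact hc0)
  have n31 : cl a3 ≠ cl a1 := fun e1 => ha3H (by rw [e1]; exact ha1H)
  have n32 : cl a3 ≠ cl b := by
    rw [hc3]
    intro e1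
    exact hz01 (mul_eq_right.1 e1)
  have hsq : ∀ g : G, g * g = cl wq ↔ (g = cl c0 ∨ g = cl a1 ∨ g = cl b ∨ g = cl a3) := by
    intro g
    constructor
    · intro hg
      have e1 : (g * (cl c0)⁻¹) * (g * (cl c0)⁻¹) = 1 := by
        rw [mul_mul_mul_comm, hg, ← mul_inv, hcs, mul_inv_cancel]
      rw [hc1, hc3, hbc]
      rcases (hG _).1 e1 with e2 | e2 | e2 | e2
      · left
        rw [mul_inv_eq_iff_eq_mul.1 e2, one_mul]
      · right; left
        exact mul_inv_eq_iff_eq_mul.1 e2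
      · right; right; left
        exact mul_inv_eq_iff_eq_mul.1 e2
      · right; right; right
        rw [mul_inv_eq_iff_eq_mul.1 e2, mul_assoc]
    · have k1 : cl a1 * cl a1 = cl wq := by
        rw [hc1, mul_mul_mul_comm, h20, one_mul, hcs]
      have k2 : cl b * cl b = cl wq := by
        rw [hbc, mul_mul_mul_comm, h21, one_mul, hcs]
      have k3 : cl a3 * cl a3 = cl wq := by
        rw [hc3, mul_mul_mul_comm, h20, one_mul, k2]
      rintro (rfl | rfl | rfl | rfl)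
      · exact hcs
      · exact k1
      · exact k2
      · exact k3
  obtain ⟨r, hrr, r0, r1, r2, r3⟩ := abb_section h.surj n10 n20 n21 n30 n31 n32
  obtain ⟨hcH, hcN⟩ := abb_card h.idx hj
  obtain ⟨GH, hGH⟩ : ∃ s : Finset G, s = {cl c0, cl a1} := ⟨_, rfl⟩
  obtain ⟨GN, hGN⟩ : ∃ s : Finset G, s = {cl b, cl a3} := ⟨_, rfl⟩
  have hmH : ∀ g, g ∈ H → (g ∈ GH ↔ g * g = cl wq) := by
    intro g hg
    rw [hsq g, hGH, Finset.mem_insert, Finset.mem_singleton]
    constructor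
    · rintro (e1 | e1)
      · exact Or.inl e1
      · exact Or.inr (Or.inl e1)
    · rintro (e1 | e1 | e1 | e1)
      · exact Or.inl e1
      · exact Or.inr e1
      · exact absurd (by rw [← e1]; exact hg) hbH
      · exact absurd (by rw [← e1]; exact hg) ha3H
  have hmN : ∀ g, g ∉ H → (g ∈ GN ↔ g * g = cl wq) := by
    intro g hg
    rw [hsq g, hGN, Finset.mem_insert, Finset.mem_singleton]
    constructor
    · rintro (e1 | e1)
      · exact Or.inr (Or.inr (Or.inl e1))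
      · exact Or.inr (Or.inr (Or.inr e1))
    · rintro (e1 | e1 | e1 | e1)
      · exact absurd (by rw [e1]; exact hc0) hg
      · exact absurd (by rw [e1]; exact ha1H) hg
      · exact Or.inl e1
      · exact Or.inr e1
  have hsubH : GH ⊆ Finset.univ.filter (· ∈ H) := by
    intro g hg
    rw [Finset.mem_filter]
    refine ⟨Finset.mem_univ _, ?_⟩
    rw [hGH, Finset.mem_insert, Finset.mem_singleton] at hg
    rcases hg with e1 | e1
    · rw [e1]; exact hc0
    · rw [e1]; exact ha1H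
  have hsubN : GN ⊆ Finset.univ.filter (· ∉ H) := by
    intro g hg
    rw [Finset.mem_filter]
    refine ⟨Finset.mem_univ _, ?_⟩
    rw [hGN, Finset.mem_insert, Finset.mem_singleton] at hg
    rcases hg with e1 | e1
    · rw [e1]; exact hbH
    · rw [e1]; exact ha3H
  have hGHc : GH.card = 2 := by
    rw [hGH, Finset.card_pair n10.symm]
  have hGNc : GN.card = 2 := by
    rw [hGN, Finset.card_pair n32.symm]
  have hGHs : ∑ g ∈ GH, P (r g) = P c0 + P a1 := by
    rw [hGH, Finset.sum_pair n10.symm, r0, r1]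
  have hGNs : ∑ g ∈ GN, P (r g) = P b + P a3 := by
    rw [hGN, Finset.sum_pair n32.symm, r2, r3]
  have hGHp : ∏ g ∈ GH, r g = c0 * a1 := by
    rw [hGH, Finset.prod_pair n10.symm, r0, r1]
  have hGNp : ∏ g ∈ GN, r g = b * a3 := by
    rw [hGN, Finset.prod_pair n32.symm, r2, r3]
  have s1 := Finset.sum_sdiff (f := fun g => P (r g)) hsubH
  have s2 := Finset.prod_sdiff (f := fun g => r g) hsubH
  have s3 := Finset.card_sdiff_add_card_eq_card hsubH
  have s4 := Finset.sum_sdiff (f := fun g => P (r g)) hsubN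
  have s5 := Finset.prod_sdiff (f := fun g => r g) hsubN
  have s6 := Finset.card_sdiff_add_card_eq_card hsubN
  rw [hGHc, hcH] at s3
  rw [hGHs] at s1
  rw [hGHp] at s2
  rw [hGNc, hcN] at s6
  rw [hGNs] at s4
  rw [hGNp] at s5
  -- the sum over the other classes of `H`
  obtain ⟨n, q1, q2, q3⟩ := sum_H h (E := E) (w := wq) (T1 := T + em) hwq (by
    intro c hc
    have e1 := hr c
    rwa [if_pos hc] at e1) (Finset.univ.filter (· ∈ H) \ GH) (by
    intro g hg
    rw [Finset.mem_sdiff, Finset.mem_filter] at hg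
    have hgi : cl wq * g⁻¹ ∈ H := H.mul_mem hwq (H.inv_mem hg.1.2)
    refine ⟨hg.1.2, ?_, ?_⟩
    · rw [Finset.mem_sdiff, Finset.mem_filter]
      refine ⟨⟨Finset.mem_univ _, hgi⟩, ?_⟩
      intro e1
      rw [hmH _ hgi] at e1
      apply hg.2
      rw [hmH _ hg.1.2]
      rw [mul_mul_mul_comm, ← mul_inv] at e1
      have e2 : cl wq * cl wq = cl wq * (g * g) := mul_inv_eq_iff_eq_mul.1 e1
      exact (mul_left_cancel e2).symm
    · intro e1
      apply hg.2
      rw [hmH _ hg.1.2]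
      exact (mul_inv_eq_iff_eq_mul.1 e1).symm) r hrr
  have hn : n = 2 * i + 1 := by omega
  rw [hn] at q2 q3
  -- the sum over the other classes outside `H`
  obtain ⟨n', q4, q5, q6⟩ := sum_N h (E := E) (w := wq) (T3 := T) hwq (by
    intro c hc
    have e1 := hr c
    rwa [if_neg hc, add_zero] at e1) (Finset.univ.filter (· ∉ H) \ GN) (by
    intro g hg
    rw [Finset.mem_sdiff, Finset.mem_filter] at hg
    have hgi : cl wq * g⁻¹ ∉ H := by
      intro e1
      exact hg.1.2 (H.inv_mem_iff.1 ((H.mul_mem_cancel_left hwq).1 e1))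
    refine ⟨hg.1.2, ?_, ?_⟩
    · rw [Finset.mem_sdiff, Finset.mem_filter]
      refine ⟨⟨Finset.mem_univ _, hgi⟩, ?_⟩
      intro e1
      rw [hmN _ hgi] at e1
      apply hg.2
      rw [hmN _ hg.1.2]
      rw [mul_mul_mul_comm, ← mul_inv] at e1
      have e2 : cl wq * cl wq = cl wq * (g * g) := mul_inv_eq_iff_eq_mul.1 e1
      exact (mul_left_cancel e2).symm
    · intro e1
      apply hg.2
      rw [hmN _ hg.1.2]
      exact (mul_inv_eq_iff_eq_mul.1 e1).symm) r hrr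
  have hn' : n' = 2 * i + 1 := by omega
  rw [hn'] at q5 q6
  have hpr := hp r hrr
  have hwpp : cl wp ^ (2 * (i + 1)) = cl (∏ g ∈ Finset.univ.filter (· ∈ H), r g) := by
    rw [hwp, map_prod]
    exact (Finset.prod_congr rfl fun g _ => hrr g).symm
  rw [← s2] at hwpp hpr
  rw [← s1, ← s4, ← s5] at hpr
  set R1 : M := ∏ g ∈ Finset.univ.filter (· ∈ H) \ GH, r g with hR1
  set S1 : A := ∑ g ∈ Finset.univ.filter (· ∈ H) \ GH, P (r g) with hS1
  set R2 : M := ∏ g ∈ Finset.univ.filter (· ∉ H) \ GN, r g with hR2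
  set S2 : A := ∑ g ∈ Finset.univ.filter (· ∉ H) \ GN, P (r g) with hS2
  obtain ⟨W, hW⟩ : ∃ W : M, W = wq ^ (2 * i + 1) := ⟨_, rfl⟩
  rw [← hW] at q3 q6
  have hWc : cl W = cl wq ^ (2 * i + 1) := by rw [hW, map_pow]
  have hWH : cl W ∈ H := by
    rw [hWc]
    exact H.pow_mem hwq _
  rw [← hWc] at q2 q5
  have hFH : cl (W * (c0 * a1)) ∈ H := by
    rw [map_mul, map_mul]
    exact H.mul_mem hWH (H.mul_mem hc0 ha1H)
  have hFN : cl (W * (b * a3)) ∈ H := by
    rw [map_mul, map_mul]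
    exact H.mul_mem hWH ((Subgroup.mul_mem_iff_of_index_two h.idx).2
      ⟨fun e1 => absurd e1 hbH, fun e1 => absurd e1 ha3H⟩)
  have hx : W * (b * a3) = z1 * z1 * (W * (c0 * a1)) := by
    rw [ha3, ha1, hb]
    ac_rfl
  have hPW : P (W * (b * a3)) = P (W * (c0 * a1)) + τ1 := by
    rw [hx, hτ _ hFH]
  have hPA : P (R1 * (c0 * a1)) = P (W * (c0 * a1)) + P R1 - P W := by
    obtain ⟨ε, -, -, hk⟩ := h.kk R1 W q2
    have k1 := hk 1
    rw [mul_one, mul_one, if_pos (Or.inr hWH), add_zero] at k1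
    have k2 := hk (c0 * a1)
    rw [if_pos (Or.inr hFH), add_zero] at k2
    rw [k2, k1]
    abel
  have hPB : P (R2 * (b * a3)) = P (W * (b * a3)) + P R2 - P W := by
    obtain ⟨ε, -, -, hk⟩ := h.kk R2 W q5
    have k1 := hk 1
    rw [mul_one, mul_one, if_pos (Or.inr hWH), add_zero] at k1
    have k2 := hk (b * a3)
    rw [if_pos (Or.inr hFN), add_zero] at k2
    rw [k2, k1]
    abel
  -- the classes in `C`
  have hwt : ∀ z : C, t * z ≠ z := fun z hz => h.t1 (mul_eq_right.1 hz)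
  have hY : cc (W * (b * a3)) = cc z0 * t := by
    have e1 := hexp c0 hc0
    have e2 : 4 * (i + 1) = 2 * (2 * i + 1 + 1) := by ring
    rw [e2, pow_mul, pow_two, hcc, pow_succ] at e1
    rw [hx, ha1, hW]
    have e3 : cc (z1 * z1 * (wq ^ (2 * i + 1) * (c0 * (z0 * c0)))) =
        (cc wq ^ (2 * i + 1) * (cc c0 * cc c0)) * (cc z0 * (cc z1 * cc z1)) := by
      simp only [map_mul, map_pow]
      ac_rfl
    rw [e3, hcc, e1, one_mul, hcz1]
  have hXY : cc (R2 * (b * a3)) = cc z0 * t ∨ cc (R2 * (b * a3)) = t * (cc z0 * t) := by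
    rw [← hY]
    exact (h.fib _ _).1 (by rw [map_mul, q5, ← map_mul])
  have hZY : cc (wp ^ (2 * (i + 1))) = cc z0 * t ∨
      cc (wp ^ (2 * (i + 1))) = t * (cc z0 * t) := by
    rw [← hY]
    refine (h.fib _ _).1 ?_
    rw [map_pow, hwpp, map_mul, q2, ← map_mul, hx, map_mul cl (z1 * z1), map_mul cl z1 z1, h21,
      one_mul]
  have hδ1 : (if cc R2 = cc W then (0 : A) else ep) =
      if cc (R2 * (b * a3)) = cc z0 * t then (0 : A) else ep := by
    rw [← hY]
    have e1 : cc R2 = cc W ↔ cc (R2 * (b * a3)) = cc (W * (b * a3)) := by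
      rw [map_mul cc R2, map_mul cc W]
      exact mul_left_inj _ |>.symm
    simp only [e1]
  have hδ : (if cc (R2 * (b * a3)) = cc z0 * t then (0 : A) else ep) -
      (if cc (R2 * (b * a3)) = cc (wp ^ (2 * (i + 1))) then (0 : A) else ep) =
      -(if cc (wp ^ (2 * (i + 1))) = cc z0 * t then (0 : A) else ep) := by
    have hne : -ep = ep := neg_eq_of_add_eq_zero_left hep2
    rcases hXY with e1 | e1 <;> rcases hZY with e2 | e2 <;> rw [e1, e2]
    · rw [if_pos rfl, sub_zero, neg_zero]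
    · rw [if_pos rfl, if_neg (hwt _).symm, if_neg (hwt _), zero_sub]
    · rw [if_neg (hwt _), if_pos rfl, sub_self, neg_zero]
    · rw [if_neg (hwt _), if_pos rfl, sub_zero, hne]
  rw [hδ1] at q6
  set δ : A := (if cc (wp ^ (2 * (i + 1))) = cc z0 * t then (0 : A) else ep) with hδd
  set δ1 : A := (if cc (R2 * (b * a3)) = cc z0 * t then (0 : A) else ep) with hδ1d
  set δ' : A := (if cc (R2 * (b * a3)) = cc (wp ^ (2 * (i + 1))) then (0 : A) else ep) with hδ'
  have hodd : ∀ y : A, y + y = 0 → (2 * i + 1) • y = y := by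
    intro y hy
    rw [succ_nsmul, abb_dbl i hy, smul_zero, zero_add]
  rw [smul_add, hodd em h.m2] at q3
  rw [hodd ez h.z2] at q6
  rw [hPA, hPB, hPW] at hpr
  have f1 : P a1 + φ (P c0) - (T + em) ∈ E := by
    have e1 := hf c0
    rwa [if_pos hc0, ← ha1] at e1
  have f2 : P a3 + φ (P b) - T ∈ E := by
    have e1 := hf b
    rwa [if_neg hbH, add_zero, ← ha3] at e1
  have e1 := E.add_mem (E.sub_mem q3 q6) (E.sub_mem f1 f2)
  have hS : S1 - S2 = P R1 - P R2 - τ1 - δ' - (P c0 + P a1) + (P b + P a3) := by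
    have e2 : S1 - S2 = S1 + (P c0 + P a1) - (S2 + (P b + P a3)) - (P c0 + P a1) +
        (P b + P a3) := by abel
    rw [e2, hpr]
    abel
  have e2 : S1 - ((2 * i + 1) • T + em) - (P R1 - P W) -
      (S2 - (2 * i + 1) • T - ez - (P R2 - P W) - δ1) +
      (P a1 + φ (P c0) - (T + em) - (P a3 + φ (P b) - T)) =
      (P b - P c0) - φ (P b - P c0) - τ1 - ez - δ := by
    have e3 : S1 - ((2 * i + 1) • T + em) - (P R1 - P W) -
      (S2 - (2 * i + 1) • T - ez - (P R2 - P W) - δ1) +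
      (P a1 + φ (P c0) - (T + em) - (P a3 + φ (P b) - T)) =
      (S1 - S2) - (P R1 - P R2) + P a1 - P a3 + φ (P c0) - φ (P b) + ez - (em + em) + δ1 := by
      abel
    rw [e3, hS, h.m2, map_sub]
    have e4 : P R1 - P R2 - τ1 - δ' - (P c0 + P a1) + (P b + P a3) - (P R1 - P R2) + P a1 -
        P a3 + φ (P c0) - φ (P b) + ez - 0 + δ1 =
        P b - P c0 - (φ (P b) - φ (P c0)) - τ1 - ez + (ez + ez) + (δ1 - δ') := by
      abel
    rw [e4, h.z2, hδ, add_zero, sub_eq_add_neg _ δ]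
  rwa [e2] at e1

end Pool.Agent.Work.MP_8efaaa_nt.Q7
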