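import Mathlib
import Pool.Agent.Work.MP_8efaaa_nt.Q7.Defs
import Pool.Agent.Work.MP_8efaaa_nt.V6.PEt
import Pool.Agent.Work.MP_8efaaa_nt.V6.PEx
import Pool.Agent.Work.MP_8efaaa_nt.W14.CEq
import Pool.Agent.Work.MP_8efaaa_nt.W14.PGa

/-!
# Q7/Tz1 (M): the translation by `z1^2`

`P = PP z k v`, `n' = r6 S (a/2)`, `a = 2 p q`, `m = a/2 = p q`, `cls n' = cls (r6 S 2)` (`cls_two`). `cls (n' z1 z1) = t t = 1`: `n' z1 z1 = (μ)` (`prin_of_cls`), and `(1 + S) n' z1 z1 = ((1 + S) μ)` has norm `(1 + a) m (N z1)^2`. This is `1 (mod 16)`: `p % 16 = 1`, so `m = q (mod 16)`, `m % 16 = 15` or `7`, `(1 + a) = 15 (mod 16)` (`a = 2 m = 14 (mod 16)`); if `m % 16 = 15` then `N z1 = 1 (mod 8)`, `(N z1)^2 = 1 (mod 16)`, `15 * 15 = 1`; if `m % 16 = 7` then `N z1 = 3 (mod 8)` (`z1 ∈ M13`), `(N z1)^2 = 9`, `15 * 7 * 9 = 945 = 1 (mod 16)`. `V6.tr_px`: `P ((1+S) n' z1 z1 x) = P x + ε`, `ε = 0` or `em`.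
`x ∈ M13`, `N x = 1 (mod 8)`: `hT` for `n' z1 z1 x` (norm `7 (mod 8)`: `+ em`) and `hR` for `z1 z1 x` (norm `1 (mod 8)`): `P ((1+S) n' z1 z1 x) = -P (n' z1 z1 x) + T + em = P (z1 z1 x) - R + T + em`. So `P (z1 z1 x) = P x + ε - (T + em - R)`, and `-(T + em - R) = (T + em - R) + em` because `2 (T + em - R) = ez - ep = em`.
-/

set_option autoImplicit false

namespace Pool.Agent.Work.MP_8efaaa_nt.Q7

open NumberField Pool.Agent.Work.MP_8efaaa_nt.R Pool.Agent.Work.MP_8efaaa_nt.N5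
  Pool.Agent.Work.MP_8efaaa_nt.K6 Pool.Agent.Work.MP_8efaaa_nt.W14
  Pool.Agent.Work.MP_8efaaa_nt.W6
open scoped Classical nonZeroDivisors

theorem tau_one {K F : Type*} [Field K] [NumberField K] [Field F] [NumberField F] [Algebra K F]
    {p q : ℕ} {s : K} {S : 𝓞 K} {τ : 𝓞 K ≃+* 𝓞 K} {ζ : F} {w : ℕ → F}
    {z k v : Ideal (𝓞 K) → F} {κ : F ≃ₐ[ℚ] F} (hp : p.Prime) (hq : q.Prime) (hp16 : p % 16 = 1)
    (hq8 : q % 8 = 7) (hb : B6 K (2 * p * q) s) (hS : algebraMap (𝓞 K) K S = s)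
    (hτ : τ S = -S) (hU : UD6 K F (2 * p * q) s S τ ζ w z k v κ)
    {T R : (cQ F).Point} (hTT : T + T = ez F)
    (hT : ∀ c, OddI c → PP z k v (Ideal.span {1 + S} * c) + PP z k v c =
        T + if Ideal.absNorm c % 4 = 1 then 0 else W14.em F)
    (hRR : R + R = ep F)
    (hR : ∀ c, OddI c → PP z k v (r6 S ((2 * p * q) / 2) * c) + PP z k v c =
        R + if Ideal.absNorm c % 8 = 1 ∨ Ideal.absNorm c % 8 = 7 then 0 else ez F)
    {z1 : M13 K} (hz1 : cls (z1 : Ideal (𝓞 K)) * cls (z1 : Ideal (𝓞 K)) = cls (r6 S 2))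
    (hz16 : Ideal.absNorm (z1 : Ideal (𝓞 K)) % 8 = 1 ↔ (p * q) % 16 = 15) :
    ∃ τ1 : (cQ F).Point, (τ1 = T + W14.em F - R ∨ τ1 = T + W14.em F - R + W14.em F) ∧
      ∀ x ∈ M13 K, Ideal.absNorm x % 8 = 1 →
        PP z k v ((z1 : Ideal (𝓞 K)) * z1 * x) = PP z k v x + τ1 := by
  obtain ⟨Z, hZ⟩ := z1
  change cls Z * cls Z = cls (r6 S 2) at hz1
  change Ideal.absNorm Z % 8 = 1 ↔ (p * q) % 16 = 15 at hz16
  change ∃ τ1 : (cQ F).Point, (τ1 = T + W14.em F - R ∨ τ1 = T + W14.em F - R + W14.em F) ∧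
      ∀ x ∈ M13 K, Ideal.absNorm x % 8 = 1 → PP z k v (Z * Z * x) = PP z k v x + τ1
  have hpq8 : (p * q) % 8 = 7 := by
    rw [Nat.mul_mod, hq8]
    have : p % 8 = 1 := by omega
    rw [this]
  have hm : 2 * p * q / 2 = p * q := by
    rw [mul_assoc]
    exact Nat.mul_div_cancel_left _ (by norm_num)
  have ha16 : (1 + 2 * p * q) % 16 = 15 := by
    rw [mul_assoc]
    omega
  have hdm : p * q ∣ 2 * p * q := ⟨2, by ring⟩
  have hNM : Ideal.absNorm (r6 S (p * q)) = p * q := norm_r6 hb hS hdm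
  have hodd1 : Ideal.absNorm Z % 2 = 1 := Nat.odd_iff.1 (M13.odd hZ)
  have hz13 : Ideal.absNorm Z % 8 = 1 ∨
      Ideal.absNorm Z % 8 = 3 := hZ
  have hne1 : Z ≠ 0 := M13.ne hZ
  have hMne : r6 S (p * q) ≠ 0 := r6_ne hb hS hdm
  obtain ⟨hc1, hc2⟩ := cls_two hb hS
  rw [hm] at hc2 hR
  have hcls : cls (r6 S (p * q) * (Z * Z)) = 1 := by
    rw [cls_mul hMne (mul_ne_zero hne1 hne1), cls_mul hne1 hne1, hz1, hc2, hc1]
  obtain ⟨μ, -, hμ⟩ := prin_of_cls (mul_ne_zero hMne (mul_ne_zero hne1 hne1)) hcls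
  have hα : Ideal.span {(1 + S) * μ} =
      Ideal.span {1 + S} * (r6 S (p * q) * (Z * Z)) := by
    rw [hμ, Ideal.span_singleton_mul_span_singleton]
  have hN : Ideal.absNorm (Ideal.span {(1 + S) * μ}) =
      (1 + 2 * p * q) * ((p * q) * (Ideal.absNorm Z *
        Ideal.absNorm Z)) := by
    rw [hα, map_mul, map_mul, map_mul, norm_g hb hS, hNM]
  have hN16 : Ideal.absNorm (Ideal.span {(1 + S) * μ}) % 16 = 1 := by
    rw [hN, Nat.mul_mod, ha16, Nat.mul_mod (p * q)]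
    have h15 : (p * q) % 16 = 15 ∨ (p * q) % 16 = 7 := by omega
    rcases h15 with h | h
    · have h1 := hz16.2 h
      have h2 : Ideal.absNorm Z % 16 = 1 ∨
        Ideal.absNorm Z % 16 = 9 := by omega
      rw [h, Nat.mul_mod (Ideal.absNorm Z)]
      rcases h2 with h2 | h2 <;> rw [h2]
    · have h1 : Ideal.absNorm Z % 8 = 3 := by
        rcases hz13 with h1 | h1
        · exact absurd (hz16.1 h1) (by omega)
        · exact h1
      have h2 : Ideal.absNorm Z % 16 = 3 ∨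
        Ideal.absNorm Z % 16 = 11 := by omega
      rw [h, Nat.mul_mod (Ideal.absNorm Z)]
      rcases h2 with h2 | h2 <;> rw [h2]
  have hN8 : Ideal.absNorm (Ideal.span {(1 + S) * μ}) % 8 = 1 := by omega
  obtain ⟨ε, hε1, -, hε⟩ := V6.tr_px hb hS hU hN8
  have hε' := hε1 hN16
  obtain ⟨h2p, h2m, h2z, hpm, hpz, hmz⟩ := two_ep (F := F)
  have hkey : ∀ x ∈ M13 K, Ideal.absNorm x % 8 = 1 →
      PP z k v (Z * Z * x) =
        PP z k v x + ((T + W14.em F - R) + (W14.em F + ε)) := by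
    intro x hx hx8
    have hox : OddI x := M13.odd hx
    have hzz8 : Ideal.absNorm (Z * Z * x) % 8 = 1 := by
      rw [map_mul, map_mul, Nat.mul_mod, hx8,
        Nat.mul_mod (Ideal.absNorm Z)]
      rcases hz13 with h | h <;> rw [h]
    have hozz : OddI (Z * Z * x) := by
      unfold OddI
      rw [Nat.odd_iff]
      omega
    have hM8 : Ideal.absNorm (r6 S (p * q) * (Z * Z * x)) % 8 = 7 := by
      rw [map_mul, hNM, Nat.mul_mod, hzz8, hpq8]
    have hoM : OddI (r6 S (p * q) * (Z * Z * x)) := by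
      unfold OddI
      rw [Nat.odd_iff]
      omega
    have h1 := hT _ hoM
    rw [if_neg (by omega)] at h1
    have h2 := hR _ hozz
    rw [if_pos (Or.inl hzz8), add_zero] at h2
    have h3 := hε x hox
    have h4 : Ideal.span {(1 + S) * μ} * x =
        Ideal.span {1 + S} * (r6 S (p * q) * (Z * Z * x)) := by
      rw [hα]
      ring
    rw [h4] at h3
    rw [h3] at h1
    have h5 : PP z k v (Z * Z * x) =
        PP z k v x + ε - (T + W14.em F - R) := by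
      rw [eq_sub_of_add_eq' h2, eq_sub_of_add_eq' h1]
      abel
    have h6 : (T + W14.em F - R) + (T + W14.em F - R) = W14.em F := by
      have h7 : (T + W14.em F - R) + (T + W14.em F - R) =
          (T + T) + (W14.em F + W14.em F) - (R + R) := by abel
      rw [h7, hTT, h2m, hRR, add_zero, ← hpm, add_sub_cancel_left]
    have h8 : -(T + W14.em F - R) = (T + W14.em F - R) + W14.em F := by
      rw [neg_eq_iff_add_eq_zero, ← add_assoc, h6, h2m]
    rw [h5, sub_eq_add_neg, h8]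
    abel
  rcases hε' with h | h
  · refine ⟨_, Or.inr rfl, ?_⟩
    intro x hx hx8
    rw [hkey x hx hx8, h, add_zero]
  · refine ⟨_, Or.inl rfl, ?_⟩
    intro x hx hx8
    rw [hkey x hx hx8, h, h2m, add_zero]

end Pool.Agent.Work.MP_8efaaa_nt.Q7
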