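import Mathlib
import Pool.Agent.Work.MP_8efaaa_nt.Q7.Defs
import Pool.Agent.Work.MP_8efaaa_nt.Q7.Pre
import Pool.Agent.Work.MP_8efaaa_nt.Q7.AbA
import Pool.Agent.Work.MP_8efaaa_nt.Q7.AbB
import Pool.Agent.Work.MP_8efaaa_nt.Q7.Tz1
import Pool.Agent.Work.MP_8efaaa_nt.Q7.QSd
import Pool.Agent.Work.MP_8efaaa_nt.Q7.Gr3

/-!
# Q7/C3a (M): the point `h` at `q`

`h = PP (z1 c0) - PP c0`. Everything is in `P : Pre7 ..`; the abstract monoid is `M13 K`, `P c = PP z k v c`, `cl = clM S`, `cc = ccM K`, `E = W5.E1 V`.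
`tau_one` (`hz16`: `P.z1H`, `P.hH`): `τ1`. `q_frob`: `φ`; `gal_two_tor`. `exp7`: `hexp`. `hr` of `abs_a` / `abs_b` for `c : M13 K`: `hrel`, `P.hbar`, `P.hH`. `hf`: `q_frob` (`P.hz0`), `hcc`: `ccM` is `cls`. `hzz`: `zz_z0` (`P.hz0`). `hτ`: `tau_one` with `P.hH`. `wq`, `c0 ∈ H`: `P.hH`.
-/

set_option autoImplicit false

namespace Pool.Agent.Work.MP_8efaaa_nt.Q7

open NumberField Pool.Agent.Work.MP_8efaaa_nt.R Pool.Agent.Work.MP_8efaaa_nt.N5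
  Pool.Agent.Work.MP_8efaaa_nt.K6 Pool.Agent.Work.MP_8efaaa_nt.W14
  Pool.Agent.Work.MP_8efaaa_nt.W6
open scoped Classical nonZeroDivisors

theorem point_h {K F : Type*} [Field K] [NumberField K] [Field F] [NumberField F]
    [Algebra K F] [IsGalois K F] {p q : ℕ} {s : K}
    {S : 𝓞 K} {τ : 𝓞 K ≃+* 𝓞 K} {ζ : F} {w : ℕ → F} {z k v : Ideal (𝓞 K) → F}
    {κ : F ≃ₐ[ℚ] F}
    (hp : p.Prime) (hq : q.Prime) (hp16 : p % 16 = 1) (hq8 : q % 8 = 7)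
    (hqp : jacobiSym q p = 1)
    (hb : B6 K (2 * p * q) s) (hS : algebraMap (𝓞 K) K S = s) (hτ : τ S = -S)
    (hU : UD6 K F (2 * p * q) s S τ ζ w z k v κ) [Fintype (CG S)] {H : Subgroup (CG S)}
    {z0 z1 wp : M13 K} {bar : M13 K → M13 K} {T R : (cQ F).Point} {j : ℕ}
    (P : Pre7 p q S τ z k v H z0 z1 wp bar T R j) {Γ : Type}
    [LinearOrderedCommGroupWithZero Γ] {V : Valuation F Γ} {L : Ideal (𝓞 F)} (hV : VL V L)
    (hqL : (q : 𝓞 F) ∈ L) {wq c0 : M13 K}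
    (hwq : Ideal.absNorm (wq : Ideal (𝓞 K)) % 8 = 1)
    (hc0 : Ideal.absNorm (c0 : Ideal (𝓞 K)) % 8 = 1)
    (hcc : cls (c0 : Ideal (𝓞 K)) * cls (c0 : Ideal (𝓞 K)) = cls (wq : Ideal (𝓞 K)))
    (hrel : ∀ c ∈ M13 K, PP z k v ((wq : Ideal (𝓞 K)) * cj τ c) + PP z k v c -
        (T + if Ideal.absNorm c % 8 = 1 then W14.em F else 0) ∈ W5.E1 V) :
    ∃ (φ : F ≃ₐ[K] F) (τ1 h : (cQ F).Point),
      (∀ x : F, V x ≤ 1 → V (φ x) ≤ 1 ∧ V (φ x - x ^ q) < 1) ∧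
      (∀ x : F, 1 < V x → 1 < V (φ x)) ∧
      (τ1 = T + W14.em F - R ∨ τ1 = T + W14.em F - R + W14.em F) ∧
      h + h - τ1 ∈ W5.E1 V ∧
      ((p * q) % 16 = 15 → h - gal φ h - τ1 -
        (if ccM K (wp ^ (2 * j)) = 1 then 0 else ep F) ∈ W5.E1 V) ∧
      ((p * q) % 16 ≠ 15 → h - gal φ h - τ1 - ez F -
        (if ccM K (wp ^ (2 * j)) = ccM K z0 * cls (r6 S 2) then 0 else ep F) ∈ W5.E1 V) := by
  have hp8 : p % 8 = 1 := by omega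
  have hqa : q ∣ 2 * p * q := dvd_mul_left _ _
  have hpq8 : (p * q) % 8 = 7 := by
    rw [Nat.mul_mod, hp8, hq8]
  have ha16 : (2 * p * q) % 16 = 14 := by
    rw [mul_assoc]
    omega
  obtain ⟨τ1, hτ1, hτx⟩ := tau_one hp hq hp16 hq8 hb hS hτ hU P.hTT P.hT P.hRR P.hR P.hz1
    (by rw [← P.hH]; exact P.z1H)
  obtain ⟨φ, hφ1, hφ2, hφT, hφE, hφc⟩ := q_frob hb hS hU P.hTT P.hT hq hq8 hqa hV hqL
  have hexp : ∀ c : M13 K, clM S c ∈ H → ccM K c ^ (4 * j) = 1 := fun c _ =>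
    exp7 hp hq hp8 hq8 hb hS hτ hqp P.cj16 (ccM K c)
  have hr : ∀ c : M13 K, PP z k v ((wq * bar c : M13 K) : Ideal (𝓞 K)) + PP z k v (c : Ideal (𝓞 K)) -
      (T + if clM S c ∈ H then W14.em F else 0) ∈ W5.E1 V := by
    intro c
    have h1 := hrel c c.2
    have h2 : ((wq * bar c : M13 K) : Ideal (𝓞 K)) = (wq : Ideal (𝓞 K)) * cj τ (c : Ideal (𝓞 K)) := by
      rw [Submonoid.coe_mul, P.hbar]
    rw [h2]
    by_cases h3 : clM S c ∈ H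
    · rw [if_pos h3]
      rwa [if_pos ((P.hH c).1 h3)] at h1
    · rw [if_neg h3]
      rwa [if_neg (fun h4 => h3 ((P.hH c).2 h4))] at h1
  have hf : ∀ c : M13 K, PP z k v ((z0 * c : M13 K) : Ideal (𝓞 K)) +
      gal φ (PP z k v (c : Ideal (𝓞 K))) - (T + if clM S c ∈ H then W14.em F else 0) ∈ W5.E1 V := by
    intro c
    have h1 := hφc c c.2
    have h2 : ((z0 * c : M13 K) : Ideal (𝓞 K)) = Ideal.span {1 + S} * r6 S q * (c : Ideal (𝓞 K)) := by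
      rw [Submonoid.coe_mul, P.hz0]
    rw [h2]
    by_cases h3 : clM S c ∈ H
    · rw [if_pos h3]
      rwa [if_pos ((P.hH c).1 h3)] at h1
    · rw [if_neg h3]
      rwa [if_neg (fun h4 => h3 ((P.hH c).2 h4))] at h1
  have hzz : ∀ x : M13 K, PP z k v ((z0 * z0 * x : M13 K) : Ideal (𝓞 K)) =
      PP z k v (x : Ideal (𝓞 K)) + W14.em F := by
    intro x
    have h1 := zz_z0 hb hS ha16 hU P.hTT P.hT hq8 hqa (M13.odd x.2)
    rw [← P.hz0] at h1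
    exact h1
  have hτ' : ∀ x : M13 K, clM S x ∈ H → PP z k v ((z1 * z1 * x : M13 K) : Ideal (𝓞 K)) =
      PP z k v (x : Ideal (𝓞 K)) + τ1 := fun x hx => hτx x x.2 ((P.hH x).1 hx)
  have hwqH : clM S wq ∈ H := (P.hH wq).2 hwq
  have hc0H : clM S c0 ∈ H := (P.hH c0).2 hc0
  by_cases hc : (p * q) % 16 = 15
  · have h1 := abs_a P.ae (φ := gal φ) (wp := wp) (wq := wq) (c0 := c0) (z0 := z0) (z1 := z1)
      (T := T) (τ1 := τ1) (j := j) P.hTT P.cj8 P.j1 hwqH hc0H hcc hr hf hφT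
      (fun e he => (gal_two_tor φ he).2) hφE P.z0H P.z01 hzz (P.z1H.2 hc) P.z11 P.z10 P.hz1 hτ'
      P.two hexp P.wpr P.star
    exact ⟨φ, τ1, _, hφ1, hφ2, hτ1, h1.1, fun _ => h1.2, fun h => absurd hc h⟩
  · have h1 := abs_b P.ae (φ := gal φ) (wp := wp) (wq := wq) (c0 := c0) (z0 := z0) (z1 := z1)
      (T := T) (τ1 := τ1) (j := j) P.hTT P.cj8 P.j1 hwqH hc0H hcc hr hf
      P.z0H P.z01 (fun h => hc (P.z1H.1 h)) P.hz1 hτ' P.two hexp P.wpr P.star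
    exact ⟨φ, τ1, _, hφ1, hφ2, hτ1, h1.1, fun h => absurd h hc, fun _ => h1.2⟩

end Pool.Agent.Work.MP_8efaaa_nt.Q7
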