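import Mathlib
import Pool.Agent.Work.MP_8efaaa_nt.Q7.Defs
import Pool.Agent.Work.MP_8efaaa_nt.W6.CPr
import Pool.Agent.Work.MP_8efaaa_nt.W6.CEl
import Pool.Agent.Work.MP_8efaaa_nt.Z6.El
import Pool.Agent.Work.MP_8efaaa_nt.W14.CEq
import Pool.Agent.Work.MP_8efaaa_nt.K6.ARg
import Pool.Agent.Work.MP_8efaaa_nt.K6.ARm

/-!
# Q7/El7 (M): the elements `x + y S`

MODELS: `Z6/El.lean` (`exists_elz`), `W6/CEl.lean` (`exists_el6`); copy the private lemmas and adapt; only the norm of `c0` and the parity are different. `c0` is odd (`hcc`), `a` is even, `a % 8 = 6`.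
`exists_elp7`: `x^2 + a y^2 = p n^2` is odd, so `x` is odd.
`exists_elq7`: `x^2 + a y^2 = N n^2 = 7 (mod 8)`: `x` odd; `y` even would give `1 (mod 8)`; so `y` is odd. `N ∣ x + t y`: `int_mem6`.
-/

set_option autoImplicit false

namespace Pool.Agent.Work.MP_8efaaa_nt.Q7

open NumberField Pool.Agent.Work.MP_8efaaa_nt.R Pool.Agent.Work.MP_8efaaa_nt.N5
  Pool.Agent.Work.MP_8efaaa_nt.K6 Pool.Agent.Work.MP_8efaaa_nt.W14
  Pool.Agent.Work.MP_8efaaa_nt.W6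
open scoped Classical nonZeroDivisors

private theorem mem_r {K : Type*} [Field K] [NumberField K] {a : ℕ} {S : 𝓞 K}
    (hQ : R6.Q6 K a S) {r p q : ℤ}
    (h : (p : 𝓞 K) + (q : 𝓞 K) * S ∈ Ideal.span {(r : 𝓞 K)}) : r ∣ p ∧ r ∣ q := by
  rw [Ideal.mem_span_singleton] at h
  obtain ⟨z, hz⟩ := h
  obtain ⟨u, v, rfl⟩ := hQ.coords z
  have h1 : (p : 𝓞 K) + (q : 𝓞 K) * S = ((r * u : ℤ) : 𝓞 K) + ((r * v : ℤ) : 𝓞 K) * S := by
    rw [hz]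
    push_cast
    ring
  obtain ⟨h2, h3⟩ := hQ.unique _ _ _ _ h1
  exact ⟨⟨u, h2⟩, ⟨v, h3⟩⟩

private theorem cancel_r {K : Type*} [Field K] [NumberField K] {r k : ℤ} (h : IsCoprime r k)
    {z : 𝓞 K} (hz : (k : 𝓞 K) * z ∈ Ideal.span {(r : 𝓞 K)}) : z ∈ Ideal.span {(r : 𝓞 K)} := by
  obtain ⟨u, v, huv⟩ := h
  have h1 : z = ((u : 𝓞 K) * z) * (r : 𝓞 K) + (v : 𝓞 K) * ((k : 𝓞 K) * z) := by
    have h2 := congrArg (Int.cast (R := 𝓞 K)) huv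
    push_cast at h2
    linear_combination (-z) * h2
  rw [h1]
  exact Ideal.add_mem _ (Ideal.mul_mem_left _ _ (Ideal.mem_span_singleton_self _))
    (Ideal.mul_mem_left _ _ hz)

private theorem case_N {K : Type*} [Field K] [NumberField K] {a : ℕ} {S : 𝓞 K}
    (hQ : R6.Q6 K a S) {b C : Ideal (𝓞 K)} {n r : ℕ} (hr : r.Prime) {t : ℤ}
    (hn : ((n : ℤ) : 𝓞 K) ∈ C) (ht : S - (t : 𝓞 K) ∈ b)
    (hJ : b * (C * C) ≤ Ideal.span {((r : ℤ) : 𝓞 K)}) (hrn : Nat.Coprime r n) : False := by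
  have hrp : Prime (r : ℤ) := Nat.prime_iff_prime_int.1 hr
  have h4 : S - (t : 𝓞 K) ∈ Ideal.span {((r : ℤ) : 𝓞 K)} := by
    have h5 : IsCoprime (r : ℤ) ((n : ℤ) * (n : ℤ)) := by
      have e2 := Nat.isCoprime_iff_coprime.2 hrn
      exact e2.mul_right e2
    refine cancel_r h5 (hJ ?_)
    have h6 := Ideal.mul_mem_mul ht (Ideal.mul_mem_mul hn hn)
    have h7 : (((n : ℤ) * (n : ℤ) : ℤ) : 𝓞 K) * (S - (t : 𝓞 K)) =
        (S - (t : 𝓞 K)) * (((n : ℤ) : 𝓞 K) * ((n : ℤ) : 𝓞 K)) := by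
      rw [Int.cast_mul]
      ring
    rw [h7]
    exact h6
  have h5 : (((-t : ℤ)) : 𝓞 K) + ((1 : ℤ) : 𝓞 K) * S ∈ Ideal.span {((r : ℤ) : 𝓞 K)} := by
    have e : (((-t : ℤ)) : 𝓞 K) + ((1 : ℤ) : 𝓞 K) * S = S - (t : 𝓞 K) := by
      rw [Int.cast_neg, Int.cast_one]
      ring
    rw [e]
    exact h4
  have h6 := (mem_r hQ h5).2
  exact hrp.not_isUnit (isUnit_of_dvd_one h6)

private theorem case_n {K : Type*} [Field K] [NumberField K] {a : ℕ} {S : 𝓞 K}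
    (hQ : R6.Q6 K a S) {b C : Ideal (𝓞 K)} {N r : ℕ} (hr : r.Prime) (hr2 : r ≠ 2) {u : ℤ}
    (hN : ((N : ℤ) : 𝓞 K) ∈ b) (hu : S + (u : 𝓞 K) ∈ C)
    (hJ : b * (C * C) ≤ Ideal.span {((r : ℤ) : 𝓞 K)})
    (hrN : Nat.Coprime r N) (hra : Nat.Coprime r a) : False := by
  have hrp : Prime (r : ℤ) := Nat.prime_iff_prime_int.1 hr
  have hr2' : ¬ (r : ℤ) ∣ 2 := by
    intro h4
    have h5 : r ∣ 2 := by exact_mod_cast h4
    exact hr2 ((Nat.prime_dvd_prime_iff_eq hr Nat.prime_two).1 h5)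
  have h4 : (S + (u : 𝓞 K)) * (S + (u : 𝓞 K)) ∈ Ideal.span {((r : ℤ) : 𝓞 K)} := by
    have h5 : IsCoprime (r : ℤ) (N : ℤ) := Nat.isCoprime_iff_coprime.2 hrN
    exact cancel_r h5 (hJ (Ideal.mul_mem_mul hN (Ideal.mul_mem_mul hu hu)))
  have h5 : (((u ^ 2 - a : ℤ)) : 𝓞 K) + ((2 * u : ℤ) : 𝓞 K) * S ∈
      Ideal.span {((r : ℤ) : 𝓞 K)} := by
    have e : (((u ^ 2 - a : ℤ)) : 𝓞 K) + ((2 * u : ℤ) : 𝓞 K) * S =
        (S + (u : 𝓞 K)) * (S + (u : 𝓞 K)) := by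
      have e3 := hQ.sq
      push_cast
      linear_combination (-1 : 𝓞 K) * e3
    rw [e]
    exact h4
  obtain ⟨h6, h7⟩ := mem_r hQ h5
  have h8 : (r : ℤ) ∣ u := (hrp.dvd_or_dvd h7).resolve_left hr2'
  have h9 : (r : ℤ) ∣ a := by
    have e : (a : ℤ) = u ^ 2 - (u ^ 2 - a) := by ring
    rw [e]
    exact dvd_sub (dvd_pow h8 two_ne_zero) h6
  have h10 : r ∣ a := by exact_mod_cast h9
  have h11 := Nat.Coprime.eq_one_of_dvd hra h10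
  exact hr.one_lt.ne' h11

private theorem odd_xy {a : ℕ} {x y : ℤ} (ha : a % 8 = 6) (h : (x ^ 2 + a * y ^ 2) % 8 = 7) :
    Odd x ∧ Odd y := by
  obtain ⟨k, hk⟩ : ∃ k : ℤ, (a : ℤ) = 2 * k := ⟨((a / 2 : ℕ) : ℤ), by omega⟩
  rw [hk] at h
  have hx : Odd x := by
    by_contra hx
    rw [Int.not_odd_iff_even] at hx
    obtain ⟨x', rfl⟩ := hx
    have e : (x' + x') ^ 2 + 2 * k * y ^ 2 = 2 * (2 * x' ^ 2 + k * y ^ 2) := by ring
    rw [e] at h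
    omega
  refine ⟨hx, ?_⟩
  by_contra hy
  rw [Int.not_odd_iff_even] at hy
  obtain ⟨y', rfl⟩ := hy
  obtain ⟨x', rfl⟩ := hx
  obtain ⟨m, hm⟩ := Int.even_mul_succ_self x'
  have e : (2 * x' + 1) ^ 2 + 2 * k * (y' + y') ^ 2 = 4 * (x' * (x' + 1)) + 1 +
      8 * (k * y' ^ 2) := by ring
  rw [e, hm] at h
  omega

private theorem odd_x7 {a : ℕ} {x y : ℤ} (ha : a % 8 = 6) (h : (x ^ 2 + a * y ^ 2) % 2 = 1) :
    Odd x := by
  obtain ⟨k, hk⟩ : ∃ k : ℤ, (a : ℤ) = 2 * k := ⟨((a / 2 : ℕ) : ℤ), by omega⟩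
  rw [hk] at h
  by_contra hx
  rw [Int.not_odd_iff_even] at hx
  obtain ⟨x', rfl⟩ := hx
  have e : (x' + x') ^ 2 + 2 * k * y ^ 2 = 2 * (2 * x' ^ 2 + k * y ^ 2) := by ring
  rw [e] at h
  omega

private theorem odd_n7 {n a : ℕ} (h : Nat.Coprime n (2 * a)) : n % 2 = 1 := by
  have h1 : Nat.Coprime n 2 := Nat.Coprime.coprime_dvd_right (dvd_mul_right _ _) h
  have h2 := Nat.coprime_two_right.1 h1
  exact Nat.odd_iff.1 h2

private theorem ne_zero7 {K : Type*} [Field K] [NumberField K] {a : ℕ} {c : Ideal (𝓞 K)}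
    (h : Nat.Coprime (Ideal.absNorm c) (2 * a)) : c ≠ 0 := by
  rintro rfl
  have h1 := odd_n7 h
  rw [map_zero] at h1
  norm_num at h1

theorem exists_elp7 {K : Type*} [Field K] [NumberField K] {a : ℕ} {s : K} (hb : B6 K a s)
    {S : 𝓞 K} (hS : algebraMap (𝓞 K) K S = s) {τ : 𝓞 K ≃+* 𝓞 K} (hτ : τ S = -S)
    {p : ℕ} (hp : p.Prime) (hp2 : p ≠ 2) (hpa : p ∣ a) {c0 : Ideal (𝓞 K)}
    (hcc : Nat.Coprime (Ideal.absNorm c0) (2 * a)) {u : ℤ}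
    (hu : S - (u : 𝓞 K) ∈ c0) (hk : cls c0 * cls c0 = cls (r6 S p)) :
    ∃ x y : ℤ, Odd x ∧ IsCoprime x y ∧ (p : ℤ) ∣ x ∧
      x ^ 2 + a * y ^ 2 = p * (Ideal.absNorm c0 : ℤ) ^ 2 := by
  have hQ := q6 hb hS
  obtain ⟨n, hn⟩ : ∃ n, n = Ideal.absNorm c0 := ⟨_, rfl⟩
  have hp0 : p ≠ 0 := hp.ne_zero
  have hb0 : r6 S p ≠ 0 := by
    intro h0
    have h1 := norm_r6 hb hS hpa
    rw [h0, map_zero] at h1
    exact hp0 h1.symm
  have hc0 : c0 ≠ 0 := ne_zero7 hcc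
  obtain ⟨hcj0, hcj⟩ := cls_cj hb hS hτ hc0
  obtain ⟨cc1, -, -⟩ := norm_cj6 hb hS hτ c0
  have hSu : S + (u : 𝓞 K) ∈ cj τ c0 := by
    have h5 := Ideal.mem_map_of_mem (τ : 𝓞 K →+* 𝓞 K) hu
    have h6 : (τ : 𝓞 K →+* 𝓞 K) (S - (u : 𝓞 K)) = -(S + (u : 𝓞 K)) := by
      rw [map_sub, map_intCast]
      have : (τ : 𝓞 K →+* 𝓞 K) S = -S := hτ
      rw [this]
      ring
    rw [h6] at h5
    exact neg_mem_iff.1 h5
  obtain ⟨γ, -, hγ⟩ := prin_of_cls (b := r6 S p * (cj τ c0 * cj τ c0))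
    (mul_ne_zero hb0 (mul_ne_zero hcj0 hcj0))
    (by rw [cls_mul hb0 (mul_ne_zero hcj0 hcj0), cls_mul hcj0 hcj0, hcj, ← hk, ← mul_inv,
          mul_inv_cancel])
  obtain ⟨x, y, hxy⟩ := hQ.coords γ
  have hnorm : x ^ 2 + (a : ℤ) * y ^ 2 = ((p * (n * n) : ℕ) : ℤ) := by
    rw [← hQ.norm_gen x y, ← hxy, ← hγ, map_mul, map_mul, cc1, norm_r6 hb hS hpa, hn]
  have hn8 : n % 2 = 1 := by rw [hn]; exact odd_n7 hcc
  have hNn8 : (p * (n * n)) % 2 = 1 := by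
    have hp1 : p % 2 = 1 := Nat.odd_iff.1 (hp.odd_of_ne_two hp2)
    rw [Nat.mul_mod, Nat.mul_mod n, hp1, hn8]
  have hxo : Odd x := by
    apply odd_x7 hb.mod (y := y)
    rw [hnorm]
    exact_mod_cast hNn8
  have hpZ : Prime (p : ℤ) := Nat.prime_iff_prime_int.1 hp
  have hpx : (p : ℤ) ∣ x := by
    have h1 : (p : ℤ) ∣ x ^ 2 := by
      have h2 : (p : ℤ) ∣ (a : ℤ) := Int.natCast_dvd_natCast.2 hpa
      have h3 : x ^ 2 = ((p * (n * n) : ℕ) : ℤ) - (a : ℤ) * y ^ 2 := by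
        rw [← hnorm]
        ring
      rw [h3]
      refine dvd_sub ?_ (h2.mul_right _)
      rw [Nat.cast_mul]
      exact dvd_mul_right _ _
    exact hpZ.dvd_of_dvd_pow h1
  refine ⟨x, y, hxo, ?_, hpx, ?_⟩
  swap
  · rw [hnorm, ← hn]
    push_cast
    ring
  rw [Int.isCoprime_iff_gcd_eq_one]
  by_contra hcon
  obtain ⟨r, hr, hrd⟩ := Nat.exists_prime_and_dvd hcon
  have hrx : (r : ℤ) ∣ x := (Int.natCast_dvd_natCast.2 hrd).trans (Int.gcd_dvd_left ..)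
  have hry : (r : ℤ) ∣ y := (Int.natCast_dvd_natCast.2 hrd).trans (Int.gcd_dvd_right ..)
  have hr2 : r ≠ 2 := by
    rintro rfl
    exact (Int.not_even_iff_odd.2 hxo) (even_iff_two_dvd.2 (by exact_mod_cast hrx))
  have hrn : r ∣ n := by
    by_contra h1
    have h2 : (r : ℤ) ^ 2 ∣ ((p * (n * n) : ℕ) : ℤ) := by
      rw [← hnorm]
      exact dvd_add (pow_dvd_pow_of_dvd hrx 2) ((pow_dvd_pow_of_dvd hry 2).mul_left _)
    have h3 : r ^ 2 ∣ p * (n * n) := by exact_mod_cast h2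
    have h4 : Nat.Coprime r n := (Nat.Prime.coprime_iff_not_dvd hr).2 h1
    have h5 : Nat.Coprime (r ^ 2) (n * n) := Nat.Coprime.mul_right (h4.pow_left 2) (h4.pow_left 2)
    have h6 : r ^ 2 ∣ p := h5.dvd_of_dvd_mul_right h3
    have h7 : r ∣ p := (dvd_pow_self r two_ne_zero).trans h6
    have h8 : r = p := (Nat.prime_dvd_prime_iff_eq hr hp).1 h7
    rw [h8] at h6
    have h9 := Nat.le_of_dvd hp.pos h6
    have h10 := hp.two_le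
    nlinarith
  have hra : Nat.Coprime r a := by
    rw [hn] at hrn
    exact Nat.Coprime.coprime_dvd_right (dvd_mul_left _ _) (Nat.Coprime.coprime_dvd_left hrn hcc)
  have hJr : r6 S p * (cj τ c0 * cj τ c0) ≤ Ideal.span {((r : ℤ) : 𝓞 K)} := by
    rw [hγ, Ideal.span_singleton_le_iff_mem, Ideal.mem_span_singleton, hxy]
    obtain ⟨x', rfl⟩ := hrx
    obtain ⟨y', rfl⟩ := hry
    refine ⟨(x' : 𝓞 K) + (y' : 𝓞 K) * S, ?_⟩
    push_cast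
    ring
  have mb' : (((p : ℕ) : ℤ) : 𝓞 K) ∈ r6 S p := by
    have h8 := Ideal.absNorm_mem (r6 S p)
    rw [norm_r6 hb hS hpa] at h8
    rw [Int.cast_natCast]
    exact h8
  exact case_n hQ hr hr2 mb' hSu hJr (Nat.Coprime.coprime_dvd_right hpa hra) hra

theorem exists_elq7 {K : Type*} [Field K] [NumberField K] {a : ℕ} {s : K} (hb : B6 K a s)
    {S : 𝓞 K} (hS : algebraMap (𝓞 K) K S = s) {τ : 𝓞 K ≃+* 𝓞 K} (hτ : τ S = -S)
    {b c0 : Ideal (𝓞 K)} (hb8 : Ideal.absNorm b % 8 = 7)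
    (hbc : Nat.Coprime (Ideal.absNorm b) (2 * a)) {t : ℤ} (ht : S - (t : 𝓞 K) ∈ b)
    (hcc : Nat.Coprime (Ideal.absNorm c0) (2 * a * Ideal.absNorm b)) {u : ℤ}
    (hu : S - (u : 𝓞 K) ∈ c0) (hk : cls c0 * cls c0 = cls b) :
    ∃ x y : ℤ, Odd x ∧ Odd y ∧ IsCoprime x y ∧
      x ^ 2 + a * y ^ 2 = (Ideal.absNorm b : ℤ) * (Ideal.absNorm c0 : ℤ) ^ 2 ∧
      ((Ideal.absNorm b : ℕ) : ℤ) ∣ x + t * y := by
  have hQ := q6 hb hS
  have hb0 : b ≠ 0 := by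
    rintro rfl
    rw [map_zero] at hb8
    norm_num at hb8
  have hcc2 : Nat.Coprime (Ideal.absNorm c0) (2 * a) :=
    Nat.Coprime.coprime_dvd_right (dvd_mul_right _ _) hcc
  have hc0 : c0 ≠ 0 := ne_zero7 hcc2
  obtain ⟨hcj0, hcj⟩ := cls_cj hb hS hτ hc0
  obtain ⟨cc1, -, -⟩ := norm_cj6 hb hS hτ c0
  have hSu : S + (u : 𝓞 K) ∈ cj τ c0 := by
    have h5 := Ideal.mem_map_of_mem (τ : 𝓞 K →+* 𝓞 K) hu
    have h6 : (τ : 𝓞 K →+* 𝓞 K) (S - (u : 𝓞 K)) = -(S + (u : 𝓞 K)) := by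
      rw [map_sub, map_intCast]
      have : (τ : 𝓞 K →+* 𝓞 K) S = -S := hτ
      rw [this]
      ring
    rw [h6] at h5
    exact neg_mem_iff.1 h5
  obtain ⟨γ, -, hγ⟩ := prin_of_cls (b := b * (cj τ c0 * cj τ c0))
    (mul_ne_zero hb0 (mul_ne_zero hcj0 hcj0))
    (by rw [cls_mul hb0 (mul_ne_zero hcj0 hcj0), cls_mul hcj0 hcj0, hcj, ← hk, ← mul_inv,
          mul_inv_cancel])
  obtain ⟨x, y, hxy⟩ := hQ.coords γ
  have hnorm : x ^ 2 + (a : ℤ) * y ^ 2 =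
      ((Ideal.absNorm b * (Ideal.absNorm c0 * Ideal.absNorm c0) : ℕ) : ℤ) := by
    rw [← hQ.norm_gen x y, ← hxy, ← hγ, map_mul, map_mul, cc1]
  have hNn8 : (Ideal.absNorm b * (Ideal.absNorm c0 * Ideal.absNorm c0)) % 8 = 7 := by
    have h1 := odd_n7 hcc2
    have h2 : (Ideal.absNorm c0 * Ideal.absNorm c0) % 8 = 1 := by
      have h3 : Ideal.absNorm c0 % 8 = 1 ∨ Ideal.absNorm c0 % 8 = 3 ∨ Ideal.absNorm c0 % 8 = 5 ∨
          Ideal.absNorm c0 % 8 = 7 := by omega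
      rcases h3 with h3 | h3 | h3 | h3 <;> rw [Nat.mul_mod, h3]
    rw [Nat.mul_mod, hb8, h2]
  obtain ⟨hxo, hyo⟩ : Odd x ∧ Odd y := by
    apply odd_xy hb.mod
    rw [hnorm]
    exact_mod_cast hNn8
  have hγJ : γ ∈ b * (cj τ c0 * cj τ c0) := by
    rw [hγ]
    exact Ideal.mem_span_singleton_self γ
  have hγb : γ ∈ b := Ideal.mul_le_left hγJ
  have hNt : ((Ideal.absNorm b : ℕ) : ℤ) ∣ x + t * y := by
    apply int_mem6 hb hS ht
    have h6 : ((x + t * y : ℤ) : 𝓞 K) = γ - (y : 𝓞 K) * (S - (t : 𝓞 K)) := by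
      rw [hxy, Int.cast_add, Int.cast_mul]
      ring
    rw [h6]
    exact Ideal.sub_mem _ hγb (Ideal.mul_mem_left _ _ ht)
  refine ⟨x, y, hxo, hyo, ?_, by rw [hnorm]; push_cast; ring, hNt⟩
  rw [Int.isCoprime_iff_gcd_eq_one]
  by_contra hcon
  obtain ⟨r, hr, hrd⟩ := Nat.exists_prime_and_dvd hcon
  have hrx : (r : ℤ) ∣ x := (Int.natCast_dvd_natCast.2 hrd).trans (Int.gcd_dvd_left ..)
  have hry : (r : ℤ) ∣ y := (Int.natCast_dvd_natCast.2 hrd).trans (Int.gcd_dvd_right ..)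
  have hr2 : r ≠ 2 := by
    rintro rfl
    exact (Int.not_even_iff_odd.2 hxo) (even_iff_two_dvd.2 (by exact_mod_cast hrx))
  have hrNn : r ∣ Ideal.absNorm b ∨ r ∣ Ideal.absNorm c0 := by
    have h4 : (r : ℤ) ∣ ((Ideal.absNorm b * (Ideal.absNorm c0 * Ideal.absNorm c0) : ℕ) : ℤ) := by
      rw [← hnorm]
      exact dvd_add (dvd_pow hrx two_ne_zero) ((dvd_pow hry two_ne_zero).mul_left _)
    have h5 : r ∣ Ideal.absNorm b * (Ideal.absNorm c0 * Ideal.absNorm c0) := by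
      exact_mod_cast h4
    rcases (Nat.Prime.dvd_mul hr).1 h5 with h6 | h6
    · exact Or.inl h6
    · rcases (Nat.Prime.dvd_mul hr).1 h6 with h7 | h7
      · exact Or.inr h7
      · exact Or.inr h7
  have hra : Nat.Coprime r a := by
    have h5 : Nat.Coprime r (2 * a) := by
      rcases hrNn with h4 | h4
      · exact Nat.Coprime.coprime_dvd_left h4 hbc
      · exact Nat.Coprime.coprime_dvd_left h4
          (Nat.Coprime.coprime_dvd_right (dvd_mul_right _ _) hcc)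
    exact Nat.Coprime.coprime_dvd_right (dvd_mul_left _ _) h5
  have hJr : b * (cj τ c0 * cj τ c0) ≤ Ideal.span {((r : ℤ) : 𝓞 K)} := by
    rw [hγ, Ideal.span_singleton_le_iff_mem, Ideal.mem_span_singleton, hxy]
    obtain ⟨x', rfl⟩ := hrx
    obtain ⟨y', rfl⟩ := hry
    refine ⟨(x' : 𝓞 K) + (y' : 𝓞 K) * S, ?_⟩
    push_cast
    ring
  have hNn : Nat.Coprime (Ideal.absNorm c0) (Ideal.absNorm b) :=
    Nat.Coprime.coprime_dvd_right (dvd_mul_left _ _) hcc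
  have mb' : (((Ideal.absNorm b : ℕ) : ℤ) : 𝓞 K) ∈ b := by
    rw [Int.cast_natCast]
    exact Ideal.absNorm_mem b
  have mC' : (((Ideal.absNorm c0 : ℕ) : ℤ) : 𝓞 K) ∈ cj τ c0 := by
    have h8 := Ideal.absNorm_mem (cj τ c0)
    rw [cc1] at h8
    rw [Int.cast_natCast]
    exact h8
  rcases hrNn with hrN | hrn
  · exact case_N hQ hr mC' ht hJr (Nat.Coprime.coprime_dvd_left hrN hNn.symm)
  · exact case_n hQ hr hr2 mb' hSu hJr (Nat.Coprime.coprime_dvd_left hrn hNn) hra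

end Pool.Agent.Work.MP_8efaaa_nt.Q7
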