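import Mathlib
import Pool.Agent.Work.MP_8efaaa_nt.Q7.Defs
import Pool.Agent.Work.MP_8efaaa_nt.W6.CPr

/-!
# Q7/Prm (S): primitive representatives of a class

Copy `cpr6_prim`, `cpr6_min` from `W6/CPr.lean` (private there; this is exactly `cpr6_min`). `exists_cop` is in `W14/CCo.lean`.
-/

set_option autoImplicit false

namespace Pool.Agent.Work.MP_8efaaa_nt.Q7

open NumberField Pool.Agent.Work.MP_8efaaa_nt.R Pool.Agent.Work.MP_8efaaa_nt.N5
  Pool.Agent.Work.MP_8efaaa_nt.K6 Pool.Agent.Work.MP_8efaaa_nt.W14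
  Pool.Agent.Work.MP_8efaaa_nt.W6
open scoped Classical nonZeroDivisors

section
variable {K : Type*} [Field K] [NumberField K] {a : ℕ} {s : K} {S : 𝓞 K}

private theorem cpr7_prim (hb : B6 K a s) (hS : algebraMap (𝓞 K) K S = s) {v : Ideal (𝓞 K)}
    (hmin : ∀ (w : Ideal (𝓞 K)) (c0 : ℤ), v = Ideal.span {(c0 : 𝓞 K)} * w → c0.natAbs = 1) :
    ∃ x : ℤ, (x : 𝓞 K) + S ∈ v := by
  let J : Ideal ℤ :=
    { carrier := {y | ∃ x : ℤ, (x : 𝓞 K) + (y : 𝓞 K) * S ∈ v}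
      zero_mem' := ⟨0, by simp⟩
      add_mem' := by
        rintro y1 y2 ⟨x1, h1⟩ ⟨x2, h2⟩
        refine ⟨x1 + x2, ?_⟩
        have h3 := v.add_mem h1 h2
        convert h3 using 1
        push_cast
        ring
      smul_mem' := by
        rintro k y ⟨x, h⟩
        refine ⟨k * x, ?_⟩
        have h3 := v.mul_mem_left (k : 𝓞 K) h
        convert h3 using 1
        simp only [smul_eq_mul]
        push_cast
        ring }
  obtain ⟨c0, hc0⟩ := (IsPrincipalIdealRing.principal J).principal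
  have hmem : ∀ y : ℤ, (∃ x : ℤ, (x : 𝓞 K) + (y : 𝓞 K) * S ∈ v) ↔ c0 ∣ y := by
    intro y
    have h1 : y ∈ J ↔ c0 ∣ y := by
      rw [hc0]
      exact Ideal.mem_span_singleton
    exact h1
  have hdiv : v ≤ Ideal.span {(c0 : 𝓞 K)} := by
    intro g hg
    obtain ⟨x, y, rfl⟩ := (q6 hb hS).coords g
    have h1 : c0 ∣ y := (hmem y).1 ⟨x, hg⟩
    have h2 : c0 ∣ x := by
      refine (hmem x).1 ⟨-a * y, ?_⟩
      have h3 := v.mul_mem_left S hg
      convert h3 using 1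
      have hsq : S * S = -(a : 𝓞 K) := (q6 hb hS).sq
      push_cast
      linear_combination (-(y : 𝓞 K)) * hsq
    rw [Ideal.mem_span_singleton]
    obtain ⟨y', rfl⟩ := h1
    obtain ⟨x', rfl⟩ := h2
    exact ⟨x' + y' * S, by push_cast; ring⟩
  obtain ⟨w, hw⟩ := Ideal.dvd_iff_le.2 hdiv
  have h0 := hmin w c0 hw
  have h1 : c0 ∣ 1 := by
    rw [← Int.natAbs_dvd_natAbs, h0]
    norm_num
  obtain ⟨x, hx⟩ := (hmem 1).2 h1
  exact ⟨x, by simpa using hx⟩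

private theorem cpr7_min (hb : B6 K a s) (hS : algebraMap (𝓞 K) K S = s)
    (C : ClassGroup (𝓞 K)) {M : ℕ} (hM : M ≠ 0) :
    ∃ (c : Ideal (𝓞 K)) (u : ℤ), c ≠ 0 ∧ Nat.Coprime (Ideal.absNorm c) M ∧
      S - (u : 𝓞 K) ∈ c ∧ cls c = C := by
  have hex : ∃ n : ℕ, ∃ v : Ideal (𝓞 K), v ≠ 0 ∧ Nat.Coprime (Ideal.absNorm v) M ∧
      cls v = C ∧ Ideal.absNorm v = n := by
    obtain ⟨v, h1, h2, h3⟩ := exists_cop C hM
    exact ⟨_, v, h1, h2, h3, rfl⟩
  obtain ⟨v, h1, h2, h3, h4⟩ := Nat.find_spec hex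
  have hmin : ∀ w : Ideal (𝓞 K), w ≠ 0 → Nat.Coprime (Ideal.absNorm w) M →
      cls w = C → Ideal.absNorm v ≤ Ideal.absNorm w := by
    intro w h5 h6 h7
    rw [h4]
    exact Nat.find_min' hex ⟨w, h5, h6, h7, rfl⟩
  obtain ⟨x, hx⟩ := cpr7_prim hb hS (v := v) (by
    intro w c0 hw
    have hw0 : w ≠ 0 := by
      rintro rfl
      exact h1 (by rw [hw, mul_zero])
    have hc0 : (c0 : 𝓞 K) ≠ 0 := by
      intro h0
      apply h1
      rw [hw, h0]
      have h5 : Ideal.span {(0 : 𝓞 K)} = (0 : Ideal (𝓞 K)) := Ideal.span_singleton_eq_bot.2 rfl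
      rw [h5, zero_mul]
    have hs0 : Ideal.span {(c0 : 𝓞 K)} ≠ (0 : Ideal (𝓞 K)) := by
      intro h
      exact hc0 (Ideal.span_singleton_eq_bot.1 h)
    have hcl : cls w = C := by
      rw [← h3, hw, cls_mul hs0 hw0, cls_span hc0, one_mul]
    have hnm : Ideal.absNorm v = Ideal.absNorm (Ideal.span {(c0 : 𝓞 K)}) * Ideal.absNorm w := by
      rw [← map_mul, ← hw]
    have hcop : Nat.Coprime (Ideal.absNorm w) M :=
      Nat.Coprime.coprime_dvd_left (by rw [hnm]; exact Dvd.intro_left _ rfl) h2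
    have hmm := hmin w hw0 hcop hcl
    have hpos : 0 < Ideal.absNorm w :=
      Nat.pos_of_ne_zero fun h => hw0 (Ideal.absNorm_eq_zero_iff.1 h)
    have hpos2 : 0 < Ideal.absNorm (Ideal.span {(c0 : 𝓞 K)}) :=
      Nat.pos_of_ne_zero fun h => hs0 (Ideal.absNorm_eq_zero_iff.1 h)
    have hone : Ideal.absNorm (Ideal.span {(c0 : 𝓞 K)}) = 1 := by
      rw [hnm] at hmm
      by_contra hne
      have h5 : 2 ≤ Ideal.absNorm (Ideal.span {(c0 : 𝓞 K)}) := by omega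
      nlinarith
    have h5 := (q6 hb hS).norm_gen c0 0
    have e : (c0 : 𝓞 K) + ((0 : ℤ) : 𝓞 K) * S = (c0 : 𝓞 K) := by push_cast; ring
    rw [e, hone] at h5
    have h6 : c0 ^ 2 = 1 := by
      push_cast at h5
      linarith
    rcases sq_eq_sq_iff_eq_or_eq_neg.1 (h6.trans (one_pow 2).symm) with h7 | h7 <;> rw [h7] <;> rfl)
  refine ⟨v, -x, h1, h2, ?_, h3⟩
  have e : S - ((-x : ℤ) : 𝓞 K) = (x : 𝓞 K) + S := by
    push_cast
    ring
  rw [e]
  exact hx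

end

theorem exists_prim7 {K : Type*} [Field K] [NumberField K] {a : ℕ} {s : K} {S : 𝓞 K}
    (hb : B6 K a s) (hS : algebraMap (𝓞 K) K S = s) (C : ClassGroup (𝓞 K)) {M : ℕ}
    (hM : M ≠ 0) :
    ∃ (c : Ideal (𝓞 K)) (u : ℤ), c ≠ 0 ∧ Nat.Coprime (Ideal.absNorm c) M ∧
      S - (u : 𝓞 K) ∈ c ∧ cls c = C := by
  exact cpr7_min hb hS C hM

end Pool.Agent.Work.MP_8efaaa_nt.Q7
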