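import Mathlib
import Pool.Agent.Work.MP_8efaaa_nt.Q7.Defs
import Pool.Agent.Work.MP_8efaaa_nt.W6.SDir

/-!
# Q7/SLb (M): the symbol at the primes `3` and `5` modulo `8`

MODEL: `W6/SLb.lean` (copy and adapt; there `-2` in place of `2`). Checked by computer.
PROOF. Notation of `Q7/SLa.lean`: `i`, `r^2 = 2`, `B = u + v r`, `w = -t + 2 v i`, `t^2 = 2 u^2 - 4 v^2`, `nmG ω = 2 u^2 y^2 ≠ 0`, `Z = r u + 2 v + i t`, `Z^2 = -2 r i B w`. `r^l = -r`, `B^l = u - v r`, `B^(l+1) = -m`, `(B^((l+1)/2) r)^2 = -2m = t^2`, so `B^((l+1)/2) r = c t`, `c = ±1`, the same `c` for `-r` (Frobenius), so `nuR = c` (definition; `l ∣ ⟨u,v⟩^((l+1)/2) * ⟨0,1⟩ - c t` in `ℤ√2`).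
CASE `l = 8 a + 5`: `i^l = i`, `Z^l = -ru + 2v + it`, `Z^(l+1) = (2v+it)^2 - 2u^2 = 2 t w`. `(-2ri)^(4a+3) = -2 i r 2^(2a+1)` (`2^(4a+2) = -1`, `r^(4a+3) = r 2^(2a+1)`). So `-2 i r 2^(2a+1) B^(4a+3) w^(4a+3) = 2 t w`, with `B^(4a+3) r = c t`: `-i 2^(2a+1) c w^(4a+2) = 1`. `QX.f1`: `w^(4a+2) 2^(2a+1) (u/l) g(X l) = 1`. Hence `g(X l) = -i c (u/l)`.
CASE `l = 8 a + 3`: `i^l = -i`, `Z^l = -ru + 2v - it`, `Z^(l+1) = (2v)^2 - (ru+it)^2 = -2 r u i t`. `(-2ri)^(4a+2) = 2 * 2^(2a+1)` (`2^(4a+2) = -2`). So `2 * 2^(2a+1) B^(4a+2) w^(4a+2) = -2ruit`; times `r`, `B^(4a+2) r = c t`: `2^(2a+1) c w^(4a+2) = -2 u i`. `QX.f3` (`(l+1)/4 = 2a+1`): `w^(4a+2) 2^(2a+1) (u/l) = 2 u g(X(-l))`. Hence `c (u/l) g(X(-l)) = -i`.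
END. In both cases `g(X(l*)) = -i c (u/l)`, and `X(l*)` is a fourth root of unity (`QX.four`), so `X(l*) = -I c (u/l)`.
-/

set_option autoImplicit false

namespace Pool.Agent.Work.MP_8efaaa_nt.Q7

open Pool.Agent.Work.MP_8efaaa_nt.W6

private theorem s35_leg {l : ℕ} [Fact l.Prime] (k : Type) [Field k] [CharP k l] (a : ℤ) :
    ((jacobiSym a l : ℤ) : k) = (a : k) ^ (l / 2) := by
  have h := legendreSym.eq_pow l a
  rw [jacobiSym.legendreSym.to_jacobiSym] at h
  have h2 := congrArg (ZMod.castHom (dvd_refl l) k) h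
  rw [map_intCast, map_pow, map_intCast] at h2
  exact h2

private theorem s35_two {l : ℕ} [Fact l.Prime] (k : Type) [Field k] [CharP k l]
    (h8 : l % 8 = 3 ∨ l % 8 = 5) : (2 : k) ^ (l / 2) = -1 := by
  have h := s35_leg (l := l) k 2
  push_cast at h
  rw [← h]
  have h1 : Odd l := Nat.odd_iff.2 (by omega)
  rw [jacobiSym.at_two h1, ZMod.χ₈_nat_eq_if_mod_eight, if_neg (by omega), if_neg (by omega)]
  simp

private theorem s35_fermat {l : ℕ} [Fact l.Prime] (k : Type) [Field k] [CharP k l] (a : ℤ) :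
    (a : k) ^ l = a := by
  have h := map_intCast (frobenius k l) a
  rw [frobenius_def] at h
  exact h

private theorem s35_core {u v x y t : ℤ} {l : ℕ} [hF : Fact l.Prime]
    (h8 : l % 8 = 3 ∨ l % 8 = 5) {X : ℤ → GaussianInt} (hX : QX ⟨x, 2 * v * y⟩ X)
    (ht : (l : ℤ) ∣ t ^ 2 + 2 * (2 * v ^ 2 - u ^ 2)) (hxt : (l : ℤ) ∣ x + t * y)
    (hy : ¬ (l : ℤ) ∣ y) (hu : ¬ (l : ℤ) ∣ u) (hm : ¬ (l : ℤ) ∣ 2 * v ^ 2 - u ^ 2)
    (k : Type) [Field k] [CharP k l] (g : GaussianInt →+* k) (i r : k)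
    (hg : g ⟨x, 2 * v * y⟩ = x + 2 * v * y * i) (hi : i ^ 2 = -1) (hr : r ^ 2 = 2) :
    (nmG ⟨x, 2 * v * y⟩ : k) ≠ 0 ∧ (t : k) ≠ 0 ∧ (2 : k) ≠ 0 ∧
    (g (X (if l % 4 = 1 then l else -l))) ^ 2 = -1 ∧
    r * ((u : k) + v * r) ^ ((l + 1) / 2) =
      i * t * (jacobiSym u l : ℤ) * g (X (if l % 4 = 1 then l else -l)) := by
  have hl : l.Prime := hF.out
  have hT : (t : k) ^ 2 = 2 * u ^ 2 - 4 * v ^ 2 := by
    have h := (CharP.intCast_eq_zero_iff k l _).2 ht
    push_cast at h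
    linear_combination h
  have hx : (x : k) = -(t * y) := by
    have h := (CharP.intCast_eq_zero_iff k l _).2 hxt
    push_cast at h
    linear_combination h
  have hyk : (y : k) ≠ 0 := fun h => hy ((CharP.intCast_eq_zero_iff k l _).1 h)
  have huk : (u : k) ≠ 0 := fun h => hu ((CharP.intCast_eq_zero_iff k l _).1 h)
  have hmk : 2 * (v : k) ^ 2 - u ^ 2 ≠ 0 := fun h => hm (by
    apply (CharP.intCast_eq_zero_iff k l _).1
    push_cast
    exact h)
  have h2k : (2 : k) ≠ 0 := by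
    intro h
    have h1 : ((2 : ℤ) : k) = 0 := by
      push_cast
      exact h
    have h2 := (CharP.intCast_eq_zero_iff k l _).1 h1
    have h3 : l ∣ 2 := by exact_mod_cast h2
    have h4 := Nat.le_of_dvd (by norm_num) h3
    omega
  have htk : (t : k) ≠ 0 := by
    intro h
    rw [h] at hT
    have h1 : (2 : k) * (2 * v ^ 2 - u ^ 2) = 0 := by
      linear_combination hT
    exact (mul_ne_zero h2k hmk) h1
  have hN : (nmG ⟨x, 2 * v * y⟩ : k) = 2 * u ^ 2 * y ^ 2 := by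
    unfold nmG
    push_cast
    rw [hx]
    linear_combination (y : k) ^ 2 * hT
  have hN0 : (nmG ⟨x, 2 * v * y⟩ : k) ≠ 0 := by
    rw [hN]
    exact mul_ne_zero (mul_ne_zero h2k (pow_ne_zero _ huk)) (pow_ne_zero _ hyk)
  have hNd : ¬ (l : ℤ) ∣ nmG ⟨x, 2 * v * y⟩ := fun h =>
    hN0 ((CharP.intCast_eq_zero_iff k l _).2 h)
  refine ⟨hN0, htk, h2k, ?_⟩
  have hgW : g ⟨x, 2 * v * y⟩ = y * (-t + 2 * v * i) := by
    rw [hg, hx]
    ring
  have hW0 : -(t : k) + 2 * v * i ≠ 0 := by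
    intro h
    have h1 : (-(t : k) + 2 * v * i) * (-t - 2 * v * i) = 2 * u ^ 2 := by
      linear_combination hT - 4 * (v : k) ^ 2 * hi
    rw [h, zero_mul] at h1
    exact (mul_ne_zero h2k (pow_ne_zero 2 huk)) h1.symm
  have hJu : ((jacobiSym u l : ℤ) : k) = (u : k) ^ (l / 2) := s35_leg k u
  have hJ2 : ((jacobiSym u l : ℤ) : k) ^ 2 = 1 := by
    rw [hJu, ← pow_mul]
    have h1 : l / 2 * 2 + 1 = l := by omega
    have h2 : (u : k) * (u : k) ^ (l / 2 * 2) = (u : k) * 1 := by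
      rw [← pow_succ', h1, s35_fermat, mul_one]
    exact mul_left_cancel₀ huk h2
  have hZ2 : (r * u + 2 * v + i * t) ^ 2 =
      (-(2 * r * i)) * (u + v * r) * (-t + 2 * v * i) := by
    linear_combination (i ^ 2) * hT + (u ^ 2 - 2 * v * i * t + 4 * (v : k) ^ 2 * i ^ 2) * hr +
      (2 * (u : k) ^ 2 + 4 * v ^ 2 + 4 * r * u * v) * hi
  have hfrZ : (r * u + 2 * v + i * t) ^ l = r ^ l * u + 2 * v + i ^ l * t := by
    have h1 : frobenius k l (r * u + 2 * v + i * t) =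
        frobenius k l r * u + 2 * v + frobenius k l i * t := by
      simp only [map_add, map_mul, map_intCast, map_ofNat]
    simpa only [frobenius_def] using h1
  have hfrB : ((u : k) + v * r) ^ l = u + v * r ^ l := by
    have h1 : frobenius k l ((u : k) + v * r) = u + v * frobenius k l r := by
      simp only [map_add, map_mul, map_intCast]
    simpa only [frobenius_def] using h1
  have hZl : ((-(2 * r * i)) * (u + v * r) * (-t + 2 * v * i)) ^ ((l + 1) / 2) =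
      (r ^ l * u + 2 * v + i ^ l * t) * (r * u + 2 * v + i * t) := by
    rw [← hZ2, ← pow_mul, ← hfrZ, ← pow_succ]
    congr 1
    omega
  have hBl : (((u : k) + v * r) ^ ((l + 1) / 2)) ^ 2 =
      (u + v * r ^ l) * ((u : k) + v * r) := by
    rw [← pow_mul, ← hfrB, ← pow_succ]
    congr 1
    omega
  have h22 := s35_two (l := l) k h8
  have hrl : r ^ l = -r := by
    have h1 : l = 2 * (l / 2) + 1 := by omega
    calc r ^ l = r ^ (2 * (l / 2) + 1) := by rw [← h1]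
      _ = 2 ^ (l / 2) * r := by rw [pow_succ, pow_mul, hr]
      _ = -r := by rw [h22, neg_one_mul]
  have hil : i ^ l = (-1) ^ (l / 2) * i := by
    have h1 : l = 2 * (l / 2) + 1 := by omega
    calc i ^ l = i ^ (2 * (l / 2) + 1) := by rw [← h1]
      _ = (-1) ^ (l / 2) * i := by rw [pow_succ, pow_mul, hi]
  have hyl := s35_fermat (l := l) k y
  have h8ri : (-(2 * r * i)) ^ 2 = -((2 : k) ^ 3) := by
    linear_combination (4 * i ^ 2) * hr + 8 * hi
  rw [hrl] at hZl hBl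
  rcases h8 with h8 | h8
  · obtain ⟨a, ha⟩ : ∃ a, l = 8 * a + 3 := ⟨l / 8, by omega⟩
    have e1 : (l + 1) / 2 = 4 * a + 2 := by omega
    have e3 : (l + 1) / 4 = 2 * a + 1 := by omega
    have e4 : l / 2 = 4 * a + 1 := by omega
    have e5 : l % 4 = 3 := by omega
    have e6 : ¬ l % 4 = 1 := by omega
    have f := hX.f3 l hl e5 hNd k g
    rw [if_neg e6]
    rw [hgW, hN, e1, e3] at f
    rw [e1] at hZl hBl ⊢
    rw [e4] at hil hJu h22
    have hil' : i ^ l = -i := by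
      rw [hil]
      have h1 : Odd (4 * a + 1) := ⟨2 * a, by ring⟩
      rw [h1.neg_one_pow, neg_one_mul]
    rw [hil'] at hZl
    have hN2 : ((2 : k) ^ (2 * a + 1)) ^ 2 = -2 := by
      rw [← pow_mul]
      calc (2 : k) ^ ((2 * a + 1) * 2) = 2 ^ (4 * a + 1) * 2 := by
            rw [← pow_succ]
            congr 1
            ring
        _ = -2 := by rw [h22]; ring
    have hodd : Odd (2 * a + 1) := ⟨a, rfl⟩
    have hyp : (y : k) ^ (4 * a + 2) * (y ^ 2) ^ (2 * a + 1) = y ^ 2 := by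
      rw [← pow_mul, ← pow_add]
      calc (y : k) ^ (4 * a + 2 + 2 * (2 * a + 1)) = y ^ l * y := by
            rw [← pow_succ]
            congr 1
            omega
        _ = y ^ 2 := by rw [hyl, sq]
    have hup : ((u : k) ^ 2) ^ (2 * a + 1) = u * ((jacobiSym u l : ℤ) : k) := by
      rw [hJu, ← pow_mul, ← pow_succ']
      congr 1
      ring
    have K2 : (-(t : k) + 2 * v * i) ^ (4 * a + 2) * (2 : k) ^ (2 * a + 1) *
        ((jacobiSym u l : ℤ) : k) = 2 * u * g (X (-l)) := by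
      rw [mul_pow, mul_pow, mul_pow, hup] at f
      apply mul_left_cancel₀ (mul_ne_zero huk (pow_ne_zero 2 hyk))
      linear_combination f - (-(t : k) + 2 * v * i) ^ (4 * a + 2) * (2 : k) ^ (2 * a + 1) *
        (u * ((jacobiSym u l : ℤ) : k)) * hyp
    have K1 : ((2 : k) ^ (2 * a + 1)) ^ 3 * ((u : k) + v * r) ^ (4 * a + 2) *
        (-(t : k) + 2 * v * i) ^ (4 * a + 2) = 2 * r * u * i * t := by
      have h1 : (-(2 * r * i)) ^ (4 * a + 2) = -((2 : k) ^ (2 * a + 1)) ^ 3 := by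
        calc (-(2 * r * i)) ^ (4 * a + 2) = ((-(2 * r * i)) ^ 2) ^ (2 * a + 1) := by
              rw [← pow_mul]
              congr 1
              ring
          _ = -((2 : k) ^ (2 * a + 1)) ^ 3 := by
              rw [h8ri, hodd.neg_pow, ← pow_mul, ← pow_mul, mul_comm 3 (2 * a + 1)]
      rw [mul_pow, mul_pow, h1] at hZl
      linear_combination -hZl - hT + (u : k) ^ 2 * hr + (t : k) ^ 2 * hi
    generalize ((u : k) + v * r) ^ (4 * a + 2) = BP at *
    generalize (-(t : k) + 2 * v * i) ^ (4 * a + 2) = W' at *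
    generalize (2 : k) ^ (2 * a + 1) = N at *
    generalize g (X (-l)) = G at *
    generalize ((jacobiSym u l : ℤ) : k) = J at *
    have main : r * BP * G = -(i * t * J) := by
      apply mul_left_cancel₀ (mul_ne_zero (mul_ne_zero h2k h2k) huk)
      linear_combination -(r * J) * K1 + (N * r * J * BP * W') * hN2 - (2 * r * BP) * K2 -
        (2 * u * i * t * J) * hr
    have hB2 : BP ^ 2 = u ^ 2 - 2 * v ^ 2 := by
      rw [hBl]
      linear_combination -(v : k) ^ 2 * hr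
    have hG : G ^ 2 = -1 := by
      have h5 : (t : k) ^ 2 * (G ^ 2 + 1) = 0 := by
        have h6 : r ^ 2 * BP ^ 2 * G ^ 2 = i ^ 2 * t ^ 2 * J ^ 2 := by
          calc r ^ 2 * BP ^ 2 * G ^ 2 = (r * BP * G) ^ 2 := by ring
            _ = i ^ 2 * t ^ 2 * J ^ 2 := by rw [main]; ring
        rw [hr, hB2, hJ2, hi] at h6
        linear_combination h6 + (G ^ 2) * hT
      rcases mul_eq_zero.1 h5 with h6 | h6
      · exact absurd h6 (pow_ne_zero 2 htk)
      · linear_combination h6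
    refine ⟨hG, ?_⟩
    linear_combination (r * BP) * hG - G * main
  · obtain ⟨a, ha⟩ : ∃ a, l = 8 * a + 5 := ⟨l / 8, by omega⟩
    have e1 : (l + 1) / 2 = 4 * a + 3 := by omega
    have e2 : (l - 1) / 2 = 4 * a + 2 := by omega
    have e3 : (l - 1) / 4 = 2 * a + 1 := by omega
    have e4 : l / 2 = 4 * a + 2 := by omega
    have e5 : l % 4 = 1 := by omega
    have f := hX.f1 l hl e5 hNd k g
    rw [if_pos e5]
    rw [hgW, hN, e2, e3] at f
    rw [e1] at hZl hBl ⊢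
    rw [e4] at hil hJu h22
    have hil' : i ^ l = i := by
      rw [hil]
      have h1 : Even (4 * a + 2) := ⟨2 * a + 1, by ring⟩
      rw [h1.neg_one_pow, one_mul]
    rw [hil'] at hZl
    have hN2 : ((2 : k) ^ (2 * a + 1)) ^ 2 = -1 := by
      rw [← pow_mul, ← h22]
      congr 1
      ring
    have hodd : Odd (2 * a + 1) := ⟨a, rfl⟩
    have hyp : (y : k) ^ (4 * a + 2) * (y ^ 2) ^ (2 * a + 1) = 1 := by
      have h1 : (y : k) * (y ^ (4 * a + 2) * (y ^ 2) ^ (2 * a + 1)) = y * 1 := by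
        rw [← pow_mul, ← pow_add, ← pow_succ', mul_one]
        calc (y : k) ^ (4 * a + 2 + 2 * (2 * a + 1) + 1) = y ^ l := by
              congr 1
              omega
          _ = y := hyl
      exact mul_left_cancel₀ hyk h1
    have hup : ((u : k) ^ 2) ^ (2 * a + 1) = ((jacobiSym u l : ℤ) : k) := by
      rw [hJu, ← pow_mul]
      congr 1
      ring
    have K2 : (-(t : k) + 2 * v * i) ^ (4 * a + 2) * (2 : k) ^ (2 * a + 1) *
        ((jacobiSym u l : ℤ) : k) * g (X l) = 1 := by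
      rw [mul_pow, mul_pow, mul_pow, hup] at f
      linear_combination f - (-(t : k) + 2 * v * i) ^ (4 * a + 2) * ((2 : k) ^ (2 * a + 1)) *
        ((jacobiSym u l : ℤ) : k) * g (X l) * hyp
    have K1 : 2 * r * i * ((2 : k) ^ (2 * a + 1)) ^ 3 * ((u : k) + v * r) ^ (4 * a + 3) *
        (-(t : k) + 2 * v * i) ^ (4 * a + 2) = 2 * t := by
      have h1 : (-(2 * r * i)) ^ (4 * a + 3) = 2 * r * i * ((2 : k) ^ (2 * a + 1)) ^ 3 := by
        calc (-(2 * r * i)) ^ (4 * a + 3) =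
              ((-(2 * r * i)) ^ 2) ^ (2 * a + 1) * (-(2 * r * i)) := by
              rw [← pow_mul, ← pow_succ]
              congr 1
              ring
          _ = 2 * r * i * ((2 : k) ^ (2 * a + 1)) ^ 3 := by
              rw [h8ri, hodd.neg_pow, ← pow_mul, ← pow_mul, mul_comm 3 (2 * a + 1)]
              ring
      rw [mul_pow, mul_pow, h1, pow_succ (-(t : k) + 2 * v * i)] at hZl
      apply mul_right_cancel₀ hW0
      rw [mul_assoc, hZl]
      linear_combination hT + (t : k) ^ 2 * hi - (u : k) ^ 2 * hr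
    generalize ((u : k) + v * r) ^ (4 * a + 3) = BP at *
    generalize (-(t : k) + 2 * v * i) ^ (4 * a + 2) = W' at *
    have hN1 : (2 : k) ^ (2 * a + 1) ≠ 0 := pow_ne_zero _ h2k
    generalize (2 : k) ^ (2 * a + 1) = N at *
    generalize g (X l) = G at *
    generalize ((jacobiSym u l : ℤ) : k) = J at *
    have main : r * BP = i * t * J * G := by
      have h1 : -(r * i * BP) = t * J * G := by
        apply mul_left_cancel₀ (mul_ne_zero h2k hN1)
        linear_combination (N * J * G) * K1 - (2 * r * i * N ^ 3 * BP) * K2 -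
          (2 * N * r * i * BP) * hN2
      linear_combination i * h1 + (r * BP) * hi
    refine ⟨?_, main⟩
    have hB2 : BP ^ 2 = u ^ 2 - 2 * v ^ 2 := by
      rw [hBl]
      linear_combination -(v : k) ^ 2 * hr
    have h5 : (t : k) ^ 2 * (G ^ 2 + 1) = 0 := by
      have h6 : r ^ 2 * BP ^ 2 = i ^ 2 * t ^ 2 * J ^ 2 * G ^ 2 := by
        calc r ^ 2 * BP ^ 2 = (r * BP) ^ 2 := by ring
          _ = i ^ 2 * t ^ 2 * J ^ 2 * G ^ 2 := by rw [main]; ring
      rw [hr, hB2, hJ2, hi] at h6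
      linear_combination h6 + hT
    rcases mul_eq_zero.1 h5 with h6 | h6
    · exact absurd h6 (pow_ne_zero 2 htk)
    · linear_combination h6

private theorem s35_four {z : GaussianInt} (h : z ^ 4 = 1) :
    z ^ 2 = 1 ∨ z = W5.gI ∨ z = -W5.gI := by
  have hI : W5.gI ^ 2 = -1 := by decide
  have h1 : (z ^ 2 - 1) * ((z - W5.gI) * (z + W5.gI)) = 0 := by
    linear_combination h - (z ^ 2 - 1) * hI
  rcases mul_eq_zero.1 h1 with h2 | h2
  · left
    linear_combination h2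
  · rcases mul_eq_zero.1 h2 with h3 | h3
    · right; left
      linear_combination h3
    · right; right
      linear_combination h3

private theorem s35_dvd {l : ℕ} {k : Type} [Field k] [CharP k l] (h2k : (2 : k) ≠ 0)
    (θ : k) (hθ : θ ^ 2 = 2) (w : ℤ√2) (h1 : (w.re : k) + w.im * θ = 0)
    (h2 : (w.re : k) + w.im * (-θ) = 0) : (l : ℤ√2) ∣ w := by
  have h3 : (w.re : k) = 0 := by
    apply mul_left_cancel₀ h2k
    linear_combination h1 + h2
  have h4 : (w.im : k) = 0 := by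
    have h5 : (w.im : k) * 2 = 0 := by
      linear_combination θ * h1 - θ * h3 - (w.im : k) * hθ
    rcases mul_eq_zero.1 h5 with h6 | h6
    · exact h6
    · exact absurd h6 h2k
  have h5 := (CharP.intCast_eq_zero_iff k l _).1 h3
  have h6 := (CharP.intCast_eq_zero_iff k l _).1 h4
  have h7 : ((l : ℤ) : ℤ√2) ∣ w := (Zsqrtd.intCast_dvd _ _).2 ⟨h5, h6⟩
  simpa using h7

theorem loc35 {u v x y t : ℤ} {l : ℕ} (hl : l.Prime) (h8 : l % 8 = 3 ∨ l % 8 = 5)
    {X : ℤ → GaussianInt} (hX : QX ⟨x, 2 * v * y⟩ X)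
    (ht : (l : ℤ) ∣ t ^ 2 + 2 * (2 * v ^ 2 - u ^ 2)) (hxt : (l : ℤ) ∣ x + t * y)
    (hy : ¬ (l : ℤ) ∣ y) (hu : ¬ (l : ℤ) ∣ u) (hm : ¬ (l : ℤ) ∣ 2 * v ^ 2 - u ^ 2) :
    X (if l % 4 = 1 then l else -l) =
      -W5.gI * ((nuR u v l t * jacobiSym u l : ℤ) : GaussianInt) := by
  have hF : Fact l.Prime := ⟨hl⟩
  have hcl : CharP (AlgebraicClosure (ZMod l)) l :=
    charP_of_injective_algebraMap (algebraMap (ZMod l) (AlgebraicClosure (ZMod l))).injective l
  obtain ⟨i, hi⟩ := IsAlgClosed.exists_pow_nat_eq (-1 : AlgebraicClosure (ZMod l)) (n := 2)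
    (by norm_num)
  obtain ⟨r, hr⟩ := IsAlgClosed.exists_pow_nat_eq (2 : AlgebraicClosure (ZMod l)) (n := 2)
    (by norm_num)
  have hii : i * i = ((-1 : ℤ) : AlgebraicClosure (ZMod l)) := by
    rw [← sq, hi]
    push_cast
    rfl
  obtain ⟨g, hg⟩ : ∃ g : GaussianInt →+* AlgebraicClosure (ZMod l),
      ∀ a b : ℤ, g ⟨a, b⟩ = a + b * i := ⟨Zsqrtd.lift ⟨i, hii⟩, fun a b => rfl⟩
  have hg1 : g ⟨x, 2 * v * y⟩ = x + 2 * v * y * i := by
    rw [hg]
    push_cast
    rfl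
  obtain ⟨hN0, htk, h2k, hG2, hC1⟩ :=
    s35_core h8 hX ht hxt hy hu hm _ g i r hg1 hi hr
  obtain ⟨-, -, -, -, hC2⟩ :=
    s35_core h8 hX ht hxt hy hu hm _ g i (-r) hg1 hi (by rw [neg_sq, hr])
  have hNd : ¬ (l : ℤ) ∣ nmG ⟨x, 2 * v * y⟩ := fun h =>
    hN0 ((CharP.intCast_eq_zero_iff _ l _).2 h)
  have hcop : IsCoprime (l : ℤ) (nmG ⟨x, 2 * v * y⟩) :=
    ((Nat.prime_iff_prime_int.1 hl).coprime_iff_not_dvd).2 hNd
  have hfour : X (if l % 4 = 1 then l else -l) ^ 4 = 1 := by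
    apply hX.four
    split_ifs
    · exact hcop
    · exact hcop.neg_left
  generalize X (if l % 4 = 1 then (l : ℤ) else -l) = Y at *
  have hgI : g W5.gI = i := by
    have h := hg 0 1
    unfold W5.gI
    rw [h]
    push_cast
    ring
  obtain ⟨ε, hε, hY⟩ : ∃ ε : ℤ, (ε = 1 ∨ ε = -1) ∧ Y = W5.gI * (ε : GaussianInt) := by
    rcases s35_four hfour with h | h | h
    · exfalso
      have h1 := congrArg g h
      rw [map_pow, hG2, map_one] at h1
      apply h2k
      linear_combination -h1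
    · exact ⟨1, Or.inl rfl, by rw [h]; push_cast; ring⟩
    · exact ⟨-1, Or.inr rfl, by rw [h]; push_cast; ring⟩
  have hgY : g Y = i * ε := by
    rw [hY, map_mul, hgI, map_intCast]
  have hJ : jacobiSym u l = 1 ∨ jacobiSym u l = -1 := by
    rcases jacobiSym.trichotomy u l with h | h | h
    · exfalso
      have h1 := s35_leg (l := l) (AlgebraicClosure (ZMod l)) u
      rw [h, Int.cast_zero] at h1
      apply hu
      apply (CharP.intCast_eq_zero_iff (AlgebraicClosure (ZMod l)) l _).1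
      exact pow_eq_zero_iff (by have := hl.two_le; omega) |>.1 h1.symm
    · exact Or.inl h
    · exact Or.inr h
  rw [hgY] at hC1 hC2
  -- the value
  have hval : ∀ (θ : AlgebraicClosure (ZMod l)), θ ^ 2 = 2 →
      ((u : AlgebraicClosure (ZMod l)) + v * θ) ^ ((l + 1) / 2) * θ =
        ((-(ε * jacobiSym u l) : ℤ) : AlgebraicClosure (ZMod l)) * t →
      (((⟨u, v⟩ : ℤ√2) ^ ((l + 1) / 2) * ⟨0, 1⟩ -
        ((-(ε * jacobiSym u l) * t : ℤ) : ℤ√2)).re : AlgebraicClosure (ZMod l)) +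
      ((⟨u, v⟩ : ℤ√2) ^ ((l + 1) / 2) * ⟨0, 1⟩ -
        ((-(ε * jacobiSym u l) * t : ℤ) : ℤ√2)).im * θ = 0 := by
    intro θ hθ hv
    have hθθ : θ * θ = ((2 : ℤ) : AlgebraicClosure (ZMod l)) := by
      rw [← sq, hθ]
      push_cast
      rfl
    obtain ⟨h, hh⟩ : ∃ h : ℤ√2 →+* AlgebraicClosure (ZMod l),
        ∀ w : ℤ√2, h w = w.re + w.im * θ := ⟨Zsqrtd.lift ⟨θ, hθθ⟩, fun w => rfl⟩
    rw [← hh, map_sub, map_mul, map_pow, map_intCast, hh, hh]
    push_cast
    push_cast at hv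
    linear_combination hv
  have hdvd : (l : ℤ√2) ∣ (⟨u, v⟩ : ℤ√2) ^ ((l + 1) / 2) * ⟨0, 1⟩ -
      ((-(ε * jacobiSym u l) * t : ℤ) : ℤ√2) := by
    refine s35_dvd h2k r hr _ ?_ ?_
    · apply hval _ hr
      push_cast
      linear_combination hC1 + t * (jacobiSym u l : ℤ) * ε * hi
    · apply hval _ (by rw [neg_sq, hr])
      push_cast
      linear_combination hC2 + t * (jacobiSym u l : ℤ) * ε * hi
  have hnu : nuR u v l t = -(ε * jacobiSym u l) := by
    have hc : -(ε * jacobiSym u l) = 1 ∨ -(ε * jacobiSym u l) = -1 := by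
      rcases hε with h | h <;> rcases hJ with h' | h' <;> rw [h, h'] <;> norm_num
    unfold nuR
    rw [if_neg (by omega)]
    rcases hc with h | h
    · rw [h, one_mul] at hdvd
      rw [if_pos hdvd, h]
    · rw [h, neg_one_mul] at hdvd
      rw [h, if_neg]
      intro h3
      have h4 := dvd_sub hdvd h3
      have h5 : (⟨u, v⟩ : ℤ√2) ^ ((l + 1) / 2) * ⟨0, 1⟩ - ((-t : ℤ) : ℤ√2) -
          ((⟨u, v⟩ : ℤ√2) ^ ((l + 1) / 2) * ⟨0, 1⟩ - (t : ℤ√2)) =
          ((2 * t : ℤ) : ℤ√2) := by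
        push_cast
        ring
      rw [h5] at h4
      have h6 : ((l : ℤ) : ℤ√2) ∣ ((2 * t : ℤ) : ℤ√2) := by simpa using h4
      have h7 := (Zsqrtd.intCast_dvd_intCast _ _).1 h6
      have h8 := (CharP.intCast_eq_zero_iff (AlgebraicClosure (ZMod l)) l _).2 h7
      push_cast at h8
      exact (mul_ne_zero h2k htk) h8
  rw [hnu, hY]
  have hJJ : -(ε * jacobiSym u l) * jacobiSym u l = -ε := by
    rcases hJ with h' | h' <;> rw [h'] <;> ring
  rw [hJJ]
  push_cast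
  ring

end Pool.Agent.Work.MP_8efaaa_nt.Q7
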