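import Mathlib
import Pool.Agent.Work.MP_8efaaa_nt.Q7.Defs
import Pool.Agent.Work.MP_8efaaa_nt.W6.SX
import Pool.Agent.Work.MP_8efaaa_nt.W6.SFin
import Pool.Agent.Work.MP_8efaaa_nt.Q7.SLa
import Pool.Agent.Work.MP_8efaaa_nt.Q7.SLb

/-!
# Q7/SFn (M): the final formula for the sign

MODEL: `W6/SFin.lean` (copy the private lemmas and adapt). Checked by computer, also for negative `u`, `v`. PROOF. `m = 2v^2 - u^2`, `ω = ⟨x, 2 v y⟩` (`re` odd, `im` even), `X` from `exists_qx`, `nω = nmG ω = x^2 + 4v^2y^2` positive, `nω = 1 (mod 16)`-ish, at least `nω = 1 (mod 8)` (`x` odd, `v` even).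
(1) For `l ∣ N` prime: `l ∤ y`, `l ∤ u`, `l ∤ m` (`hc`, `hxy`), `l` odd, `x = -t y` modulo `l` and `x^2 + 2 m y^2 = 0`, so `l ∣ t^2 + 2m`. `loc17`, `loc35`; multiply over `l ∣ N`: `∏ l* = -N` (`N = 3 (mod 4)`), so `X(-N) = ∏ nuR * (u/N) * (-I)^k`, `k = #{l ∣ N : l % 8 = 3 ∨ l % 8 = 5}` EVEN (as `N = 7 (mod 8)`), `(-I)^k = (-1)^(k/2) = (-1)^(choose k 2)`. So `X(-N) = nu7 * (u/N)`.
(2) `nω = N n^2 + 2 u^2 y^2`, so `-N n^2 = 2 u^2 y^2 (mod nω)`, `X(-N) X(n^2) = X(2) X(u^2) X(y^2)`; `n`, `u`, `y` are prime to `nω` (as in the model). By `QX.sq`: `X(-N) (n/nω) = X(2) (u/nω)(y/nω)`.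
(3) `X(2) = ipw (x v y) = (-1)^(v/2)` (`v` even, `x`, `y` odd: `x v y = 2 (x y (v/2))`, `ipw_two`). `nω = 1 (mod 4)`, reciprocity: `(y/nω) = (nω/|y|) = (x^2/|y|) = 1`; `(u/nω) = (|u|/nω) = (nω/|u|) = (N n^2/|u|) = (N/|u|)` (`(-1/nω) = 1`); `(n/nω) = (nω/n) = (2u^2y^2/n) = (2/n)`.
(4) So `nu7 (u/N) (2/n) = (-1)^(v/2) (N/|u|)`. `(u/N) (N/|u|) = (-1)^((u-1)/2)` for odd `u` of any sign (`N = 3 (mod 4)`, `(-1/N) = -1`).
-/

set_option autoImplicit false

namespace Pool.Agent.Work.MP_8efaaa_nt.Q7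

open Pool.Agent.Work.MP_8efaaa_nt.W6

private theorem sfin_jprod (a : ℤ) (S : Finset ℕ) (hS : ∀ l ∈ S, l ≠ 0) :
    jacobiSym a (∏ l ∈ S, l) = ∏ l ∈ S, jacobiSym a l := by
  classical
  induction S using Finset.induction_on with
  | empty => simp
  | insert l S hl ih =>
    have h1 : ∀ l ∈ S, l ≠ 0 := fun m hm => hS m (Finset.mem_insert_of_mem hm)
    rw [Finset.prod_insert hl, Finset.prod_insert hl,
      jacobiSym.mul_right' a (hS l (Finset.mem_insert_self _ _)) (Finset.prod_ne_zero_iff.2 h1),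
      ih h1]

private theorem sfin_xprod {ω : GaussianInt} {X : ℤ → GaussianInt} (hX : QX ω X) (S : Finset ℕ)
    (f : ℕ → ℤ) : X (∏ l ∈ S, f l) = ∏ l ∈ S, X (f l) := by
  classical
  induction S using Finset.induction_on with
  | empty => simpa using hX.one
  | insert l S hl ih =>
    rw [Finset.prod_insert hl, Finset.prod_insert hl, hX.mul, ih]

private theorem sfin_star (S : Finset ℕ) (hS : ∀ l ∈ S, l % 2 = 1) :
    (∏ l ∈ S, (if l % 4 = 1 then (l : ℤ) else -l)) % 4 = 1 ∧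
    ((∏ l ∈ S, (if l % 4 = 1 then (l : ℤ) else -l)) = ((∏ l ∈ S, l : ℕ) : ℤ) ∨
     (∏ l ∈ S, (if l % 4 = 1 then (l : ℤ) else -l)) = -((∏ l ∈ S, l : ℕ) : ℤ)) := by
  classical
  induction S using Finset.induction_on with
  | empty => simp
  | insert l S hl ih =>
    obtain ⟨h1, h2⟩ := ih fun m hm => hS m (Finset.mem_insert_of_mem hm)
    have h3 := hS l (Finset.mem_insert_self _ _)
    rw [Finset.prod_insert hl, Finset.prod_insert hl, Nat.cast_mul]
    constructor
    · rw [Int.mul_emod, h1]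
      have h4 : (if l % 4 = 1 then (l : ℤ) else -l) % 4 = 1 := by
        split_ifs with h5
        · omega
        · omega
      rw [h4]
      norm_num
    · rcases h2 with h2 | h2
      · rw [h2]
        split_ifs with h5
        · exact Or.inl rfl
        · right
          ring
      · rw [h2]
        split_ifs with h5
        · right
          ring
        · left
          ring

private theorem sfin_gI2 : W5.gI ^ 2 = (-1 : GaussianInt) := by decide

private theorem sfin_gIpow {k : ℕ} (hk : Even k) : (-W5.gI) ^ k = (-1) ^ (k.choose 2) := by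
  obtain ⟨j, hj⟩ := hk
  have hj2 : k = 2 * j := by omega
  rw [hj2]
  have h1 : (-W5.gI) ^ (2 * j) = (-1 : GaussianInt) ^ j := by
    rw [pow_mul, neg_sq, sfin_gI2]
  rw [h1]
  rcases Nat.eq_zero_or_pos j with h0 | h0
  · rw [h0]
    rfl
  · have h2 : (2 * j).choose 2 = j * (2 * j - 1) := by
      rw [Nat.choose_two_right]
      have h3 : 2 * j * (2 * j - 1) = 2 * (j * (2 * j - 1)) := by ring
      rw [h3, Nat.mul_div_cancel_left _ (by norm_num)]
    have h4 : Odd (2 * j - 1) := by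
      rw [Nat.odd_iff]
      omega
    rw [h2, mul_comm j, pow_mul, h4.neg_one_pow]

private theorem sfin_ipw {n : ℤ} (hn : Even n) :
    ipw n = ((-1) ^ (n / 2).natAbs : GaussianInt) := by
  have h1 : n % 4 = 0 ∨ n % 4 = 2 := by
    obtain ⟨j, rfl⟩ := hn
    omega
  unfold ipw
  rcases h1 with h1 | h1
  · have h2 : Even (n / 2).natAbs := by
      rw [Int.natAbs_even]
      have : (n / 2) % 2 = 0 := by omega
      exact Int.even_iff.2 this
    rw [h1, h2.neg_one_pow]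
    show W5.gI ^ 0 = _
    rw [pow_zero]
  · have h2 : Odd (n / 2).natAbs := by
      rw [Int.natAbs_odd]
      have : (n / 2) % 2 = 1 := by omega
      exact Int.odd_iff.2 this
    rw [h1, h2.neg_one_pow]
    show W5.gI ^ 2 = _
    rw [sfin_gI2]

/-- the product formula for the symbol of `-N` -/
private theorem sfin_one {u v x y t : ℤ} {N : ℕ} {X : ℤ → GaussianInt}
    (hX : QX ⟨x, 2 * v * y⟩ X) (hN : Squarefree N) (hN8 : N % 8 = 7)
    (ht : ∀ l : ℕ, l.Prime → l ∣ N → (l : ℤ) ∣ t ^ 2 + 2 * (2 * v ^ 2 - u ^ 2))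
    (hxt : ∀ l : ℕ, l.Prime → l ∣ N → (l : ℤ) ∣ x + t * y)
    (hy : ∀ l : ℕ, l.Prime → l ∣ N → ¬ (l : ℤ) ∣ y)
    (hu : ∀ l : ℕ, l.Prime → l ∣ N → ¬ (l : ℤ) ∣ u)
    (hm : ∀ l : ℕ, l.Prime → l ∣ N → ¬ (l : ℤ) ∣ 2 * v ^ 2 - u ^ 2) :
    X (-N) = ((nu7 u v N t * jacobiSym u N : ℤ) : GaussianInt) := by
  classical
  have hN0 : N ≠ 0 := by
    rintro rfl
    simp at hN8
  have hmem : ∀ l ∈ N.primeFactors, l.Prime ∧ l ∣ N := fun l hl =>
    ⟨Nat.prime_of_mem_primeFactors hl, Nat.dvd_of_mem_primeFactors hl⟩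
  have hodd : ∀ l ∈ N.primeFactors, l % 2 = 1 := by
    intro l hl
    obtain ⟨c, hc⟩ := (hmem l hl).2
    by_contra h
    have h2 : l % 2 = 0 := by omega
    have h3 : N % 2 = 0 := by
      rw [hc, Nat.mul_mod, h2]
      simp
    omega
  have hprod : ∏ l ∈ N.primeFactors, l = N := Nat.prod_primeFactors_of_squarefree hN
  -- the sign of the product of the signed primes
  have hstar : ∏ l ∈ N.primeFactors, (if l % 4 = 1 then (l : ℤ) else -l) = -(N : ℤ) := by
    obtain ⟨h1, h2⟩ := sfin_star N.primeFactors hodd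
    rw [hprod] at h2
    rcases h2 with h2 | h2
    · rw [h2] at h1
      omega
    · exact h2
  -- the number of primes 3, 5 mod 8 is even
  obtain ⟨k, hk⟩ : ∃ k, k = (N.primeFactors.filter fun l => l % 8 = 3 ∨ l % 8 = 5).card := ⟨_, rfl⟩
  have hkeven : Even k := by
    have h1 : jacobiSym 2 N = 1 := by
      rw [jacobiSym.at_two (Nat.odd_iff.2 (by omega))]
      have : ((N : ℕ) : ZMod 8) = ((7 : ℕ) : ZMod 8) := by
        rw [ZMod.natCast_eq_natCast_iff]
        exact hN8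
      rw [this]
      decide
    have h2 : jacobiSym 2 N = (-1) ^ k := by
      rw [← hprod, sfin_jprod _ _ fun l hl => (hmem l hl).1.ne_zero]
      have h3 : ∀ l ∈ N.primeFactors, jacobiSym 2 l =
          if l % 8 = 3 ∨ l % 8 = 5 then (-1 : ℤ) else 1 := by
        intro l hl
        have h4 := hodd l hl
        rw [jacobiSym.at_two (Nat.odd_iff.2 h4)]
        have h5 : ((l : ℕ) : ZMod 8) = ((l % 8 : ℕ) : ZMod 8) := by
          rw [ZMod.natCast_eq_natCast_iff]
          exact (Nat.mod_modEq l 8).symm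
        rw [h5]
        have h6 : l % 8 = 1 ∨ l % 8 = 3 ∨ l % 8 = 5 ∨ l % 8 = 7 := by omega
        rcases h6 with h6 | h6 | h6 | h6 <;> rw [h6] <;> decide
      rw [Finset.prod_congr rfl h3, Finset.prod_ite, Finset.prod_const, Finset.prod_const_one,
        mul_one, ← hk]
    rw [h1] at h2
    by_contra hno
    rw [Nat.not_even_iff_odd] at hno
    rw [hno.neg_one_pow] at h2
    norm_num at h2
  -- the local values
  have hloc : ∀ l ∈ N.primeFactors, X (if l % 4 = 1 then (l : ℤ) else -l) =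
      (if l % 8 = 3 ∨ l % 8 = 5 then -W5.gI else 1) *
        ((nuR u v l t * jacobiSym u l : ℤ) : GaussianInt) := by
    intro l hl
    obtain ⟨hp, hd⟩ := hmem l hl
    have h4 := hodd l hl
    have h6 : (l % 8 = 1 ∨ l % 8 = 7) ∨ (l % 8 = 3 ∨ l % 8 = 5) := by omega
    rcases h6 with h6 | h6
    · rw [if_neg (by omega : ¬ (l % 8 = 3 ∨ l % 8 = 5)), one_mul]
      exact loc17 hp h6 hX (ht l hp hd) (hxt l hp hd) (hy l hp hd) (hu l hp hd) (hm l hp hd)
    · rw [if_pos h6]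
      exact loc35 hp h6 hX (ht l hp hd) (hxt l hp hd) (hy l hp hd) (hu l hp hd) (hm l hp hd)
  have h1 : X (-N) = ∏ l ∈ N.primeFactors, X (if l % 4 = 1 then (l : ℤ) else -l) := by
    rw [← hstar, sfin_xprod hX]
  rw [h1, Finset.prod_congr rfl hloc, Finset.prod_mul_distrib, Finset.prod_ite,
    Finset.prod_const, Finset.prod_const_one, mul_one, ← hk, sfin_gIpow hkeven]
  have h2 : jacobiSym u N = ∏ l ∈ N.primeFactors, jacobiSym u l := by
    conv_lhs => rw [← hprod]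
    exact sfin_jprod _ _ fun l hl => (hmem l hl).1.ne_zero
  have h3 : ∏ l ∈ N.primeFactors, ((nuR u v l t * jacobiSym u l : ℤ) : GaussianInt) =
      (((∏ l ∈ N.primeFactors, nuR u v l t) * jacobiSym u N : ℤ) : GaussianInt) := by
    rw [h2, ← Finset.prod_mul_distrib]
    push_cast
    rfl
  rw [h3]
  unfold nu7
  rw [← hk]
  push_cast
  ring

theorem nu_final7 {u v x y t : ℤ} {N n : ℕ} (huo : Odd u) (hve : Even v)
    (hx : Odd x) (hy : Odd y) (hxy : IsCoprime x y)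
    (h : x ^ 2 + 2 * (2 * v ^ 2 - u ^ 2) * y ^ 2 = N * n ^ 2) (hN : Squarefree N)
    (hN8 : N % 8 = 7) (hn : Odd n) (hc : IsCoprime ((N : ℤ) * n) (u * (2 * v ^ 2 - u ^ 2)))
    (ht : (N : ℤ) ∣ x + t * y) :
    nu7 u v N t = jacobiSym 2 n * (-1) ^ (v / 2).natAbs * (-1) ^ ((u - 1) / 2).natAbs := by
  obtain ⟨X, hX⟩ := exists_qx (ω := ⟨x, 2 * v * y⟩) hx (by
    show Even (2 * v * y)
    exact ⟨v * y, by ring⟩)
  obtain ⟨W0, hW0⟩ : ∃ W0, W0 = nmG ⟨x, 2 * v * y⟩ := ⟨_, rfl⟩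
  have hW0' : W0 = x ^ 2 + (2 * v * y) ^ 2 := hW0
  have hNn : W0 = (N : ℤ) * n ^ 2 + 2 * u ^ 2 * y ^ 2 := by
    rw [← h, hW0']
    ring
  -- coprimality
  have hcN : IsCoprime (N : ℤ) (u * (2 * v ^ 2 - u ^ 2)) := hc.of_mul_left_left
  have hcn : IsCoprime (n : ℤ) (u * (2 * v ^ 2 - u ^ 2)) := hc.of_mul_left_right
  have hNu : IsCoprime (N : ℤ) u := hcN.of_mul_right_left
  have hNm : IsCoprime (N : ℤ) (2 * v ^ 2 - u ^ 2) := hcN.of_mul_right_right
  have hnu : IsCoprime (n : ℤ) u := hcn.of_mul_right_left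
  have hyx2 : IsCoprime y (x ^ 2) := (hxy.symm).pow_right
  have hyNn : IsCoprime y ((N : ℤ) * n ^ 2) := by
    have h1 := hyx2.add_mul_left_right (2 * (2 * v ^ 2 - u ^ 2) * y)
    have h2 : x ^ 2 + y * (2 * (2 * v ^ 2 - u ^ 2) * y) = (N : ℤ) * n ^ 2 := by
      rw [← h]
      ring
    rwa [h2] at h1
  have hyn : IsCoprime y (n : ℤ) := by
    have h1 := hyNn.of_mul_right_right
    rw [pow_two] at h1
    exact h1.of_mul_right_left
  have hyW : IsCoprime y W0 := by
    have h1 := hyx2.add_mul_left_right (4 * v ^ 2 * y)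
    have h2 : x ^ 2 + y * (4 * v ^ 2 * y) = W0 := by
      rw [hW0']
      ring
    rwa [h2] at h1
  have huW : IsCoprime u W0 := by
    have h0 : IsCoprime u ((N : ℤ) * n ^ 2) := IsCoprime.mul_right hNu.symm hnu.symm.pow_right
    have h1 := h0.add_mul_left_right (2 * u * y ^ 2)
    have h2 : (N : ℤ) * n ^ 2 + u * (2 * u * y ^ 2) = W0 := by
      rw [hNn]
      ring
    rwa [h2] at h1
  have hn2 : IsCoprime (n : ℤ) 2 := by
    obtain ⟨j, hj⟩ := hn
    refine ⟨1, -j, ?_⟩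
    rw [hj]
    push_cast
    ring
  have hnW : IsCoprime (n : ℤ) W0 := by
    have h0 : IsCoprime (n : ℤ) (2 * (u * y) ^ 2) :=
      IsCoprime.mul_right hn2 (IsCoprime.mul_right hnu hyn.symm).pow_right
    have h1 := h0.add_mul_left_right ((N : ℤ) * n)
    have h2 : 2 * (u * y) ^ 2 + (n : ℤ) * ((N : ℤ) * n) = W0 := by
      rw [hNn]
      ring
    rwa [h2] at h1
  -- the primes of `N`
  have hpr : ∀ l : ℕ, l.Prime → l ∣ N → ∀ z : ℤ, IsCoprime (N : ℤ) z → ¬ (l : ℤ) ∣ z := by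
    intro l hl hd z hz hz2
    have h1 : (l : ℤ) ∣ (N : ℤ) := by exact_mod_cast hd
    have h2 := hz.isUnit_of_dvd' h1 hz2
    rw [Int.isUnit_iff_natAbs_eq, Int.natAbs_natCast] at h2
    exact hl.one_lt.ne' h2
  have hNt : ∀ l : ℕ, l.Prime → l ∣ N → (l : ℤ) ∣ x + t * y := by
    intro l hl hd
    have h1 : (l : ℤ) ∣ (N : ℤ) := by exact_mod_cast hd
    exact h1.trans ht
  have hNy : IsCoprime (N : ℤ) y := hyNn.of_mul_right_left.symm
  have e1 := sfin_one (u := u) (v := v) (x := x) (y := y) (t := t) hX hN hN8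
    (by
      intro l hl hd
      have h1 := hNt l hl hd
      have h2 : (l : ℤ) ∣ (N : ℤ) := by exact_mod_cast hd
      have h3 : (l : ℤ) ∣ y ^ 2 * (t ^ 2 + 2 * (2 * v ^ 2 - u ^ 2)) := by
        have h4 : y ^ 2 * (t ^ 2 + 2 * (2 * v ^ 2 - u ^ 2)) =
            (N : ℤ) * n ^ 2 + (x + t * y) * (t * y - x) := by
          rw [← h]
          ring
        rw [h4]
        exact dvd_add (h2.mul_right _) (h1.mul_right _)
      have hlp : Prime (l : ℤ) := Nat.prime_iff_prime_int.1 hl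
      rcases hlp.dvd_or_dvd h3 with h5 | h5
      · exact absurd (hlp.dvd_of_dvd_pow h5) (hpr l hl hd y hNy)
      · exact h5)
    hNt (fun l hl hd => hpr l hl hd y hNy) (fun l hl hd => hpr l hl hd u hNu)
    (fun l hl hd => hpr l hl hd _ hNm)
  -- the modulus
  have hWpos : 0 < W0 := by
    rw [hW0']
    have h1 : x ≠ 0 := by
      rintro rfl
      simp at hx
    positivity
  obtain ⟨W, hW⟩ : ∃ W : ℕ, W = W0.natAbs := ⟨_, rfl⟩
  have hWW : (W : ℤ) = W0 := by
    rw [hW]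
    exact Int.natAbs_of_nonneg hWpos.le
  have hW4 : W % 4 = 1 := by
    have h1 : W0 % 4 = 1 := by
      obtain ⟨a, ha⟩ := hx
      have h2 : W0 = 4 * (a ^ 2 + a + v ^ 2 * y ^ 2) + 1 := by
        rw [hW0', ha]
        ring
      omega
    omega
  have hsqn : X ((n : ℤ) ^ 2) = (jacobiSym n W : ℤ) := by
    rw [hW, hW0]
    exact hX.sq _ (by rw [← hW0]; exact hnW)
  have hsqu : X (u ^ 2) = (jacobiSym u W : ℤ) := by
    rw [hW, hW0]
    exact hX.sq _ (by rw [← hW0]; exact huW)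
  have hsqy : X (y ^ 2) = (jacobiSym y W : ℤ) := by
    rw [hW, hW0]
    exact hX.sq _ (by rw [← hW0]; exact hyW)
  have hper : X (2 * (u ^ 2 * y ^ 2)) = X (-(N : ℤ) * n ^ 2) := by
    refine hX.per _ _ ?_
    rw [← hW0]
    exact ⟨1, by rw [hNn]; ring⟩
  have htwo : X 2 = ((-1) ^ (v / 2).natAbs : GaussianInt) := by
    rw [hX.two]
    have h1 : (⟨x, 2 * v * y⟩ : GaussianInt).im / 2 = v * y := by
      show (2 * v * y) / 2 = v * y
      rw [mul_assoc]
      exact Int.mul_ediv_cancel_left _ (by norm_num)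
    rw [h1]
    show ipw (x * (v * y)) = _
    obtain ⟨w, hw⟩ := hve
    have hw2 : v = 2 * w := by omega
    have h2 : x * (v * y) = 2 * (x * y * w) := by rw [hw2]; ring
    rw [h2, sfin_ipw ⟨x * y * w, by ring⟩, Int.mul_ediv_cancel_left _ (by norm_num : (2 : ℤ) ≠ 0)]
    have h3 : v / 2 = w := by omega
    rw [h3]
    have hxyo : Odd (x * y) := hx.mul hy
    rcases Int.even_or_odd w with h4 | h4
    · have h5 : Even (x * y * w).natAbs := Int.natAbs_even.2 (h4.mul_left _)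
      have h6 : Even w.natAbs := Int.natAbs_even.2 h4
      rw [h5.neg_one_pow, h6.neg_one_pow]
    · have h5 : Odd (x * y * w).natAbs := Int.natAbs_odd.2 (hxyo.mul h4)
      have h6 : Odd w.natAbs := Int.natAbs_odd.2 h4
      rw [h5.neg_one_pow, h6.neg_one_pow]
  -- the jacobi symbols
  have jy : jacobiSym y W = 1 := by
    obtain ⟨Y, hY⟩ : ∃ Y, Y = y.natAbs := ⟨_, rfl⟩
    have hYo : Odd Y := by
      rw [hY]
      exact Int.natAbs_odd.2 hy
    have h1 : jacobiSym y W = jacobiSym Y W := by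
      rcases Int.natAbs_eq y with h2 | h2
      · rw [hY, ← h2]
      · have h2' : y = -(Y : ℤ) := by rw [hY]; exact h2
        rw [h2', jacobiSym.neg _ (Nat.odd_iff.2 (by omega)), ZMod.χ₄_nat_one_mod_four hW4, one_mul]
    rw [h1, jacobiSym.quadratic_reciprocity_one_mod_four' hYo hW4, hWW]
    have h3 : jacobiSym W0 Y = jacobiSym (x ^ 2) Y := by
      refine jacobiSym.mod_left' ?_
      refine Int.ModEq.symm ?_
      rw [Int.modEq_iff_dvd, hW0', hY]
      have h4 : ((y.natAbs : ℕ) : ℤ) ∣ y := Int.natAbs_dvd.2 dvd_rfl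
      have h5 : x ^ 2 + (2 * v * y) ^ 2 - x ^ 2 = y * (4 * v ^ 2 * y) := by ring
      rw [h5]
      exact h4.mul_right _
    rw [h3]
    refine jacobiSym.sq_one' ?_
    rw [hY]
    have h6 : IsCoprime x ((y.natAbs : ℕ) : ℤ) := by
      rcases Int.natAbs_eq y with h2 | h2
      · rw [← h2]
        exact hxy
      · have h7 : ((y.natAbs : ℕ) : ℤ) = -y := by omega
        rw [h7]
        exact hxy.neg_right
    exact Int.isCoprime_iff_gcd_eq_one.1 h6
  obtain ⟨U, hU⟩ : ∃ U, U = u.natAbs := ⟨_, rfl⟩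
  have hUo : Odd U := by
    rw [hU]
    exact Int.natAbs_odd.2 huo
  have hUd : (U : ℤ) ∣ u := by
    rw [hU]
    exact Int.natAbs_dvd.2 dvd_rfl
  have hUcop : ∀ z : ℤ, IsCoprime z u → IsCoprime z (U : ℤ) := by
    intro z hz
    rcases Int.natAbs_eq u with h2 | h2
    · rw [hU, ← h2]
      exact hz
    · have h7 : (U : ℤ) = -u := by omega
      rw [h7]
      exact hz.neg_right
  have ju : jacobiSym u W = jacobiSym N U := by
    have h1 : jacobiSym u W = jacobiSym U W := by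
      rcases Int.natAbs_eq u with h2 | h2
      · rw [hU, ← h2]
      · have h2' : u = -(U : ℤ) := by rw [hU]; exact h2
        rw [h2', jacobiSym.neg _ (Nat.odd_iff.2 (by omega)), ZMod.χ₄_nat_one_mod_four hW4, one_mul]
    rw [h1, jacobiSym.quadratic_reciprocity_one_mod_four' hUo hW4, hWW]
    have h3 : jacobiSym W0 U = jacobiSym ((N : ℤ) * (n : ℤ) ^ 2) U := by
      refine jacobiSym.mod_left' ?_
      show W0 ≡ (N : ℤ) * n ^ 2 [ZMOD U]
      refine Int.ModEq.symm ?_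
      rw [Int.modEq_iff_dvd, hNn]
      have h5 : (N : ℤ) * n ^ 2 + 2 * u ^ 2 * y ^ 2 - (N : ℤ) * n ^ 2 = u * (2 * u * y ^ 2) := by
        ring
      rw [h5]
      exact hUd.mul_right _
    rw [h3, jacobiSym.mul_left, jacobiSym.sq_one', mul_one]
    exact Int.isCoprime_iff_gcd_eq_one.1 (hUcop _ hnu)
  have jn : jacobiSym n W = jacobiSym 2 n := by
    rw [jacobiSym.quadratic_reciprocity_one_mod_four' hn hW4, hWW]
    have h3 : jacobiSym W0 n = jacobiSym (2 * (u * y) ^ 2) n := by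
      refine jacobiSym.mod_left' ?_
      show W0 ≡ 2 * (u * y) ^ 2 [ZMOD n]
      refine Int.ModEq.symm ?_
      rw [Int.modEq_iff_dvd, hNn]
      exact ⟨(N : ℤ) * n, by ring⟩
    rw [h3, jacobiSym.mul_left, jacobiSym.sq_one', mul_one]
    exact Int.isCoprime_iff_gcd_eq_one.1 (IsCoprime.mul_right hnu hyn.symm).symm
  have jrec : jacobiSym u N * jacobiSym N U = (-1) ^ ((u - 1) / 2).natAbs := by
    have hNo : Odd N := Nat.odd_iff.2 (by omega)
    have h1 := jacobiSym.quadratic_reciprocity hUo hNo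
    have h2 : jacobiSym N U * jacobiSym N U = 1 := by
      rw [← pow_two]
      refine jacobiSym.sq_one ?_
      exact Int.isCoprime_iff_gcd_eq_one.1 (hUcop _ hNu)
    have h4 : (-1 : ℤ) ^ (U / 2 * (N / 2)) = (-1) ^ (U / 2) := by
      have h5 : Odd (N / 2) := Nat.odd_iff.2 (by omega)
      rw [mul_comm, pow_mul, h5.neg_one_pow]
    rcases Int.natAbs_eq u with h6 | h6
    · have hUu : u = (U : ℤ) := by rw [hU]; exact h6
      have h3 : ((u - 1) / 2).natAbs = U / 2 := by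
        obtain ⟨j, hj⟩ := hUo
        omega
      rw [h3, hUu, h1, h4, mul_assoc, h2, mul_one]
    · have hUu : u = -(U : ℤ) := by rw [hU]; exact h6
      have h3 : ((u - 1) / 2).natAbs = U / 2 + 1 := by
        obtain ⟨j, hj⟩ := hUo
        omega
      have h7 : jacobiSym u N = -jacobiSym U N := by
        rw [hUu, jacobiSym.neg _ hNo, ZMod.χ₄_nat_three_mod_four (by omega)]
        ring
      rw [h3, h7, h1, h4, pow_succ]
      linear_combination (-(-1) ^ (U / 2)) * h2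
  -- the equation
  have e2 : X (-N) * X ((n : ℤ) ^ 2) = X 2 * (X (u ^ 2) * X (y ^ 2)) := by
    rw [← hX.mul (u ^ 2), ← hX.mul 2, hper, ← hX.mul]
  rw [htwo, hsqn, hsqu, hsqy, jy, ju, jn, e1] at e2
  have e3 : nu7 u v N t * jacobiSym u N * jacobiSym 2 n =
      (-1) ^ (v / 2).natAbs * jacobiSym N U := by
    have h1 : ((nu7 u v N t * jacobiSym u N * jacobiSym 2 n : ℤ) : GaussianInt) =
        (((-1) ^ (v / 2).natAbs * jacobiSym N U : ℤ) : GaussianInt) := by
      push_cast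
      push_cast at e2
      linear_combination e2
    exact_mod_cast h1
  have s1 : jacobiSym u N * jacobiSym u N = 1 := by
    rw [← pow_two]
    exact jacobiSym.sq_one (Int.isCoprime_iff_gcd_eq_one.1 hNu.symm)
  have s2 : jacobiSym 2 n * jacobiSym 2 n = 1 := by
    rw [← pow_two]
    exact jacobiSym.sq_one (Int.isCoprime_iff_gcd_eq_one.1 hn2.symm)
  calc nu7 u v N t = nu7 u v N t * (jacobiSym u N * jacobiSym u N) *
        (jacobiSym 2 n * jacobiSym 2 n) := by rw [s1, s2, mul_one, mul_one]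
    _ = (nu7 u v N t * jacobiSym u N * jacobiSym 2 n) * jacobiSym u N * jacobiSym 2 n := by
        ring
    _ = ((-1) ^ (v / 2).natAbs * jacobiSym N U) * jacobiSym u N * jacobiSym 2 n := by rw [e3]
    _ = (jacobiSym u N * jacobiSym N U) * jacobiSym 2 n * (-1) ^ (v / 2).natAbs := by ring
    _ = _ := by rw [jrec]; ring

end Pool.Agent.Work.MP_8efaaa_nt.Q7
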