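import Mathlib
import Pool.Agent.Work.MP_8efaaa_nt.Q7.Defs
import Pool.Agent.Work.MP_8efaaa_nt.Q7.SFn
import Pool.Agent.Work.MP_8efaaa_nt.Q7.DIx
import Pool.Agent.Work.MP_8efaaa_nt.Q7.Prm
import Pool.Agent.Work.MP_8efaaa_nt.Q7.El7
import Pool.Agent.Work.MP_8efaaa_nt.W14.CGe
import Pool.Agent.Work.MP_8efaaa_nt.W14.CDi
import Pool.Agent.Work.MP_8efaaa_nt.W14.CEq
import Pool.Agent.Work.MP_8efaaa_nt.W14.PGa

/-!
# Q7/Inq (M-L): the inertia relation at `q`, with the sign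

MODEL: `W6/Main.lean` (how `inert_x6`, `exists_prim6`, `exists_el6`, `nu_final` are used). `a = 2 p q`, `m = p q = 2 v0^2 - u0^2`.
(1) `exists_L7` for `l = q` (`exists_b3`): `L`, `V`, `V (u0 - v0 θ) < 1`. `inert_x7` for `l = q`, `M = 2 a |u0|` (`u0 ≠ 0`: `u0` is odd): `b`, `t`, `N = N b`, `N % 16 = 15`, squarefree, prime to `2 a u0`, `P (b cj τ c) - P c ∈ E1 V`, `nu7 u0 v0 N t = 1`.
(2) `jacobiSym p N = 1` (`d = p`, `¬ q ∣ p`), so `jacobiSym N p = 1` (reciprocity, `p = 1 (mod 4)`): `W14.genus`: `cls b = C * C`. `exists_prim7` for `C`, `M = 2 a N |u0|`: `c1`, `u`, `n = N c1` odd and prime to `2 a N u0`. `exists_elq7`: `x`, `y` odd, coprime, `x^2 + 2 (2 v0^2 - u0^2) y^2 = N n^2`, `N ∣ x + t y`. `nu_final7` (`u0` odd: `u0^2 = 2 v0^2 - p q`; `v0` even: `p q = 7 (mod 8)`, so `2 v0^2 = 8 (mod 16)`-or `0`: `2 v0^2 = u0^2 + p q = 0 (mod 8)`): `1 = jacobiSym 2 n * (-1)^(v0/2) * (-1)^((u0-1)/2)`;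 `4 ∣ u0 - 1 - v0` gives that the last two signs are equal. So `jacobiSym 2 n = 1`, `n = 1` or `7 (mod 8)`.
(3) `c0 = c1` if `n = 1 (mod 8)`, `c0 = (1 + S) c1` if `n = 7 (mod 8)` (norm `(1 + a) n = 7 * 7 = 1 (mod 8)`, `norm_g`; same class `cls_span`). `wq = (1 + S) b`: norm `15 * 15 = 1 (mod 8)`, same class as `b`.
(4) the relation: `hT` for `b * cj τ c`: `P ((1+S) b cj τ c) = -P (b cj τ c) + T + (if (N N c) % 4 = 1 then 0 else em)` (`norm_cj6`), `N % 4 = 3`: `N c = 1 (mod 8)`: `em`; `N c = 3 (mod 8)`: `N N c = 1 (mod 4)`, `0`.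
-/

set_option autoImplicit false

namespace Pool.Agent.Work.MP_8efaaa_nt.Q7

open NumberField Pool.Agent.Work.MP_8efaaa_nt.R Pool.Agent.Work.MP_8efaaa_nt.N5
  Pool.Agent.Work.MP_8efaaa_nt.K6 Pool.Agent.Work.MP_8efaaa_nt.W14
  Pool.Agent.Work.MP_8efaaa_nt.W6
open scoped Classical nonZeroDivisors

private theorem inq_par {u v : ℤ} {m : ℕ} (hm : m % 8 = 7) (h : 2 * v ^ 2 - u ^ 2 = (m : ℤ)) :
    Odd u ∧ Even v := by
  have hm' : (m : ℤ) % 8 = 7 := by omega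
  have hu : Odd u := by
    by_contra hne
    rw [Int.not_odd_iff_even] at hne
    obtain ⟨k, hk⟩ := hne
    obtain ⟨w, hw⟩ : ∃ w, (m : ℤ) = 2 * w := ⟨v ^ 2 - 2 * k ^ 2, by rw [← h, hk]; ring⟩
    omega
  refine ⟨hu, ?_⟩
  by_contra hne
  rw [Int.not_even_iff_odd] at hne
  obtain ⟨k, hk⟩ := hu
  obtain ⟨j, hj⟩ := hne
  obtain ⟨l, hl⟩ := Int.even_mul_succ_self k
  obtain ⟨w, hw⟩ : ∃ w, (m : ℤ) = 8 * w + 1 := ⟨j ^ 2 + j - l, by
    rw [← h, hk, hj]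
    linear_combination -4 * hl⟩
  omega

private theorem inq_sign {u v : ℤ} (hu : Odd u) (hv : Even v) (h4 : (4 : ℤ) ∣ u - 1 - v) :
    (-1 : ℤ) ^ (v / 2).natAbs * (-1) ^ ((u - 1) / 2).natAbs = 1 := by
  obtain ⟨α, rfl⟩ := hu
  obtain ⟨β, rfl⟩ := hv
  obtain ⟨c, hc⟩ := h4
  have e1 : (β + β) / 2 = β := by omega
  have e2 : (2 * α + 1 - 1) / 2 = α := by omega
  rw [e1, e2, ← pow_add]
  have h : Even (β.natAbs + α.natAbs) := by
    rw [Nat.even_add, Int.natAbs_even, Int.natAbs_even, ← Int.even_add]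
    exact ⟨β + c, by omega⟩
  exact h.neg_one_pow

private theorem inq_two {n : ℕ} (hn : Odd n) (h : jacobiSym 2 n = 1) :
    n % 8 = 1 ∨ n % 8 = 7 := by
  rw [jacobiSym.at_two hn, ZMod.χ₈_nat_eq_if_mod_eight] at h
  have h2 := Nat.odd_iff.1 hn
  rw [if_neg (by omega)] at h
  by_contra h3
  rw [if_neg h3] at h
  norm_num at h

theorem exists_q {K F : Type*} [Field K] [NumberField K] [Field F] [NumberField F] [Algebra K F]
    [IsGalois ℚ F] {p q : ℕ} {s : K} {S : 𝓞 K} {τ : 𝓞 K ≃+* 𝓞 K} {ζ : F} {w : ℕ → F}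
    {z k v : Ideal (𝓞 K) → F} {κ : F ≃ₐ[ℚ] F} {u0 v0 : ℤ} {ξ θ e e1 : F}
    (hp : p.Prime) (hq : q.Prime) (hp8 : p % 8 = 1) (hq8 : q % 8 = 7)
    (hb : B6 K (2 * p * q) s) (hS : algebraMap (𝓞 K) K S = s) (hτ : τ S = -S)
    (h2 : 2 * v0 ^ 2 - u0 ^ 2 = ((p * q : ℕ) : ℤ)) (h4 : (4 : ℤ) ∣ u0 - 1 - v0)
    (hX : XD7 K F (2 * p * q) s S τ ζ w z k v κ u0 v0 (nu7 u0 v0) ξ θ e e1)
    {T : (cQ F).Point}
    (hT : ∀ c, OddI c → PP z k v (Ideal.span {1 + S} * c) + PP z k v c =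
        T + if Ideal.absNorm c % 4 = 1 then 0 else W14.em F) :
    ∃ (L : Ideal (𝓞 F)) (Γ : Type) (_ : LinearOrderedCommGroupWithZero Γ)
      (V : Valuation F Γ) (wq c0 : M13 K), VL V L ∧ (q : 𝓞 F) ∈ L ∧
      V ((u0 : F) - (v0 : F) * θ) < 1 ∧ Ideal.absNorm (wq : Ideal (𝓞 K)) % 8 = 1 ∧
      Ideal.absNorm (c0 : Ideal (𝓞 K)) % 8 = 1 ∧
      cls (c0 : Ideal (𝓞 K)) * cls (c0 : Ideal (𝓞 K)) = cls (wq : Ideal (𝓞 K)) ∧
      ∀ c ∈ M13 K, PP z k v ((wq : Ideal (𝓞 K)) * cj τ c) + PP z k v c -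
        (T + if Ideal.absNorm c % 8 = 1 then W14.em F else 0) ∈ W5.E1 V := by
  have hpq8 : (p * q) % 8 = 7 := by rw [Nat.mul_mod, hp8, hq8]
  have ha16 : (2 * p * q) % 16 = 14 := by
    rw [mul_assoc]
    omega
  obtain ⟨huo, hve⟩ := inq_par hpq8 h2
  have hu0 : u0 ≠ 0 := by
    rintro rfl
    simp at huo
  have hq2 : q ≠ 2 := by omega
  have hpq : ¬ q ∣ p := by
    intro h
    rw [Nat.prime_dvd_prime_iff_eq hq hp] at h
    omega
  have ha0 : 2 * p * q ≠ 0 := mul_ne_zero (mul_ne_zero two_ne_zero hp.ne_zero) hq.ne_zero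
  have hua : u0.natAbs ≠ 0 := Int.natAbs_ne_zero.2 hu0
  -- (1)
  obtain ⟨L, Γ, iΓ, V, hV, hqL, hVuv⟩ := exists_L7 hb.sq hX (exists_b3 hp hq hp8 hq8 hb hS) hq hq2
    (dvd_mul_left _ _)
  have hM1 : 2 * (2 * p * q) * u0.natAbs ≠ 0 :=
    mul_ne_zero (mul_ne_zero two_ne_zero ha0) hua
  obtain ⟨b, t, hbo, hbM, hbs, hbS, hb16, hbj, hbin, hbnu⟩ := inert_x7 hb hS hτ hX hV hq hq2
    (dvd_mul_left _ _) hqL hM1
  have hnu := hbnu hVuv
  obtain ⟨N, hN⟩ : ∃ N, N = Ideal.absNorm b := ⟨_, rfl⟩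
  rw [← hN] at hbM hbs hb16 hbj hnu
  have hN0 : N ≠ 0 := by omega
  have hb0 : b ≠ 0 := by
    rintro rfl
    rw [map_zero] at hN
    exact hN0 hN
  have hbM2 : Nat.Coprime N (2 * (2 * p * q)) := Nat.Coprime.coprime_dvd_right ⟨_, rfl⟩ hbM
  -- (2)
  have hj1 : jacobiSym (N : ℕ) p = 1 := by
    have h1 := hbj p ⟨2 * q, by ring⟩ hpq
    rw [jacobiSym.quadratic_reciprocity_one_mod_four (by omega) (Nat.odd_iff.2 (by omega))] at h1
    exact h1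
  obtain ⟨C, hC⟩ := W14.genus hp hq hp8 hq8 hb hS hτ (b := b) (by rw [← hN]; omega)
    (by rw [← hN]; exact hj1)
  have hM2 : 2 * (2 * p * q) * N * u0.natAbs ≠ 0 :=
    mul_ne_zero (mul_ne_zero (mul_ne_zero two_ne_zero ha0) hN0) hua
  obtain ⟨c1, u, hc0, hcM, hcS, hcC⟩ := exists_prim7 hb hS C hM2
  obtain ⟨n, hn⟩ : ∃ n, n = Ideal.absNorm c1 := ⟨_, rfl⟩
  rw [← hn] at hcM
  have hcM1 : Nat.Coprime n (2 * (2 * p * q) * N) := Nat.Coprime.coprime_dvd_right ⟨_, rfl⟩ hcM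
  have hno : Odd n := by
    apply Nat.coprime_two_right.1
    exact Nat.Coprime.coprime_dvd_right ⟨2 * p * q * N * u0.natAbs, by ring⟩ hcM
  obtain ⟨x, y, hx, hy, hxy, hxyn, hNxt⟩ := exists_elq7 hb hS hτ (b := b) (c0 := c1)
    (by rw [← hN]; omega) (by rw [← hN]; exact hbM2) hbS (by rw [← hN, ← hn]; exact hcM1) hcS
    (by rw [hcC, hC])
  rw [← hN, ← hn] at hxyn
  rw [← hN] at hNxt
  have hcop : IsCoprime ((N : ℤ) * n) (u0 * (2 * v0 ^ 2 - u0 ^ 2)) := by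
    have k1 : Nat.Coprime N ((p * q) * u0.natAbs) :=
      Nat.Coprime.coprime_dvd_right ⟨2 * 2, by ring⟩ hbM
    have k2 : Nat.Coprime n ((p * q) * u0.natAbs) :=
      Nat.Coprime.coprime_dvd_right ⟨2 * 2 * N, by ring⟩ hcM
    have k3 : Nat.Coprime (N * n) ((u0 * (2 * v0 ^ 2 - u0 ^ 2)).natAbs) := by
      rw [h2, Int.natAbs_mul, Int.natAbs_natCast, mul_comm u0.natAbs]
      exact Nat.Coprime.mul_left k1 k2
    rw [Int.isCoprime_iff_gcd_eq_one]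
    have k4 : Int.gcd ((N : ℤ) * n) (u0 * (2 * v0 ^ 2 - u0 ^ 2)) =
        Nat.gcd (N * n) ((u0 * (2 * v0 ^ 2 - u0 ^ 2)).natAbs) := by
      rw [Int.gcd_def]
      congr 1
    rw [k4]
    exact k3
  have hfin := nu_final7 huo hve hx hy hxy (by
    rw [h2, ← hxyn]
    push_cast
    ring) hbs (by omega) hno hcop hNxt
  rw [hnu, mul_assoc, inq_sign huo hve h4, mul_one] at hfin
  have hn8 := inq_two hno hfin.symm
  -- (3)
  have hg : Ideal.absNorm (Ideal.span {1 + S}) = 1 + 2 * p * q := norm_g hb hS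
  have hg0 : (1 + S : 𝓞 K) ≠ 0 := by
    intro h0
    rw [h0, Ideal.span_singleton_eq_bot.2 rfl, Ideal.absNorm_bot] at hg
    omega
  have hgs : Ideal.span {1 + S} ≠ (0 : Ideal (𝓞 K)) := by
    intro h0
    exact hg0 (Ideal.span_singleton_eq_bot.1 h0)
  have hcg : ∀ c : Ideal (𝓞 K), c ≠ 0 → cls (Ideal.span {1 + S} * c) = cls c := by
    intro c hc
    rw [cls_mul hgs hc, cls_span hg0, one_mul]
  have hwn : Ideal.absNorm (Ideal.span {1 + S} * b) % 8 = 1 := by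
    rw [map_mul, hg, ← hN, Nat.mul_mod]
    have k1 : (1 + 2 * p * q) % 8 = 7 := by omega
    have k2 : N % 8 = 7 := by omega
    rw [k1, k2]
  obtain ⟨c0, hc8, hcc⟩ : ∃ c0 : Ideal (𝓞 K), Ideal.absNorm c0 % 8 = 1 ∧ cls c0 = C := by
    rcases hn8 with h8 | h8
    · exact ⟨c1, by rw [← hn]; exact h8, hcC⟩
    · refine ⟨Ideal.span {1 + S} * c1, ?_, ?_⟩
      · rw [map_mul, hg, ← hn, Nat.mul_mod, h8]
        have k1 : (1 + 2 * p * q) % 8 = 7 := by omega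
        rw [k1]
      · rw [hcg c1 hc0, hcC]
  refine ⟨L, Γ, iΓ, V, ⟨Ideal.span {1 + S} * b, Or.inl hwn⟩, ⟨c0, Or.inl hc8⟩, hV, hqL, hVuv, hwn,
    hc8, ?_, ?_⟩
  · show cls c0 * cls c0 = cls (Ideal.span {1 + S} * b)
    rw [hcc, hcg b hb0, hC]
  -- (4)
  · intro c hc
    have hco : OddI c := M13.odd hc
    have hcn := (norm_cj6 hb hS hτ c).1
    have hodd : OddI (b * cj τ c) := by
      unfold OddI at hbo hco ⊢
      rw [map_mul, hcn]
      exact hbo.mul hco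
    have k1 := hT (b * cj τ c) hodd
    have k2 : (if Ideal.absNorm (b * cj τ c) % 4 = 1 then (0 : (cQ F).Point) else W14.em F) =
        if Ideal.absNorm c % 8 = 1 then W14.em F else 0 := by
      rw [map_mul, hcn, ← hN]
      have k3 : N % 4 = 3 := by omega
      rcases hc with h8 | h8
      · have k4 : N * Ideal.absNorm c % 4 = 3 := by
          rw [Nat.mul_mod, k3]
          have k5 : Ideal.absNorm c % 4 = 1 := by omega
          rw [k5]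
        rw [if_neg (by omega), if_pos h8]
      · have k4 : N * Ideal.absNorm c % 4 = 1 := by
          rw [Nat.mul_mod, k3]
          have k5 : Ideal.absNorm c % 4 = 3 := by omega
          rw [k5]
        rw [if_pos k4, if_neg (by omega)]
    rw [k2] at k1
    show PP z k v (Ideal.span {1 + S} * b * cj τ c) + PP z k v c - _ ∈ W5.E1 V
    rw [mul_assoc, ← k1]
    have k6 : PP z k v (Ideal.span {1 + S} * (b * cj τ c)) + PP z k v c -
        (PP z k v (Ideal.span {1 + S} * (b * cj τ c)) + PP z k v (b * cj τ c)) =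
        -(PP z k v (b * cj τ c) - PP z k v c) := by abel
    rw [k6]
    exact neg_mem (hbin c hco)

end Pool.Agent.Work.MP_8efaaa_nt.Q7
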