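import Mathlib
import Pool.Agent.Work.MP_8efaaa_nt.Q7.Defs
import Pool.Agent.Work.MP_8efaaa_nt.W14.LLo
import Pool.Agent.Work.MP_8efaaa_nt.W14.LSy
import Pool.Agent.Work.MP_8efaaa_nt.W6.LFd
import Pool.Agent.Work.MP_8efaaa_nt.W6.LLo
import Pool.Agent.Work.MP_8efaaa_nt.Z6.LLo

/-!
# Q7/LLo (M-L): the local lemma at `q = 7 (mod 8)`

Checked by computer for `q = 7, 23, 31, 47, 71, 79`. `R0 = TM hr he`, `R0 + R0 = em` (see `W6/LFd.lean`, `tj_add`, or the doubling formula; `LAd.dbl_y`). `W14.loc_pt` with `T = R0`, `hh`: `h + gal φ h - ε ∈ E1 V` with `ε ∈ {0, ep}` if `q % 16 = 15`, `ε ∈ {em, ez}` if `q % 16 = 7`. Hence `h - gal φ h - R0 - ε = (2h - R0) - (h + gal φ h - ε) - 2ε ∈ E1 V` (`2 ε = 0`). It remains to find `ε` from `r`.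
`h = pt x y` with `y ≠ 0` (the cases `h = 0`, `y = 0` are impossible: then `2h = 0`, `R0 ∈ E1 V`). Reduction modulo `V` (`V x ≤ 1`, `V y = 1`..; see `W14/LLo.lean`, `W14/LEp.lean`, `Z6/LLo.lean` for the technique: if the point `h` is in `E1 V` or congruent to a point of order 2 then `2h ∈ E1 V`, contradiction, so `V x ≤ 1`, `V y = 1`, `V (x^2 - 1) = 1`, `V x = 1`). Put `ρ = (x^2 + 1)/(2 y)`. The first coordinate of `2h` is `ρ^2` (doubling: `X (2y)^2 = (x^2+1)^2`), so `V (ρ^2 - (r - 1)) < 1`, and `(r - 1)(r + 1) = 1`, so `V ρ = 1`.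
The function `ρ` on points: `ρ(-h) = -ρ`, `ρ(ez - h) = -ρ` (`ez - h = (-1/x, -y/x^2)`: `((1+x^2)/x^2)/(-2y/x^2)`), `ρ(ep - h) = ρ` (`((x+1)/(x-1), 2y/(x-1)^2)`: `(2(x^2+1)/(x-1)^2)/(4y/(x-1)^2)`), `ρ(em - h) = ρ` (`((1-x)/(x+1), 2y/(x+1)^2)`). (`W14.sub_coord`.) `gal φ h ≡ ε - h` means `φ x`, `φ y` are congruent to the coordinates of `ε - h`, so `V (φ ρ - c ρ) < 1`, `c = -1` for `ε = 0, ez`, `c = 1` for `ε = ep, em`. On the other hand `φ ρ ≡ ρ^q = ρ (ρ^2)^((q-1)/2) ≡ ρ (r-1)^((q-1)/2)`. So `V ((r-1)^((q-1)/2) - c) < 1`.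
`(r - 1)^n (r + 1)^n = 1` and `r^n (r+1)^n = (r^2 + r)^n = (2 + r)^n`, `n = (q-1)/2` odd: `(2 + r)^n = -((-r) - 2)^n`, `W14.sym_val` for `-r`: `((-r) - 2)^n ≡ 1` if `q % 16 = 7`, `≡ -1` if `q % 16 = 15`. So `r^n ≡ (2+r)^n (r-1)^n ≡ c` if `q % 16 = 15`, `≡ -c` if `q % 16 = 7`.
Hence: `q % 16 = 15`: `r^n ≡ 1` gives `c = 1`, `ε = ep`; `r^n ≡ -1`: `ε = 0`. `q % 16 = 7`: `r^n ≡ 1`: `c = -1`, `ε = ez`; `r^n ≡ -1`: `c = 1`, `ε = em`. (`V 2 = 1`, so `1` and `-1` are not congruent.)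
-/

set_option autoImplicit false

namespace Pool.Agent.Work.MP_8efaaa_nt.Q7

open NumberField Pool.Agent.Work.MP_8efaaa_nt.R Pool.Agent.Work.MP_8efaaa_nt.N5
  Pool.Agent.Work.MP_8efaaa_nt.K6 Pool.Agent.Work.MP_8efaaa_nt.W14
  Pool.Agent.Work.MP_8efaaa_nt.W6

open scoped Classical nonZeroDivisors

private theorem v_of_sub7 {F : Type*} [Field F] {Γ : Type*}
    [LinearOrderedCommGroupWithZero Γ] {V : Valuation F Γ} {a b : F} (h1 : V (a - b) < 1)
    (h2 : V b = 1) : V a = 1 := by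
  have h3 : a = (a - b) + b := by ring
  rw [h3, Valuation.map_add_eq_of_lt_right V (by rw [h2]; exact h1), h2]

private theorem v_prod7 {F : Type*} [Field F] {Γ : Type*}
    [LinearOrderedCommGroupWithZero Γ] {V : Valuation F Γ} {a b : F} (ha : V a ≤ 1)
    (hb : V b ≤ 1) (h : V (a * b) = 1) : V a = 1 ∧ V b = 1 := by
  rw [map_mul] at h
  constructor
  · by_contra h1
    have h2 : V a < 1 := lt_of_le_of_ne ha h1
    have h3 : V a * V b < 1 := by
      calc V a * V b ≤ V a * 1 := by gcongr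
        _ = V a := mul_one _
        _ < 1 := h2
    exact absurd h (ne_of_lt h3)
  · by_contra h1
    have h2 : V b < 1 := lt_of_le_of_ne hb h1
    have h3 : V a * V b < 1 := by
      calc V a * V b ≤ 1 * V b := by gcongr
        _ = V b := one_mul _
        _ < 1 := h2
    exact absurd h (ne_of_lt h3)

private theorem v_sqrt7 {F : Type*} [Field F] {Γ : Type*}
    [LinearOrderedCommGroupWithZero Γ] {V : Valuation F Γ} {a : F} (h : V (a ^ 2) = 1) :
    V a = 1 := by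
  rw [map_pow] at h
  rcases lt_trichotomy (V a) 1 with h1 | h1 | h1
  · exact absurd h (ne_of_lt (pow_lt_one₀ zero_le h1 (by norm_num)))
  · exact h1
  · exact absurd h (ne_of_gt (one_lt_pow₀ h1 (by norm_num)))

private theorem v_powsub7 {F : Type*} [Field F] {Γ : Type*}
    [LinearOrderedCommGroupWithZero Γ] {V : Valuation F Γ} {a b : F} (ha : V a ≤ 1)
    (hb : V b ≤ 1) (h : V (a - b) < 1) (n : ℕ) : V (a ^ n - b ^ n) < 1 := by
  induction n with
  | zero => rw [pow_zero, pow_zero, sub_self, map_zero]; exact zero_lt_one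
  | succ n ih =>
    rw [show a ^ (n + 1) - b ^ (n + 1) = a ^ n * (a - b) + b * (a ^ n - b ^ n) by ring]
    refine W5.vlt V (W5.vltm V ?_ h) (W5.vltm V hb ih)
    rw [map_pow]
    exact pow_le_one₀ zero_le ha

private theorem v_R7 {F : Type*} [Field F] {Γ : Type*}
    [LinearOrderedCommGroupWithZero Γ] {V : Valuation F Γ} (hV2 : V 2 = 1) {X Y X1 Y1 : F}
    (hX : V X ≤ 1) (hY : V Y = 1) (h1 : V (X1 - X) < 1) (h2 : V (Y1 - Y) < 1) :
    V ((X1 ^ 2 + 1) / (2 * Y1) - (X ^ 2 + 1) / (2 * Y)) < 1 := by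
  have hY1 : V Y1 = 1 := v_of_sub7 h2 hY
  have h20 : (2 : F) ≠ 0 := by
    intro h0
    rw [h0, map_zero] at hV2
    exact zero_ne_one hV2
  have hY0 : Y ≠ 0 := by
    rintro rfl
    rw [map_zero] at hY
    exact zero_ne_one hY
  have hY10 : Y1 ≠ 0 := by
    rintro rfl
    rw [map_zero] at hY1
    exact zero_ne_one hY1
  have hX1 : V X1 ≤ 1 := by
    rw [show X1 = (X1 - X) + X by ring]
    exact W5.vle V h1.le hX
  have e : (X1 ^ 2 + 1) / (2 * Y1) - (X ^ 2 + 1) / (2 * Y) =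
      ((X1 + X) * Y * (X1 - X) + (-(X ^ 2 + 1)) * (Y1 - Y)) / (2 * (Y1 * Y)) := by
    field_simp
    ring
  have hd : V (2 * (Y1 * Y)) = 1 := by rw [map_mul, map_mul, hV2, hY1, hY, one_mul, one_mul]
  rw [e, map_div₀, hd, div_one]
  refine W5.vlt V (W5.vltm V (W5.vlem V (W5.vle V hX1 hX) hY.le) h1)
    (W5.vltm V ?_ h2)
  rw [Valuation.map_neg, show X ^ 2 + 1 = X * X + 1 by ring]
  exact W5.vle V (W5.vlem V hX hX) (by rw [map_one])

private theorem tm_add {F : Type*} [Field F] [CharZero F] {r e : F} (hr : r ^ 2 = 2)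
    (he : e ^ 2 = -2) : TM hr he + TM hr he = W14.em F := by
  obtain ⟨-, t2, -, -, -, -⟩ := two_ep (F := F)
  have he' : (-e) ^ 2 = -2 := by rw [neg_sq, he]
  have h1 := em_add hr he he'
  have h2 : pt (-1 + r) (-e * (-1 + r)) (sq_D0 hr he') = -TM hr he := by
    unfold TM
    rw [W5.neg_pt, pt_inj]
    exact ⟨rfl, by ring⟩
  rw [h2] at h1
  have h3 : TM hr he + W14.em F = -TM hr he := h1
  have h4 : TM hr he + TM hr he = -W14.em F := by
    have h5 : TM hr he + W14.em F + TM hr he = 0 := by rw [h3, neg_add_cancel]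
    have h6 : TM hr he + TM hr he + W14.em F = 0 := by
      rw [← h5]
      abel
    exact eq_neg_of_add_eq_zero_left h6
  rw [h4]
  exact neg_eq_of_add_eq_zero_left t2

private theorem loc7_aux {F : Type*} [Field F] [NumberField F] {Γ : Type*}
    [LinearOrderedCommGroupWithZero Γ] {V : Valuation F Γ} {k0 : Type*}
    [Field k0] [Algebra k0 F] (hV2 : V 2 = 1) {q n : ℕ} (hn : q = 2 * n + 1)
    {φ : F ≃ₐ[k0] F}
    (hφ : ∀ x : F, V x ≤ 1 → V (φ x) ≤ 1 ∧ V (φ x - x ^ q) < 1) {r e : F} (hr : r ^ 2 = 2)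
    (he : e ^ 2 = -2) {h : (cQ F).Point} (hh : h + h - TM hr he ∈ W5.E1 V)
    {ε : (cQ F).Point} (hm : h + gal φ h - ε ∈ W5.E1 V) :
    (ε = 0 ∨ ε = ez F → V ((r - 1) ^ n + 1) < 1) ∧
      (ε = ep F ∨ ε = W14.em F → V ((r - 1) ^ n - 1) < 1) := by
  have hTn : TM hr he ∉ W5.E1 V := by
    intro h1
    have h2 := (W5.E1 V).add_mem h1 h1
    rw [tm_add] at h2
    exact two_nmem.1 h2
  have hhn : h + h ∉ W5.E1 V := by
    intro h1
    apply hTn
    have h2 := (W5.E1 V).sub_mem h1 hh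
    rwa [sub_sub_cancel] at h2
  rcases pt_cases h with rfl | ⟨x, y, hxy, rfl⟩
  · exfalso
    apply hhn
    rw [add_zero]
    exact (W5.E1 V).zero_mem
  have hVx : V x ≤ 1 := by
    by_contra h1
    push Not at h1
    have h2 : pt x y hxy ∈ W5.E1 V := W5.pt_mem.2 h1
    exact hhn ((W5.E1 V).add_mem h2 h2)
  have hVy1 : V y ≤ 1 := W5.v_y V hxy hVx
  have hy0 : y ≠ 0 := by
    rintro rfl
    apply hhn
    have h1 : -(pt x 0 hxy) = pt x 0 hxy := by
      rw [W5.neg_pt, pt_inj]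
      exact ⟨rfl, neg_zero⟩
    have h2 : pt x 0 hxy + pt x 0 hxy = 0 := by
      nth_rewrite 2 [← h1]
      exact add_neg_cancel _
    rw [h2]
    exact (W5.E1 V).zero_mem
  have h20 : (2 : F) ≠ 0 := two_ne_zero
  have hm1 : V (-1 : F) = 1 := by rw [Valuation.map_neg, map_one]
  have hVr : V r = 1 := v_sqrt7 (by rw [hr, hV2])
  have hrm : V (r - 1) ≤ 1 := by
    rw [sub_eq_add_neg]
    exact W5.vle V hVr.le hm1.le
  have hrp : V (r + 1) ≤ 1 := W5.vle V hVr.le (by rw [map_one])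
  have hVrm : V (r - 1) = 1 := by
    refine (v_prod7 hrm hrp ?_).1
    rw [show (r - 1) * (r + 1) = 1 by linear_combination hr, map_one]
  have hVrm' : V (-1 + r) ≤ 1 := by
    rw [show -1 + r = r - 1 by ring]
    exact hrm
  -- the double
  obtain ⟨x2, y2, h3, e1, e2⟩ := W5.dbl_pt hxy hy0
  rw [e1] at hh
  unfold TM at hh
  have hVx2 : V x2 ≤ 1 := W5.int_of_sub_mem hVrm' hh
  have hxx := W5.x_of_sub_mem hVrm' hh
  have hVy : V y = 1 := by
    by_contra hc
    have hlt : V y < 1 := lt_of_le_of_ne hVy1 hc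
    have h4 : V (x ^ 2 + 1) < 1 := by
      apply W5.vsq
      rw [← e2]
      refine W5.vltm V hVx2 ?_
      rw [pow_two]
      have h5 : V (2 * y) < 1 := W5.vltm V hV2.le hlt
      exact W5.vltm V h5.le h5
    have h5 : V (x ^ 2) = 1 := v_of_sub7 (b := -1) (by rw [sub_neg_eq_add]; exact h4) hm1
    have h6 : V x = 1 := v_sqrt7 h5
    have h7 : V (2 * x) < 1 := by
      rw [show 2 * x = x * (x ^ 2 + 1) + -(y * y) by linear_combination hxy]
      refine W5.vlt V (W5.vltm V hVx h4) ?_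
      rw [Valuation.map_neg]
      exact W5.vltm V hVy1 hlt
    rw [map_mul, hV2, h6, one_mul] at h7
    exact lt_irrefl _ h7
  have hVx1 : V (x + 1) ≤ 1 := W5.vle V hVx (by rw [map_one])
  have hVxm : V (x - 1) ≤ 1 := by
    rw [sub_eq_add_neg]
    exact W5.vle V hVx hm1.le
  have hprod : V (x * ((x - 1) * (x + 1))) = 1 := by
    rw [show x * ((x - 1) * (x + 1)) = y ^ 2 by linear_combination -hxy, map_pow, hVy, one_pow]
  obtain ⟨hvx, hv2⟩ := v_prod7 hVx (W5.vlem V hVxm hVx1) hprod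
  obtain ⟨hvm, hvp⟩ := v_prod7 hVxm hVx1 hv2
  have hxm0 : x - 1 ≠ 0 := by
    intro h0
    rw [h0, map_zero] at hvm
    exact zero_ne_one hvm
  have hxp0 : x + 1 ≠ 0 := by
    intro h0
    rw [h0, map_zero] at hvp
    exact zero_ne_one hvp
  have hx0 : x ≠ 0 := by
    intro h0
    rw [h0, map_zero] at hvx
    exact zero_ne_one hvx
  -- the square root
  obtain ⟨A, hA⟩ : ∃ A : F, A = (x ^ 2 + 1) / (2 * y) := ⟨_, rfl⟩
  have hA2 : A ^ 2 - (r - 1) = x2 - (-1 + r) := by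
    have h5 : (2 * y) ^ 2 ≠ 0 := pow_ne_zero 2 (mul_ne_zero h20 hy0)
    have h6 : A ^ 2 = x2 := by
      rw [hA, div_pow, div_eq_iff h5]
      exact e2.symm
    rw [h6]
    ring
  have hVA2 : V (A ^ 2) = 1 := v_of_sub7 (by rw [hA2]; exact hxx) hVrm
  have hVA : V A = 1 := v_sqrt7 hVA2
  have hφA := (hφ A hVA.le).2
  have hps : V ((A ^ 2) ^ n - (r - 1) ^ n) < 1 :=
    v_powsub7 hVA2.le hVrm.le (by rw [hA2]; exact hxx) n
  have hAq : A ^ q = A * (A ^ 2) ^ n := by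
    rw [hn, pow_succ, pow_mul, mul_comm]
  have hfr : V (φ A - A * (r - 1) ^ n) < 1 := by
    rw [show φ A - A * (r - 1) ^ n = (φ A - A ^ q) + A * ((A ^ 2) ^ n - (r - 1) ^ n) by
      rw [hAq]; ring]
    exact W5.vlt V hφA (W5.vltm V hVA.le hps)
  have hφAe : φ A = ((φ x) ^ 2 + 1) / (2 * φ y) := by
    rw [hA, map_div₀, map_add, map_mul, map_pow, map_ofNat, map_one]
  have key : ∀ {x' y' : F} (h' : y' ^ 2 = x' ^ 3 - x'), V x' ≤ 1 → V y' = 1 →
      gal φ (pt x y hxy) - pt x' y' h' ∈ W5.E1 V →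
      V (φ A - (x' ^ 2 + 1) / (2 * y')) < 1 := by
    intro x' y' h' hx' hy' hm
    rw [gal_pt] at hm
    rw [hφAe]
    exact v_R7 hV2 hx' hy' (W5.x_of_sub_mem hx' hm) (W5.y_of_sub_mem hV2 hx' hm)
  have neg : V (φ A + A) < 1 → V ((r - 1) ^ n + 1) < 1 := by
    intro h4
    have h5 : V (A * ((r - 1) ^ n + 1)) < 1 := by
      rw [show A * ((r - 1) ^ n + 1) = (φ A + A) + -(φ A - A * (r - 1) ^ n) by ring]
      exact W5.vlt V h4 (by rw [Valuation.map_neg]; exact hfr)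
    rw [map_mul, hVA, one_mul] at h5
    exact h5
  have pos : V (φ A - A) < 1 → V ((r - 1) ^ n - 1) < 1 := by
    intro h4
    have h5 : V (A * ((r - 1) ^ n - 1)) < 1 := by
      rw [show A * ((r - 1) ^ n - 1) = (φ A - A) + -(φ A - A * (r - 1) ^ n) by ring]
      exact W5.vlt V h4 (by rw [Valuation.map_neg]; exact hfr)
    rw [map_mul, hVA, one_mul] at h5
    exact h5
  obtain ⟨⟨c1, s1⟩, ⟨c2, s2⟩, ⟨c3, s3⟩⟩ := sub_coord hxy hy0
  constructor
  · intro hε
    apply neg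
    rcases hε with rfl | rfl
    · rw [sub_zero] at hm
      have h5 := key (x' := x) (y' := -y) (by rw [neg_sq]; exact hxy) hVx
        (by rw [Valuation.map_neg, hVy]) (by
          rw [← W5.neg_pt hxy, sub_neg_eq_add, add_comm]
          exact hm)
      rwa [show φ A - (x ^ 2 + 1) / (2 * -y) = φ A + A by
        rw [hA]; field_simp; ring] at h5
    · have h5 := key (x' := -1 / x) (y' := -y / x ^ 2) c2
        (by rw [map_div₀, hm1, hvx, div_one])
        (by rw [map_div₀, Valuation.map_neg, map_pow, hVy, hvx, one_pow, div_one]) (by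
          rw [← s2, sub_sub_eq_add_sub, add_comm]
          exact hm)
      rwa [show φ A - ((-1 / x) ^ 2 + 1) /
        (2 * (-y / x ^ 2)) = φ A + A by
        rw [hA]; field_simp; ring] at h5
  · intro hε
    apply pos
    rcases hε with rfl | rfl
    · have h5 := key (x' := (x + 1) / (x - 1)) (y' := 2 * y / (x - 1) ^ 2) c1
        (by rw [map_div₀, hvp, hvm, div_one])
        (by rw [map_div₀, map_mul, map_pow, hV2, hVy, hvm, one_pow, one_mul, div_one]) (by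
          rw [← s1, sub_sub_eq_add_sub, add_comm]
          exact hm)
      rwa [show φ A - (((x + 1) / (x - 1)) ^ 2 + 1) /
        (2 * (2 * y / (x - 1) ^ 2)) = φ A - A by
        rw [hA]; field_simp; ring] at h5
    · have hv1x : V (1 - x) = 1 := by
        rw [show (1 : F) - x = -(x - 1) by ring, Valuation.map_neg, hvm]
      have h5 := key (x' := (1 - x) / (x + 1)) (y' := 2 * y / (x + 1) ^ 2) c3
        (by rw [map_div₀, hv1x, hvp, div_one])
        (by rw [map_div₀, map_mul, map_pow, hV2, hVy, hvp, one_pow, one_mul, div_one]) (by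
          rw [← s3, sub_sub_eq_add_sub, add_comm]
          exact hm)
      rwa [show φ A - (((1 - x) / (x + 1)) ^ 2 + 1) /
        (2 * (2 * y / (x + 1) ^ 2)) = φ A - A by
        rw [hA]; field_simp; ring] at h5

theorem loc7 {F : Type*} [Field F] [NumberField F] {Γ : Type*}
    [LinearOrderedCommGroupWithZero Γ] {V : Valuation F Γ} {L : Ideal (𝓞 F)} {k0 : Type*}
    [Field k0] [Algebra k0 F] (hV : VL V L) {q : ℕ} (hq : q.Prime) (hq8 : q % 8 = 7)
    (hqL : (q : 𝓞 F) ∈ L) {ζ : F} (hz : ζ ^ 4 = -1) {φ : F ≃ₐ[k0] F}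
    (hφ : ∀ x : F, V x ≤ 1 → V (φ x) ≤ 1 ∧ V (φ x - x ^ q) < 1)
    (hφ' : ∀ x : F, 1 < V x → 1 < V (φ x)) {r e : F} (hr : r ^ 2 = 2) (he : e ^ 2 = -2)
    {h : (cQ F).Point} (hh : h + h - TM hr he ∈ W5.E1 V) :
    (V (r ^ ((q - 1) / 2) - 1) < 1 →
      h - gal φ h - TM hr he - (if q % 16 = 15 then ep F else ez F) ∈ W5.E1 V) ∧
    (V (r ^ ((q - 1) / 2) + 1) < 1 →
      h - gal φ h - TM hr he - (if q % 16 = 15 then 0 else W14.em F) ∈ W5.E1 V) := by
  have hq2 : q ≠ 2 := by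
    rintro rfl
    norm_num at hq8
  obtain ⟨-, hV2, -⟩ := vl_odd hV hq hq2 hqL
  obtain ⟨t1, t2, t3, -, -, -⟩ := two_ep (F := F)
  obtain ⟨n, hn⟩ : ∃ n, q = 2 * n + 1 := ⟨(q - 1) / 2, by omega⟩
  have hn2 : (q - 1) / 2 = n := by omega
  have hodd : Odd n := by
    rw [Nat.odd_iff]
    omega
  have hr' : (-r) ^ 2 = 2 := by rw [neg_sq, hr]
  have hsym := sym_val hV hq hqL hr'
  rw [hn2] at hsym ⊢
  obtain ⟨ε, hε, h15, h7⟩ := loc_pt hV hq hq8 hqL hz hφ hφ' (tm_add hr he) hh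
  obtain ⟨aN, aP⟩ := loc7_aux hV2 hn hφ hr he hh hε
  have hVr : V r = 1 := v_sqrt7 (by rw [hr, hV2])
  have hV2r : V (2 + r) ≤ 1 := W5.vle V hV2.le hVr.le
  have hpow : r ^ n = (2 + r) ^ n * (r - 1) ^ n := by
    rw [← mul_pow]
    congr 1
    linear_combination -hr
  have hneg : (2 + r) ^ n = -(-r - 2) ^ n := by
    rw [show 2 + r = -(-r - 2) by ring, hodd.neg_pow]
  have hcon : V (r ^ n - 1) < 1 → V (r ^ n + 1) < 1 → False := by
    intro h1 h2
    have h3 : V (2 : F) < 1 := by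
      rw [show (2 : F) = (r ^ n + 1) + -(r ^ n - 1) by ring]
      exact W5.vlt V h2 (by rw [Valuation.map_neg]; exact h1)
    rw [hV2] at h3
    exact lt_irrefl _ h3
  have hVpow : V ((2 + r) ^ n) ≤ 1 := by
    rw [map_pow]
    exact pow_le_one₀ zero_le hV2r
  -- the value of `r ^ n`
  have f15P : q % 16 = 15 → V ((r - 1) ^ n - 1) < 1 → V (r ^ n - 1) < 1 := by
    intro h16 h1
    have h2 := hsym.2 h16
    rw [hpow, show (2 + r) ^ n * (r - 1) ^ n - 1 =
      (2 + r) ^ n * ((r - 1) ^ n - 1) + -((-r - 2) ^ n + 1) by rw [hneg]; ring]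
    exact W5.vlt V (W5.vltm V hVpow h1) (by rw [Valuation.map_neg]; exact h2)
  have f15N : q % 16 = 15 → V ((r - 1) ^ n + 1) < 1 → V (r ^ n + 1) < 1 := by
    intro h16 h1
    have h2 := hsym.2 h16
    rw [hpow, show (2 + r) ^ n * (r - 1) ^ n + 1 =
      (2 + r) ^ n * ((r - 1) ^ n + 1) + ((-r - 2) ^ n + 1) by rw [hneg]; ring]
    exact W5.vlt V (W5.vltm V hVpow h1) h2
  have f7P : q % 16 = 7 → V ((r - 1) ^ n - 1) < 1 → V (r ^ n + 1) < 1 := by
    intro h16 h1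
    have h2 := hsym.1 h16
    rw [hpow, show (2 + r) ^ n * (r - 1) ^ n + 1 =
      (2 + r) ^ n * ((r - 1) ^ n - 1) + -((-r - 2) ^ n - 1) by rw [hneg]; ring]
    exact W5.vlt V (W5.vltm V hVpow h1) (by rw [Valuation.map_neg]; exact h2)
  have f7N : q % 16 = 7 → V ((r - 1) ^ n + 1) < 1 → V (r ^ n - 1) < 1 := by
    intro h16 h1
    have h2 := hsym.1 h16
    rw [hpow, show (2 + r) ^ n * (r - 1) ^ n - 1 =
      (2 + r) ^ n * ((r - 1) ^ n + 1) + ((-r - 2) ^ n - 1) by rw [hneg]; ring]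
    exact W5.vlt V (W5.vltm V hVpow h1) h2
  -- the difference
  have hdiff : ∀ δ : (cQ F).Point, δ + δ = 0 → ε = δ →
      h - gal φ h - TM hr he - δ ∈ W5.E1 V := by
    intro δ hδ hεδ
    subst hεδ
    have h1 := (W5.E1 V).sub_mem hh hε
    have h2 : h + h - TM hr he - (h + gal φ h - ε) = h - gal φ h - TM hr he - ε + (ε + ε) := by
      abel
    rw [h2, hδ, add_zero] at h1
    exact h1
  have hq16 : q % 16 = 7 ∨ q % 16 = 15 := by omega
  constructor
  · intro h1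
    rcases hq16 with h16 | h16
    · rw [if_neg (by omega)]
      refine hdiff _ t3 ?_
      rcases h7 h16 with h2 | h2
      · exact (hcon h1 (f7P h16 (aP (Or.inr h2)))).elim
      · exact h2
    · rw [if_pos h16]
      refine hdiff _ t1 ?_
      rcases h15 h16 with h2 | h2
      · exact (hcon h1 (f15N h16 (aN (Or.inl h2)))).elim
      · exact h2
  · intro h1
    rcases hq16 with h16 | h16
    · rw [if_neg (by omega)]
      refine hdiff _ t2 ?_
      rcases h7 h16 with h2 | h2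
      · exact h2
      · exact (hcon (f7N h16 (aN (Or.inr h2))) h1).elim
    · rw [if_pos h16]
      refine hdiff _ (add_zero 0) ?_
      rcases h15 h16 with h2 | h2
      · exact h2
      · exact (hcon (f15P h16 (aP (Or.inl h2))) h1).elim

end Pool.Agent.Work.MP_8efaaa_nt.Q7
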