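import Mathlib
import Pool.Agent.Work.MP_8efaaa_nt.Q7.Defs
import Pool.Agent.Work.MP_8efaaa_nt.W6.JTw
import Pool.Agent.Work.MP_8efaaa_nt.W6.LFd
import Pool.Agent.Work.MP_8efaaa_nt.W6.GFr

/-!
# Q7/Tvl (M): the exact value of `T + em - R`

(1) `t_val`: `hT` for `c = 1`: `T = PP (1 + S) + PP 1`. MODEL: `pq_x6` in `W6/JTw.lean` (there `e8 x = -1` and the result is `TJ hJ`). Here `δ = 1 + S`, `x = y = 1`, `e8 1 = 1` in `hX.trx`; the result is `TJ hJ + ez = -TJ hJ` with `J = -(v (span {1+S}) * v 1)` (copy and adapt the proof: changing the sign of `z (span {δ} * c)` replaces `PP (δ c)` by `PP (δ c) + ez`).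
(2) `tj_add` (W6/LFd) with `r = -θ`: `TJ J + TM (-θ) e = TR (-θ)`, `e = J * (-θ)`, `e^2 = -2`; `tr_neg`: `TR (-θ) = TR θ + ez`. So `T + em - TR θ = TJ J + ez + em - TR θ = -(TR θ + ez - TJ J) + em` (`-ez = ez`) `= -TM + em = TM` because `TM + TM = em` (double: `tj_two` (`2 TJ = ez`), `2 TR = ep` (`W6.fr_T3`), so `2 TM = ep - ez = em`).
`r0_em`: `em_add` (W6/LFd).
-/

set_option autoImplicit false

namespace Pool.Agent.Work.MP_8efaaa_nt.Q7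

open NumberField Pool.Agent.Work.MP_8efaaa_nt.R Pool.Agent.Work.MP_8efaaa_nt.N5
  Pool.Agent.Work.MP_8efaaa_nt.K6 Pool.Agent.Work.MP_8efaaa_nt.W14
  Pool.Agent.Work.MP_8efaaa_nt.W6
open scoped Classical nonZeroDivisors

private theorem tv7_sq_T {F : Type*} [Field F] {c : F} (hc : c ^ 2 = -1) :
    (1 - c) ^ 2 = c ^ 3 - c := by
  linear_combination (1 - c) * hc

private theorem tv7_add_T {F : Type*} [Field F] [CharZero F] {X Y c : F} (h : Y ^ 2 = X ^ 3 - X)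
    (hc : c ^ 2 = -1) (hX : X ≠ c) (h1 : (-Y) ^ 2 = X ^ 3 - X) (h2 : (1 - c) ^ 2 = c ^ 3 - c) :
    ∃ (x y : F) (hxy : y ^ 2 = x ^ 3 - x), pt X (-Y) h1 + pt c (1 - c) h2 = pt x y hxy ∧
      x * (X - c) ^ 2 = c * (X + c) ^ 2 + 2 * (1 - c) * Y ∧
      y * (X - c) ^ 3 = (X + c) * ((1 - c) * (X + c) ^ 2 - 4 * Y) := by
  have hn : (cQ F).Nonsingular ((cQ F).addX X c ((cQ F).slope X c (-Y) (1 - c)))
      ((cQ F).addY X c (-Y) ((cQ F).slope X c (-Y) (1 - c))) :=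
    WeierstrassCurve.Affine.nonsingular_add (cQ_nonsingular.2 h1) (cQ_nonsingular.2 h2)
      (fun hc => hX hc.1)
  have hd : X - c ≠ 0 := sub_ne_zero.2 hX
  have hl : (cQ F).slope X c (-Y) (1 - c) * (X - c) = -Y - (1 - c) := by
    rw [WeierstrassCurve.Affine.slope_of_X_ne hX]
    field_simp
  have hx : (cQ F).addX X c ((cQ F).slope X c (-Y) (1 - c)) * (X - c) ^ 2 =
      c * (X + c) ^ 2 + 2 * (1 - c) * Y := by
    generalize (cQ F).slope X c (-Y) (1 - c) = lam at hl ⊢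
    simp only [WeierstrassCurve.Affine.addX, cQ]
    linear_combination (lam * (X - c) + (-Y - (1 - c))) * hl + h + (-X - 2 * c + 1) * hc
  refine ⟨_, _, cQ_nonsingular.1 hn, ?_, hx, ?_⟩
  · unfold pt
    rw [WeierstrassCurve.Affine.Point.add_of_X_ne hX]
  · unfold WeierstrassCurve.Affine.addY WeierstrassCurve.Affine.negAddY
    generalize hx3 : (cQ F).addX X c ((cQ F).slope X c (-Y) (1 - c)) = x3 at hx ⊢
    generalize hlam : (cQ F).slope X c (-Y) (1 - c) = lam at hl ⊢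
    simp only [WeierstrassCurve.Affine.negY, cQ]
    linear_combination (-(x3 * (X - c) ^ 2 - X * (X - c) ^ 2)) * hl -
      (-Y - (1 - c)) * hx + (2 - 2 * c) * h + (4 * X * Y + 2 * X * c - 2 * X + 2 * Y) * hc

private theorem tv7_R_eqs {F : Type*} [Field F] {X Y c x : F} (h : Y ^ 2 = X ^ 3 - X)
    (hc : c ^ 2 = -1) (hX : X ≠ c)
    (hx : x * (X - c) ^ 2 = c * (X + c) ^ 2 + 2 * (1 - c) * Y) :
    (x ^ 2 + 1) * (X - c) ^ 4 = 4 * c * Y * ((1 - c) * (X + c) ^ 2 - 4 * Y) ∧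
      (x ^ 2 - 1) * (2 * c * (1 - c) * Y) = -((X + c) ^ 2 * (x ^ 2 + 1)) := by
  have hE : (x ^ 2 + 1) * (X - c) ^ 4 = 4 * c * Y * ((1 - c) * (X + c) ^ 2 - 4 * Y) := by
    linear_combination (x * (X - c) ^ 2 + (c * (X + c) ^ 2 + 2 * (1 - c) * Y)) * hx +
      (4 * c ^ 2 + 8 * c + 4) * h + (X ^ 4 + 4 * X ^ 3 * c + 4 * X ^ 3 + 6 * X ^ 2 * c ^ 2 +
        4 * X * c ^ 3 - 8 * X * c - 4 * X + c ^ 4) * hc
  have hk : (1 - c) * (2 * c * Y * ((1 - c) * (X + c) ^ 2 - 4 * Y) - (X - c) ^ 4) =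
      -(((1 - c) * (X + c) ^ 2 - 4 * Y) * (X + c) ^ 2) := by
    linear_combination (8 * c ^ 2 - 8 * c) * h + (2 * X ^ 2 * Y * c - 4 * X ^ 2 * Y +
      4 * X * Y * c ^ 2 - 8 * X * Y * c - 8 * X * c ^ 2 + 8 * X * c + 2 * Y * c ^ 3 -
      4 * Y * c ^ 2) * hc
  refine ⟨hE, ?_⟩
  have hd : (X - c) ^ 4 ≠ 0 := pow_ne_zero _ (sub_ne_zero.2 hX)
  apply mul_right_cancel₀ hd
  linear_combination (2 * c * (1 - c) * Y + (X + c) ^ 2) * hE + 4 * c * Y * hk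


private theorem tv7_add_ez {F : Type*} [Field F] [CharZero F] {x y : F} (h : y ^ 2 = x ^ 3 - x) (hx : x ≠ 0)
    (h' : (y / x ^ 2) ^ 2 = (-1 / x) ^ 3 - -1 / x) :
    pt x y h + ez F = pt (-1 / x) (y / x ^ 2) h' := by
  have h1 : ((cQ F).addX x 0 ((cQ F).slope x 0 y 0)) = -1 / x := by
    rw [WeierstrassCurve.Affine.slope_of_X_ne hx]
    simp only [WeierstrassCurve.Affine.addX, cQ]
    field_simp
    linear_combination x * h
  have h2 : ((cQ F).addY x 0 y ((cQ F).slope x 0 y 0)) = y / x ^ 2 := by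
    unfold WeierstrassCurve.Affine.addY WeierstrassCurve.Affine.negAddY
    rw [h1, WeierstrassCurve.Affine.slope_of_X_ne hx]
    simp only [WeierstrassCurve.Affine.negY, cQ]
    field_simp
    ring
  unfold ez pt
  rw [WeierstrassCurve.Affine.Point.add_of_X_ne hx, WeierstrassCurve.Affine.Point.some.injEq]
  exact ⟨h1, h2⟩

private theorem tv7_mul {K : Type*} [Field K] [NumberField K] {b c : Ideal (𝓞 K)} (hb' : OddI b)
    (hc' : OddI c) : OddI (b * c) := by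
  unfold OddI at *
  rw [map_mul]
  exact hb'.mul hc'

private theorem tv7_one {K : Type*} [Field K] [NumberField K] : OddI (1 : Ideal (𝓞 K)) := by
  unfold OddI
  rw [map_one]
  exact odd_one

private theorem tv7_pq {K F : Type*} [Field K] [NumberField K] [Field F] [NumberField F]
    [Algebra K F] {a : ℕ} {s : K} {S : 𝓞 K} {τ : 𝓞 K ≃+* 𝓞 K} {ζ : F} {w : ℕ → F}
    {z k v : Ideal (𝓞 K) → F} {κ : F ≃ₐ[ℚ] F} {u0 v0 : ℤ} {nu : ℕ → ℤ → ℤ} {ξ θ e e1 : F}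
    (hb : B6 K a s) (hX : XD7 K F a s S τ ζ w z k v κ u0 v0 nu ξ θ e e1) {x y : ℤ} (hx : Odd x)
    (hy : Odd y) (hx8 : e8 x = 1) {δ : 𝓞 K} (hδ : algebraMap (𝓞 K) K δ = x + y * s)
    {c : Ideal (𝓞 K)} (hc : OddI c) (hJ : (-(v (Ideal.span {δ} * c) * v c)) ^ 2 = -1) :
    PP z k v (Ideal.span {δ} * c) + PP z k v c = TJ hJ + ez F := by
  have hU := hX.ud
  have hc' : OddI (Ideal.span {δ} * c) := tv7_mul ((oddI_span6 hb hδ).2 hx) hc
  obtain ⟨h1, h2⟩ := hU.trq x y δ hx hy hδ c hc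
  obtain ⟨-, htr⟩ := hX.trx x y δ hx hy hδ c hc
  rw [hx8] at htr
  unfold TJ
  generalize hcd : Ideal.span {δ} * c = c' at *
  obtain ⟨X, Y, h, e0, hY, hXX, -, -, gz, gk, hv, hu⟩ := pp_inv hU hc
  obtain ⟨x0, hx0⟩ : ∃ x0 : F, x0 = -(v c' * v c) := ⟨_, rfl⟩
  have hi : x0 ^ 2 = -1 := by
    rw [hx0]
    exact hJ
  have hXne : X ≠ x0 := by
    intro h3
    apply hXX
    rw [h3, hi]
    norm_num
  have hXp : X + x0 ≠ 0 := by
    intro h3
    apply hXX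
    linear_combination (X - x0) * h3 + hi
  have hd : X - x0 ≠ 0 := sub_ne_zero.2 hXne
  have hi0 : x0 ≠ 0 := by
    intro h3
    rw [h3] at hi
    norm_num at hi
  have h1' : (-Y) ^ 2 = X ^ 3 - X := by rw [neg_sq]; exact h
  obtain ⟨x1, y1, hxy, e3, ex, ey⟩ := tv7_add_T h hi hXne h1' (tv7_sq_T hi)
  obtain ⟨hE, hr⟩ := tv7_R_eqs h hi hXne ex
  -- the values at the point
  have hvY : v c * (X ^ 2 + 1) = 2 * Y := by
    apply mul_right_cancel₀ hY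
    linear_combination hv - 2 * h
  have hQ : (1 - x0) * (X + x0) ^ 2 - 4 * Y ≠ 0 := by
    intro h3
    rw [h3, mul_zero] at hE ey
    have h4 : x1 ^ 2 + 1 = 0 := (mul_eq_zero.1 hE).resolve_right (pow_ne_zero _ hd)
    have h5 : y1 = 0 := (mul_eq_zero.1 ey).resolve_right (pow_ne_zero _ hd)
    rw [h5] at hxy
    have h6 : x1 * 2 = 0 := by linear_combination x1 * h4 + hxy
    have h7 : x1 = 0 := (mul_eq_zero.1 h6).resolve_right two_ne_zero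
    rw [h7] at h4
    norm_num at h4
  have hyn : y1 ≠ 0 := by
    intro h3
    rw [h3, zero_mul] at ey
    rcases mul_eq_zero.1 ey.symm with h4 | h4
    · exact hXp h4
    · exact hQ h4
  have hx1 : x1 ^ 2 + 1 ≠ 0 := by
    intro h3
    rw [h3, zero_mul] at hE
    have h4 : 4 * x0 * Y ≠ 0 := mul_ne_zero (mul_ne_zero (by norm_num) hi0) hY
    rcases mul_eq_zero.1 hE.symm with h5 | h5
    · exact h4 h5
    · exact hQ h5
  have hv1 : v c' * (x1 ^ 2 + 1) = 2 * y1 := by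
    apply mul_right_cancel₀ (pow_ne_zero 4 hd)
    linear_combination v c' * hE - 2 * (X - x0) * ey -
      2 * x0 * ((1 - x0) * (X + x0) ^ 2 - 4 * Y) * v c' * hvY +
      2 * x0 * ((1 - x0) * (X + x0) ^ 2 - 4 * Y) * (X ^ 2 + 1) * hx0 -
      2 * ((1 - x0) * (X + x0) ^ 2 - 4 * Y) * X ^ 2 * hi
  have hv' : v c' * ((x1 ^ 2 + 1) * y1) = 2 * x1 * (x1 ^ 2 - 1) := by
    linear_combination y1 * hv1 + 2 * hxy
  have hU4 : (2 / z c' ^ 2 - 1) * (4 * Y ^ 2) = -x0 * (X ^ 4 - 6 * X ^ 2 + 1) := by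
    generalize 2 / z c' ^ 2 - 1 = U' at h2 ⊢
    generalize 2 / z c ^ 2 - 1 = U at h2 hu
    linear_combination -U' * (v c * (X ^ 2 + 1) + 2 * Y) * hvY +
      v c * (X ^ 2 + 1) ^ 2 * h2 + U * (X ^ 2 + 1) ^ 2 * hx0 - x0 * hu
  have hr2 : 8 * x0 * Y ^ 2 * (x1 ^ 2 - 1) ^ 2 = (X + x0) ^ 4 * (x1 ^ 2 + 1) ^ 2 := by
    linear_combination ((x1 ^ 2 - 1) * (2 * x0 * (1 - x0) * Y) - (X + x0) ^ 2 * (x1 ^ 2 + 1)) * hr -
      (4 * x0 ^ 2 - 8 * x0) * Y ^ 2 * (x1 ^ 2 - 1) ^ 2 * hi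
  have hu' : (2 / z c' ^ 2 - 1) * (x1 ^ 2 + 1) ^ 2 =
      2 * (x1 ^ 2 - 1) ^ 2 - (x1 ^ 2 + 1) ^ 2 := by
    have h8 : 8 * x0 * Y ^ 2 ≠ 0 := mul_ne_zero (mul_ne_zero (by norm_num) hi0) (pow_ne_zero _ hY)
    apply mul_left_cancel₀ h8
    generalize 2 / z c' ^ 2 - 1 = U' at hU4 ⊢
    linear_combination 2 * x0 * (x1 ^ 2 + 1) ^ 2 * hU4 - 2 * hr2 +
      (x1 ^ 2 + 1) ^ 2 * (8 * x0) * h + (x1 ^ 2 + 1) ^ 2 * (-2 * X ^ 4 - 8 * X * x0 -
        2 * x0 ^ 2) * hi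
  -- the exact value of `z`
  have hX1 : X ^ 2 - 1 ≠ 0 := by
    intro h3
    rw [h3, mul_zero] at gz
    exact hXX gz.symm
  have hz1 : z c' * (X + x0) ^ 2 = 2 * (1 + x0) * Y := by
    push_cast at htr
    linear_combination (X ^ 2 - 1) * htr - z c' * x0 * gk + z c' * hi +
      v c * (1 + x0) * gz + (1 + x0) * hvY +
      (z c' * k c * (X ^ 2 - 1) - v c * z c * (X ^ 2 - 1)) * hx0
  have hzR : z c' * (x1 ^ 2 - 1) = -(x1 ^ 2 + 1) := by
    apply mul_right_cancel₀ (pow_ne_zero 2 hXp)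
    linear_combination (x1 ^ 2 - 1) * hz1 + hr + 2 * Y * (x1 ^ 2 - 1) * hi
  have hneg : -(pt X Y h) = pt X (-Y) h1' := W5.neg_pt h
  have hsum : pt x1 y1 hxy + pt X Y h = pt x0 (1 - x0) (tv7_sq_T hi) := by
    rw [← e3, ← hneg]
    abel
  have hfin : PP z k v c' = pt x1 y1 hxy + ez F := by
    rcases pp_of_vu hU hc' hxy hyn hx1 hv' hu' with h9 | h9
    · exfalso
      obtain ⟨X', Y', hXY', e', -, -, -, -, gz', -, -, -⟩ := pp_inv hU hc'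
      rw [e', pt_inj] at h9
      rw [h9.1] at gz'
      have h5 : 2 * (x1 ^ 2 + 1) = 0 := by linear_combination hzR - gz'
      exact hx1 ((mul_eq_zero.1 h5).resolve_left two_ne_zero)
    · exact h9
  have hlast : pt x0 (1 - x0) (tv7_sq_T hi) = pt (-(v c' * v c)) (1 - -(v c' * v c)) (sq_TJ hJ) := by
    rw [pt_inj]
    exact ⟨hx0, by rw [hx0]⟩
  rw [e0, hfin, ← hlast, ← hsum]
  abel

theorem t_val {K F : Type*} [Field K] [NumberField K] [Field F] [NumberField F] [Algebra K F]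
    {a : ℕ} {s : K} {S : 𝓞 K} {τ : 𝓞 K ≃+* 𝓞 K} {ζ : F} {w : ℕ → F}
    {z k v : Ideal (𝓞 K) → F} {κ : F ≃ₐ[ℚ] F} {u0 v0 : ℤ} {nu : ℕ → ℤ → ℤ} {ξ θ e e1 : F}
    (hb : B6 K a s) (hS : algebraMap (𝓞 K) K S = s)
    (hX : XD7 K F a s S τ ζ w z k v κ u0 v0 nu ξ θ e e1) {T : (cQ F).Point}
    (hT : ∀ c, OddI c → PP z k v (Ideal.span {1 + S} * c) + PP z k v c =
        T + if Ideal.absNorm c % 4 = 1 then 0 else W14.em F) :
    ∃ (J : F) (hJ : J ^ 2 = -1), T = TJ hJ + ez F := by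
  have hδ : algebraMap (𝓞 K) K (1 + S) = ((1 : ℤ) : K) + ((1 : ℤ) : K) * s := by
    rw [map_add, map_one, hS]
    push_cast
    ring
  obtain ⟨h1, -⟩ := hX.trx 1 1 (1 + S) odd_one odd_one hδ 1 tv7_one
  have hJ : (-(v (Ideal.span {1 + S} * 1) * v 1)) ^ 2 = -1 := by
    rw [neg_sq]
    exact h1
  have h2 := tv7_pq hb hX odd_one odd_one (by decide) hδ tv7_one hJ
  have h3 := hT 1 tv7_one
  rw [map_one, if_pos (by norm_num), add_zero] at h3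
  exact ⟨_, hJ, by rw [← h3, h2]⟩

theorem r0_val {F : Type*} [Field F] [CharZero F] {T : (cQ F).Point}
    (hT : ∃ (J : F) (hJ : J ^ 2 = -1), T = TJ hJ + ez F) {θ : F} (hθ : θ ^ 2 = 2)
    (h2 : TR hθ + TR hθ = ep F) {τ1 : (cQ F).Point}
    (hτ : τ1 = T + W14.em F - TR hθ ∨ τ1 = T + W14.em F - TR hθ + W14.em F) :
    ∃ (r f : F) (hr : r ^ 2 = 2) (hf : f ^ 2 = -2), r = -θ ∧ τ1 = TM hr hf := by
  obtain ⟨J, hJ, hTJ⟩ := hT
  have hr : (-θ) ^ 2 = 2 := by rw [neg_sq, hθ]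
  have hf : (J * -θ) ^ 2 = -2 := by
    rw [mul_pow, hJ, hr]
    ring
  have hf' : (-(J * -θ)) ^ 2 = -2 := by rw [neg_sq, hf]
  obtain ⟨-, q2, q3, q4, q5, q6⟩ := two_ep (F := F)
  have h3 : TJ hJ + TM hr hf = TR hθ + ez F := (tj_add hJ hr hf).trans (tr_neg hθ hr)
  have h4 := tj_two hJ
  have h5 : TM hr hf = TR hθ + ez F - TJ hJ := by
    rw [← h3]
    abel
  have h6 : TM hr hf + TM hr hf = W14.em F := by
    have e1 : TM hr hf + TM hr hf = TR hθ + TR hθ + (ez F + ez F) - (TJ hJ + TJ hJ) := by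
      rw [h5]
      abel
    rw [e1, h2, h4, q3, add_zero]
    rw [sub_eq_iff_eq_add, q6]
  have h7 : T + W14.em F - TR hθ = TM hr hf := by
    have e1 : T + W14.em F - TR hθ = (ez F + ez F) + W14.em F - TM hr hf := by
      rw [hTJ, h5]
      abel
    rw [e1, q3, zero_add, ← h6]
    abel
  rcases hτ with h | h
  · exact ⟨-θ, J * -θ, hr, hf, rfl, h.trans h7⟩
  · refine ⟨-θ, -(J * -θ), hr, hf', rfl, ?_⟩
    rw [h, h7]
    exact em_add hr hf hf'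

end Pool.Agent.Work.MP_8efaaa_nt.Q7
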