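import Mathlib
import Pool.Agent.Work.MP_8efaaa_nt.Q7.Defs
import Pool.Agent.Work.MP_8efaaa_nt.Q7.Pre
import Pool.Agent.Work.MP_8efaaa_nt.Q7.C3a
import Pool.Agent.Work.MP_8efaaa_nt.Q7.Inq
import Pool.Agent.Work.MP_8efaaa_nt.Q7.Tvl
import Pool.Agent.Work.MP_8efaaa_nt.Q7.LLo
import Pool.Agent.Work.MP_8efaaa_nt.W6.GFr
import Pool.Agent.Work.MP_8efaaa_nt.W6.JFi
import Pool.Agent.Work.MP_8efaaa_nt.Z6.LLo
import Pool.Agent.Work.MP_8efaaa_nt.W14.LTo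

/-!
# Q7/C3 (M-L): the third condition

`T` from `V6.tq_px`, `R = TR hr`, `hr : (rr a S z v 1)^2 = 2` from `W6.fr_T3`, `rr a S z v 1 = θ` (`hX.rr`), `exists_pre7`. `exists_q`: `L`, `V`, `wq`, `c0`. `point_h`: `φ`, `τ1`, `h`. `t_val`, `r0_val`: `τ1 = TM hr' hf`, `r = -θ`, `r^2 = 2`. `n = (q-1)/2` odd.
`V (u0 - v0 θ) < 1`; `q ∤ v0` and `q ∤ u0`: otherwise `q` divides both (`2 v0^2 - u0^2 = p q`), then `q^2 ∣ p q`, impossible. `θ` is congruent to `u0 / v0`: `(v0 θ)^n ≡ u0^n` (`V (x^n - y^n) < 1` if `V (x - y) < 1`, `V x, V y ≤ 1`), `u0^n ≡ (u0/q)`, `v0^n ≡ (v0/q)` (Euler, `ZMod.euler_criterion`/`legendreSym.eq_pow`; integers divisible by `q` have `V < 1`), `(v0/q)^2 = 1`: `V (θ^n - jacobiSym (u0 v0) q) < 1`, `V (r^n + jacobiSym (u0 v0) q) < 1` (`n` odd).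
`loc7` (`hU.z8`, `V` of `2` is `1`): case `q % 16 = 15` (`(p q) % 16 = 15`): if `(u0 v0 / q) = -1` then `r^n ≡ 1`, so `h - gal φ h - τ1 - ep ∈ E1 V`, and with `point_h`: `(if cc (wp^(2j)) = 1 then 0 else ep) - ep ∈ E1 V`, so `cc (wp^(2j)) ≠ 1` (`ep ∉ E1 V`: W14/LTo or W5), so `e8 (N cp) = -1` (`w_iff`). If `(u0 v0 / q) = 1` then `r^n ≡ -1`, `cc (wp^(2j)) = 1`, `e8 (N cp) = 1`.
Case `q % 16 = 7`: `(u0 v0/q) = -1`: `r^n ≡ 1`: `.. - ez ∈ E1 V`, so `(if ..) ∈ E1 V`, `cc (wp^(2j)) = cc z0 * t`, `e8 (N cp) = 1`. `(u0 v0/q) = 1`: `r^n ≡ -1`: `.. - em ∈ E1 V`, `ez + (if ..) - em ∈ E1 V`, so it is `ep` (`ez + ep = em`, `ez ≠ em`), `e8 (N cp) = -1`.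
-/

set_option autoImplicit false

namespace Pool.Agent.Work.MP_8efaaa_nt.Q7

open NumberField Pool.Agent.Work.MP_8efaaa_nt.R Pool.Agent.Work.MP_8efaaa_nt.N5
  Pool.Agent.Work.MP_8efaaa_nt.K6 Pool.Agent.Work.MP_8efaaa_nt.W14
  Pool.Agent.Work.MP_8efaaa_nt.W6
open scoped Classical nonZeroDivisors

private theorem c3_powsub {F : Type*} [Field F] {Γ : Type*}
    [LinearOrderedCommGroupWithZero Γ] {V : Valuation F Γ} {a b : F} (ha : V a ≤ 1)
    (hb : V b ≤ 1) (h : V (a - b) < 1) (n : ℕ) : V (a ^ n - b ^ n) < 1 := by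
  induction n with
  | zero => rw [pow_zero, pow_zero, sub_self, map_zero]; exact zero_lt_one
  | succ n ih =>
    rw [show a ^ (n + 1) - b ^ (n + 1) = a ^ n * (a - b) + b * (a ^ n - b ^ n) by ring]
    refine W5.vlt V (W5.vltm V ?_ h) (W5.vltm V hb ih)
    rw [map_pow]
    exact pow_le_one₀ zero_le ha

private theorem c3_euler {q : ℕ} (hq : q.Prime) (hq2 : q % 2 = 1) (x : ℤ) :
    (q : ℤ) ∣ x ^ ((q - 1) / 2) - jacobiSym x q := by
  haveI := Fact.mk hq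
  rw [← jacobiSym.legendreSym.to_jacobiSym, ← ZMod.intCast_zmod_eq_zero_iff_dvd]
  push_cast
  rw [legendreSym.eq_pow, show (q - 1) / 2 = q / 2 by omega, sub_self]

private theorem c3_int {F : Type*} [Field F] [NumberField F] {Γ : Type*}
    [LinearOrderedCommGroupWithZero Γ] {V : Valuation F Γ} {L : Ideal (𝓞 F)} (hV : VL V L)
    (n : ℤ) : V (n : F) ≤ 1 := by
  have := hV.int (n : 𝓞 F)
  simpa using this

private theorem c3_dvd {F : Type*} [Field F] [NumberField F] {Γ : Type*}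
    [LinearOrderedCommGroupWithZero Γ] {V : Valuation F Γ} {L : Ideal (𝓞 F)} (hV : VL V L)
    {q : ℕ} (hq : V (q : F) < 1) {n : ℤ} (h : (q : ℤ) ∣ n) : V (n : F) < 1 := by
  obtain ⟨m, rfl⟩ := h
  push_cast
  rw [mul_comm]
  exact W5.vltm V (c3_int hV m) hq

private theorem c3_sq {q : ℕ} (hq : q.Prime) {x : ℤ} (hx : ¬ (q : ℤ) ∣ x) :
    jacobiSym x q * jacobiSym x q = 1 := by
  haveI := Fact.mk hq
  rw [← jacobiSym.legendreSym.to_jacobiSym]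
  have h := legendreSym.sq_one q (a := x) (by
    intro h0
    exact hx ((ZMod.intCast_zmod_eq_zero_iff_dvd x q).1 h0))
  rw [← pow_two]
  exact h

/-- the symbol of `θ` modulo `L` -/
theorem sym_theta {F : Type*} [Field F] [NumberField F] {Γ : Type*}
    [LinearOrderedCommGroupWithZero Γ] {V : Valuation F Γ} {L : Ideal (𝓞 F)} (hV : VL V L)
    {q : ℕ} (hq : q.Prime) (hq8 : q % 8 = 7) (hqL : (q : 𝓞 F) ∈ L) {u0 v0 : ℤ} {θ : F}
    (hu : ¬ (q : ℤ) ∣ u0) (hv : ¬ (q : ℤ) ∣ v0) (hθ : θ ^ 2 = 2)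
    (h : V ((u0 : F) - (v0 : F) * θ) < 1) :
    V ((-θ) ^ ((q - 1) / 2) + (jacobiSym (u0 * v0) q : F)) < 1 := by
  have hq2 : q ≠ 2 := by
    rintro rfl
    norm_num at hq8
  obtain ⟨-, hV2, hVq⟩ := vl_odd hV hq hq2 hqL
  obtain ⟨n, hn⟩ : ∃ n, n = (q - 1) / 2 := ⟨_, rfl⟩
  have hodd : Odd n := by
    rw [Nat.odd_iff]
    omega
  have hVθ : V θ ≤ 1 := W5.vsq_le V (by rw [hθ, hV2])
  obtain ⟨J1, hJ1⟩ : ∃ J1, J1 = jacobiSym u0 q := ⟨_, rfl⟩
  obtain ⟨J2, hJ2⟩ : ∃ J2, J2 = jacobiSym v0 q := ⟨_, rfl⟩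
  have e1 := c3_dvd hV hVq (c3_euler hq (by omega) u0)
  have e2 := c3_dvd hV hVq (c3_euler hq (by omega) v0)
  rw [← hn, ← hJ1] at e1
  rw [← hn, ← hJ2] at e2
  have e3 : V (((v0 : F) * θ) ^ n - (u0 : F) ^ n) < 1 := by
    refine c3_powsub (W5.vlem V (c3_int hV v0) hVθ) (c3_int hV u0) ?_ n
    rw [← Valuation.map_neg, neg_sub]
    exact h
  have e4 : ((J2 * J2 : ℤ) : F) = 1 := by
    rw [hJ2, c3_sq hq hv]
    push_cast
    rfl
  push_cast at e4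
  rw [← hn, jacobiSym.mul_left, ← hJ1, ← hJ2, hodd.neg_pow]
  have e5 : -θ ^ n + ((J1 * J2 : ℤ) : F) = (-(J2 : F)) * (((v0 : F) * θ) ^ n - (u0 : F) ^ n) +
      ((J2 : F) * θ ^ n) * ((v0 ^ n - J2 : ℤ) : F) + (-(J2 : F)) * ((u0 ^ n - J1 : ℤ) : F) := by
    push_cast
    rw [mul_pow]
    linear_combination θ ^ n * e4
  rw [e5]
  have hVJ : V (J2 : F) ≤ 1 := c3_int hV J2
  have hVJ' : V (-(J2 : F)) ≤ 1 := by rwa [Valuation.map_neg]
  refine W5.vlt V (W5.vlt V (W5.vltm V hVJ' e3) (W5.vltm V (W5.vlem V hVJ ?_) e2))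
    (W5.vltm V hVJ' e1)
  rw [map_pow]
  exact pow_le_one₀ zero_le hVθ

theorem cond3 {K F : Type*} [Field K] [NumberField K] [Field F] [NumberField F]
    [Algebra K F] [FiniteDimensional K F] [IsGalois K F] [IsGalois ℚ F] {p q : ℕ} {s : K}
    {S : 𝓞 K} {τ : 𝓞 K ≃+* 𝓞 K} {ζ : F} {w : ℕ → F} {z k v : Ideal (𝓞 K) → F}
    {κ : F ≃ₐ[ℚ] F} {u0 v0 : ℤ} {ξ θ e e1 : F}
    (hp : p.Prime) (hq : q.Prime) (hp16 : p % 16 = 1) (hq8 : q % 8 = 7)
    (hqp : jacobiSym q p = 1)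
    (hb : B6 K (2 * p * q) s) (hS : algebraMap (𝓞 K) K S = s) (hτ : τ S = -S)
    (h2 : 2 * v0 ^ 2 - u0 ^ 2 = ((p * q : ℕ) : ℤ)) (h4 : (4 : ℤ) ∣ u0 - 1 - v0)
    (hX : XD7 K F (2 * p * q) s S τ ζ w z k v κ u0 v0 (nu7 u0 v0) ξ θ e e1)
    (hnc : ¬ IsCongruent (2 * p * q)) {cp : Ideal (𝓞 K)} (hcp : OddI cp)
    (hcc : cls cp * cls cp = cls (r6 S p)) :
    e8 (Ideal.absNorm cp) = (if (p * q) % 16 = 15 then 1 else -1) * jacobiSym (u0 * v0) q := by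
  have hU := hX.ud
  have hp8 : p % 8 = 1 := by omega
  obtain ⟨T, hTT, hT⟩ := V6.tq_px hb hS hU
  obtain ⟨hr0, hRR, hR⟩ := fr_T3 hb hS hU
  have hth := hX.th
  have hrr := hX.rr
  subst hrr
  haveI : Fintype (CG S) := Fintype.ofFinite _
  obtain ⟨H, z0, z1, wp, bar, j, P⟩ := exists_pre7 hp hq hp8 hq8 hqp hb hS hτ hU hnc hTT hT hRR hR
  obtain ⟨L, Γ, iΓ, V, wq, c0, hV, hqL, hVuv, hwq, hc0, hc0q, hrel⟩ :=
    exists_q hp hq hp8 hq8 hb hS hτ h2 h4 hX hT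
  obtain ⟨φ, τ1, h, hφ1, hφ2, hτ1, hh, h15, h7⟩ := point_h hp hq hp16 hq8 hqp hb hS hτ hU P hV
    hqL hwq hc0 hc0q hrel
  obtain ⟨r, f, hr, hf, hrθ, hTM⟩ := r0_val (t_val hb hS hX hT) hr0 hRR hτ1
  rw [hTM] at hh h15 h7
  have hq2 : q ≠ 2 := by
    rintro rfl
    norm_num at hq8
  obtain ⟨-, hV2, hVq⟩ := vl_odd hV hq hq2 hqL
  obtain ⟨θ, hθ⟩ : ∃ θ, θ = rr (2 * p * q) S z v 1 := ⟨_, rfl⟩
  rw [← hθ] at hth hVuv hrθ
  have hVθ2 : V (θ ^ 2) = 1 := by rw [hth, hV2]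
  have hVθ : V θ ≤ 1 := W5.vsq_le V hVθ2.le
  have hVθ1 : V θ = 1 := by
    by_contra hne
    have h1 : V θ < 1 := lt_of_le_of_ne hVθ hne
    have h3 : V (θ ^ 2) < 1 := by
      rw [pow_two]
      exact W5.vltm V hVθ h1
    rw [hVθ2] at h3
    exact lt_irrefl _ h3
  have hpq : ¬ q ∣ p := by
    intro h1
    rw [Nat.prime_dvd_prime_iff_eq hq hp] at h1
    omega
  have hnot : ¬ ((q : ℤ) ∣ u0 ∧ (q : ℤ) ∣ v0) := by
    rintro ⟨⟨x, hx⟩, ⟨y, hy⟩⟩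
    have h1 : (q : ℤ) * ((q : ℤ) * (2 * y ^ 2 - x ^ 2)) = (q : ℤ) * (p : ℤ) := by
      have h3 := h2
      rw [hx, hy] at h3
      push_cast at h3
      linear_combination h3
    have h3 := mul_left_cancel₀ (by exact_mod_cast hq.ne_zero : (q : ℤ) ≠ 0) h1
    exact hpq (by exact_mod_cast Dvd.intro _ h3)
  have hv : ¬ (q : ℤ) ∣ v0 := by
    intro h1
    refine hnot ⟨?_, h1⟩
    refine dvd_of_v hV hq hqL ?_
    have e1 : (u0 : F) = ((u0 : F) - (v0 : F) * θ) + θ * (v0 : F) := by ring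
    rw [e1]
    exact W5.vlt V hVuv (W5.vltm V hVθ (c3_dvd hV hVq h1))
  have hu : ¬ (q : ℤ) ∣ u0 := by
    intro h1
    refine hnot ⟨h1, ?_⟩
    refine dvd_of_v hV hq hqL ?_
    have e1 : V ((v0 : F) * θ) < 1 := by
      have e2 : (v0 : F) * θ = (u0 : F) + -((u0 : F) - (v0 : F) * θ) := by ring
      rw [e2]
      exact W5.vlt V (c3_dvd hV hVq h1) (by rw [Valuation.map_neg]; exact hVuv)
    rwa [map_mul, hVθ1, mul_one] at e1
  have hsym := sym_theta hV hq hq8 hqL hu hv hth hVuv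
  rw [← hrθ] at hsym
  obtain ⟨l1, l2⟩ := loc7 hV hq hq8 hqL hU.z8 hφ1 hφ2 hr hf hh
  obtain ⟨-, -, nep⟩ := two_nmem (F := F) (V := V)
  obtain ⟨t1, t2, t3, t4, t5, t6⟩ := two_ep (F := F)
  obtain ⟨w1, w2, -, -⟩ := w_iff hp hq hp8 hq8 hb hS hτ hqp P.cj16 P.hz0 P.z0H P.z01 P.z11 P.z10
    P.two P.w8 P.w2 P.wpr hcp hcc
  have he8a : (Ideal.absNorm cp % 8 = 1 ∨ Ideal.absNorm cp % 8 = 7) →
      e8 (Ideal.absNorm cp : ℤ) = 1 := by
    intro h1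
    unfold e8
    rw [if_pos]
    omega
  have he8b : ¬ (Ideal.absNorm cp % 8 = 1 ∨ Ideal.absNorm cp % 8 = 7) →
      e8 (Ideal.absNorm cp : ℤ) = -1 := by
    intro h1
    unfold e8
    rw [if_neg]
    omega
  have hJ : jacobiSym (u0 * v0) q = 1 ∨ jacobiSym (u0 * v0) q = -1 := by
    rw [jacobiSym.mul_left]
    have a1 := c3_sq hq hu
    have a2 := c3_sq hq hv
    rcases mul_self_eq_one_iff.1 a1 with a1 | a1 <;> rcases mul_self_eq_one_iff.1 a2 with a2 | a2 <;>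
      rw [a1, a2] <;> norm_num
  have hpq16 : (p * q) % 16 = q % 16 := by
    rw [Nat.mul_mod, hp16, one_mul, Nat.mod_mod]
  generalize jacobiSym (u0 * v0) q = J at hsym hJ ⊢
  by_cases hc : (p * q) % 16 = 15
  · have hz1H := P.z1H.2 hc
    have g15 := h15 hc
    rw [if_pos hc]
    rw [if_pos (by omega)] at l1 l2
    rcases hJ with rfl | rfl
    · have b1 := l2 (by simpa using hsym)
      by_cases hcw : ccM K (wp ^ (2 * j)) = 1
      · rw [he8a ((w1 hz1H).1 hcw), one_mul]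
      · exfalso
        rw [if_neg hcw] at g15
        apply nep
        have b2 := AddSubgroup.sub_mem _ b1 g15
        have b3 : h - gal φ h - TM hr hf - 0 - (h - gal φ h - TM hr hf - ep F) = ep F := by abel
        rwa [b3] at b2
    · have b1 := l1 (by
        push_cast at hsym
        rw [sub_eq_add_neg]
        exact hsym)
      by_cases hcw : ccM K (wp ^ (2 * j)) = 1
      · exfalso
        rw [if_pos hcw] at g15
        apply nep
        have b2 := AddSubgroup.sub_mem _ g15 b1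
        have b3 : h - gal φ h - TM hr hf - 0 - (h - gal φ h - TM hr hf - ep F) = ep F := by abel
        rwa [b3] at b2
      · rw [he8b (fun h1 => hcw ((w1 hz1H).2 h1)), one_mul]
  · have hz1H : clM S z1 ∉ H := fun h1 => hc (P.z1H.1 h1)
    have g7 := h7 hc
    rw [if_neg hc]
    rw [if_neg (by omega)] at l1 l2
    rcases hJ with rfl | rfl
    · have b1 := l2 (by simpa using hsym)
      by_cases hcw : ccM K (wp ^ (2 * j)) = ccM K z0 * cls (r6 S 2)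
      · exfalso
        rw [if_pos hcw] at g7
        apply nep
        have b2 := AddSubgroup.sub_mem _ b1 g7
        have b3 : h - gal φ h - TM hr hf - W14.em F - (h - gal φ h - TM hr hf - ez F - 0) =
            W14.em F + ez F - (W14.em F + W14.em F) := by abel
        rwa [b3, t2, sub_zero, t6] at b2
      · rw [he8b (fun h1 => hcw ((w2 hz1H).2 h1)), mul_one]
    · have b1 := l1 (by
        push_cast at hsym
        rw [sub_eq_add_neg]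
        exact hsym)
      by_cases hcw : ccM K (wp ^ (2 * j)) = ccM K z0 * cls (r6 S 2)
      · rw [he8a ((w2 hz1H).1 hcw)]
        norm_num
      · exfalso
        rw [if_neg hcw] at g7
        apply nep
        have b2 := AddSubgroup.sub_mem _ b1 g7
        have b3 : h - gal φ h - TM hr hf - ez F - (h - gal φ h - TM hr hf - ez F - ep F) =
            ep F := by abel
        rwa [b3] at b2

end Pool.Agent.Work.MP_8efaaa_nt.Q7
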