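import Mathlib
import Pool.Agent.Work.MP_8efaaa_nt.W5.O.OLat
import Pool.Agent.Work.MP_8efaaa_nt.K6.ACj
import Pool.Agent.Work.MP_8efaaa_nt.K6.AFk
import Pool.Agent.Work.MP_8efaaa_nt.W6.AQu
import Pool.Agent.Work.MP_8efaaa_nt.W6.AFz

/-!
# Q7/AFz (S-M): the sign of the square root of `2` of the Fricke involution, `a = 14 (mod 16)`

MODEL: `ori_z6` in `W6/AFz.lean` (there `a = 6 (mod 16)`, `m = a/2 = 3 (mod 8)`, `e8 m = -1`, and the value is `-2√2`). Here `m = a/2 = 7 (mod 8)`, `e8 m = 1`, so `zc s (r6 S m) > 0` and the product is `+2√2`. Copy the private lemmas. (`Z6/DXr.lean`, `zc_pos`, is another model: `zc s (r6 S d) > 0` for `d ∣ a`, `d % 8 = 1 ∨ d % 8 = 7`; check whether it can be used: it has no hypothesis on `a % 16`.)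
-/

set_option autoImplicit false

namespace Pool.Agent.Work.MP_8efaaa_nt.Q7

open NumberField Pool.Agent.Work.CM Pool.Agent.Work.MP_8efaaa_nt.R
  Pool.Agent.Work.MP_8efaaa_nt.N5 Pool.Agent.Work.MP_8efaaa_nt.K6
open scoped Pointwise

variable {K : Type*} [Field K] [NumberField K] [Algebra K ℂ] {a : ℕ} {s : K} {S : 𝓞 K}

private theorem ak_smul {z y : ℂ} {S : Submodule ℤ ℂ} : y ∈ z • S ↔ ∃ x ∈ S, z * x = y := by
  rw [Submodule.mem_smul_pointwise_iff_exists]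
  rfl

private theorem ak_sq (hb : B6 K a s) : algebraMap K ℂ s ^ 2 = -(a : ℂ) := by
  rw [← map_pow, hb.sq, map_neg, map_natCast]

/-- the second lattice -/
private def MP (s : K) : Submodule ℤ ℂ := Submodule.span ℤ {8 * w6 s, 8 * 1}

private theorem mem_MP {z : ℂ} : z ∈ MP s ↔ ∃ m n : ℤ, z = m * (8 * w6 s) + n * 8 := by
  unfold MP
  rw [Submodule.mem_span_pair]
  refine exists_congr fun m => exists_congr fun n => ?_
  rw [zsmul_eq_mul, zsmul_eq_mul, mul_one]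
  exact eq_comm

private theorem ak_M1 (hb : B6 K a s) : M6 s 1 = Submodule.span ℤ {32 * w6 s, 1} := by
  have h1 : Lk6 s 5 = Submodule.span ℤ {32 * w6 s, 1} := by
    unfold Lk6
    norm_num
  rw [M6_eq, ← h1]
  apply sup_eq_left.2
  intro y hy
  obtain ⟨z, hz, rfl⟩ := ak_smul.1 hy
  obtain ⟨x, hx, rfl⟩ := mem_iv.1 hz
  obtain ⟨t, ht⟩ := hx 1 (by rw [Ideal.one_eq_top]; trivial)
  rw [map_one, mul_one] at ht
  rw [← ht]
  exact eight_mem_Lk6 hb le_rfl t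

private theorem ak_m (hb : B6 K a s) : ∃ k : ℕ, a / 2 = 4 * k + 3 ∧ a = 8 * k + 6 := by
  have := hb.mod
  exact ⟨a / 8, by omega, by omega⟩

private theorem ak_lat (hb : B6 K a s) (hS : algebraMap (𝓞 K) K S = s) :
    (algebraMap K ℂ s / (2 * ((a / 2 : ℕ) : ℂ))) • MP s = M6 s (r6 S (a / 2)) := by
  obtain ⟨k, hk, hka⟩ := ak_m hb
  rw [hk]
  have hkC : (a : ℂ) = 8 * k + 6 := by exact_mod_cast hka
  have hkK : (a : K) = 8 * k + 6 := by exact_mod_cast hka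
  have hsq := ak_sq hb
  have hsq' := hb.sq
  have hm0 : (4 * (k : ℂ) + 3) ≠ 0 := by
    have : ((4 * k + 3 : ℕ) : ℂ) ≠ 0 := Nat.cast_ne_zero.2 (by omega)
    push_cast at this
    exact this
  have hm0' : (4 * (k : K) + 3) ≠ 0 := by
    have : ((4 * k + 3 : ℕ) : K) ≠ 0 := Nat.cast_ne_zero.2 (by omega)
    push_cast at this
    exact this
  have hw : 8 * w6 s = algebraMap K ℂ s := by
    unfold w6
    ring
  have h1M : (1 : ℂ) ∈ M6 s (r6 S (4 * k + 3)) := by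
    unfold M6 La6
    exact Submodule.mem_sup_left (Submodule.subset_span (by simp))
  have h4M : 2 ^ 3 * (algebraMap K ℂ s / 2) ∈ M6 s (r6 S (4 * k + 3)) := by
    unfold M6 La6
    exact Submodule.mem_sup_left (Submodule.subset_span (by simp))
  have hiv : algebraMap K ℂ s / (4 * k + 3) ∈ iv (r6 S (4 * k + 3)) := by
    refine mem_iv.2 ⟨s / (4 * k + 3), fun y hy => ?_, ?_⟩
    · unfold r6 at hy
      obtain ⟨α, β, rfl⟩ := Ideal.mem_span_pair.1 hy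
      refine ⟨α * S - β * 2, ?_⟩
      simp only [map_add, map_mul, map_sub, map_ofNat, map_natCast, hS]
      push_cast
      field_simp
      linear_combination (-(algebraMap (𝓞 K) K β)) * hsq' + (algebraMap (𝓞 K) K β) * hkK
    · rw [map_div₀, map_add, map_mul, map_natCast, map_ofNat, map_ofNat]
  have h8M : 8 * (algebraMap K ℂ s / (4 * k + 3)) ∈ M6 s (r6 S (4 * k + 3)) := by
    unfold M6
    exact Submodule.mem_sup_right (ak_smul.2 ⟨_, hiv, rfl⟩)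
  apply le_antisymm
  · intro y hy
    obtain ⟨x, hx, rfl⟩ := ak_smul.1 hy
    obtain ⟨m, n, rfl⟩ := mem_MP.1 hx
    have e : algebraMap K ℂ s / (2 * ((4 * k + 3 : ℕ) : ℂ)) * (m * (8 * w6 s) + n * 8) =
        (-m) • (1 : ℂ) + (n • (2 ^ 3 * (algebraMap K ℂ s / 2)) +
          (-(n * (2 * k + 1))) • (8 * (algebraMap K ℂ s / (4 * k + 3)))) := by
      rw [zsmul_eq_mul, zsmul_eq_mul, zsmul_eq_mul, hw]
      push_cast
      field_simp
      linear_combination (m : ℂ) * hsq - (m : ℂ) * hkC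
    rw [e]
    exact Submodule.add_mem _ (Submodule.smul_mem _ _ h1M)
      (Submodule.add_mem _ (Submodule.smul_mem _ _ h4M) (Submodule.smul_mem _ _ h8M))
  · intro y hy
    unfold M6 La6 at hy
    obtain ⟨u, hu, v, hv, rfl⟩ := Submodule.mem_sup.1 hy
    obtain ⟨m, n, rfl⟩ := Submodule.mem_span_pair.1 hu
    obtain ⟨z, hz, rfl⟩ := ak_smul.1 hv
    obtain ⟨x, hxx, rfl⟩ := mem_iv.1 hz
    obtain ⟨T, hT⟩ := hxx S (Ideal.subset_span (by simp))
    obtain ⟨T', hT'⟩ := hxx ((4 * k + 3 : ℕ) : 𝓞 K) (Ideal.subset_span (by simp))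
    obtain ⟨p, q, hpq⟩ := coords6 hb T
    obtain ⟨p', q', hpq'⟩ := coords6 hb T'
    rw [hpq, hS] at hT
    rw [hpq', map_natCast] at hT'
    push_cast at hT'
    have hTC : (p : ℂ) + q * algebraMap K ℂ s = algebraMap K ℂ x * algebraMap K ℂ s := by
      have h3 := congrArg (algebraMap K ℂ) hT
      simpa only [map_add, map_mul, map_intCast] using h3
    have hTC' : (p' : ℂ) + q' * algebraMap K ℂ s = algebraMap K ℂ x * (4 * k + 3) := by
      have h3 := congrArg (algebraMap K ℂ) hT'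
      simpa only [map_add, map_mul, map_intCast, map_natCast, map_ofNat] using h3
    have h4 := lin_indep6 hb (p := -(q' * (8 * k + 6)) - (4 * k + 3) * p)
      (q := p' - (4 * k + 3) * q) (by
        push_cast
        linear_combination (algebraMap K ℂ s) * hTC' - (4 * (k : ℂ) + 3) * hTC
          - (q' : ℂ) * hsq + (q' : ℂ) * hkC)
    have h5 : (p' : ℂ) = (4 * k + 3) * q := by
      have h6 : (p' : ℚ) = (4 * k + 3) * q := by linarith [h4.2]
      exact_mod_cast h6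
    refine ak_smul.2 ⟨_, mem_MP.2 ⟨-n - 8 * q, (4 * k + 3) * m + 2 * q', rfl⟩, ?_⟩
    rw [zsmul_eq_mul, zsmul_eq_mul, hw]
    have h7 : algebraMap K ℂ x = ((4 * k + 3) * q + q' * algebraMap K ℂ s) / (4 * k + 3) := by
      rw [eq_div_iff hm0, ← hTC', h5]
    rw [h7]
    push_cast
    field_simp
    linear_combination (-(n : ℂ) - 8 * q) * hsq + ((n : ℂ) + 8 * q) * hkC

private theorem ak_odd (hb : B6 K a s) (hS : algebraMap (𝓞 K) K S = s) :
    OddI (r6 S (a / 2)) := by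
  unfold OddI
  obtain ⟨k, hk, hka⟩ := ak_m hb
  rw [norm_r6 hb hS ⟨2, by omega⟩, hk]
  exact ⟨2 * k + 1, by ring⟩

private theorem ak_one : OddI (1 : Ideal (𝓞 K)) := by
  unfold OddI
  rw [map_one]
  exact odd_one

private theorem w6_re (hb : B6 K a s) : (algebraMap K ℂ s).re = 0 ∧ algebraMap K ℂ s ≠ 0 := by
  have h := conj_s6 hb
  have h1 := congrArg Complex.re h
  rw [Complex.conj_re, Complex.neg_re] at h1
  refine ⟨by linarith, fun h2 => ?_⟩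
  have h3 := ak_sq hb
  rw [h2, zero_pow two_ne_zero] at h3
  have h4 : (a : ℂ) = 0 := by linear_combination h3
  exact hb.sf.ne_zero (Nat.cast_eq_zero.1 h4)

private theorem one_pos {v k z : ℝ} (h1 : (v * z) ^ 2 = 2 * k) (h2 : z ^ 2 = 1 + k ^ 2) (hv : v ≠ 0) (hz : z ≠ 0)
    (h3 : 2 - z ^ 2 ≠ 0) : 0 < 1 + v := by
  have hvz : 0 < (v * z) ^ 2 := by positivity
  have hk : 0 < k := by linarith
  have e : v ^ 2 * (1 + k ^ 2) = 2 * k := by
    rw [← h2]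
    linarith [h1, mul_pow v z 2]
  have hk1 : k ≠ 1 := by
    intro h
    apply h3
    rw [h2, h]
    norm_num
  have h4 : 0 < (k - 1) ^ 2 := by
    have : k - 1 ≠ 0 := sub_ne_zero.2 hk1
    positivity
  by_contra h5
  have h6 : v ≤ -1 := by linarith
  have h7 : 1 ≤ v ^ 2 := by nlinarith
  nlinarith [mul_le_mul_of_nonneg_right h7 (by positivity : (0 : ℝ) ≤ 1 + k ^ 2)]

private theorem fin_eq {z z' v v' k : ℝ} (hz : 0 < z) (hz' : 0 < z') (hv : 0 < 1 + v) (hv' : 0 < 1 + v')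
    (h1 : (v * z) ^ 2 = 2 * k) (h2 : z ^ 2 = 1 + k ^ 2) (h3 : v' * (1 + v ^ 2) * z ^ 2 = 2 - z ^ 2)
    (h4 : (2 - z' ^ 2) * (1 + v ^ 2) = 2 * v * z' ^ 2) :
    z * z' * ((1 + v) * (1 + v')) = 2 * Real.sqrt 2 := by
  have hR : 0 < z * z' * ((1 + v) * (1 + v')) :=
    mul_pos (mul_pos hz hz') (mul_pos hv hv')
  have e0 : z ^ 2 * (1 + v ^ 2) ≠ 0 := by positivity
  have e1 : z' ^ 2 * (1 + v) ^ 2 = 2 * (1 + v ^ 2) := by linear_combination -h4
  have e2 : z ^ 2 * (1 + v ^ 2) * (1 + v') = 2 * (1 + k) := by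
    linear_combination h3 + h1
  have e3 : z ^ 2 * (1 + v ^ 2) = (1 + k) ^ 2 := by
    linear_combination h1 + h2
  have hR2 : (z * z' * ((1 + v) * (1 + v'))) ^ 2 = 8 := by
    apply mul_left_cancel₀ e0
    have e4 : z ^ 2 * (1 + v ^ 2) * (z * z' * ((1 + v) * (1 + v'))) ^ 2 =
        z ^ 2 * (1 + v ^ 2) * z ^ 2 * (1 + v') ^ 2 * (z' ^ 2 * (1 + v) ^ 2) := by ring
    rw [e4, e1]
    have e5 : z ^ 2 * (1 + v ^ 2) * z ^ 2 * (1 + v') ^ 2 * (2 * (1 + v ^ 2)) =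
        2 * (z ^ 2 * (1 + v ^ 2) * (1 + v')) ^ 2 := by ring
    rw [e5, e2, e3]
    ring
  have hs : Real.sqrt 2 ^ 2 = 2 := Real.sq_sqrt (by norm_num)
  have hs0 : 0 < Real.sqrt 2 := Real.sqrt_pos.2 (by norm_num)
  have h5 : (z * z' * ((1 + v) * (1 + v')) + 2 * Real.sqrt 2) * (z * z' * ((1 + v) * (1 + v')) - 2 * Real.sqrt 2) = 0 := by
    linear_combination hR2 - 4 * hs
  rcases mul_eq_zero.1 h5 with h6 | h6
  · linarith
  · linarith

theorem ori_z7 (hb : B6 K a s) (ha : a % 16 = 14) (hS : algebraMap (𝓞 K) K S = s) :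
    zc s 1 * zc s (r6 S (a / 2)) * ((1 + vc s 1) * (1 + vc s (r6 S (a / 2)))) =
      2 * ((Real.sqrt 2 : ℝ) : ℂ) := by
  obtain ⟨hre, hs0⟩ := w6_re hb
  have hm0 : ((a / 2 : ℕ) : ℂ) ≠ 0 := Nat.cast_ne_zero.2 (by omega)
  have hF1 : Fr (M6 s 1) (w6 s) := fr_M6 hb ak_one
  have hF2 : Fr (M6 s (r6 S (a / 2))) (w6 s) := fr_M6 hb (ak_odd hb hS)
  -- (1)
  obtain ⟨r1, hr1, hz1⟩ : ∃ r : ℝ, 0 < r ∧ zc s 1 = (r : ℂ) := by
    have h := W6.fz_pos (w := w6 s) (by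
      unfold w6
      have e : algebraMap K ℂ s / 8 = ((1 / 8 : ℝ) : ℂ) * algebraMap K ℂ s := by
        push_cast
        ring
      rw [e, Complex.re_ofReal_mul, hre, mul_zero]) (div_ne_zero hs0 (by norm_num))
    rw [← ak_M1 hb] at h
    exact h
  obtain ⟨r2, hr2, hz2⟩ : ∃ r : ℝ, 0 < r ∧ zc s (r6 S (a / 2)) = (r : ℂ) := by
    set w' := algebraMap K ℂ s / (8 * ((a / 2 : ℕ) : ℂ)) with hw'
    have hMM : M6 s (r6 S (a / 2)) = Submodule.span ℤ {32 * w', 1} := by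
      rw [← ak_lat hb hS]
      have hsq := ak_sq hb
      have ha2 : (a : ℂ) = 2 * ((a / 2 : ℕ) : ℂ) := by
        have : a = 2 * (a / 2) := by omega
        exact_mod_cast this
      ext z
      rw [ak_smul, W5.mem_sp]
      constructor
      · rintro ⟨x, hx, rfl⟩
        obtain ⟨m, n, rfl⟩ := mem_MP.1 hx
        refine ⟨n, -m, ?_⟩
        rw [hw']
        unfold w6
        push_cast
        field_simp
        rw [ha2] at hsq
        linear_combination (-(8 : ℂ) * m) * hsq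
      · rintro ⟨m, n, rfl⟩
        refine ⟨_, mem_MP.2 ⟨-n, m, rfl⟩, ?_⟩
        rw [hw']
        unfold w6
        push_cast
        field_simp
        rw [ha2] at hsq
        linear_combination (-(8 : ℂ) * n) * hsq
    obtain ⟨r, hr, hz⟩ := W6.fz_pos (w := w') (by
      have e : w' = ((1 / (8 * ((a / 2 : ℕ) : ℝ)) : ℝ) : ℂ) * algebraMap K ℂ s := by
        rw [hw']
        push_cast
        field_simp
      rw [e, Complex.re_ofReal_mul, hre, mul_zero]) (div_ne_zero hs0 (mul_ne_zero (by norm_num) hm0))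
    rw [← hMM] at hz
    have hw8 : w6 s = ((a / 2 : ℕ) : ℂ) * w' := by
      rw [hw']
      unfold w6
      field_simp
    have hFw : Fr (M6 s (r6 S (a / 2))) w' := by
      refine ⟨hF2.lat, ?_, fun h => hF2.nmem ?_⟩
      · rw [hMM]
        exact Submodule.subset_span (by simp)
      · rw [hw8]
        have e : 16 * (((a / 2 : ℕ) : ℂ) * w') = ((a / 2 : ℕ) : ℂ) * (16 * w') := by ring
        rw [e]
        exact natmul_mem h _
    obtain ⟨o1, -, -⟩ := f_odd hFw (d := (a / 2 : ℕ)) (w' := w6 s) (by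
      have : ((a / 2 : ℕ) : ℤ) % 2 = 1 := by omega
      exact Int.odd_iff.2 this) (by
      rw [Int.cast_natCast, hw8, sub_self]
      exact Submodule.zero_mem _)
    have he8 : e8 ((a / 2 : ℕ) : ℤ) = 1 := by
      unfold e8
      rw [if_pos]
      omega
    refine ⟨r, hr, ?_⟩
    unfold zc
    rw [o1, he8, hz]
    push_cast
    ring
  -- (2)
  obtain ⟨τ, hτ⟩ := exists_tau6 hb hS
  have cj1 : N5.cj τ (1 : Ideal (𝓞 K)) = 1 := by
    unfold N5.cj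
    rw [Ideal.one_eq_top, Ideal.map_top]
  have cjr := cj_r6 hb hS hτ (a / 2)
  obtain ⟨-, ck1, cv1⟩ := conj_val6 hb hS hτ (c := 1) ak_one
  obtain ⟨-, ck2, cv2⟩ := conj_val6 hb hS hτ (c := r6 S (a / 2)) (ak_odd hb hS)
  rw [cj1] at ck1 cv1
  rw [cjr] at ck2 cv2
  obtain ⟨v1, hv1⟩ : ∃ v : ℝ, vc s 1 = (v : ℂ) := ⟨_, (Complex.conj_eq_iff_re.1 cv1).symm⟩
  obtain ⟨v2, hv2⟩ : ∃ v : ℝ, vc s (r6 S (a / 2)) = (v : ℂ) := ⟨_, (Complex.conj_eq_iff_re.1 cv2).symm⟩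
  obtain ⟨k1, hk1⟩ : ∃ v : ℝ, kc s 1 = (v : ℂ) := ⟨_, (Complex.conj_eq_iff_re.1 ck1).symm⟩
  obtain ⟨k2, hk2⟩ : ∃ v : ℝ, kc s (r6 S (a / 2)) = (v : ℂ) := ⟨_, (Complex.conj_eq_iff_re.1 ck2).symm⟩
  have a1 : (vc s 1 * zc s 1) ^ 2 = 2 * kc s 1 := fvz_sq hF1
  have a2 : zc s 1 ^ 2 = 1 + kc s 1 ^ 2 := fz_sq hF1
  have a3 : 2 - zc s 1 ^ 2 ≠ 0 := fz_ne' hF1
  have a4 : vc s 1 ≠ 0 := fv_neE hF1
  have b1 : (vc s (r6 S (a / 2)) * zc s (r6 S (a / 2))) ^ 2 = 2 * kc s (r6 S (a / 2)) := fvz_sq hF2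
  have b2 : zc s (r6 S (a / 2)) ^ 2 = 1 + kc s (r6 S (a / 2)) ^ 2 := fz_sq hF2
  have b3 : 2 - zc s (r6 S (a / 2)) ^ 2 ≠ 0 := fz_ne' hF2
  have b4 : vc s (r6 S (a / 2)) ≠ 0 := fv_neE hF2
  obtain ⟨c1, c2⟩ := frk_one6 hb hS
  have hU1 : uc s 1 = 2 / zc s 1 ^ 2 - 1 := rfl
  have hU2 : uc s (r6 S (a / 2)) = 2 / zc s (r6 S (a / 2)) ^ 2 - 1 := rfl
  rw [hU1, hz1, hv1, hv2] at c1
  rw [hU2, hz2, hv1] at c2
  rw [hz1, hv1, hk1] at a1
  rw [hz1, hk1] at a2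
  rw [hz1] at a3
  rw [hv1] at a4
  rw [hz2, hv2, hk2] at b1
  rw [hz2, hk2] at b2
  rw [hz2] at b3
  rw [hv2] at b4
  have a1' : (v1 * r1) ^ 2 = 2 * k1 := by exact_mod_cast a1
  have a2' : r1 ^ 2 = 1 + k1 ^ 2 := by exact_mod_cast a2
  have a3' : 2 - r1 ^ 2 ≠ 0 := by exact_mod_cast a3
  have a4' : v1 ≠ 0 := by exact_mod_cast a4
  have b1' : (v2 * r2) ^ 2 = 2 * k2 := by exact_mod_cast b1
  have b2' : r2 ^ 2 = 1 + k2 ^ 2 := by exact_mod_cast b2
  have b3' : 2 - r2 ^ 2 ≠ 0 := by exact_mod_cast b3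
  have b4' : v2 ≠ 0 := by exact_mod_cast b4
  have c1' : v2 * (1 + v1 ^ 2) = 2 / r1 ^ 2 - 1 := by exact_mod_cast c1
  have c2' : (2 / r2 ^ 2 - 1) * (1 + v1 ^ 2) = 2 * v1 := by exact_mod_cast c2
  have p1 := one_pos a1' a2' a4' hr1.ne' a3'
  have p2 := one_pos b1' b2' b4' hr2.ne' b3'
  have hr2' : r2 ≠ 0 := hr2.ne'
  have d1 : v2 * (1 + v1 ^ 2) * r1 ^ 2 = 2 - r1 ^ 2 := by
    rw [c1']
    field_simp
  have d2 : (2 - r2 ^ 2) * (1 + v1 ^ 2) = 2 * v1 * r2 ^ 2 := by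
    rw [← c2']
    field_simp
  have key := fin_eq hr1 hr2 p1 p2 a1' a2' d1 d2
  rw [hz1, hz2, hv1, hv2]
  exact_mod_cast key

end Pool.Agent.Work.MP_8efaaa_nt.Q7
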