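import Mathlib
import Pool.Agent.Work.MP_8efaaa_nt.Q7.Defs
import Pool.Agent.Work.MP_8efaaa_nt.K6.CCx

/-!
# Q7/DFd (S-M): the field of the values

MODEL: `W6/DFd.lean` (`exists_cx6`; copy and adapt). The additional numbers in the finite set: `ξ` with `ξ^8 = -1`, `θ = (Real.sqrt 2 : ℂ)`, `e = (Real.sqrt (u0 + v0 √2) : ℂ)`: `u0 + v0 √2 > 0` because `v0 > 0` and `(u0 + v0√2)(v0√2 - u0) = m > 0`, `2 v0 √2 > 0` (if `u0 + v0 √2 ≤ 0` then `u0 < 0` and `v0 √2 - u0 > 0`, the product would be `≤ 0`). `e1 := algebraMap K F s / (e * θ)`: `e1^2 = -a / ((u0 + v0 θ) 2) = -m / (u0 + v0 θ) = u0 - v0 θ` (`(u0 + v0θ)(u0 - v0θ) = u0^2 - 2 v0^2 = -m`), `e e1 θ = s`. `m > 0` because `a ≠ 0`.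
-/

set_option autoImplicit false

namespace Pool.Agent.Work.MP_8efaaa_nt.Q7

open NumberField Pool.Agent.Work.CM Pool.Agent.Work.MP_8efaaa_nt.R Pool.Agent.Work.MP_8efaaa_nt.N5
  Pool.Agent.Work.MP_8efaaa_nt.K6

variable {K : Type*} [Field K] [NumberField K] [Algebra K ℂ] {a : ℕ} {s : K}

theorem exists_cx7 (hb : B6 K a s) {m : ℕ} (ham : a = 2 * m) {u0 v0 : ℤ}
    (hn : 2 * v0 ^ 2 - u0 ^ 2 = m) (hv : 0 < v0) : ∃ (F : IntermediateField K ℂ)
    (_ : FiniteDimensional K F) (_ : IsGalois K F) (_ : IsGalois ℚ F) (ζ : F) (w : ℕ → F)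
    (z k v : Ideal (𝓞 K) → F) (ξ θ e e1 : F), CX7 K F a s u0 v0 ζ w z k v ξ θ e e1 := by
  classical
  obtain ⟨T, hT, hfin⟩ := fin6 hb
  have ha0 : a ≠ 0 := hb.sf.ne_zero
  obtain ⟨ξ, hξ⟩ := IsAlgClosed.exists_pow_nat_eq (-1 : ℂ) (n := 8) (by norm_num)
  have hξa : IsAlgebraic K ξ := by
    refine ⟨Polynomial.X ^ 8 + 1, ?_, ?_⟩
    · exact (Polynomial.monic_X_pow_add_C (1 : K) (n := 8) (by norm_num)).ne_zero
    · simp [hξ]
  have hd2 : ∀ d : ℕ, (((Real.sqrt (d : ℝ) : ℝ) : ℂ)) ^ 2 = (d : ℂ) := by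
    intro d
    rw [← Complex.ofReal_pow, Real.sq_sqrt (Nat.cast_nonneg d)]
    simp
  have hda : ∀ d : ℕ, IsAlgebraic K ((Real.sqrt (d : ℝ) : ℝ) : ℂ) := by
    intro d
    refine ⟨Polynomial.X ^ 2 - Polynomial.C (d : K), ?_, ?_⟩
    · exact (Polynomial.monic_X_pow_sub_C (d : K) (n := 2) (by norm_num)).ne_zero
    · simp [hd2 d]
  -- the square root of `2`
  have hr2 : Real.sqrt 2 ^ 2 = 2 := Real.sq_sqrt (by norm_num)
  have hr0 : 0 < Real.sqrt 2 := Real.sqrt_pos.2 (by norm_num)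
  obtain ⟨θ, hθdef⟩ : ∃ θ : ℂ, θ = ((Real.sqrt 2 : ℝ) : ℂ) := ⟨_, rfl⟩
  have hθ2 : θ ^ 2 = 2 := by
    rw [hθdef, ← Complex.ofReal_pow, hr2]
    norm_num
  have hθa : IsAlgebraic K θ := by
    have h := hda 2
    rw [Nat.cast_ofNat] at h
    rw [hθdef]
    exact h
  -- positivity
  have hm0 : (0 : ℤ) < m := by
    have : m ≠ 0 := by
      rintro rfl
      exact ha0 (by rw [ham])
    exact_mod_cast Nat.pos_of_ne_zero this
  have hpos : 0 < (u0 : ℝ) + v0 * Real.sqrt 2 := by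
    have h1 : ((u0 : ℝ) + v0 * Real.sqrt 2) * (v0 * Real.sqrt 2 - u0) = m := by
      have h2 : (2 * (v0 : ℝ) ^ 2 - (u0 : ℝ) ^ 2) = m := by exact_mod_cast hn
      linear_combination (v0 : ℝ) ^ 2 * hr2 + h2
    have h3 : (0 : ℝ) < m := by exact_mod_cast hm0
    have h4 : 0 < (v0 : ℝ) * Real.sqrt 2 := mul_pos (by exact_mod_cast hv) hr0
    by_contra hcon
    push Not at hcon
    have h5 : 0 ≤ (v0 : ℝ) * Real.sqrt 2 - u0 := by linarith
    have h6 := mul_nonpos_of_nonpos_of_nonneg hcon h5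
    linarith
  obtain ⟨e, hedef⟩ : ∃ e : ℂ, e = ((Real.sqrt ((u0 : ℝ) + v0 * Real.sqrt 2) : ℝ) : ℂ) :=
    ⟨_, rfl⟩
  have he : e ^ 2 = (u0 : ℂ) + (v0 : ℂ) * θ := by
    rw [hedef, ← Complex.ofReal_pow, Real.sq_sqrt hpos.le, hθdef]
    push_cast
    rfl
  have he0 : e ≠ 0 := by
    rw [hedef]
    exact_mod_cast (Real.sqrt_pos.2 hpos).ne'
  have hθ0 : θ ≠ 0 := by
    rw [hθdef]
    exact_mod_cast hr0.ne'
  have hea : IsAlgebraic K e := by
    refine IsAlgebraic.of_pow (n := 2) (by norm_num) ?_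
    rw [he]
    exact (isAlgebraic_intCast u0).add ((isAlgebraic_intCast v0).mul hθa)
  obtain ⟨F, h1, h2, h3, hF⟩ := fin_gal_rat
    (insert ξ (insert θ (insert e
      (a.divisors.image (fun d : ℕ => ((Real.sqrt (d : ℝ) : ℝ) : ℂ)) ∪ T)))) (by
    intro z hz
    rcases Finset.mem_insert.1 hz with rfl | hz
    · exact hξa
    rcases Finset.mem_insert.1 hz with rfl | hz
    · exact hθa
    rcases Finset.mem_insert.1 hz with rfl | hz
    · exact hea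
    · rcases Finset.mem_union.1 hz with hz | hz
      · obtain ⟨d, _, rfl⟩ := Finset.mem_image.1 hz
        exact hda d
      · exact hT z hz)
  have hF' : ∀ z ∈ T, z ∈ F := fun z hz =>
    hF z (Finset.mem_insert_of_mem (Finset.mem_insert_of_mem (Finset.mem_insert_of_mem
      (Finset.mem_union_right _ hz))))
  have hξF : ξ ∈ F := hF ξ (Finset.mem_insert_self _ _)
  have hθF : θ ∈ F := hF θ (Finset.mem_insert_of_mem (Finset.mem_insert_self _ _))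
  have heF : e ∈ F := hF e (Finset.mem_insert_of_mem (Finset.mem_insert_of_mem
    (Finset.mem_insert_self _ _)))
  have hdF : ∀ d : ℕ, d ∣ a → ((Real.sqrt (d : ℝ) : ℝ) : ℂ) ∈ F := fun d hd =>
    hF _ (Finset.mem_insert_of_mem (Finset.mem_insert_of_mem (Finset.mem_insert_of_mem
      (Finset.mem_union_left _ (Finset.mem_image_of_mem _ (Nat.mem_divisors.2 ⟨hd, ha0⟩))))))
  have hEsq : (⟨e, heF⟩ : F) ^ 2 = (u0 : F) + (v0 : F) * ⟨θ, hθF⟩ := by
    apply Subtype.ext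
    simpa using he
  have hTsq : (⟨θ, hθF⟩ : F) ^ 2 = 2 := by
    have h4 : (algebraMap F ℂ) 2 = 2 := map_ofNat _ 2
    apply (algebraMap F ℂ).injective
    rw [map_pow, h4]
    exact hθ2
  have hE0 : (⟨e, heF⟩ : F) ≠ 0 := fun h => he0 (congrArg Subtype.val h)
  have hT0 : (⟨θ, hθF⟩ : F) ≠ 0 := fun h => hθ0 (congrArg Subtype.val h)
  have hS2 : (algebraMap K F s) ^ 2 = -(2 * (m : F)) := by
    rw [← map_pow, hb.sq, map_neg, map_natCast, ham]
    push_cast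
    rfl
  have hmF : ((2 * v0 ^ 2 - u0 ^ 2 : ℤ) : F) = (m : F) := by
    rw [hn]
    push_cast
    rfl
  refine ⟨F, h1, h2, h3, ⟨ξ, hξF⟩ ^ 2,
    fun d => if h : d ∣ a then ⟨((Real.sqrt (d : ℝ) : ℝ) : ℂ), hdF d h⟩ else 0,
    fun c => if h : OddI c then ⟨zc s c, hF' _ (hfin c h).1⟩ else 0,
    fun c => if h : OddI c then ⟨kc s c, hF' _ (hfin c h).2.1⟩ else 0,
    fun c => if h : OddI c then ⟨vc s c, hF' _ (hfin c h).2.2⟩ else 0,
    ⟨ξ, hξF⟩, ⟨θ, hθF⟩, ⟨e, heF⟩, algebraMap K F s / (⟨e, heF⟩ * ⟨θ, hθF⟩),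
    ⟨?_, ?_, ?_, ?_, ?_, ?_, ?_⟩, rfl, ?_, ?_, hEsq, ?_, ?_⟩
  · apply Subtype.ext
    have h4 : (ξ ^ 2) ^ 4 = -1 := by
      rw [← pow_mul]
      exact hξ
    simpa using h4
  · intro c hc
    simp only [dif_pos hc]
    rfl
  · intro c hc
    simp only [dif_pos hc]
    rfl
  · intro c hc
    simp only [dif_pos hc]
    rfl
  · refine ⟨T.preimage (Subtype.val : F → ℂ) Subtype.val_injective.injOn, fun c hc => ?_⟩
    simp only [dif_pos hc, Finset.mem_preimage]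
    exact hfin c hc
  · intro d hd
    simp only [dif_pos hd]
    apply Subtype.ext
    simpa using hd2 d
  · intro d hd
    simp only [dif_pos hd]
    exact Complex.conj_ofReal _
  · exact hθdef
  · change (starRingEnd ℂ) e = e
    rw [hedef]
    exact Complex.conj_ofReal _
  · rw [div_pow, mul_pow, hTsq, hS2]
    have hne : (⟨e, heF⟩ : F) ^ 2 * 2 ≠ 0 :=
      mul_ne_zero (pow_ne_zero 2 hE0) two_ne_zero
    rw [div_eq_iff hne, hEsq]
    push_cast at hmF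
    linear_combination (2 : F) * hmF + 2 * (v0 : F) ^ 2 * hTsq
  · rw [mul_right_comm, mul_div_cancel₀ _ (mul_ne_zero hE0 hT0)]

end Pool.Agent.Work.MP_8efaaa_nt.Q7
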