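import Mathlib
import Pool.Agent.Work.MP_8efaaa_nt.N5.CConj
import Pool.Agent.Work.MP_8efaaa_nt.W6.DUd
import Pool.Agent.Work.MP_8efaaa_nt.W6.ATx
import Pool.Agent.Work.MP_8efaaa_nt.Q7.DFd
import Pool.Agent.Work.MP_8efaaa_nt.Q7.DAc
import Pool.Agent.Work.MP_8efaaa_nt.Q7.AFz

/-!
# Q7/DXd (M): existence of the exact data

MODEL: `W6/DXd.lean` (`exists_xd6`; copy and adapt). `κ` = complex conjugation (`exists_conj`), all identities are checked after the injective `ι = algebraMap F ℂ`.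
`ud`: `ud6_conj`. `x16`, `sq`, `sq1`, `ee`: given (`CX7`). `kx`: as in the model. `th`: `ι θ = √2`. `rr`: `rr a S z v 1 = z 1 * z (r6 S (a/2) * 1) * ((1 + v 1) (1 + v (r6 S (a/2) * 1))) / 2` (definition in W6/Defs), `ori_z7`: the product is `2√2`. `kth`: `√2` is real. `ke`: `CX7.er`. `ke1`: apply `κ` to `e e1 θ = s`: `e (κ e1) θ = -s` (`UD6.cs`), cancel `e θ ≠ 0` (`s ≠ 0`).
`trx`: `tr_exact6` (no condition on `a` modulo `16`). `act4`: `act_prim7`.
-/

set_option autoImplicit false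

namespace Pool.Agent.Work.MP_8efaaa_nt.Q7

open NumberField Pool.Agent.Work.CM Pool.Agent.Work.MP_8efaaa_nt.R
  Pool.Agent.Work.MP_8efaaa_nt.N5 Pool.Agent.Work.MP_8efaaa_nt.K6
  Pool.Agent.Work.MP_8efaaa_nt.W6

universe u

private theorem dx7_oddm {K : Type*} [Field K] [NumberField K] {b c : Ideal (𝓞 K)} (hb : OddI b)
    (hc : OddI c) : OddI (b * c) := by
  unfold OddI at *
  rw [map_mul]
  exact hb.mul hc

private theorem dx7_odd1 {K : Type*} [Field K] [NumberField K] : OddI (1 : Ideal (𝓞 K)) := by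
  unfold OddI
  rw [Ideal.one_eq_top, Ideal.absNorm_top]
  exact odd_one

private theorem xd7_of {K : Type u} {F : Type} [Field K] [NumberField K] [Algebra K ℂ] [Field F]
    [NumberField F] [Algebra K F] [Algebra F ℂ] [IsScalarTower K F ℂ] [IsGalois K F]
    [IsGalois ℚ F] {a m : ℕ} {s : K} (hb : B6 K a s)
    (ha : a % 16 = 14) (ham : a = 2 * m) {S : 𝓞 K} (hS : algebraMap (𝓞 K) K S = s)
    {τ : 𝓞 K ≃+* 𝓞 K} (hτ : τ S = -S) {u0 v0 : ℤ} {nu : ℕ → ℤ → ℤ} (hL : Law7 m u0 v0 nu)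
    {ζ : F} {w : ℕ → F} {z k v : Ideal (𝓞 K) → F} {ξ θ e e1 : F}
    (h : CX7 K F a s u0 v0 ζ w z k v ξ θ e e1) :
    ∃ κ : F ≃ₐ[ℚ] F, XD7 K F a s S τ ζ w z k v κ u0 v0 nu ξ θ e e1 := by
  obtain ⟨κ, hκ⟩ := exists_conj (F := F)
  have inj : Function.Injective (algebraMap F ℂ) := (algebraMap F ℂ).injective
  have hm0 : 0 < m := by omega
  have haC : (a : ℂ) = 2 * m := by
    rw [ham]
    push_cast
    ring
  have hr2 : (algebraMap K ℂ s) ^ 2 = -(a : ℂ) := by
    rw [← map_pow, hb.sq, map_neg, map_natCast]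
  have hm0C : (m : ℂ) ≠ 0 := by exact_mod_cast hm0.ne'
  have hr0 : algebraMap K ℂ s ≠ 0 := by
    intro h0
    rw [h0, haC] at hr2
    apply hm0C
    linear_combination (1 / 2 : ℂ) * hr2
  set r := algebraMap K ℂ s with hr
  set T := algebraMap F ℂ θ with hT
  have hth : T = ((Real.sqrt 2 : ℝ) : ℂ) := h.th
  have hT2 : T ^ 2 = 2 := by
    rw [hth]
    have h1 : (Real.sqrt 2) ^ 2 = 2 := Real.sq_sqrt (by norm_num)
    exact_mod_cast h1
  have hTc : (starRingEnd ℂ) T = T := by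
    rw [hth, Complex.conj_ofReal]
  have hθ2 : θ ^ 2 = 2 := by
    apply inj
    rw [map_pow, map_ofNat, ← hT, hT2]
  have hκθ : κ θ = θ := by
    apply inj
    rw [hκ, ← hT, hTc]
  have hx16 : (algebraMap F ℂ ξ) ^ 16 = 1 := by
    rw [← map_pow]
    have h1 : ξ ^ 16 = 1 := by
      calc ξ ^ 16 = (ξ ^ 2) ^ 8 := by ring
        _ = (ζ ^ 4) ^ 2 := by rw [h.x16]; ring
        _ = 1 := by rw [h.c6.z8]; ring
    rw [h1, map_one]
  have hκξ : κ ξ = ξ ^ 15 := by
    apply inj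
    rw [hκ, map_pow]
    set x := algebraMap F ℂ ξ with hx
    have hx0 : x ≠ 0 := by
      intro h0
      rw [h0, zero_pow (by norm_num)] at hx16
      exact zero_ne_one hx16
    have hn : ‖x‖ = 1 := Complex.norm_eq_one_of_pow_eq_one hx16 (by norm_num)
    apply mul_right_cancel₀ hx0
    rw [← pow_succ, hx16, mul_comm, Complex.mul_conj, Complex.normSq_eq_norm_sq, hn]
    norm_num
  have hs0 : algebraMap K F s ≠ 0 := by
    intro h0
    apply hr0
    rw [hr, IsScalarTower.algebraMap_apply K F ℂ, h0, map_zero]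
  have hκs : κ (algebraMap K F s) = -algebraMap K F s := by
    apply inj
    rw [hκ, map_neg, ← IsScalarTower.algebraMap_apply K F ℂ]
    exact conj_s6 hb
  have hκe : κ e = e := by
    apply inj
    rw [hκ, h.er]
  have hκe1 : κ e1 = -e1 := by
    have h1 := congrArg κ h.ee
    rw [map_mul, map_mul, hκe, hκθ, hκs, ← h.ee] at h1
    have h2 : e * θ ≠ 0 := by
      intro h0
      apply hs0
      rw [← h.ee]
      calc e * e1 * θ = e * θ * e1 := by ring
        _ = 0 := by rw [h0, zero_mul]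
    apply mul_left_cancel₀ h2
    linear_combination h1
  have hrr : OddI (r6 S (a / 2)) := by
    unfold OddI
    rw [norm_r6 hb hS ⟨2, by omega⟩]
    exact Nat.odd_iff.2 (by omega)
  have hsp : ∀ (x y : ℤ) (δ : 𝓞 K), Odd x → algebraMap (𝓞 K) K δ = x + y * s →
      OddI (Ideal.span {δ}) := fun x y δ hx hδ => (oddI_span6 hb hδ).2 hx
  refine ⟨κ, ?_⟩
  refine
    { ud := ud6_conj hb hS hτ h.c6 hκ
      x16 := h.x16
      kx := hκξ
      th := hθ2
      rr := ?_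
      kth := hκθ
      sq := h.sq
      sq1 := h.sq1
      ke := hκe
      ke1 := hκe1
      ee := h.ee
      trx := fun x y δ hx hy hδ c hc => ?_
      act4 := fun σ M hM =>
        act_prim7 ham hb hS h.c6 hL h.x16 hθ2 h.sq h.sq1 h.ee σ M hM }
  · have o2 := ori_z7 hb ha hS
    apply inj
    unfold rr
    rw [mul_one, map_div₀, map_mul, map_mul, map_mul, map_add, map_add, map_one, map_ofNat,
      h.c6.hv _ dx7_odd1, h.c6.hv _ hrr, h.c6.hz _ dx7_odd1, h.c6.hz _ hrr, o2, ← hT, hth]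
    ring
  · have ho : OddI (Ideal.span {δ} * c) := dx7_oddm (hsp x y δ hx hδ) hc
    obtain ⟨t1, t2⟩ := tr_exact6 hb hc hx hy hδ
    constructor
    · apply inj
      rw [map_pow, map_mul, h.c6.hv _ ho, h.c6.hv _ hc, map_neg, map_one]
      exact t1
    · apply inj
      rw [map_mul, map_sub, map_one, map_mul, map_mul, map_mul, map_mul, map_sub, map_one,
        map_mul, map_mul, map_intCast, h.c6.hv _ ho, h.c6.hv _ hc, h.c6.hz _ ho, h.c6.hz _ hc,
        h.c6.hk _ hc]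
      exact t2

theorem exists_xd7 {K : Type u} [Field K] [NumberField K] {a m : ℕ} {s : K} (hb : B6 K a s)
    (ha : a % 16 = 14) (ham : a = 2 * m) {S : 𝓞 K} (hS : algebraMap (𝓞 K) K S = s)
    {τ : 𝓞 K ≃+* 𝓞 K} (hτ : τ S = -S) {u0 v0 : ℤ} {nu : ℕ → ℤ → ℤ} (hL : Law7 m u0 v0 nu)
    (hv : 0 < v0) :
    ∃ (F : Type) (_ : Field F) (_ : NumberField F) (_ : Algebra K F)
      (_ : FiniteDimensional K F) (_ : IsGalois K F) (_ : IsGalois ℚ F) (ζ : F) (w : ℕ → F)
      (z k v : Ideal (𝓞 K) → F) (κ : F ≃ₐ[ℚ] F) (ξ θ e e1 : F),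
      XD7 K F a s S τ ζ w z k v κ u0 v0 nu ξ θ e e1 := by
  obtain ⟨φ⟩ : Nonempty (K →+* ℂ) := inferInstance
  let _ : Algebra K ℂ := φ.toAlgebra
  obtain ⟨F, hF1, hF2, hF3, ζ, w, z, k, v, ξ, θ, e, e1, h0⟩ := exists_cx7 hb ham hL.nrm hv
  have hNF : NumberField F := NumberField.of_module_finite K F
  have hF4 : @IsGalois ℚ _ F _ DivisionRing.toRatAlgebra := by
    rw [Subsingleton.elim (DivisionRing.toRatAlgebra : Algebra ℚ F) _]
    exact hF3
  obtain ⟨κ, h⟩ := xd7_of hb ha ham hS hτ hL h0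
  exact ⟨F, inferInstance, hNF, inferInstance, hF1, hF2, hF4, ζ, w, z, k, v, κ, ξ, θ, e, e1, h⟩

end Pool.Agent.Work.MP_8efaaa_nt.Q7
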