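import Mathlib
import Pool.Agent.Work.MP_8efaaa_nt.Q7.Defs
import Pool.Agent.Work.MP_8efaaa_nt.Q7.AbS

/-!
# Q7/AbN (M): a relation for the class group from the Galois action

MODEL: `Q7/AbP.lean`. `HH = univ.filter (· ∈ H)`, `NN = univ.filter (· ∉ H)`, both of cardinality `2 i` (index `2`); `γ = cc (w^i)`, `δ(X) = if cc X = γ then 0 else ep`; `ep + ep = 0` (`zm`, `z2`, `m2`).
(1) For every section `r`, with `RH = ∏_HH r`, `RN = ∏_NN r` (both have `cl = cl w ^ i ∈ H`): `∑_HH P (r g) - ∑_NN P (r g) = i • ep + P RH - P RN - δ(RN)`. As in `AbP`: `sum_H` (`T1 = T + em`), `sum_N` (`T3 = T`), `n = i`: the difference of both sides is in `E` (`i • em + i • ez = i • ep` up to signs), and it is killed by `64` (`htor`; `kk` for `RH`, `RN` with `x = 1`: `P RH - P RN = ε`, `4 • ε = 0`); `hE`.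
(2) `r' g = b * r ((cl b)⁻¹ * g)` is a section; `g ↦ cl b * g` maps `HH` to `NN` and `NN` to `HH` (`cl b ∉ H`, index `2`). `∏_NN r' = b^(2i) * RH`, `∏_HH r' = b^(2i) * RN`; so `cl (b^(2i) RH) = cl w ^ i`. Apply `φ` to (1) for `r` (`φ (P (r g)) = P (b * r g)`, `φ ep = ep`) and use (1) for `r'`: `i • ep + P (b RH) - P (b RN) - δ(RN) = -(i • ep + P (b^(2i) RN) - P (b^(2i) RH) - δ(b^(2i) RH))`.
(3) `kk` for `RH`, `RN`: `P (RH b) - P (RN b) = ε + (if cc RH = cc RN then 0 else ep)` (`cl (RN b) ∉ H`), `P (RH b^(2i)) - P (RN b^(2i)) = ε` (`cl ∈ H`). So `(if cc RH = cc RN then 0 else ep) - δ(RN) = δ(b^(2i) RH)` (`2 i • ep = 0`). `cc RH`, `cc RN`, `cc (b^(2i) RH)` are `γ` or `t γ` (`fib`), `ep ≠ 0`: check the four cases: `cc RH = γ, cc RN = γ`: `δ(b^(2i) RH) = 0`, `cc b^(2i) = 1`. `cc RH = γ, cc RN = tγ`: `ep - ep = 0`. `cc RH = tγ, cc RN = γ`: `ep - 0`: `δ = ep`, `cc (b^(2i) RH) = t γ = cc RH`. `cc RH = tγ, cc RN = tγ`: `0 - ep =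 ep`: the same. (`ep ≠ 0`, `t ≠ 1`.)
-/

set_option autoImplicit false

namespace Pool.Agent.Work.MP_8efaaa_nt.Q7

open scoped Classical

variable {M A G C : Type*} [CommMonoid M] [AddCommGroup A] [CommGroup G] [CommGroup C]
  {H : Subgroup G} {P : M → A} {cl : M →* G} {cc : M →* C} {t : C} {bar : M → M} {ez em ep : A}

private theorem absn_mem {H : Subgroup G} (hi : H.index = 2) {β : G} (hβ : β ∉ H) (g : G) :
    β * g ∈ H ↔ g ∉ H := by
  rw [Subgroup.mul_mem_iff_of_index_two hi]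
  tauto

private theorem absn_sum [Fintype G] {H : Subgroup G} (hi : H.index = 2) {β : G} (hβ : β ∉ H)
    {N : Type*} [AddCommMonoid N] (f : G → N) :
    ∑ g ∈ Finset.univ.filter (· ∉ H), f (β⁻¹ * g) = ∑ g ∈ Finset.univ.filter (· ∈ H), f g ∧
    ∑ g ∈ Finset.univ.filter (· ∈ H), f (β⁻¹ * g) =
      ∑ g ∈ Finset.univ.filter (· ∉ H), f g := by
  constructor
  · symm
    refine Finset.sum_equiv (Equiv.mulLeft β) (fun g => ?_) (fun g _ => ?_)
    · simp only [Finset.mem_filter, Finset.mem_univ, true_and, Equiv.coe_mulLeft,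
        absn_mem hi hβ, not_not]
    · rw [Equiv.coe_mulLeft, inv_mul_cancel_left]
  · symm
    refine Finset.sum_equiv (Equiv.mulLeft β) (fun g => ?_) (fun g _ => ?_)
    · simp only [Finset.mem_filter, Finset.mem_univ, true_and, Equiv.coe_mulLeft,
        absn_mem hi hβ]
    · rw [Equiv.coe_mulLeft, inv_mul_cancel_left]

private theorem absn_prod [Fintype G] {H : Subgroup G} (hi : H.index = 2) {β : G} (hβ : β ∉ H)
    {N : Type*} [CommMonoid N] (f : G → N) :
    ∏ g ∈ Finset.univ.filter (· ∉ H), f (β⁻¹ * g) = ∏ g ∈ Finset.univ.filter (· ∈ H), f g ∧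
    ∏ g ∈ Finset.univ.filter (· ∈ H), f (β⁻¹ * g) =
      ∏ g ∈ Finset.univ.filter (· ∉ H), f g := by
  constructor
  · symm
    refine Finset.prod_equiv (Equiv.mulLeft β) (fun g => ?_) (fun g _ => ?_)
    · simp only [Finset.mem_filter, Finset.mem_univ, true_and, Equiv.coe_mulLeft,
        absn_mem hi hβ, not_not]
    · rw [Equiv.coe_mulLeft, inv_mul_cancel_left]
  · symm
    refine Finset.prod_equiv (Equiv.mulLeft β) (fun g => ?_) (fun g _ => ?_)
    · simp only [Finset.mem_filter, Finset.mem_univ, true_and, Equiv.coe_mulLeft,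
        absn_mem hi hβ]
    · rw [Equiv.coe_mulLeft, inv_mul_cancel_left]

private theorem absn_cH (h : AE H P cl cc t bar ez em ep) [Fintype G] {i : ℕ}
    (hi : Fintype.card G = 4 * i) : (Finset.univ.filter (· ∈ H)).card = 2 * i := by
  have h1 := H.card_mul_index
  rw [h.idx, Nat.card_eq_fintype_card, Nat.card_eq_fintype_card, hi] at h1
  have h2 : (Finset.univ.filter (· ∈ H)).card = Fintype.card H := by
    rw [Fintype.card_subtype]
  rw [h2]
  omega

private theorem absn_cN (h : AE H P cl cc t bar ez em ep) [Fintype G] {i : ℕ}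
    (hi : Fintype.card G = 4 * i) : (Finset.univ.filter (· ∉ H)).card = 2 * i := by
  have h1 := absn_cH h hi
  have h2 := Finset.card_filter_add_card_filter_not (s := (Finset.univ : Finset G)) (· ∈ H)
  rw [Finset.card_univ, hi, h1] at h2
  omega

private theorem absn_H [Fintype G] {w : M} (hw : cl w ∈ H) (hw2 : ∀ g : G, g * g ≠ cl w) :
    ∀ g ∈ Finset.univ.filter (· ∈ H), g ∈ H ∧ cl w * g⁻¹ ∈ Finset.univ.filter (· ∈ H) ∧
      cl w * g⁻¹ ≠ g := by
  intro g hg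
  have hg' : g ∈ H := (Finset.mem_filter.1 hg).2
  refine ⟨hg', Finset.mem_filter.2 ⟨Finset.mem_univ _, H.mul_mem hw (H.inv_mem hg')⟩, ?_⟩
  intro e
  exact hw2 g (mul_inv_eq_iff_eq_mul.1 e).symm

private theorem absn_N [Fintype G] {w : M} (hw : cl w ∈ H) (hw2 : ∀ g : G, g * g ≠ cl w) :
    ∀ g ∈ Finset.univ.filter (· ∉ H), g ∉ H ∧ cl w * g⁻¹ ∈ Finset.univ.filter (· ∉ H) ∧
      cl w * g⁻¹ ≠ g := by
  intro g hg
  have hg' : g ∉ H := (Finset.mem_filter.1 hg).2
  refine ⟨hg', Finset.mem_filter.2 ⟨Finset.mem_univ _, ?_⟩, ?_⟩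
  · intro hf
    rw [H.mul_mem_cancel_left hw] at hf
    exact hg' (H.inv_mem_iff.1 hf)
  · intro e
    exact hw2 g (mul_inv_eq_iff_eq_mul.1 e).symm

private theorem absn_ep2 (h : AE H P cl cc t bar ez em ep) : ep + ep = 0 := by
  rw [← h.zm]
  calc ez + em + (ez + em) = (ez + ez) + (em + em) := by abel
    _ = 0 := by rw [h.z2, h.m2, add_zero]

private theorem absn_64 {x : A} (hx : x + x = 0) : (64 : ℤ) • x = 0 := by
  have : (64 : ℤ) • x = (32 : ℤ) • (x + x) := by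
    rw [smul_add, ← add_smul]
    norm_num
  rw [this, hx, smul_zero]

/-- the exact value -/
private theorem absn_val (h : AE H P cl cc t bar ez em ep) [Fintype G] {E : AddSubgroup A}
    {w : M} {T : A} (hw : cl w ∈ H) (hw2 : ∀ g : G, g * g ≠ cl w)
    (hr : ∀ c, P (w * bar c) + P c - (T + if cl c ∈ H then em else 0) ∈ E) {i : ℕ}
    (hi : Fintype.card G = 4 * i) (hE : ∀ e ∈ E, (64 : ℤ) • e = 0 → e = 0) (r : G → M)
    (hrr : ∀ g, cl (r g) = g)
    (htor : (64 : ℤ) • ((∑ g ∈ Finset.univ.filter (· ∈ H), P (r g)) -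
      ∑ g ∈ Finset.univ.filter (· ∉ H), P (r g)) = 0) :
    cl (∏ g ∈ Finset.univ.filter (· ∈ H), r g) = cl w ^ i ∧
    cl (∏ g ∈ Finset.univ.filter (· ∉ H), r g) = cl w ^ i ∧
    (∑ g ∈ Finset.univ.filter (· ∈ H), P (r g)) -
      (∑ g ∈ Finset.univ.filter (· ∉ H), P (r g)) =
      i • ep + (P (∏ g ∈ Finset.univ.filter (· ∈ H), r g) -
        P (∏ g ∈ Finset.univ.filter (· ∉ H), r g)) -
        (if cc (∏ g ∈ Finset.univ.filter (· ∉ H), r g) = cc (w ^ i) then 0 else ep) := by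
  have hep := absn_ep2 h
  obtain ⟨n, h1, h2, h3⟩ := sum_H (T1 := T + em) h hw (fun c hc => by
    have h4 := hr c
    rwa [if_pos hc] at h4) _ (absn_H hw hw2) r hrr
  obtain ⟨n', h1', h2', h3'⟩ := sum_N (T3 := T) h hw (fun c hc => by
    have h4 := hr c
    rwa [if_neg hc, add_zero] at h4) _ (absn_N hw hw2) r hrr
  rw [absn_cH h hi] at h1
  rw [absn_cN h hi] at h1'
  obtain rfl : n = i := by omega
  obtain rfl : n' = n := by omega
  refine ⟨h2, h2', ?_⟩
  have hez : n' • ez + n' • ez = 0 := by rw [← smul_add, h.z2, smul_zero]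
  have hem : n' • em + n' • em = 0 := by rw [← smul_add, h.m2, smul_zero]
  have hpz : n' • ep = n' • ez + n' • em := by rw [← smul_add, h.zm]
  rw [smul_add] at h3
  rw [hpz]
  generalize (∏ g ∈ Finset.univ.filter (· ∈ H), r g) = Ap at *
  generalize (∏ g ∈ Finset.univ.filter (· ∉ H), r g) = B at *
  generalize (∑ g ∈ Finset.univ.filter (· ∈ H), P (r g)) = S1 at *
  generalize (∑ g ∈ Finset.univ.filter (· ∉ H), P (r g)) = S2 at *
  have hcl : cl Ap = cl B := by rw [h2, h2']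
  have hBH : cl (B * 1) ∈ H := by
    rw [mul_one, h2']
    exact H.pow_mem hw _
  obtain ⟨ε, he4, -, hex⟩ := h.kk Ap B hcl
  have h5 := hex 1
  rw [if_pos (Or.inr hBH), mul_one, mul_one, add_zero] at h5
  obtain ⟨δ, hδ⟩ : ∃ δ : A, δ = if cc B = cc (w ^ n') then 0 else ep := ⟨_, rfl⟩
  rw [← hδ] at h3' ⊢
  have hd2 : δ + δ = 0 := by
    rw [hδ]
    split_ifs
    · rw [add_zero]
    · exact hep
  generalize n' • ez = z1 at *
  generalize n' • em = m1 at *
  have h6 : S1 - S2 - (z1 + m1 + (P Ap - P B) - δ) ∈ E := by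
    have h7 := E.sub_mem h3 h3'
    have h8 : S1 - (n' • T + m1) - (P Ap - P (w ^ n')) -
        (S2 - n' • T - z1 - (P B - P (w ^ n')) - δ) =
        S1 - S2 - (z1 + m1 + (P Ap - P B) - δ) + (z1 + z1) := by
      abel
    rw [h8, hez, add_zero] at h7
    exact h7
  have h9 := hE _ h6 (by
    have hd64 : (64 : ℤ) • δ = 0 := absn_64 hd2
    have hz64 : (64 : ℤ) • z1 = 0 := absn_64 hez
    have hm64 : (64 : ℤ) • m1 = 0 := absn_64 hem
    have he64 : (64 : ℤ) • ε = 0 := by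
      have : (64 : ℤ) • ε = (16 : ℤ) • ((4 : ℤ) • ε) := by
        rw [smul_smul]
        norm_num
      rw [this, he4, smul_zero]
    have h10 : S1 - S2 - (z1 + m1 + (P Ap - P B) - δ) = (S1 - S2) - (z1 + (m1 + (ε - δ))) := by
      rw [h5]
      abel
    rw [h10, smul_sub (64 : ℤ) (S1 - S2), smul_add (64 : ℤ) z1, smul_add (64 : ℤ) m1,
      smul_sub (64 : ℤ) ε, htor, he64, hd64, hz64, hm64]
    simp)
  exact sub_eq_zero.1 h9

theorem abs_n (h : AE H P cl cc t bar ez em ep) [Fintype G] {E : AddSubgroup A} {w : M} {T : A}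
    (hep : ep ≠ 0) (hw : cl w ∈ H) (hw2 : ∀ g : G, g * g ≠ cl w)
    (hr : ∀ c, P (w * bar c) + P c - (T + if cl c ∈ H then em else 0) ∈ E) {i : ℕ}
    (hi : Fintype.card G = 4 * i) (hE : ∀ e ∈ E, (64 : ℤ) • e = 0 → e = 0)
    (htor : ∀ r : G → M, (∀ g, cl (r g) = g) →
      (64 : ℤ) • ((∑ g ∈ Finset.univ.filter (· ∈ H), P (r g)) -
        ∑ g ∈ Finset.univ.filter (· ∉ H), P (r g)) = 0) {b : M} (hb : cl b ∉ H)
    {φ : A →+ A} (hφ : ∀ c, φ (P c) = P (b * c)) (hφ2 : φ ep = ep) : cc b ^ (2 * i) = 1 := by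
  have hii := h.idx
  have hpp := absn_ep2 h
  choose r hrr using h.surj
  obtain ⟨a1, a2, a3⟩ := absn_val h hw hw2 hr hi hE r hrr (htor r hrr)
  obtain ⟨r', hr'⟩ : ∃ r' : G → M, ∀ g, r' g = b * r ((cl b)⁻¹ * g) := ⟨_, fun _ => rfl⟩
  have hrr' : ∀ g, cl (r' g) = g := by
    intro g
    rw [hr', map_mul, hrr, mul_inv_cancel_left]
  obtain ⟨b1, b2, b3⟩ := absn_val h hw hw2 hr hi hE r' hrr' (htor r' hrr')
  have p1 : ∏ g ∈ Finset.univ.filter (· ∉ H), r' g =
      b ^ (2 * i) * ∏ g ∈ Finset.univ.filter (· ∈ H), r g := by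
    rw [Finset.prod_congr rfl fun g _ => hr' g, Finset.prod_mul_distrib, Finset.prod_const,
      absn_cN h hi, (absn_prod hii hb r).1]
  have p2 : ∏ g ∈ Finset.univ.filter (· ∈ H), r' g =
      b ^ (2 * i) * ∏ g ∈ Finset.univ.filter (· ∉ H), r g := by
    rw [Finset.prod_congr rfl fun g _ => hr' g, Finset.prod_mul_distrib, Finset.prod_const,
      absn_cH h hi, (absn_prod hii hb r).2]
  have s1 : ∑ g ∈ Finset.univ.filter (· ∉ H), P (r' g) =
      ∑ g ∈ Finset.univ.filter (· ∈ H), P (b * r g) := by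
    rw [Finset.sum_congr rfl fun g _ => congrArg P (hr' g)]
    exact (absn_sum hii hb fun g => P (b * r g)).1
  have s2 : ∑ g ∈ Finset.univ.filter (· ∈ H), P (r' g) =
      ∑ g ∈ Finset.univ.filter (· ∉ H), P (b * r g) := by
    rw [Finset.sum_congr rfl fun g _ => congrArg P (hr' g)]
    exact (absn_sum hii hb fun g => P (b * r g)).2
  have q1 : φ ((∑ g ∈ Finset.univ.filter (· ∈ H), P (r g)) -
      ∑ g ∈ Finset.univ.filter (· ∉ H), P (r g)) =
      (∑ g ∈ Finset.univ.filter (· ∉ H), P (r' g)) -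
      ∑ g ∈ Finset.univ.filter (· ∈ H), P (r' g) := by
    rw [map_sub, map_sum, map_sum, s1, s2, Finset.sum_congr rfl fun g _ => hφ (r g),
      Finset.sum_congr rfl fun g _ => hφ (r g)]
  rw [a3] at q1
  rw [p1, p2] at b3
  rw [p1] at b2
  generalize (∏ g ∈ Finset.univ.filter (· ∈ H), r g) = RH at *
  generalize (∏ g ∈ Finset.univ.filter (· ∉ H), r g) = RN at *
  generalize (∑ g ∈ Finset.univ.filter (· ∉ H), P (r' g)) = S2 at *
  generalize (∑ g ∈ Finset.univ.filter (· ∈ H), P (r' g)) = S1 at *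
  have hφd : φ (if cc RN = cc (w ^ i) then 0 else ep) =
      if cc RN = cc (w ^ i) then 0 else ep := by
    split_ifs
    · exact map_zero φ
    · exact hφ2
  rw [map_sub, map_add, map_nsmul, hφ2, map_sub, hφ, hφ, hφd] at q1
  -- the numbers of the pair
  obtain ⟨ε, -, -, hex⟩ := h.kk RH RN (by rw [a1, a2])
  have hRN : cl RN ∈ H := by
    rw [a2]
    exact H.pow_mem hw i
  have k1 := hex b
  have hnb : cl (RN * b) ∉ H := by
    rw [map_mul]
    intro hf
    exact hb ((H.mul_mem_cancel_left hRN).1 hf)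
  have k2 := hex (b ^ (2 * i))
  have hyb : cl (RN * b ^ (2 * i)) ∈ H := by
    rw [map_mul, map_pow, pow_mul]
    refine H.mul_mem hRN (H.pow_mem ?_ i)
    rw [pow_two]
    exact (absn_mem hii hb (cl b)).2 hb
  rw [if_pos (Or.inr hyb), add_zero, mul_comm RH, mul_comm RN] at k2
  rw [mul_comm RH b, mul_comm RN b] at k1
  rw [mul_comm RN b] at hnb
  have k3 : (if cc RH = cc RN ∨ cl (b * RN) ∈ H then (0 : A) else ep) =
      if cc RH = cc RN then 0 else ep := by
    by_cases e1 : cc RH = cc RN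
    · rw [if_pos (Or.inl e1), if_pos e1]
    · rw [if_neg (by tauto), if_neg e1]
  rw [k3] at k1
  -- the classes
  have c1 : cc RH = cc (w ^ i) ∨ cc RH = t * cc (w ^ i) :=
    (h.fib _ _).1 (by rw [a1, map_pow])
  have c2 : cc RN = cc (w ^ i) ∨ cc RN = t * cc (w ^ i) :=
    (h.fib _ _).1 (by rw [a2, map_pow])
  have c3 : cc (b ^ (2 * i) * RH) = cc (w ^ i) ∨ cc (b ^ (2 * i) * RH) = t * cc (w ^ i) :=
    (h.fib _ _).1 (by rw [b2, map_pow])
  have hi2 : i • ep + i • ep = 0 := by rw [← smul_add, hpp, smul_zero]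
  rw [k1] at q1
  rw [k2] at b3
  obtain ⟨κ, hκ⟩ : ∃ κ : A, κ = if cc RH = cc RN then 0 else ep := ⟨_, rfl⟩
  obtain ⟨δ, hδ⟩ : ∃ δ : A, δ = if cc RN = cc (w ^ i) then 0 else ep := ⟨_, rfl⟩
  obtain ⟨δ', hδ'⟩ : ∃ δ' : A, δ' = if cc (b ^ (2 * i) * RH) = cc (w ^ i) then 0 else ep :=
    ⟨_, rfl⟩
  rw [← hκ, ← hδ] at q1
  rw [← hδ'] at b3
  have main : κ - δ = δ' := by
    have e1 : S2 - S1 = -(S1 - S2) := by abel
    rw [e1, b3] at q1
    have e2 : κ - δ - δ' = (i • ep + (P (b * RN) + ε + κ - P (b * RN)) - δ) -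
        (-(i • ep + (P (b ^ (2 * i) * RN) - (P (b ^ (2 * i) * RN) + ε)) - δ')) -
        (i • ep + i • ep) := by abel
    rw [q1, sub_self, hi2, sub_zero] at e2
    exact sub_eq_zero.1 e2
  have n1 : t * cc (w ^ i) ≠ cc (w ^ i) := fun e => h.t1 (mul_eq_right.1 e)
  have n2 : cc (w ^ i) ≠ t * cc (w ^ i) := fun e => n1 e.symm
  have goal : cc (b ^ (2 * i) * RH) = cc RH → cc b ^ (2 * i) = 1 := by
    intro e
    rw [map_mul, map_pow] at e
    exact mul_eq_right.1 e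
  rw [hκ, hδ, hδ'] at main
  apply goal
  rcases c1 with c1 | c1 <;> rcases c2 with c2 | c2 <;> rcases c3 with c3 | c3 <;>
    rw [c1, c2, c3] at main <;> rw [c1, c3]
  · exfalso
    rw [if_pos rfl, if_neg n1, sub_zero] at main
    exact hep main.symm
  · exfalso
    rw [if_neg n2, if_neg n1, sub_self] at main
    exact hep main.symm
  · exfalso
    rw [if_neg n1, if_pos rfl, sub_zero] at main
    exact hep main
  · exfalso
    rw [if_pos rfl, if_neg n1, zero_sub, if_pos rfl] at main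
    exact hep (neg_eq_zero.1 main)

end Pool.Agent.Work.MP_8efaaa_nt.Q7
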