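import Mathlib
import Pool.Agent.Work.MP_8efaaa_nt.Q7.Gr1

/-!
# Q7/Gr4 (S-M): if the exponent divides a quarter of the order

`B` = the subgroup of squares, of order `#G / 4 = 2 i` (the kernel of `g ↦ g * g` has `4` elements). Suppose `e` is not a square. `t = t' t' ∈ B`, `e ∉ B`, `t e ∉ B`, so the elements of `B` with `g * g = 1` are `1, t`: `∏_B g = t` (`prod_two`). There is `x ∈ B` which is not a square of an element of `B`: the map `g ↦ g * g` on `B` is not injective (`t ↦ 1`), so not surjective. `pow_half` for `B`: `x ^ i = t`. `x = y * y`, `y ∈ G`: `y ^ (2 i) = t ≠ 1`: contradiction.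
-/

set_option autoImplicit false

namespace Pool.Agent.Work.MP_8efaaa_nt.Q7

open scoped Classical in
private theorem gr4_prod {B : Type*} [CommGroup B] [Fintype B] {T : B} (hT1 : T ≠ 1)
    (h : ∀ g : B, g * g = 1 ↔ g = 1 ∨ g = T) : ∏ g : B, g = T := by
  rw [prod_two]
  have h1 : (Finset.univ.filter fun g : B => g * g = 1) = {1, T} := by
    ext g
    rw [Finset.mem_filter, Finset.mem_insert, Finset.mem_singleton, h]
    exact ⟨fun h => h.2, fun h => ⟨Finset.mem_univ _, h⟩⟩
  rw [h1, Finset.prod_insert, Finset.prod_singleton, one_mul]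
  rw [Finset.mem_singleton]
  exact hT1.symm

theorem grpN {G : Type*} [CommGroup G] [Finite G] {t e t' : G} {i : ℕ}
    (hG : Nat.card G = 8 * i) (ht : t ≠ 1) (he : e ≠ 1) (hte : t ≠ e)
    (hG2 : ∀ g : G, g * g = 1 ↔ g = 1 ∨ g = t ∨ g = e ∨ g = t * e) (ht' : t' * t' = t)
    (hexp : ∀ g : G, g ^ (2 * i) = 1) : ∃ y : G, e = y * y := by
  classical
  haveI : Fintype G := Fintype.ofFinite G
  by_contra hcon
  push Not at hcon
  obtain ⟨φ, hφ⟩ : ∃ φ : G →* G, ∀ x, φ x = x * x :=
    ⟨powMonoidHom 2, fun x => pow_two x⟩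
  have htt : t * t = 1 := (hG2 t).2 (Or.inr (Or.inl rfl))
  have hker : Nat.card φ.ker = 4 := by
    have h1 : (φ.ker : Set G) = (({1, t, e, t * e} : Finset G) : Set G) := by
      ext x
      rw [SetLike.mem_coe, MonoidHom.mem_ker, hφ, hG2]
      simp
    have h2 : Nat.card φ.ker = (({1, t, e, t * e} : Finset G) : Set G).ncard := by
      rw [← h1]
      rfl
    rw [h2, Set.ncard_coe_finset, Finset.card_insert_of_notMem, Finset.card_insert_of_notMem,
      Finset.card_insert_of_notMem, Finset.card_singleton]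
    · rw [Finset.mem_singleton]
      intro h
      exact ht (mul_eq_right.1 h.symm)
    · simp only [Finset.mem_insert, Finset.mem_singleton, not_or]
      refine ⟨hte, ?_⟩
      intro h
      exact he (mul_eq_left.1 h.symm)
    · simp only [Finset.mem_insert, Finset.mem_singleton, not_or]
      refine ⟨ht.symm, he.symm, ?_⟩
      intro h
      apply hte
      have h3 : t * e = t * t := h.symm.trans htt.symm
      exact (mul_left_cancel h3).symm
  have hB : Nat.card φ.range = 2 * i := by
    have h1 := Subgroup.card_mul_index φ.ker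
    rw [Subgroup.index_ker, hker, hG] at h1
    omega
  have hB' : Fintype.card φ.range = 2 * i := by
    rw [← hB, Nat.card_eq_fintype_card]
  have htB : t ∈ φ.range := ⟨t', by rw [hφ, ht']⟩
  obtain ⟨T, hT⟩ : ∃ T : φ.range, T = ⟨t, htB⟩ := ⟨_, rfl⟩
  have hTv : (T : G) = t := by rw [hT]
  have hT1 : T ≠ 1 := by
    intro h
    apply ht
    rw [← hTv, h]
    rfl
  have hTT : T * T = 1 := by
    apply Subtype.ext
    show (T : G) * (T : G) = 1
    rw [hTv, htt]
  have hprod : ∏ g : φ.range, g = T := by
    refine gr4_prod hT1 fun g => ?_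
    constructor
    · intro h2
      have h3 : (g : G) * (g : G) = 1 := congrArg Subtype.val h2
      obtain ⟨y, hy⟩ := g.2
      rw [hφ] at hy
      rcases (hG2 _).1 h3 with h4 | h4 | h4 | h4
      · exact Or.inl (Subtype.ext h4)
      · exact Or.inr (Subtype.ext (by rw [h4, hTv]))
      · exact absurd (h4.symm.trans hy.symm) (hcon y)
      · exfalso
        apply hcon (t' * y)
        rw [mul_mul_mul_comm, ht', hy, h4, ← mul_assoc, htt, one_mul]
    · rintro (rfl | rfl)
      · exact one_mul 1
      · exact hTT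
  obtain ⟨x, hx⟩ : ∃ x : φ.range, ∀ g : φ.range, g * g ≠ x := by
    by_contra h
    push Not at h
    have hsurj : Function.Surjective fun g : φ.range => g * g := fun x => h x
    have hinj := Finite.injective_iff_surjective.2 hsurj
    apply hT1
    apply hinj
    show T * T = 1 * 1
    rw [hTT, one_mul]
  have h1 := pow_half hx hB'
  rw [hprod] at h1
  obtain ⟨y, hy⟩ := x.2
  rw [hφ] at hy
  apply ht
  have h2 : (x : G) ^ i = t := by
    rw [← hTv, ← h1]
    rfl
  rw [← h2, ← hy, ← pow_two, ← pow_mul]
  exact hexp y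

end Pool.Agent.Work.MP_8efaaa_nt.Q7
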