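import Mathlib
import Pool.Agent.Work.MP_8efaaa_nt.Q7.Defs
import Pool.Agent.Work.MP_8efaaa_nt.Q7.AbN
import Pool.Agent.Work.MP_8efaaa_nt.Q7.Gr4
import Pool.Agent.Work.MP_8efaaa_nt.Q7.KKx
import Pool.Agent.Work.MP_8efaaa_nt.Q7.PSd
import Pool.Agent.Work.MP_8efaaa_nt.Q7.QSd
import Pool.Agent.Work.MP_8efaaa_nt.W14.CAs
import Pool.Agent.Work.MP_8efaaa_nt.W14.CCh
import Pool.Agent.Work.MP_8efaaa_nt.W14.CDi
import Pool.Agent.Work.MP_8efaaa_nt.V6.PEx

/-!
# Q7/NSd (M): if `2 p q` is not congruent then `q` is a square modulo `p`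

`T` from `V6.tq_px`, `R` from `V6.fr_px`, `H`, `z0`, `z1` from `W14.exists_grp`, `two_cls`, `exists_ae`: `h : AE ..`. As in `Q7/PSd.lean` (copy from the proof of `p_star`; the parts may be private there): `E = W5.E1 V` for `V` above `p`, `w = wp ∈ M13`, `N wp = 1 (mod 8)`, not a square in `CG S`, the relation `hr`, `hE`, and `htor` for every section.
`Fintype.card (CG S) = 4 i`: the elements with `g * g = 1` form a group of order `4` (`exists_grp`: `1, z0, z1, z0 z1` are different). `CG S` is the quotient of `ClassGroup (𝓞 K)` by the group `{1, t}`, `t = cls (r6 S 2)`, of order `2`: `Nat.card (ClassGroup (𝓞 K)) = 8 i`.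
`C ^ (2 i) = 1` for all classes `C`: let `c ∈ M13` with `cls c = C` (`cls_surj`). If `N c = 3 (mod 8)`: `clM S c ∉ H`, `hU.mov c` gives `σ` with `gal σ (PP x) = PP (c x)` (`gal_pp`), `φ = gal σ`, `gal σ ep = ep` (`gal_two_tor`), `abs_n`. If `N c = 1 (mod 8)`: `C = (C C3) C3⁻¹` with a class `C3` of norm `3` (`exists_b3`): `C C3` and `C3` are of the first kind.
`grpN` with `t`, `e = cls (r6 S q)`, `t' = cls z1` (`two_cls`): `cls (r6 S q) = y * y`. `W14.chi_sq` for the prime `p` and `b = r6 S q` (norm `q`): `jacobiSym q p = 1`.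
-/

set_option autoImplicit false

namespace Pool.Agent.Work.MP_8efaaa_nt.Q7

open NumberField Pool.Agent.Work.MP_8efaaa_nt.R Pool.Agent.Work.MP_8efaaa_nt.N5
  Pool.Agent.Work.MP_8efaaa_nt.K6 Pool.Agent.Work.MP_8efaaa_nt.W14
  Pool.Agent.Work.MP_8efaaa_nt.W6
open scoped Classical nonZeroDivisors

private theorem grp_four {G : Type*} [CommGroup G] [Finite G] {z0 z1 : G} (h01 : z0 ≠ 1)
    (h11 : z1 ≠ 1) (h10 : z1 ≠ z0)
    (hG : ∀ g : G, g * g = 1 ↔ g = 1 ∨ g = z0 ∨ g = z1 ∨ g = z0 * z1) :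
    ∃ i, Nat.card G = 4 * i := by
  obtain ⟨φ2, hφ2⟩ : ∃ φ : G →* G, ∀ x, φ x = x * x :=
    ⟨powMonoidHom 2, fun x => pow_two x⟩
  have z00 : z0 * z0 = 1 := (hG _).2 (Or.inr (Or.inl rfl))
  have e3 : z0 * z1 ≠ 1 := by
    intro h
    apply h10
    have h3 : z0 * z1 = z0 * z0 := h.trans z00.symm
    exact mul_left_cancel h3
  have hker : Nat.card φ2.ker = 4 := by
    have h1 : (φ2.ker : Set G) = (({1, z0, z1, z0 * z1} : Finset G) : Set G) := by
      ext x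
      rw [SetLike.mem_coe, MonoidHom.mem_ker, hφ2, hG]
      simp
    have h2 : Nat.card φ2.ker = Set.ncard (φ2.ker : Set G) := rfl
    rw [h2, h1, Set.ncard_coe_finset, Finset.card_insert_of_notMem,
      Finset.card_insert_of_notMem, Finset.card_insert_of_notMem, Finset.card_singleton]
    · rw [Finset.mem_singleton]
      intro h
      exact h01 (mul_eq_right.1 h.symm)
    · simp only [Finset.mem_insert, Finset.mem_singleton, not_or]
      refine ⟨h10.symm, ?_⟩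
      intro h
      exact h11 (mul_eq_left.1 h.symm)
    · simp only [Finset.mem_insert, Finset.mem_singleton, not_or]
      exact ⟨h01.symm, h11.symm, e3.symm⟩
  have h1 := Subgroup.card_subgroup_dvd_card φ2.ker
  rw [hker] at h1
  exact h1

private theorem grp_eight {C : Type*} [CommGroup C] [Finite C] {t : C} (ht : t ≠ 1)
    (t2 : t * t = 1) {i : ℕ} (hi : Nat.card (C ⧸ Subgroup.zpowers t) = 4 * i) :
    Nat.card C = 8 * i := by
  have hz2 : Nat.card (Subgroup.zpowers t) = 2 := by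
    rw [Nat.card_zpowers]
    exact orderOf_eq_prime (by rw [pow_two, t2]) ht
  have h1 := Subgroup.card_eq_card_quotient_mul_card_subgroup (Subgroup.zpowers t)
  rw [hz2, hi] at h1
  omega

private theorem p_data {K F : Type*} [Field K] [NumberField K] [Field F] [NumberField F]
    [Algebra K F]
    [FiniteDimensional K F] [IsGalois K F] [IsGalois ℚ F] {p q : ℕ} {s : K} {S : 𝓞 K}
    {τ : 𝓞 K ≃+* 𝓞 K} {ζ : F} {w : ℕ → F} {z k v : Ideal (𝓞 K) → F} {κ : F ≃ₐ[ℚ] F}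
    (hp : p.Prime) (hq : q.Prime) (hp8 : p % 8 = 1) (hq8 : q % 8 = 7)
    (hb : B6 K (2 * p * q) s) (hS : algebraMap (𝓞 K) K S = s) (hτ : τ S = -S)
    (hU : UD6 K F (2 * p * q) s S τ ζ w z k v κ) (hnc : ¬ IsCongruent (2 * p * q))
    {T : (cQ F).Point}
    (hT : ∀ c, OddI c → PP z k v (Ideal.span {1 + S} * c) + PP z k v c =
        T + if Ideal.absNorm c % 4 = 1 then 0 else W14.em F)
    {H : Subgroup (CG S)} (hi : H.index = 2)
    (hH : ∀ c : M13 K, clM S c ∈ H ↔ Ideal.absNorm (c : Ideal (𝓞 K)) % 8 = 1)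
    {bar : M13 K → M13 K} (hbar : ∀ c, (bar c : Ideal (𝓞 K)) = cj τ (c : Ideal (𝓞 K)))
    [Fintype (CG S)] :
    ∃ (E : AddSubgroup (cQ F).Point) (wp : M13 K), clM S wp ∈ H ∧
      (∀ g : CG S, g * g ≠ clM S wp) ∧
      (∀ c : M13 K, PP z k v ((wp * bar c : M13 K) : Ideal (𝓞 K)) +
        PP z k v (c : Ideal (𝓞 K)) - (T + if clM S c ∈ H then W14.em F else 0) ∈ E) ∧
      (∀ e ∈ E, (64 : ℤ) • e = 0 → e = 0) ∧
      ∀ r : CG S → M13 K, (∀ g, clM S (r g) = g) →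
        (64 : ℤ) • ((∑ g ∈ Finset.univ.filter (· ∈ H), PP z k v (r g : Ideal (𝓞 K))) -
          ∑ g ∈ Finset.univ.filter (· ∉ H), PP z k v (r g : Ideal (𝓞 K))) = 0 := by
  have hp2 : p ≠ 2 := by
    rintro rfl
    omega
  have hpq : ¬ p ∣ q := by
    intro h
    rcases (Nat.dvd_prime hq).1 h with h1 | h1
    · exact hp.one_lt.ne' h1
    · subst h1
      omega
  have hpa : p ∣ 2 * p * q := ⟨2 * q, by ring⟩
  have hqa : q ∣ 2 * p * q := ⟨2 * p, by ring⟩
  have ha6 : (2 * p * q) % 8 = 6 := hb.mod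
  have ha14 : (2 * p * q) % 16 = 14 := by
    have h1 : (p * q) % 8 = 7 := by
      rw [Nat.mul_mod, hp8, hq8]
    rw [mul_assoc]
    omega
  obtain ⟨L, hL, hpL⟩ := exists_prime6 (F := F) hp
  obtain ⟨Γ, iΓ, V, hV⟩ := exists_vl hL
  obtain ⟨b, hb7, hbc, hbj, hbP⟩ := pp_inert hb hS hτ hU hV hp hp2 hpa hpL
  have hg7 : Ideal.absNorm (Ideal.span {1 + S}) % 8 = 7 := by
    rw [norm_g hb hS]
    omega
  have hw1 : Ideal.absNorm (Ideal.span {1 + S} * b) % 8 = 1 := by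
    rw [map_mul, Nat.mul_mod, hg7, hb7]
  have hS0 : (1 + S : 𝓞 K) ≠ 0 := by
    intro h
    have h1 := norm_g hb hS
    rw [h, Ideal.span_singleton_zero, Ideal.absNorm_bot] at h1
    omega
  have hb0 : b ≠ 0 := by
    rintro rfl
    rw [map_zero] at hb7
    omega
  have hs0 : (Ideal.span {1 + S} : Ideal (𝓞 K)) ≠ 0 := by
    intro h2
    exact hS0 (Ideal.span_singleton_eq_bot.1 h2)
  have hwH : clM S (⟨Ideal.span {1 + S} * b, Or.inl hw1⟩ : M13 K) ∈ H := (hH _).2 hw1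
  have hsq : ∀ g : CG S, g * g ≠ clM S (⟨Ideal.span {1 + S} * b, Or.inl hw1⟩ : M13 K) := by
    intro g hg
    obtain ⟨c, rfl⟩ := clM_surj hb hS g
    rw [← map_mul] at hg
    have h1 := (clM_eq hb hS).1 hg.symm
    have h2 : cls (((⟨Ideal.span {1 + S} * b, Or.inl hw1⟩ : M13 K)) : Ideal (𝓞 K)) = cls b := by
      show cls (Ideal.span {1 + S} * b) = cls b
      rw [cls_mul hs0 hb0, cls_span hS0, one_mul]
    have h3 : cls (((c * c : M13 K)) : Ideal (𝓞 K)) =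
        cls (c : Ideal (𝓞 K)) * cls (c : Ideal (𝓞 K)) := by
      show cls ((c : Ideal (𝓞 K)) * (c : Ideal (𝓞 K))) = _
      rw [cls_mul (M13.ne c.2) (M13.ne c.2)]
    rw [h2, h3] at h1
    have hqb : ¬ q ∣ Ideal.absNorm b := by
      intro h4
      have h5 : Nat.Coprime q q :=
        Nat.Coprime.coprime_dvd_left h4 (Nat.Coprime.coprime_dvd_right hqa hbc)
      exact hq.one_lt.ne' ((Nat.coprime_self q).1 h5)
    have h6 := chi_sq hb hS hτ hq (Or.inr hq8) hqa hb0 hqb h1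
    have h7 := hbj q hqa hpq
    have h8 := jacobiSym.quadratic_reciprocity_three_mod_four (a := q)
      (b := Ideal.absNorm b) (by omega) (by omega)
    rw [h6, h7] at h8
    norm_num at h8
  have hr : ∀ c : M13 K, PP z k v (((⟨Ideal.span {1 + S} * b, Or.inl hw1⟩ : M13 K) * bar c :
      M13 K) : Ideal (𝓞 K)) + PP z k v (c : Ideal (𝓞 K)) -
      (T + if clM S c ∈ H then W14.em F else 0) ∈ W5.E1 V := by
    intro c
    have hco : OddI (c : Ideal (𝓞 K)) := M13.odd c.2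
    have hcj : Ideal.absNorm (cj τ (c : Ideal (𝓞 K))) = Ideal.absNorm (c : Ideal (𝓞 K)) :=
      (norm_cj6 hb hS hτ _).1
    have hn : Ideal.absNorm (b * cj τ (c : Ideal (𝓞 K))) =
        Ideal.absNorm b * Ideal.absNorm (c : Ideal (𝓞 K)) := by
      rw [map_mul, hcj]
    have hbo : OddI (b * cj τ (c : Ideal (𝓞 K))) := by
      have h1 : Odd (Ideal.absNorm (c : Ideal (𝓞 K))) := hco
      have h2 : Odd (Ideal.absNorm b) := by
        rw [Nat.odd_iff]
        omega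
      show Odd (Ideal.absNorm (b * cj τ (c : Ideal (𝓞 K))))
      rw [hn]
      exact h2.mul h1
    have h1 := hT _ hbo
    have h2 : (if Ideal.absNorm (b * cj τ (c : Ideal (𝓞 K))) % 4 = 1 then 0 else W14.em F) =
        (if clM S c ∈ H then W14.em F else 0) := by
      rw [hn]
      have h3 : Ideal.absNorm b % 4 = 3 := by omega
      by_cases h4 : clM S c ∈ H
      · have h6 := (hH c).1 h4
        have h5 : (Ideal.absNorm b * Ideal.absNorm (c : Ideal (𝓞 K))) % 4 = 3 := by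
          have h7 : Ideal.absNorm (c : Ideal (𝓞 K)) % 4 = 1 := by omega
          rw [Nat.mul_mod, h3, h7]
        rw [if_neg (by omega), if_pos h4]
      · have h6 : Ideal.absNorm (c : Ideal (𝓞 K)) % 8 = 3 := by
          rcases c.2 with h7 | h7
          · exact absurd ((hH c).2 h7) h4
          · exact h7
        have h5 : (Ideal.absNorm b * Ideal.absNorm (c : Ideal (𝓞 K))) % 4 = 1 := by
          have h7 : Ideal.absNorm (c : Ideal (𝓞 K)) % 4 = 3 := by omega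
          rw [Nat.mul_mod, h3, h7]
        rw [if_pos h5, if_neg h4]
    rw [h2] at h1
    have h4 : (((⟨Ideal.span {1 + S} * b, Or.inl hw1⟩ : M13 K) * bar c : M13 K) :
        Ideal (𝓞 K)) = Ideal.span {1 + S} * (b * cj τ (c : Ideal (𝓞 K))) := by
      show Ideal.span {1 + S} * b * (bar c : Ideal (𝓞 K)) = _
      rw [hbar c, mul_assoc]
    rw [h4, eq_sub_of_add_eq h1]
    have h5 : T + (if clM S c ∈ H then W14.em F else 0) - PP z k v (b * cj τ (c : Ideal (𝓞 K))) +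
        PP z k v (c : Ideal (𝓞 K)) - (T + (if clM S c ∈ H then W14.em F else 0)) =
        -(PP z k v (b * cj τ (c : Ideal (𝓞 K))) - PP z k v (c : Ideal (𝓞 K))) := by abel
    rw [h5]
    exact neg_mem (hbP _ hco)
  have hE : ∀ e ∈ W5.E1 V, (64 : ℤ) • e = 0 → e = 0 := by
    intro e he h64
    refine W5.two_pow_tors he 6 ?_
    have h1 : ((2 : ℤ) ^ 6) = 64 := by norm_num
    rw [h1]
    exact h64
  refine ⟨W5.E1 V, ⟨Ideal.span {1 + S} * b, Or.inl hw1⟩, hwH, hsq, hr, hE, ?_⟩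
  intro r hrr
  have htor : (64 : ℤ) • ((∑ g ∈ Finset.univ.filter (· ∈ H), PP z k v (r g : Ideal (𝓞 K))) -
      ∑ g ∈ Finset.univ.filter (· ∉ H), PP z k v (r g : Ideal (𝓞 K))) = 0 := by
    have h1 := y_tor hb hS hτ ha14 hU hnc hi hH r hrr
    have h2 : (16 : ℤ) • ((∑ g ∈ Finset.univ.filter (· ∈ H), PA z k v (r g : Ideal (𝓞 K))) -
        ∑ g ∈ Finset.univ.filter (· ∉ H), PA z k v (r g : Ideal (𝓞 K))) =
        qm ((16 : ℤ) • ((∑ g ∈ Finset.univ.filter (· ∈ H), PP z k v (r g : Ideal (𝓞 K))) -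
        ∑ g ∈ Finset.univ.filter (· ∉ H), PP z k v (r g : Ideal (𝓞 K)))) := by
      rw [map_zsmul, map_sub, map_sum, map_sum]
      rfl
    rw [h2] at h1
    have h3 : (64 : ℤ) • ((∑ g ∈ Finset.univ.filter (· ∈ H), PP z k v (r g : Ideal (𝓞 K))) -
        ∑ g ∈ Finset.univ.filter (· ∉ H), PP z k v (r g : Ideal (𝓞 K))) =
        (4 : ℤ) • ((16 : ℤ) • ((∑ g ∈ Finset.univ.filter (· ∈ H),
          PP z k v (r g : Ideal (𝓞 K))) -
        ∑ g ∈ Finset.univ.filter (· ∉ H), PP z k v (r g : Ideal (𝓞 K)))) := by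
      rw [smul_smul]
      norm_num
    rw [h3]
    rcases qm_eq_zero.1 h1 with h4 | h4
    · rw [h4, smul_zero]
    · rw [h4]
      have h5 : (4 : ℤ) • ep F = (ep F + ep F) + (ep F + ep F) := by abel
      rw [h5, (two_ep (F := F)).1, add_zero]
  exact htor

theorem q_sq_p {K F : Type*} [Field K] [NumberField K] [Field F] [NumberField F]
    [Algebra K F] [FiniteDimensional K F] [IsGalois K F] [IsGalois ℚ F] {p q : ℕ} {s : K}
    {S : 𝓞 K} {τ : 𝓞 K ≃+* 𝓞 K} {ζ : F} {w : ℕ → F} {z k v : Ideal (𝓞 K) → F}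
    {κ : F ≃ₐ[ℚ] F}
    (hp : p.Prime) (hq : q.Prime) (hp8 : p % 8 = 1) (hq8 : q % 8 = 7)
    (hb : B6 K (2 * p * q) s) (hS : algebraMap (𝓞 K) K S = s) (hτ : τ S = -S)
    (hU : UD6 K F (2 * p * q) s S τ ζ w z k v κ)
    (hnc : ¬ IsCongruent (2 * p * q)) : jacobiSym q p = 1 := by
  classical
  have hp2 : p ≠ 2 := by
    rintro rfl
    norm_num at hp8
  have hq2 : q ≠ 2 := by
    rintro rfl
    norm_num at hq8
  have ha : (2 * p * q) % 16 = 14 := by
    have h1 : (p * q) % 8 = 7 := by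
      rw [Nat.mul_mod, hp8, hq8]
    rw [mul_assoc]
    omega
  have hpa : p ∣ 2 * p * q := ⟨2 * q, by ring⟩
  have hqa : q ∣ 2 * p * q := ⟨2 * p, by ring⟩
  haveI : Fintype (CG S) := Fintype.ofFinite _
  obtain ⟨T, hTT, hT⟩ := V6.tq_px hb hS hU
  obtain ⟨R, hRR, hR⟩ := V6.fr_px hb hS hU
  obtain ⟨H, z0, z1, hi, hH, hz0, hz1, z1H, z0H, z01, z11, z10, two⟩ :=
    exists_grp hp hq hp8 hq8 hb hS hτ
  obtain ⟨ht, hq1, hqt, hqq, htwo⟩ := two_cls hp hq hp2 hq2 hb hS hτ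
  obtain ⟨bar, hbar, ae⟩ := exists_ae hb hS hτ ha hU hTT hT hRR hR hi hH ht
  obtain ⟨E, wp, hwH, hw2, hr, hE, htor⟩ := p_data hp hq hp8 hq8 hb hS hτ hU hnc hT hi hH hbar
  obtain ⟨t2, -⟩ := cls_two hb hS
  obtain ⟨i, hci⟩ := grp_four z01 z11 z10 two
  have hG8 : Nat.card (ClassGroup (𝓞 K)) = 8 * i := grp_eight ht t2 hci
  have hci' : Fintype.card (CG S) = 4 * i := by
    rw [← Nat.card_eq_fintype_card]
    exact hci
  have hep : ep F ≠ 0 := pt_ne _
  -- the classes of norm 3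
  have hexp3 : ∀ c : M13 K, clM S c ∉ H → cls (c : Ideal (𝓞 K)) ^ (2 * i) = 1 := by
    intro c hc
    obtain ⟨σ, hσ⟩ := hU.mov (c : Ideal (𝓞 K)) (M13.odd c.2)
    exact abs_n ae hep hwH hw2 hr hci' hE htor hc (φ := gal σ)
      (fun x => by
        obtain ⟨h1, h2, h3⟩ := hσ.act (x : Ideal (𝓞 K)) (M13.odd x.2)
        exact gal_pp σ h1 h2 h3)
      (gal_two_tor σ (two_ep (F := F)).1).2
  have hcm : ∀ x y : M13 K, cls ((x * y : M13 K) : Ideal (𝓞 K)) =
      cls (x : Ideal (𝓞 K)) * cls (y : Ideal (𝓞 K)) := fun x y =>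
    cls_mul (M13.ne x.2) (M13.ne y.2)
  have hexp : ∀ C : ClassGroup (𝓞 K), C ^ (2 * i) = 1 := by
    intro C
    obtain ⟨c, hc, rfl⟩ := cls_surj hb hS C
    by_cases h : clM S (⟨c, hc⟩ : M13 K) ∈ H
    · obtain ⟨b3, hb3⟩ := exists_b3 hp hq hp8 hq8 hb hS
      have hb3H : clM S (⟨b3, Or.inr hb3⟩ : M13 K) ∉ H := by
        rw [hH]
        show ¬ Ideal.absNorm b3 % 8 = 1
        omega
      have h1 := hexp3 (⟨b3, Or.inr hb3⟩ : M13 K) hb3H
      have h2 : clM S ((⟨c, hc⟩ : M13 K) * (⟨b3, Or.inr hb3⟩ : M13 K)) ∉ H := by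
        rw [map_mul]
        intro h3
        exact hb3H ((H.mul_mem_cancel_left h).1 h3)
      have h3 := hexp3 ((⟨c, hc⟩ : M13 K) * (⟨b3, Or.inr hb3⟩ : M13 K)) h2
      rw [hcm, mul_pow, h1, mul_one] at h3
      exact h3
    · exact hexp3 (⟨c, hc⟩ : M13 K) h
  obtain ⟨y, hy⟩ := grpN hG8 ht hq1 hqt.symm htwo hz1 hexp
  have hN := norm_r6 hb hS hqa
  have hr0 : r6 S q ≠ 0 := by
    intro h0
    rw [h0, map_zero] at hN
    omega
  have hpq : ¬ p ∣ Ideal.absNorm (r6 S q) := by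
    rw [hN]
    intro h
    rcases (Nat.dvd_prime hq).1 h with h1 | h1
    · exact hp.one_lt.ne' h1
    · omega
  have hfin := chi_sq hb hS hτ hp (Or.inl hp8) hpa hr0 hpq (Or.inl hy)
  rw [hN] at hfin
  exact hfin

end Pool.Agent.Work.MP_8efaaa_nt.Q7
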