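import Mathlib
import Pool.Agent.Work.MP_8efaaa_nt.W14.Main
import Pool.Agent.Work.MP_8efaaa_nt.W14.DEx
import Pool.Agent.Work.MP_8efaaa_nt.Q7.SLw
import Pool.Agent.Work.MP_8efaaa_nt.Q7.DXd
import Pool.Agent.Work.MP_8efaaa_nt.Q7.NSd
import Pool.Agent.Work.MP_8efaaa_nt.Q7.C2
import Pool.Agent.Work.MP_8efaaa_nt.Q7.C3
import Pool.Agent.Work.MP_8efaaa_nt.Q7.Ar1
import Pool.Agent.Work.MP_8efaaa_nt.Q7.Ar2
import Pool.Agent.Work.MP_8efaaa_nt.Z6.Ar1
import Pool.Agent.Work.MP_8efaaa_nt.Q7.El7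
import Pool.Agent.Work.MP_8efaaa_nt.Q7.Prm

/-!
# Q7/Main: the theorem
-/

set_option autoImplicit false

namespace Pool.Agent.Work.MP_8efaaa_nt.Q7

open NumberField Pool.Agent.Work.MP_8efaaa_nt.R Pool.Agent.Work.MP_8efaaa_nt.N5
  Pool.Agent.Work.MP_8efaaa_nt.K6 Pool.Agent.Work.MP_8efaaa_nt.W14
  Pool.Agent.Work.MP_8efaaa_nt.W6
open scoped Classical nonZeroDivisors

private theorem mod_facts7 {p q : ℕ} (hp8 : p % 8 = 1) (hq8 : q % 8 = 7) :
    (p * q) % 8 = 7 ∧ (2 * p * q) % 16 = 14 := by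
  have h1 : (p * q) % 8 = 7 := by rw [Nat.mul_mod, hp8, hq8]
  have h2 : 2 * p * q = 2 * (p * q) := by ring
  rw [h2]
  exact ⟨h1, by omega⟩

private theorem sqf7 {p q : ℕ} (hp : p.Prime) (hq : q.Prime) (hp8 : p % 8 = 1)
    (hq8 : q % 8 = 7) : Squarefree (2 * p * q) := by
  have h2p : Nat.Coprime 2 p := (Nat.coprime_primes Nat.prime_two hp).2 (by omega)
  have h2q : Nat.Coprime 2 q := (Nat.coprime_primes Nat.prime_two hq).2 (by omega)
  have hpq : Nat.Coprime p q := (Nat.coprime_primes hp hq).2 (by omega)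
  rw [Nat.squarefree_mul (Nat.Coprime.mul_left h2q hpq), Nat.squarefree_mul h2p]
  exact ⟨⟨Nat.prime_two.squarefree, hp.squarefree⟩, hq.squarefree⟩

theorem core_q7 {p q : ℕ} (hp : p.Prime) (hq : q.Prime) (hp16 : p % 16 = 1) (hq8 : q % 8 = 7)
    (hnc : ¬ IsCongruent (2 * p * q)) {u v : ℤ} (huv : 2 * v ^ 2 - u ^ 2 = ((p * q : ℕ) : ℤ))
    (hv : 0 < v) (h4 : (4 : ℤ) ∣ u - 1 - v) :
    (q : ZMod p) ^ ((p - 1) / 4) = 1 ∧ jacobiSym v p = 1 := by
  have hp8 : p % 8 = 1 := by omega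
  obtain ⟨hm8, ha16⟩ := mod_facts7 hp8 hq8
  have hsf := sqf7 hp hq hp8 hq8
  have hL := law7 huv
  obtain ⟨K, _, _, s, hb⟩ := exists_base6 hsf (a := 2 * p * q) (by omega)
  obtain ⟨S, hS, -, -⟩ := exists_S6 hb
  obtain ⟨τ, hτ⟩ := exists_tau6 hb hS
  obtain ⟨F, _, _, _, _, _, _, ζ, w, z, k, v1, κ, ξ, θ, e, e1, hX⟩ :=
    exists_xd7 hb ha16 (m := p * q) (by ring) hS hτ hL hv
  have hqp := q_sq_p hp hq hp8 hq8 hb hS hτ hX.ud hnc
  obtain ⟨j, -, -, -, ⟨D, hD⟩, -⟩ := grp_data hp hq hp8 hq8 hb hS hτ hqp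
  have hu0 : u ≠ 0 := by
    rintro rfl
    have h1 : ((p * q : ℕ) : ℤ) % 8 = 7 := by exact_mod_cast hm8
    omega
  have hM : 2 * (2 * p * q) * u.natAbs ≠ 0 := by
    have h1 := hp.pos
    have h2 := hq.pos
    have h3 : 0 < u.natAbs := Int.natAbs_pos.2 hu0
    positivity
  obtain ⟨cp, t, hcp0, hcM, ht, hcl⟩ := exists_prim7 hb hS D hM
  have hc1 : Nat.Coprime (Ideal.absNorm cp) (2 * (2 * p * q)) :=
    Nat.Coprime.coprime_dvd_right (dvd_mul_right _ _) hcM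
  have hc2 : Nat.Coprime (Ideal.absNorm cp) u.natAbs :=
    Nat.Coprime.coprime_dvd_right (dvd_mul_left _ _) hcM
  have hco : OddI cp := by
    unfold OddI
    have h1 : Nat.Coprime (Ideal.absNorm cp) 2 :=
      Nat.Coprime.coprime_dvd_right (dvd_mul_right _ _) hc1
    exact Nat.coprime_two_right.1 h1
  have hcp : Nat.Coprime (Ideal.absNorm cp) p :=
    Nat.Coprime.coprime_dvd_right ⟨4 * q, by ring⟩ hc1
  have hcq : Nat.Coprime (Ideal.absNorm cp) q :=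
    Nat.Coprime.coprime_dvd_right ⟨4 * p, by ring⟩ hc1
  have hcpp : ¬ p ∣ Ideal.absNorm cp := fun h =>
    hp.one_lt.ne' ((Nat.gcd_eq_right h).symm.trans hcp)
  have hcc : cls cp * cls cp = cls (r6 S p) := by rw [hcl, hD]
  obtain ⟨x, y, hx, hxy, hpx, hn⟩ := exists_elp7 hb hS hτ hp (by omega)
    (show p ∣ 2 * p * q from ⟨2 * q, by ring⟩) hc1 ht hcc
  have h3 := cond3 hp hq hp16 hq8 hqp hb hS hτ huv h4 hX hnc hco hcc
  obtain ⟨huvq, huvp⟩ := ar_uv hp hq hp16 hq8 huv hv h4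
  obtain ⟨hprod, he8⟩ := ar_M hp hq hp8 hq8 hc1 (t2a6 hb hS ht)
  have h2 := cond2 hp hq hp8 hq8 hqp hb hS hτ hX.ud hnc hco hcpp hcc hprod
  have hn' : x ^ 2 + 2 * (p * q) * y ^ 2 = p * (Ideal.absNorm cp : ℤ) ^ 2 := by
    rw [← hn]
    push_cast
    ring
  have hred := redei7 (M := Ideal.absNorm cp) hp hq hp8 hq8 (u := u) (v := v)
    (by rw [huv]; push_cast; ring) hn' hpx hxy hx hco (by
      rw [Int.isCoprime_iff_gcd_eq_one, Int.gcd_def]
      have e1 : (u * ((p : ℤ) * q)).natAbs = u.natAbs * (p * q) := by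
        rw [Int.natAbs_mul, Int.natAbs_mul, Int.natAbs_natCast, Int.natAbs_natCast]
      rw [e1, Int.natAbs_natCast]
      exact Nat.Coprime.mul_right hc2 (Nat.Coprime.mul_right hcp hcq))
  have hqu := Z6.quart (q := q) (M := Ideal.absNorm cp) hp hp8 hn' hpx hxy hx
  have h2u := ar_two hp hq hp8 hq8 huv
  -- `e8 M = (u v / p)`
  have h5 : e8 (Ideal.absNorm cp) = jacobiSym (u * v) p := by
    rw [h3, huvq, ← mul_assoc]
    split_ifs <;> norm_num
  have h6 : jacobiSym (Ideal.absNorm cp) p = jacobiSym (u * v) p := by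
    rw [h2, mul_one, h5] at hprod
    rcases huvp with h | h <;> rw [h] at hprod ⊢ <;> linarith
  constructor
  · rw [h6] at hqu
    push_cast at hqu
    rw [mul_pow, h2u] at hqu
    rcases huvp with h | h <;> rw [h] at hqu
    · simpa using hqu
    · have h7 := congrArg (fun t => -t) hqu
      simpa using h7
  · rw [he8, hred] at h5
    rw [jacobiSym.mul_left] at h5 huvp
    have hup : jacobiSym u p ≠ 0 := by
      intro h0
      rw [h0, zero_mul] at huvp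
      rcases huvp with h | h <;> norm_num at h
    have h7 : jacobiSym u p * (jacobiSym v p - 1) = 0 := by linear_combination -h5
    rcases mul_eq_zero.1 h7 with h8 | h8
    · exact absurd h8 hup
    · linarith

theorem main_q7 {p q : ℕ} (hp : p.Prime) (hq : q.Prime) (hp8 : p % 8 = 1) (hq8 : q % 8 = 7)
    (hnc : ¬ IsCongruent (2 * p * q)) :
    p % 16 = 1 ∧ (q : ZMod p) ^ ((p - 1) / 4) = 1 ∧
      ∀ u v : ℤ, u ^ 2 - 2 * v ^ 2 = p * q → jacobiSym u p = 1 := by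
  have hp16 : p % 16 = 1 := by
    by_contra h
    have h9 : p % 16 = 9 := by omega
    exact hnc (W14.main14 hp hq h9 hq8)
  obtain ⟨hm8, -⟩ := mod_facts7 hp8 hq8
  refine ⟨hp16, ?_, ?_⟩
  · obtain ⟨u, v, huv⟩ := exists_uv7 hp hq hp8 hq8
    obtain ⟨u', v', hv', h4, huv', -, -⟩ := ar_norm hm8 huv
    exact (core_q7 hp hq hp16 hq8 hnc huv' hv' h4).1
  · intro u v huv
    have h1 : 2 * (u - v) ^ 2 - (2 * v - u) ^ 2 = ((p * q : ℕ) : ℤ) := by
      push_cast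
      linear_combination huv
    obtain ⟨u', v', hv', h4, huv', -, hvv⟩ := ar_norm hm8 h1
    have h2 := (core_q7 hp hq hp16 hq8 hnc huv' hv' h4).2
    rw [ar_conv hp hq hp16 hq8 huv]
    rcases hvv with h | h
    · rw [← h]
      exact h2
    · have h3 : u - v = -1 * v' := by rw [h]; ring
      rw [h3, jacobiSym.mul_left, h2, mul_one,
        jacobiSym.at_neg_one (Nat.odd_iff.2 (by omega)), ZMod.χ₄_nat_one_mod_four (by omega)]

end Pool.Agent.Work.MP_8efaaa_nt.Q7
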